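import Pool.Agent.H29.ChMain

/-!
Asymptotic form of the lower bound for dag-like protocols with real threshold nodes.
-/

open Finset Filter

namespace Pool.Agent.H29.Ch

open Pool.Agent.H29.Lift hiding St side_step closure step Good EX EX_mono EX_card dag_bound

set_option linter.unusedSectionVars false

theorem log_pow_le (C : ℝ) (e : ℕ) (r : ℝ) (hr : 0 < r) :
    ∃ m₀ : ℕ, ∀ m : ℕ, m₀ ≤ m → C * (Real.log m) ^ e ≤ (m : ℝ) ^ r := by
  have h1 := isLittleO_log_rpow_rpow_atTop (e : ℝ) hr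
  have h2 := h1.bound (show (0 : ℝ) < 1 / (|C| + 1) by positivity)
  have h3 := (tendsto_natCast_atTop_atTop (R := ℝ)).eventually h2
  rw [eventually_atTop] at h3
  obtain ⟨m₀, hm₀⟩ := h3
  refine ⟨m₀, fun m hm => ?_⟩
  have h4 := hm₀ m hm
  rw [Real.rpow_natCast, Real.norm_eq_abs, Real.norm_eq_abs] at h4
  have h5 : |(m : ℝ) ^ r| = (m : ℝ) ^ r := abs_of_nonneg (by positivity)
  rw [h5] at h4
  have h6 : (0 : ℝ) ≤ (m : ℝ) ^ r := by positivity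
  calc C * (Real.log m) ^ e ≤ |C * (Real.log m) ^ e| := le_abs_self _
    _ = |C| * |(Real.log m) ^ e| := abs_mul _ _
    _ ≤ |C| * (1 / (|C| + 1) * (m : ℝ) ^ r) := mul_le_mul_of_nonneg_left h4 (abs_nonneg _)
    _ = (|C| / (|C| + 1)) * (m : ℝ) ^ r := by ring
    _ ≤ 1 * (m : ℝ) ^ r := by
        apply mul_le_mul_of_nonneg_right _ h6
        rw [div_le_one (by positivity)]
        linarith
    _ = (m : ℝ) ^ r := one_mul _

variable {E : Type} [Fintype E] [DecidableEq E]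

/-- the constants; e is the bias parameter -/
noncomputable def C1 (e : ℝ) (N : ℕ) : ℝ :=
  8 / e ^ 2 * (Real.log 4 + 2 * N + Real.log (N * 2 ^ N) + 1) + 1

noncomputable def Qm (e : ℝ) (N m : ℕ) : ℕ :=
  ⌈8 / e ^ 2 * (Real.log (4 * (m : ℝ) ^ (2 * N)) + Real.log (N * 2 ^ N) + 1)⌉₊

noncomputable def CL (N : ℕ) : ℝ := 2 ^ (N + 1) * (2 * kap N) * 2 ^ (2 * N + 4)

theorem log_const_nonneg {N : ℕ} (hN : 1 ≤ N) : 0 ≤ Real.log ((N : ℝ) * 2 ^ N) := by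
  apply Real.log_nonneg
  have h1 : (1 : ℝ) ≤ N := by exact_mod_cast hN
  have h2 : (1 : ℝ) ≤ 2 ^ N := one_le_pow₀ (by norm_num)
  nlinarith

theorem log4m {N m : ℕ} (hm : 1 ≤ m) :
    Real.log (4 * (m : ℝ) ^ (2 * N)) = Real.log 4 + 2 * N * Real.log m := by
  have h1 : (0 : ℝ) < m := by exact_mod_cast hm
  rw [Real.log_mul (by norm_num) (by positivity), Real.log_pow]
  push_cast; ring

theorem Qm_pos {e : ℝ} (he : 0 < e) {N m : ℕ} (hN : 1 ≤ N) (hm : 1 ≤ m) : 0 < Qm e N m := by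
  unfold Qm
  rw [Nat.ceil_pos]
  apply mul_pos (by positivity)
  rw [log4m hm]
  have h1 := log_const_nonneg hN
  have h2 : 0 ≤ Real.log 4 := Real.log_nonneg (by norm_num)
  have h3 : 0 ≤ Real.log (m : ℝ) := Real.log_natCast_nonneg _
  have h4 : 0 ≤ 2 * (N : ℝ) * Real.log m := by positivity
  linarith

theorem Qm_le {e : ℝ} (he : 0 < e) {N m : ℕ} (hN : 1 ≤ N) (hm : 1 ≤ m)
    (hl : 1 ≤ Real.log m) : (Qm e N m : ℝ) ≤ C1 e N * Real.log m := by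
  have h1 := log_const_nonneg hN
  have h2 : 0 ≤ Real.log 4 := Real.log_nonneg (by norm_num)
  have hc : 0 < 8 / e ^ 2 := by positivity
  have h3 : (Qm e N m : ℝ) ≤ 8 / e ^ 2 * (Real.log (4 * (m : ℝ) ^ (2 * N)) +
      Real.log (N * 2 ^ N) + 1) + 1 := by
    unfold Qm
    apply (Nat.ceil_lt_add_one _).le
    apply mul_nonneg hc.le
    rw [log4m hm]
    have h4 : 0 ≤ 2 * (N : ℝ) * Real.log m := by positivity
    linarith
  rw [log4m hm] at h3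
  unfold C1
  have h5 : Real.log 4 + 2 * N * Real.log m + Real.log (N * 2 ^ N) + 1 ≤
      (Real.log 4 + 2 * N + Real.log (N * 2 ^ N) + 1) * Real.log m := by
    nlinarith
  have h6 := mul_le_mul_of_nonneg_left h5 hc.le
  nlinarith

theorem pseudo_cond {e : ℝ} (he : 0 < e) {N m : ℕ} (hN : 1 ≤ N) (hm : 1 ≤ m) :
    (N : ℝ) * 2 ^ N * (4 * (m : ℝ) ^ (2 * N)) ^ (Qm e N m) *
      Real.exp (-(e ^ 2 * (Qm e N m) ^ 2 / 8)) < 1 := by
  have hmr : (0 : ℝ) < m := by exact_mod_cast hm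
  have hNr : (0 : ℝ) < N := by exact_mod_cast hN
  have hQ := Qm_pos he hN hm
  have hQr : (1 : ℝ) ≤ Qm e N m := by exact_mod_cast hQ
  have hA : (0 : ℝ) < (N : ℝ) * 2 ^ N := by positivity
  have hB : (0 : ℝ) < 4 * (m : ℝ) ^ (2 * N) := by positivity
  set A := Real.log ((N : ℝ) * 2 ^ N) with hAdef
  set B := Real.log (4 * (m : ℝ) ^ (2 * N)) with hBdef
  have hA0 : 0 ≤ A := log_const_nonneg hN
  have h1 : (N : ℝ) * 2 ^ N = Real.exp A := (Real.exp_log hA).symm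
  have h2 : (4 * (m : ℝ) ^ (2 * N)) ^ (Qm e N m) = Real.exp (Qm e N m * B) := by
    rw [← Real.exp_log (pow_pos hB (Qm e N m)), Real.log_pow]
  rw [h1, h2, ← Real.exp_add, ← Real.exp_add, Real.exp_lt_one_iff]
  have h3 : 8 / e ^ 2 * (B + A + 1) ≤ Qm e N m := Nat.le_ceil _
  have hc : 0 < 8 / e ^ 2 := by positivity
  have h4 : e ^ 2 * (Qm e N m : ℝ) ^ 2 / 8 = Qm e N m * (Qm e N m / (8 / e ^ 2)) := by
    field_simp
  have h5 : B + A + 1 ≤ Qm e N m / (8 / e ^ 2) := by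
    rw [le_div_iff₀ hc]; linarith
  have h6 : (Qm e N m : ℝ) * (B + A + 1) ≤ Qm e N m * (Qm e N m / (8 / e ^ 2)) :=
    mul_le_mul_of_nonneg_left h5 (by positivity)
  rw [h4]
  nlinarith

theorem lift_asymp {w t₀ D : ℕ} {H : Finset E → (E → Bool) → Prop} (hH : Adv H w)
    (hD : 4 * D ≤ w) (hDt : 2 * D + t₀ ≤ w) (hE : 1 ≤ Fintype.card E) (ε : ℝ) (hε : 0 < ε) :
    ∃ m₀ : ℕ, 1 ≤ m₀ ∧ ∀ m : ℕ, m₀ ≤ m → ∃ g : Gd E m, ∀ (n : ℕ) (a b : ℕ → Pt E m → ℝ),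
      (∀ i < n, (∃ K : Finset E, #K ≤ t₀ ∧ ∀ x y, a i x < b i y → ¬ H K (gv g x y)) ∨
        (∃ j < i, ∃ l < i, ∀ x y, a i x < b i y → (a j x < b j y ∨ a l x < b l y))) →
      (∃ r < n, ∀ x y, a r x < b r y) →
      (m : ℝ) ^ ((D : ℝ) + 1 - ε) ≤ n := by
  classical
  set N := Fintype.card E with hN
  have hNr : (1 : ℝ) ≤ N := by exact_mod_cast hE
  -- constants
  set η : ℝ := (1 / 2 : ℝ) ^ (N + 1) with hη
  have hη0 : 0 < η := by positivity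
  have hη1 : η ≤ 1 := pow_le_one₀ (by norm_num) (by norm_num)
  have he : 0 < η / 2 := by positivity
  set ε' : ℝ := ε / (4 * (D + 1)) with hε'
  have hε'0 : 0 < ε' := by positivity
  set tm : ℕ := ⌈N / ε'⌉₊ + 1 with htm
  have htm1 : (N : ℝ) < ε' * tm := by
    have h1 : (N : ℝ) / ε' ≤ ⌈N / ε'⌉₊ := Nat.le_ceil _
    rw [div_le_iff₀ hε'0] at h1
    rw [htm]
    push_cast
    nlinarith
  set c : ℝ := C1 (η / 2) N with hc
  have hC1 : 1 ≤ c := by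
    rw [hc]
    unfold C1
    have h1 := log_const_nonneg hE
    have h2 : 0 ≤ Real.log 4 := Real.log_nonneg (by norm_num)
    have h3 : 0 ≤ 8 / (η / 2) ^ 2 * (Real.log 4 + 2 * N + Real.log (N * 2 ^ N) + 1) :=
      mul_nonneg (by positivity) (by positivity)
    linarith
  have hkap1 : (1 : ℝ) ≤ kap N := by
    have h3 : 0 < kap N := by unfold kap; positivity
    exact_mod_cast h3
  have hCL : 1 ≤ CL N := by
    unfold CL
    have h1 : (1 : ℝ) ≤ 2 ^ (N + 1) := one_le_pow₀ (by norm_num)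
    have h2 : (1 : ℝ) ≤ 2 ^ (2 * N + 4) := one_le_pow₀ (by norm_num)
    have h5 : (1 : ℝ) ≤ 2 ^ (N + 1) * (2 * kap N) := by nlinarith
    nlinarith
  have hlogη : 0 < Real.log (1 + η / 4) := Real.log_pos (by linarith)
  set CJ : ℝ := N / Real.log (1 + η / 4) + 2 with hCJ
  have hCJ0 : 0 < CJ := by positivity
  obtain ⟨m₁, hm₁⟩ := log_pow_le (2 * ((N * CL N * c ^ N * 4 ^ tm) ^ (D + 1) *
    (4 ^ N * (CJ * c ^ N) * 4 ^ tm) ^ N * 4 ^ tm)) (N * (D + 1) + (N + 1) * N) (ε / 2)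
    (by positivity)
  obtain ⟨m₂, hm₂⟩ := log_pow_le (2 * (CL N * c ^ N)) N 1 (by norm_num)
  refine ⟨max 3 (max m₁ m₂), by simp, ?_⟩
  intro m hm
  have hm3 : 3 ≤ m := le_trans (le_max_left _ _) hm
  have hmm₁ : m₁ ≤ m := le_trans ((le_max_left _ _).trans (le_max_right _ _)) hm
  have hmm₂ : m₂ ≤ m := le_trans ((le_max_right _ _).trans (le_max_right _ _)) hm
  have hm1 : 1 ≤ m := by omega
  have hNeZero : NeZero m := ⟨by omega⟩
  have hmr : (0 : ℝ) < m := by exact_mod_cast hm1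
  have hmr1 : (1 : ℝ) < m := by
    have : (3 : ℝ) ≤ m := by exact_mod_cast hm3
    linarith
  set ℓ := Real.log (m : ℝ) with hℓ
  have hℓ1 : 1 ≤ ℓ := by
    rw [hℓ, Real.le_log_iff_exp_le hmr]
    have h1 : Real.exp 1 < 3 := by have := Real.exp_one_lt_d9; linarith
    have h2 : (3 : ℝ) ≤ m := by exact_mod_cast hm3
    linarith
  have hpse : ∃ g : Gd E m, Pseudo g (η / 2) (Qm (η / 2) N m) :=
    exists_pseudo (Qm (η / 2) N m) _ he (pseudo_cond he hE hm1)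
  obtain ⟨g, hg⟩ := hpse
  refine ⟨g, ?_⟩
  intro n a b hnode hroot
  set Q := Qm (η / 2) N m with hQdef
  have hQpos : 0 < Q := Qm_pos he hE hm1
  have hQr : (1 : ℝ) ≤ Q := by exact_mod_cast hQpos
  have hQle : (Q : ℝ) ≤ c * ℓ := Qm_le he hE hm1 hℓ1
  have hΛ₀ : 2 * (Q : ℝ) < η / 2 * (2 ^ (N + 4) * Q) := by
    have : η / 2 * (2 ^ (N + 4) * Q) = 4 * Q := by
      rw [hη, show N + 4 = (N + 1) + 3 by ring, pow_add 2 (N + 1) 3, one_div, inv_pow]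
      field_simp
      norm_num
    rw [this]; linarith
  have hG := gadProp_of_pseudo he hQpos hg hΛ₀
  have hG' := gadProp_of_pseudo he hQpos hg.sw hΛ₀
  set Γ : ℝ := (m : ℝ) ^ ε' with hΓ
  have hΓ1 : 1 ≤ Γ := Real.one_le_rpow hmr1.le hε'0.le
  have hΓ0 : 0 < Γ := by linarith
  set Λ : ℝ := Γ * (CL N * (Q : ℝ) ^ N) with hΛ
  have hΛΓ : Λ / Γ = CL N * (Q : ℝ) ^ N := by rw [hΛ]; field_simp
  have hQN : (1 : ℝ) ≤ (Q : ℝ) ^ N := one_le_pow₀ hQr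
  have hkap : (0 : ℝ) < kap N := by linarith
  have hΛL : Λ / Γ / 2 ^ (N + 1) / (2 * kap N) = 2 ^ (2 * N + 4) * (Q : ℝ) ^ N := by
    rw [hΛΓ]; unfold CL; field_simp
  have hQNle : (Q : ℝ) ^ N ≤ c ^ N * ℓ ^ N := by
    rw [← mul_pow]
    exact pow_le_pow_left₀ (by positivity) hQle N
  have hΛpos : 0 < Λ := by rw [hΛ]; positivity
  set J : ℕ := ⌈N * ℓ / Real.log (1 + η / 4)⌉₊ + 1 with hJ
  have hJle : (J : ℝ) ≤ CJ * ℓ := by
    have h1 : (⌈N * ℓ / Real.log (1 + η / 4)⌉₊ : ℝ) < N * ℓ / Real.log (1 + η / 4) + 1 :=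
      Nat.ceil_lt_add_one (by positivity)
    have h2 : (N / Real.log (1 + η / 4) + 2) * ℓ = N * ℓ / Real.log (1 + η / 4) + 2 * ℓ := by ring
    rw [hJ, hCJ, h2]
    push_cast
    linarith
  have hJ1 : (1 : ℝ) ≤ J := by rw [hJ]; push_cast; linarith [Nat.cast_nonneg (α := ℝ) ⌈N * ℓ / Real.log (1 + η / 4)⌉₊]
  have hJbig : (m : ℝ) ^ N < (1 + η / 4) ^ J := by
    rw [← Real.log_lt_log_iff (by positivity) (by positivity), Real.log_pow, Real.log_pow]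
    have h1 : N * ℓ / Real.log (1 + η / 4) ≤ ⌈N * ℓ / Real.log (1 + η / 4)⌉₊ := Nat.le_ceil _
    rw [div_le_iff₀ hlogη] at h1
    rw [hJ]
    push_cast
    nlinarith
  have htmbig : (m : ℝ) ^ N < Γ ^ tm := by
    rw [hΓ, ← Real.rpow_natCast, ← Real.rpow_natCast, ← Real.rpow_mul hmr.le]
    exact Real.rpow_lt_rpow_of_exponent_lt hmr1 htm1
  have h4tm : (1 : ℝ) ≤ 4 ^ tm := one_le_pow₀ (by norm_num)
  have h4N : (1 : ℝ) ≤ 4 ^ N := one_le_pow₀ (by norm_num)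
  set AH : ℝ := N * (Γ * Λ) * 4 ^ tm with hAH
  set AS : ℝ := 4 ^ N * (J * ((Q ^ N : ℕ) : ℝ)) * 4 ^ tm with hAS
  have hΛ1 : 1 ≤ Λ := by
    rw [hΛ]
    have : 1 ≤ CL N * (Q : ℝ) ^ N := by nlinarith
    nlinarith
  have hAH1 : 1 ≤ AH := by
    rw [hAH]
    have h1 : 1 ≤ Γ * Λ := by nlinarith
    have h2 : 1 ≤ N * (Γ * Λ) := by nlinarith
    nlinarith
  have hAS1 : 1 ≤ AS := by
    rw [hAS]
    push_cast
    have h1 : 1 ≤ (J : ℝ) * (Q : ℝ) ^ N := by nlinarith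
    have h2 : 1 ≤ 4 ^ N * ((J : ℝ) * (Q : ℝ) ^ N) := by nlinarith
    nlinarith
  have hbound := dag_bound (t₀ := t₀) (n := n) (a := a) (b := b) (Λ := Λ) (Γ := Γ) (tm := tm)
    (J := J) (AH := AH) (AS := AS) (η := η) (Λ₀ := 2 ^ (N + 4) * Q) (T := Q ^ N)
    hH hD hDt hG hG' (by
      rw [hη, one_div, inv_pow, ← hN, pow_succ]
      field_simp
      norm_num) hη0 hη1 (Nat.one_le_pow _ _ hQpos) hΛpos hΓ1
    (by
      rw [← hN, hΛL]; push_cast; exact le_rfl)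
    (by
      rw [← hN, hΛL]
      have h1 : (2 : ℝ) ^ (N + 4) ≤ 2 ^ (2 * N + 4) :=
        pow_le_pow_right₀ (by norm_num) (by omega)
      have h2 : (Q : ℝ) ≤ (Q : ℝ) ^ N := by
        calc (Q : ℝ) = (Q : ℝ) ^ 1 := (pow_one _).symm
          _ ≤ (Q : ℝ) ^ N := pow_le_pow_right₀ hQr hE
      exact mul_le_mul h1 h2 (by positivity) (by positivity))
    (by
      have h1 := hm₂ m hmm₂
      rw [Real.rpow_one] at h1
      rw [hΛΓ]
      calc 2 * (CL N * (Q : ℝ) ^ N) ≤ 2 * (CL N * (c ^ N * ℓ ^ N)) := by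
            apply mul_le_mul_of_nonneg_left _ (by norm_num)
            exact mul_le_mul_of_nonneg_left hQNle (by linarith)
        _ = 2 * (CL N * c ^ N) * ℓ ^ N := by ring
        _ ≤ m := h1)
    htmbig hJbig le_rfl hAH1 le_rfl hAS1 hnode hroot
  rw [← hN] at hbound
  have hΓsq : Γ ^ (2 * (D + 1)) = (m : ℝ) ^ (ε / 2) := by
    rw [hΓ, ← Real.rpow_natCast, ← Real.rpow_mul hmr.le]
    congr 1
    rw [hε']
    push_cast
    field_simp
    ring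
  have hF : 2 * (AH ^ (D + 1) * AS ^ N * 4 ^ tm) ≤ (m : ℝ) ^ ε := by
    have h1 : AH ^ (D + 1) ≤ Γ ^ (2 * (D + 1)) * (N * CL N * c ^ N * 4 ^ tm * ℓ ^ N) ^ (D + 1) := by
      rw [pow_mul, ← mul_pow]
      apply pow_le_pow_left₀ (by positivity)
      rw [hAH, hΛ]
      calc N * (Γ * (Γ * (CL N * (Q : ℝ) ^ N))) * 4 ^ tm
          = Γ ^ 2 * (N * CL N * 4 ^ tm) * (Q : ℝ) ^ N := by ring
        _ ≤ Γ ^ 2 * (N * CL N * 4 ^ tm) * (c ^ N * ℓ ^ N) :=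
            mul_le_mul_of_nonneg_left hQNle (by positivity)
        _ = Γ ^ 2 * (N * CL N * c ^ N * 4 ^ tm * ℓ ^ N) := by ring
    have h2 : AS ^ N ≤ (4 ^ N * (CJ * c ^ N) * 4 ^ tm * ℓ ^ (N + 1)) ^ N := by
      apply pow_le_pow_left₀ (by positivity)
      rw [hAS]
      push_cast
      calc 4 ^ N * ((J : ℝ) * (Q : ℝ) ^ N) * 4 ^ tm
          ≤ 4 ^ N * ((CJ * ℓ) * (c ^ N * ℓ ^ N)) * 4 ^ tm := by
            apply mul_le_mul_of_nonneg_right _ (by positivity)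
            apply mul_le_mul_of_nonneg_left _ (by positivity)
            exact mul_le_mul hJle hQNle (by positivity) (by positivity)
        _ = 4 ^ N * (CJ * c ^ N) * 4 ^ tm * ℓ ^ (N + 1) := by ring
    have h3 := hm₁ m hmm₁
    have hCLpos : 0 < CL N := by linarith
    have hcpos : 0 < c := by linarith
    calc 2 * (AH ^ (D + 1) * AS ^ N * 4 ^ tm)
        ≤ 2 * ((Γ ^ (2 * (D + 1)) * (N * CL N * c ^ N * 4 ^ tm * ℓ ^ N) ^ (D + 1)) *
          (4 ^ N * (CJ * c ^ N) * 4 ^ tm * ℓ ^ (N + 1)) ^ N * 4 ^ tm) := by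
          apply mul_le_mul_of_nonneg_left _ (by norm_num)
          apply mul_le_mul_of_nonneg_right _ (by positivity)
          exact mul_le_mul h1 h2 (by positivity) (by positivity)
      _ = Γ ^ (2 * (D + 1)) * (2 * ((N * CL N * c ^ N * 4 ^ tm) ^ (D + 1) *
          (4 ^ N * (CJ * c ^ N) * 4 ^ tm) ^ N * 4 ^ tm) *
          ℓ ^ (N * (D + 1) + (N + 1) * N)) := by
          have e0 : ℓ ^ (N * (D + 1) + (N + 1) * N) = (ℓ ^ N) ^ (D + 1) * (ℓ ^ (N + 1)) ^ N := by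
            rw [pow_add, pow_mul, pow_mul]
          rw [e0, mul_pow (N * CL N * c ^ N * 4 ^ tm) (ℓ ^ N) (D + 1),
            mul_pow (4 ^ N * (CJ * c ^ N) * 4 ^ tm) (ℓ ^ (N + 1)) N]
          ring
      _ ≤ Γ ^ (2 * (D + 1)) * (m : ℝ) ^ (ε / 2) := mul_le_mul_of_nonneg_left h3 (by positivity)
      _ = (m : ℝ) ^ ε := by
          rw [hΓsq, ← Real.rpow_add hmr]
          congr 1
          ring
  have h1 : (m : ℝ) ^ (D + 1) ≤ n * (m : ℝ) ^ ε := by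
    calc (m : ℝ) ^ (D + 1) ≤ 2 * n * (AH ^ (D + 1) * AS ^ N * 4 ^ tm) := hbound.le
      _ = n * (2 * (AH ^ (D + 1) * AS ^ N * 4 ^ tm)) := by ring
      _ ≤ n * (m : ℝ) ^ ε := mul_le_mul_of_nonneg_left hF (by positivity)
  have h2 : (m : ℝ) ^ ((D : ℝ) + 1 - ε) = (m : ℝ) ^ (D + 1) / (m : ℝ) ^ ε := by
    rw [Real.rpow_sub hmr]
    congr 1
    rw [← Real.rpow_natCast]
    push_cast
    rfl
  rw [h2, div_le_iff₀ (by positivity)]
  exact h1

end Pool.Agent.H29.Ch
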