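import Pool.Agent.H29.LiftErr

/-!
Density restoration for chains of sets (sublevel sets of a rank function).
-/

open Finset

namespace Pool.Agent.H29.Ch

open Pool.Agent.H29.Lift

set_option linter.unusedSectionVars false

variable {E : Type} [Fintype E] [DecidableEq E] {m : ℕ}

open Classical in
/-- sublevel set -/
noncomputable def up (rk : Pt E m → ℝ) (Z : Finset (Pt E m)) (θ : ℝ) : Finset (Pt E m) :=
  {x ∈ Z | rk x ≤ θ}

theorem mem_up {rk : Pt E m → ℝ} {Z : Finset (Pt E m)} {θ : ℝ} {x : Pt E m} :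
    x ∈ up rk Z θ ↔ x ∈ Z ∧ rk x ≤ θ := by
  classical
  unfold up
  rw [Finset.mem_filter]

theorem up_subset {rk : Pt E m → ℝ} {Z : Finset (Pt E m)} {θ : ℝ} : up rk Z θ ⊆ Z :=
  fun _ hx => (mem_up.1 hx).1

theorem up_mono {rk : Pt E m → ℝ} {Z : Finset (Pt E m)} {θ θ' : ℝ} (h : θ ≤ θ') :
    up rk Z θ ⊆ up rk Z θ' := fun _ hx => mem_up.2 ⟨(mem_up.1 hx).1, (mem_up.1 hx).2.trans h⟩

/-- parameters -/
structure Par (E : Type) (m : ℕ) where
  g : Gd E m
  η : ℝ
  Λ : ℝ
  Γ : ℝ
  tm : ℕ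
  rk : Pt E m → ℝ

open Classical in
/-- values heavy at some threshold of phase t -/
noncomputable def hv (p : Par E m) (t : ℕ) (Z : Finset (Pt E m)) (I : Finset E) :
    Finset (E × Fin m) :=
  univ.filter (fun e => e.1 ∉ I ∧ ∃ θ, p.Γ ^ t ≤ #(up p.rk Z θ) ∧ #(up p.rk Z θ) < p.Γ ^ (t + 1) ∧
    (#(up p.rk Z θ) : ℝ) < p.Λ * #{x ∈ up p.rk Z θ | x e.1 = e.2})

theorem hv_card (p : Par E m) (hΓ : 1 ≤ p.Γ) (hΛ : 0 < p.Λ) (t : ℕ) (Z : Finset (Pt E m))
    (I : Finset E) : (#(hv p t Z I) : ℝ) ≤ Fintype.card E * (p.Γ * p.Λ) := by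
  classical
  -- the largest set of the phase
  set Et : Finset (Pt E m) := {x ∈ Z | (#(up p.rk Z (p.rk x)) : ℝ) < p.Γ ^ (t + 1)} with hEt
  have hΓt : 0 < p.Γ ^ t := by positivity
  have hsub : ∀ θ, (#(up p.rk Z θ) : ℝ) < p.Γ ^ (t + 1) → up p.rk Z θ ⊆ Et := by
    intro θ hθ x hx
    rw [hEt, Finset.mem_filter]
    refine ⟨up_subset hx, lt_of_le_of_lt ?_ hθ⟩
    exact_mod_cast Finset.card_le_card (up_mono (mem_up.1 hx).2)
  have hEcard : (#Et : ℝ) < p.Γ ^ (t + 1) := by
    by_cases hne : Et.Nonempty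
    · obtain ⟨x, hx, hmax⟩ := Finset.exists_max_image Et p.rk hne
      have h1 : Et ⊆ up p.rk Z (p.rk x) := by
        intro y hy
        rw [mem_up]
        exact ⟨(Finset.mem_filter.1 hy).1, hmax y hy⟩
      have h2 := (Finset.mem_filter.1 hx).2
      exact lt_of_le_of_lt (by exact_mod_cast Finset.card_le_card h1) h2
    · rw [Finset.not_nonempty_iff_eq_empty] at hne
      rw [hne]
      simp
      positivity
  have h1 : hv p t Z I ⊆ (univ : Finset E).biUnion (fun a =>
      ((univ : Finset (Fin m)).filter (fun ξ => (a, ξ) ∈ hv p t Z I)).image (fun ξ => (a, ξ))) := by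
    intro e he
    rw [Finset.mem_biUnion]
    refine ⟨e.1, Finset.mem_univ _, ?_⟩
    rw [Finset.mem_image]
    exact ⟨e.2, Finset.mem_filter.2 ⟨Finset.mem_univ _, he⟩, rfl⟩
  have h2 : ∀ a : E, (#((univ : Finset (Fin m)).filter (fun ξ => (a, ξ) ∈ hv p t Z I)) : ℝ) ≤
      p.Γ * p.Λ := by
    intro a
    set F := (univ : Finset (Fin m)).filter (fun ξ => (a, ξ) ∈ hv p t Z I) with hF
    have h3 : ∀ ξ ∈ F, p.Γ ^ t ≤ p.Λ * #{x ∈ Et | x a = ξ} := by
      intro ξ hξ
      rw [hF, Finset.mem_filter] at hξ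
      unfold hv at hξ
      rw [Finset.mem_filter] at hξ
      obtain ⟨-, -, -, θ, h4, h5, h6⟩ := hξ
      refine h4.trans (h6.le.trans ?_)
      apply mul_le_mul_of_nonneg_left _ hΛ.le
      exact_mod_cast Finset.card_le_card (Finset.filter_subset_filter _ (hsub θ h5))
    have h4 : ∑ ξ ∈ F, (#{x ∈ Et | x a = ξ} : ℝ) ≤ #Et := by
      have h5 : ∑ ξ ∈ F, #{x ∈ Et | x a = ξ} ≤ #Et := by
        rw [← Finset.card_biUnion]
        · apply Finset.card_le_card
          intro x hx
          rw [Finset.mem_biUnion] at hx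
          obtain ⟨ξ, _, hx⟩ := hx
          exact (Finset.mem_filter.1 hx).1
        · intro ξ _ ξ' _ hne
          rw [Function.onFun, Finset.disjoint_left]
          intro x hx hx'
          exact hne ((Finset.mem_filter.1 hx).2.symm.trans (Finset.mem_filter.1 hx').2)
      exact_mod_cast h5
    have h5 : (#F : ℝ) * p.Γ ^ t ≤ p.Λ * #Et := by
      calc (#F : ℝ) * p.Γ ^ t = ∑ ξ ∈ F, p.Γ ^ t := by rw [Finset.sum_const, nsmul_eq_mul]
        _ ≤ ∑ ξ ∈ F, p.Λ * #{x ∈ Et | x a = ξ} := Finset.sum_le_sum h3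
        _ = p.Λ * ∑ ξ ∈ F, (#{x ∈ Et | x a = ξ} : ℝ) := (Finset.mul_sum _ _ _).symm
        _ ≤ p.Λ * #Et := mul_le_mul_of_nonneg_left h4 hΛ.le
    have h6 : (#F : ℝ) * p.Γ ^ t ≤ (p.Γ * p.Λ) * p.Γ ^ t := by
      calc (#F : ℝ) * p.Γ ^ t ≤ p.Λ * #Et := h5
        _ ≤ p.Λ * p.Γ ^ (t + 1) := mul_le_mul_of_nonneg_left hEcard.le hΛ.le
        _ = (p.Γ * p.Λ) * p.Γ ^ t := by ring
    exact le_of_mul_le_mul_right h6 hΓt
  have h3 : (#(hv p t Z I) : ℝ) ≤ ∑ a : E,
      (#((univ : Finset (Fin m)).filter (fun ξ => (a, ξ) ∈ hv p t Z I)) : ℝ) := by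
    have := (Finset.card_le_card h1).trans (Finset.card_biUnion_le.trans
      (Finset.sum_le_sum fun a _ => Finset.card_image_le))
    exact_mod_cast this
  calc (#(hv p t Z I) : ℝ) ≤ _ := h3
    _ ≤ ∑ _a : E, p.Γ * p.Λ := Finset.sum_le_sum fun a _ => h2 a
    _ = Fintype.card E * (p.Γ * p.Λ) := by
      rw [Finset.sum_const, Finset.card_univ, nsmul_eq_mul]

/-- what remains after removing the heavy values of phase t -/
noncomputable def rst (p : Par E m) (t : ℕ) (Z : Finset (Pt E m)) (I : Finset E) :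
    Finset (Pt E m) := {x ∈ Z | ∀ e ∈ hv p t Z I, x e.1 ≠ e.2}

theorem rst_subset {p : Par E m} {t : ℕ} {Z : Finset (Pt E m)} {I : Finset E} :
    rst p t Z I ⊆ Z := Finset.filter_subset _ _

theorem rst_dense (p : Par E m) (hΓ : 1 ≤ p.Γ) (hΛ : 0 < p.Λ) (t : ℕ) (Z : Finset (Pt E m))
    (I : Finset E) (θ : ℝ) (h1 : p.Γ ^ t ≤ #(up p.rk Z θ)) (h2 : #(up p.rk Z θ) < p.Γ ^ (t + 1))
    (h3 : p.Γ ^ t ≤ #(up p.rk (rst p t Z I) θ)) :
    Dense (p.Λ / p.Γ) (up p.rk (rst p t Z I) θ) I := by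
  classical
  intro a ha ξ
  have hΓ0 : 0 < p.Γ := by linarith
  by_cases hξ : (a, ξ) ∈ hv p t Z I
  · have : {x ∈ up p.rk (rst p t Z I) θ | x a = ξ} = ∅ := by
      apply Finset.filter_eq_empty_iff.2
      intro x hx
      have := up_subset hx
      unfold rst at this
      exact (Finset.mem_filter.1 this).2 (a, ξ) hξ
    rw [this]
    simp
  · have h4 : p.Λ * (#{x ∈ up p.rk Z θ | x a = ξ} : ℝ) ≤ #(up p.rk Z θ) := by
      by_contra hc
      push Not at hc
      apply hξ
      unfold hv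
      rw [Finset.mem_filter]
      exact ⟨Finset.mem_univ _, ha, θ, h1, h2, hc⟩
    have h5 : (#{x ∈ up p.rk (rst p t Z I) θ | x a = ξ} : ℝ) ≤
        #{x ∈ up p.rk Z θ | x a = ξ} := by
      have : up p.rk (rst p t Z I) θ ⊆ up p.rk Z θ := by
        intro x hx
        rw [mem_up] at hx ⊢
        exact ⟨rst_subset hx.1, hx.2⟩
      exact_mod_cast Finset.card_le_card (Finset.filter_subset_filter _ this)
    have h6 : p.Λ * (#{x ∈ up p.rk (rst p t Z I) θ | x a = ξ} : ℝ) ≤
        p.Γ * #(up p.rk (rst p t Z I) θ) := by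
      calc p.Λ * (#{x ∈ up p.rk (rst p t Z I) θ | x a = ξ} : ℝ)
          ≤ p.Λ * #{x ∈ up p.rk Z θ | x a = ξ} := mul_le_mul_of_nonneg_left h5 hΛ.le
        _ ≤ #(up p.rk Z θ) := h4
        _ ≤ p.Γ ^ (t + 1) := h2.le
        _ = p.Γ * p.Γ ^ t := by ring
        _ ≤ p.Γ * #(up p.rk (rst p t Z I) θ) := mul_le_mul_of_nonneg_left h3 hΓ0.le
    rw [div_mul_eq_mul_div, div_le_iff₀ hΓ0]
    linarith

variable [NeZero m]

open Classical in
/-- special conditions along the chain -/
noncomputable def sps (p : Par E m) (Z : Finset (Pt E m)) (I : Finset E) :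
    Finset (Finset E × Pt E m × (E → Bool)) :=
  univ.filter (fun q => q.1.Nonempty ∧ Disjoint q.1 I ∧
    ∃ θ, Dense (p.Λ / p.Γ) (up p.rk Z θ) I ∧ q.2.1 ∈ badRep p.g p.η (up p.rk Z θ) q.1)

theorem bad_transfer {g : Gd E m} {η : ℝ} (hη : 0 < η) (hη1 : η ≤ 1) {A B : Finset (Pt E m)}
    (hAB : A ⊆ B) (hcard : (#B : ℝ) ≤ (1 + η / 4) * #A) {S : Finset E} {y : Pt E m}
    (h : IsBad g η A S y) : IsBad g (η / 2) B S y := by
  classical
  unfold IsBad at *
  have h1 : ∑ x ∈ B, chi g S x y = ∑ x ∈ A, chi g S x y + ∑ x ∈ B \ A, chi g S x y := by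
    rw [add_comm]
    exact (Finset.sum_sdiff hAB).symm
  have h2 : |∑ x ∈ B \ A, chi g S x y| ≤ #B - #A := by
    calc |∑ x ∈ B \ A, chi g S x y| ≤ ∑ x ∈ B \ A, |chi g S x y| := Finset.abs_sum_le_sum_abs _ _
      _ = #(B \ A) := by simp [abs_chi]
      _ = #B - #A := by
        have := Finset.card_sdiff_add_card_eq_card hAB
        have h3 : (#(B \ A) : ℝ) + #A = #B := by exact_mod_cast this
        linarith
  have h3 : |∑ x ∈ A, chi g S x y| ≤ |∑ x ∈ B, chi g S x y| + |∑ x ∈ B \ A, chi g S x y| := by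
    have : ∑ x ∈ A, chi g S x y = ∑ x ∈ B, chi g S x y - ∑ x ∈ B \ A, chi g S x y := by
      rw [h1]; ring
    rw [this]
    exact abs_sub _ _
  have h4 : (0 : ℝ) ≤ #A := by positivity
  have h5 : (#B : ℝ) - #A ≤ η / 4 * #A := by linarith
  have h6 : η / 2 * (#B : ℝ) ≤ η / 2 * ((1 + η / 4) * #A) :=
    mul_le_mul_of_nonneg_left hcard (by linarith)
  have h7 : η / 2 * ((1 + η / 4) * #A) ≤ 3 * η / 4 * #A := by
    have h8 : η / 2 * (1 + η / 4) ≤ 3 * η / 4 := by nlinarith
    calc η / 2 * ((1 + η / 4) * #A) = (η / 2 * (1 + η / 4)) * #A := by ring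
      _ ≤ 3 * η / 4 * #A := mul_le_mul_of_nonneg_right h8 h4
  linarith

theorem sps_card {p : Par E m} {Λ₀ : ℝ} {T J : ℕ} (hη : 0 < p.η) (hη1 : p.η ≤ 1)
    (hG : GadProp p.g (p.η / 2) Λ₀ T) (hΛ : Λ₀ ≤ p.Λ / p.Γ)
    (hJ : (m : ℝ) ^ (Fintype.card E) < (1 + p.η / 4) ^ J) (Z : Finset (Pt E m)) (I : Finset E) :
    #(sps p Z I) ≤ 4 ^ (Fintype.card E) * (J * T) := by
  classical
  set δ : ℝ := p.η / 4 with hδ
  -- dense members of the chain in subphase j
  let fam : ℕ → Finset (Finset (Pt E m)) := fun j =>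
    univ.filter (fun A => (∃ θ, A = up p.rk Z θ) ∧ Dense (p.Λ / p.Γ) A I ∧
      (1 + δ) ^ j ≤ #A ∧ (#A : ℝ) < (1 + δ) ^ (j + 1))
  have hnest : ∀ j, ∀ A ∈ fam j, ∀ B ∈ fam j, #A ≤ #B → A ⊆ B := by
    intro j A hA B hB hAB
    obtain ⟨-, ⟨θ, rfl⟩, -⟩ := Finset.mem_filter.1 hA
    obtain ⟨-, ⟨θ', rfl⟩, -⟩ := Finset.mem_filter.1 hB
    rcases le_total θ θ' with h | h
    · exact up_mono h
    · exact (Finset.eq_of_subset_of_card_le (up_mono h) hAB).symm.subset
  let top : ℕ → Finset (Pt E m) := fun j =>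
    if h : (fam j).Nonempty then Classical.choose (Finset.exists_max_image (fam j) (fun A => #A) h)
    else ∅
  have htop : ∀ j, (fam j).Nonempty → top j ∈ fam j ∧ ∀ A ∈ fam j, #A ≤ #(top j) := by
    intro j h
    have := Classical.choose_spec (Finset.exists_max_image (fam j) (fun A => #A) h)
    simp only [top, dif_pos h]
    exact this
  have htopd : ∀ j, Dense Λ₀ (top j) I := by
    intro j
    by_cases h : (fam j).Nonempty
    · exact dense_mono hΛ (Finset.mem_filter.1 (htop j h).1).2.2.1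
    · simp only [top, dif_neg h]
      intro a _ ξ
      simp
  have h1 : sps p Z I ⊆ ((univ : Finset (Finset E)).filter
      (fun S => S.Nonempty ∧ Disjoint S I)).biUnion (fun S =>
      (((range J).biUnion (fun j => badRep p.g (p.η / 2) (top j) S)) ×ˢ
        (univ : Finset (E → Bool))).image (fun r => (S, r.1, r.2))) := by
    intro q hq
    unfold sps at hq
    rw [Finset.mem_filter] at hq
    obtain ⟨-, hq1, hq2, θ, hθd, hθb⟩ := hq
    rw [Finset.mem_biUnion]
    refine ⟨q.1, Finset.mem_filter.2 ⟨Finset.mem_univ _, hq1, hq2⟩, ?_⟩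
    rw [Finset.mem_image]
    refine ⟨(q.2.1, q.2.2), ?_, rfl⟩
    rw [Finset.mem_product]
    refine ⟨?_, Finset.mem_univ _⟩
    rw [Finset.mem_biUnion]
    have hbad := isBad_of_mem hθb
    have hpos : (0 : ℝ) < #(up p.rk Z θ) := by
      by_contra hc
      have h0 : up p.rk Z θ = ∅ := by
        rw [← Finset.card_eq_zero]
        by_contra h0
        exact hc (by exact_mod_cast Nat.pos_of_ne_zero h0)
      rw [h0] at hbad
      simp [IsBad] at hbad
    have hone : (1 : ℝ) ≤ #(up p.rk Z θ) := by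
      have : 0 < #(up p.rk Z θ) := by exact_mod_cast hpos
      exact_mod_cast this
    -- subphase
    have hδpos : 1 < 1 + δ := by rw [hδ]; linarith
    obtain ⟨j, hj1, hj2⟩ := exists_nat_pow_near hone hδpos
    have hjJ : j < J := by
      by_contra hc
      push Not at hc
      have h2 : (1 + δ) ^ J ≤ (1 + δ) ^ j := pow_le_pow_right₀ hδpos.le hc
      have h3 : (#(up p.rk Z θ) : ℝ) ≤ (m : ℝ) ^ (Fintype.card E) := by
        have := Finset.card_le_univ (up p.rk Z θ)
        have h4 : #(up p.rk Z θ) ≤ m ^ (Fintype.card E) := by simpa using this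
        exact_mod_cast h4
      linarith
    have hmem : up p.rk Z θ ∈ fam j := by
      rw [Finset.mem_filter]
      exact ⟨Finset.mem_univ _, ⟨θ, rfl⟩, hθd, hj1, hj2⟩
    have hne : (fam j).Nonempty := ⟨_, hmem⟩
    obtain ⟨ht1, ht2⟩ := htop j hne
    refine ⟨j, Finset.mem_range.2 hjJ, ?_⟩
    have hsub := hnest j _ hmem _ ht1 (ht2 _ hmem)
    have hc : (#(top j) : ℝ) ≤ (1 + δ) * #(up p.rk Z θ) := by
      have h5 := (Finset.mem_filter.1 ht1).2.2.2.2
      rw [pow_succ] at h5
      have h6 : (1 + δ) ^ j * (1 + δ) ≤ (1 + δ) * #(up p.rk Z θ) := by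
        rw [mul_comm]
        exact mul_le_mul_of_nonneg_left hj1 (by linarith)
      linarith
    have h7 := mem_badRep (bad_transfer hη hη1 hsub hc hbad)
    have h8 : nrm q.1 q.2.1 = q.2.1 := by
      unfold badRep at hθb
      rw [Finset.mem_image] at hθb
      obtain ⟨y, _, hy⟩ := hθb
      rw [← hy]
      ext1 a
      unfold nrm
      by_cases ha : a ∈ q.1 <;> simp [ha]
    rw [h8] at h7
    exact h7
  have h2 := (Finset.card_le_card h1).trans Finset.card_biUnion_le
  have h3 : ∀ S ∈ (univ : Finset (Finset E)).filter (fun S => S.Nonempty ∧ Disjoint S I),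
      #((((range J).biUnion (fun j => badRep p.g (p.η / 2) (top j) S)) ×ˢ
        (univ : Finset (E → Bool))).image (fun r => (S, r.1, r.2))) ≤
        J * T * 2 ^ (Fintype.card E) := by
    intro S hS
    rw [Finset.mem_filter] at hS
    refine Finset.card_image_le.trans ?_
    rw [Finset.card_product, Finset.card_univ, Fintype.card_fun, Fintype.card_bool]
    apply Nat.mul_le_mul_right
    refine Finset.card_biUnion_le.trans ?_
    calc ∑ j ∈ range J, #(badRep p.g (p.η / 2) (top j) S) ≤ ∑ _j ∈ range J, T := by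
          apply Finset.sum_le_sum
          intro j _
          apply hG _ S hS.2.1
          intro a ha ξ
          exact htopd j a (Finset.disjoint_left.1 hS.2.2 ha) ξ
      _ = J * T := by simp
  have h4 := Finset.sum_le_sum h3
  rw [Finset.sum_const, smul_eq_mul] at h4
  have h5 : #((univ : Finset (Finset E)).filter (fun S => S.Nonempty ∧ Disjoint S I)) ≤
      2 ^ (Fintype.card E) := by
    refine (Finset.card_filter_le _ _).trans ?_
    rw [Finset.card_univ, Fintype.card_finset]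
  calc #(sps p Z I) ≤ _ := h2
    _ ≤ _ := h4
    _ ≤ 2 ^ (Fintype.card E) * (J * T * 2 ^ (Fintype.card E)) := Nat.mul_le_mul_right _ h5
    _ = 4 ^ (Fintype.card E) * (J * T) := by
      rw [show 4 = 2 * 2 by norm_num, mul_pow]; ring

/-- error sets for chains: f further coordinates may be fixed, s further special conditions
imposed, and thresholds with fewer than Γ ^ t points are considered -/
noncomputable def er (p : Par E m) : ℕ → ℕ → ℕ → Finset (Pt E m) → Finset E → Finset (Pt E m)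
  | 0, _, _, Z, _ => Z
  | _ + 1, _, 0, _, _ => ∅
  | f + 1, 0, t + 1, Z, I => (er p (f + 1) 0 t Z I ∪ er p (f + 1) 0 t (rst p t Z I) I) ∪
      ((hv p t Z I).biUnion fun e => er p f 0 p.tm {x ∈ Z | x e.1 = e.2} (insert e.1 I))
  | f + 1, s + 1, t + 1, Z, I =>
      ((er p (f + 1) (s + 1) t Z I ∪ er p (f + 1) (s + 1) t (rst p t Z I) I) ∪
      ((hv p t Z I).biUnion fun e => er p f (s + 1) p.tm {x ∈ Z | x e.1 = e.2} (insert e.1 I))) ∪
      ((sps p (rst p t Z I) I).biUnion fun q =>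
        er p (f + 1) s p.tm (spec p.g (rst p t Z I) q.1 q.2.1 q.2.2) I)
  termination_by f s t => (f + s, t)

theorem er_card {p : Par E m} {Λ₀ AH AS : ℝ} {T J : ℕ} (hη : 0 < p.η) (hη1 : p.η ≤ 1)
    (hG : GadProp p.g (p.η / 2) Λ₀ T) (hΛ₀ : Λ₀ ≤ p.Λ / p.Γ) (hΓ : 1 ≤ p.Γ) (hΛ : 0 < p.Λ)
    (hJ : (m : ℝ) ^ (Fintype.card E) < (1 + p.η / 4) ^ J)
    (hAH : Fintype.card E * (p.Γ * p.Λ) * 4 ^ p.tm ≤ AH) (hAH1 : 1 ≤ AH)
    (hAS : 4 ^ (Fintype.card E) * (J * T) * 4 ^ p.tm ≤ AS) (hAS1 : 1 ≤ AS) :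
    ∀ n f s : ℕ, f + s ≤ n → ∀ (t : ℕ) (Z : Finset (Pt E m)) (I : Finset E), Fixed Z I →
      (#(er p f s t Z I) : ℝ) * (m : ℝ) ^ (#I + f) ≤
        AH ^ f * AS ^ s * 4 ^ t * (m : ℝ) ^ (Fintype.card E) := by
  classical
  intro n
  induction n with
  | zero =>
    intro f s hfs t Z I hZ
    have hf : f = 0 := by omega
    have hs : s = 0 := by omega
    subst hf; subst hs
    simp only [er, pow_zero, one_mul, add_zero]
    have h1 : (#Z : ℝ) * (m : ℝ) ^ #I ≤ (m : ℝ) ^ (Fintype.card E) := by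
      exact_mod_cast hZ.card_le
    have h2 : (1 : ℝ) ≤ 4 ^ t := one_le_pow₀ (by norm_num)
    have h3 : 0 ≤ (m : ℝ) ^ (Fintype.card E) := by positivity
    nlinarith
  | succ n ih =>
    intro f s hfs
    -- heavy contribution
    have hheavy : ∀ f' s' : ℕ, f' + s' ≤ n → ∀ (t : ℕ) (Z : Finset (Pt E m)) (I : Finset E),
        Fixed Z I →
        (#((hv p t Z I).biUnion fun e =>
          er p f' s' p.tm {x ∈ Z | x e.1 = e.2} (insert e.1 I)) : ℝ) * (m : ℝ) ^ (#I + (f' + 1)) ≤
        AH ^ (f' + 1) * AS ^ s' * (m : ℝ) ^ (Fintype.card E) := by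
      intro f' s' h' t Z I hZ
      have h1 : (#((hv p t Z I).biUnion fun e =>
          er p f' s' p.tm {x ∈ Z | x e.1 = e.2} (insert e.1 I)) : ℝ) ≤
          ∑ e ∈ hv p t Z I, (#(er p f' s' p.tm {x ∈ Z | x e.1 = e.2} (insert e.1 I)) : ℝ) := by
        exact_mod_cast Finset.card_biUnion_le
      calc (#((hv p t Z I).biUnion fun e =>
          er p f' s' p.tm {x ∈ Z | x e.1 = e.2} (insert e.1 I)) : ℝ) * (m : ℝ) ^ (#I + (f' + 1))
          ≤ (∑ e ∈ hv p t Z I, (#(er p f' s' p.tm {x ∈ Z | x e.1 = e.2} (insert e.1 I)) : ℝ)) *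
            (m : ℝ) ^ (#I + (f' + 1)) := mul_le_mul_of_nonneg_right h1 (by positivity)
        _ = ∑ e ∈ hv p t Z I, (#(er p f' s' p.tm {x ∈ Z | x e.1 = e.2} (insert e.1 I)) : ℝ) *
            (m : ℝ) ^ (#I + (f' + 1)) := Finset.sum_mul _ _ _
        _ ≤ ∑ e ∈ hv p t Z I, (AH ^ f' * AS ^ s' * 4 ^ p.tm * (m : ℝ) ^ (Fintype.card E)) := by
            apply Finset.sum_le_sum
            intro e he
            have h2 := ih f' s' h' p.tm {x ∈ Z | x e.1 = e.2} (insert e.1 I)
              (hZ.insert e.1 e.2)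
            have h4 : e.1 ∉ I := by
              unfold hv at he
              exact (Finset.mem_filter.1 he).2.1
            rw [Finset.card_insert_of_notMem h4] at h2
            have h3 : #I + 1 + f' = #I + (f' + 1) := by ring
            rw [h3] at h2
            exact h2
        _ = #(hv p t Z I) * (AH ^ f' * AS ^ s' * 4 ^ p.tm * (m : ℝ) ^ (Fintype.card E)) := by
            rw [Finset.sum_const, nsmul_eq_mul]
        _ ≤ (Fintype.card E * (p.Γ * p.Λ)) *
            (AH ^ f' * AS ^ s' * 4 ^ p.tm * (m : ℝ) ^ (Fintype.card E)) := by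
            apply mul_le_mul_of_nonneg_right (hv_card p hΓ hΛ t Z I)
            positivity
        _ = (Fintype.card E * (p.Γ * p.Λ) * 4 ^ p.tm) *
            (AH ^ f' * AS ^ s' * (m : ℝ) ^ (Fintype.card E)) := by ring
        _ ≤ AH * (AH ^ f' * AS ^ s' * (m : ℝ) ^ (Fintype.card E)) := by
            apply mul_le_mul_of_nonneg_right hAH
            positivity
        _ = AH ^ (f' + 1) * AS ^ s' * (m : ℝ) ^ (Fintype.card E) := by ring
    intro t
    induction t with
    | zero =>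
      intro Z I hZ
      match f, hfs with
      | 0, _ =>
        simp only [er, pow_zero, one_mul, add_zero, mul_one]
        have h1 : (#Z : ℝ) * (m : ℝ) ^ #I ≤ (m : ℝ) ^ (Fintype.card E) := by
          exact_mod_cast hZ.card_le
        have h2 : (1 : ℝ) ≤ AS ^ s := one_le_pow₀ hAS1
        have h3 : 0 ≤ (m : ℝ) ^ (Fintype.card E) := by positivity
        nlinarith
      | f + 1, _ =>
        simp only [er, Finset.card_empty, Nat.cast_zero, zero_mul]
        positivity
    | succ t iht =>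
      intro Z I hZ
      match f, s, hfs, iht, hheavy with
      | 0, s, _, _, _ =>
        simp only [er, pow_zero, one_mul, add_zero]
        have h1 : (#Z : ℝ) * (m : ℝ) ^ #I ≤ (m : ℝ) ^ (Fintype.card E) := by
          exact_mod_cast hZ.card_le
        have h2 : (1 : ℝ) ≤ AS ^ s := one_le_pow₀ hAS1
        have h4 : (1 : ℝ) ≤ 4 ^ (t + 1) := one_le_pow₀ (by norm_num)
        have h5 : (1 : ℝ) ≤ AS ^ s * 4 ^ (t + 1) := by nlinarith
        have h3 : 0 ≤ (m : ℝ) ^ (Fintype.card E) := by positivity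
        nlinarith
      | f + 1, 0, hfs, iht, hheavy =>
        simp only [er]
        have h1 := iht Z I hZ
        have h2 := iht (rst p t Z I) I (hZ.mono rst_subset)
        have h3 := hheavy f 0 (by omega) t Z I hZ
        have h4 : (#((er p (f + 1) 0 t Z I ∪ er p (f + 1) 0 t (rst p t Z I) I) ∪
            ((hv p t Z I).biUnion fun e =>
              er p f 0 p.tm {x ∈ Z | x e.1 = e.2} (insert e.1 I))) : ℝ) ≤
            #(er p (f + 1) 0 t Z I) + #(er p (f + 1) 0 t (rst p t Z I) I) +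
            #((hv p t Z I).biUnion fun e =>
              er p f 0 p.tm {x ∈ Z | x e.1 = e.2} (insert e.1 I)) := by
          have := (Finset.card_union_le (er p (f + 1) 0 t Z I ∪ er p (f + 1) 0 t (rst p t Z I) I)
            ((hv p t Z I).biUnion fun e =>
              er p f 0 p.tm {x ∈ Z | x e.1 = e.2} (insert e.1 I))).trans
            (Nat.add_le_add_right (Finset.card_union_le _ _) _)
          exact_mod_cast this
        have h5 : (0 : ℝ) ≤ (m : ℝ) ^ (#I + (f + 1)) := by positivity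
        have h6 := mul_le_mul_of_nonneg_right h4 h5
        rw [add_mul, add_mul] at h6
        refine h6.trans ((add_le_add (add_le_add h1 h2) h3).trans ?_)
        set B : ℝ := AH ^ (f + 1) * AS ^ 0 * (m : ℝ) ^ (Fintype.card E) with hB
        have hB0 : 0 ≤ B := by positivity
        have h7 : (1 : ℝ) ≤ 4 ^ t := one_le_pow₀ (by norm_num)
        have h8 : AH ^ (f + 1) * AS ^ 0 * 4 ^ t * (m : ℝ) ^ (Fintype.card E) = B * 4 ^ t := by
          rw [hB]; ring
        have h9 : AH ^ (f + 1) * AS ^ 0 * 4 ^ (t + 1) * (m : ℝ) ^ (Fintype.card E) =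
            B * (4 * 4 ^ t) := by
          rw [hB]; ring
        rw [h8, h9]
        nlinarith
      | f + 1, s + 1, hfs, iht, hheavy =>
        simp only [er]
        have h1 := iht Z I hZ
        have h2 := iht (rst p t Z I) I (hZ.mono rst_subset)
        have h3 := hheavy f (s + 1) (by omega) t Z I hZ
        have hsp : (#((sps p (rst p t Z I) I).biUnion fun q =>
            er p (f + 1) s p.tm (spec p.g (rst p t Z I) q.1 q.2.1 q.2.2) I) : ℝ) *
            (m : ℝ) ^ (#I + (f + 1)) ≤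
            AH ^ (f + 1) * AS ^ (s + 1) * (m : ℝ) ^ (Fintype.card E) := by
          have h3 : (#((sps p (rst p t Z I) I).biUnion fun q =>
              er p (f + 1) s p.tm (spec p.g (rst p t Z I) q.1 q.2.1 q.2.2) I) : ℝ) ≤
              ∑ q ∈ sps p (rst p t Z I) I,
                (#(er p (f + 1) s p.tm (spec p.g (rst p t Z I) q.1 q.2.1 q.2.2) I) : ℝ) := by
            exact_mod_cast Finset.card_biUnion_le
          calc _ ≤ (∑ q ∈ sps p (rst p t Z I) I,
                (#(er p (f + 1) s p.tm (spec p.g (rst p t Z I) q.1 q.2.1 q.2.2) I) : ℝ)) *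
                (m : ℝ) ^ (#I + (f + 1)) := mul_le_mul_of_nonneg_right h3 (by positivity)
            _ = ∑ q ∈ sps p (rst p t Z I) I,
                (#(er p (f + 1) s p.tm (spec p.g (rst p t Z I) q.1 q.2.1 q.2.2) I) : ℝ) *
                (m : ℝ) ^ (#I + (f + 1)) := Finset.sum_mul _ _ _
            _ ≤ ∑ q ∈ sps p (rst p t Z I) I,
                (AH ^ (f + 1) * AS ^ s * 4 ^ p.tm * (m : ℝ) ^ (Fintype.card E)) := by
                apply Finset.sum_le_sum
                intro q hq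
                apply ih (f + 1) s (by omega)
                apply hZ.mono
                exact (Finset.filter_subset _ _).trans rst_subset
            _ = #(sps p (rst p t Z I) I) *
                (AH ^ (f + 1) * AS ^ s * 4 ^ p.tm * (m : ℝ) ^ (Fintype.card E)) := by
                rw [Finset.sum_const, nsmul_eq_mul]
            _ ≤ (4 ^ (Fintype.card E) * (J * T)) *
                (AH ^ (f + 1) * AS ^ s * 4 ^ p.tm * (m : ℝ) ^ (Fintype.card E)) := by
                apply mul_le_mul_of_nonneg_right _ (by positivity)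
                have := sps_card hη hη1 hG hΛ₀ hJ (rst p t Z I) I
                exact_mod_cast this
            _ = (4 ^ (Fintype.card E) * (J * T) * 4 ^ p.tm) *
                (AH ^ (f + 1) * AS ^ s * (m : ℝ) ^ (Fintype.card E)) := by ring
            _ ≤ AS * (AH ^ (f + 1) * AS ^ s * (m : ℝ) ^ (Fintype.card E)) :=
                mul_le_mul_of_nonneg_right hAS (by positivity)
            _ = AH ^ (f + 1) * AS ^ (s + 1) * (m : ℝ) ^ (Fintype.card E) := by ring
        have h4 : (#(((er p (f + 1) (s + 1) t Z I ∪ er p (f + 1) (s + 1) t (rst p t Z I) I) ∪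
            ((hv p t Z I).biUnion fun e =>
              er p f (s + 1) p.tm {x ∈ Z | x e.1 = e.2} (insert e.1 I))) ∪
            ((sps p (rst p t Z I) I).biUnion fun q =>
              er p (f + 1) s p.tm (spec p.g (rst p t Z I) q.1 q.2.1 q.2.2) I)) : ℝ) ≤
            #(er p (f + 1) (s + 1) t Z I) + #(er p (f + 1) (s + 1) t (rst p t Z I) I) +
            #((hv p t Z I).biUnion fun e =>
              er p f (s + 1) p.tm {x ∈ Z | x e.1 = e.2} (insert e.1 I)) +
            #((sps p (rst p t Z I) I).biUnion fun q =>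
              er p (f + 1) s p.tm (spec p.g (rst p t Z I) q.1 q.2.1 q.2.2) I) := by
          have := (Finset.card_union_le ((er p (f + 1) (s + 1) t Z I ∪
              er p (f + 1) (s + 1) t (rst p t Z I) I) ∪
            ((hv p t Z I).biUnion fun e =>
              er p f (s + 1) p.tm {x ∈ Z | x e.1 = e.2} (insert e.1 I)))
            ((sps p (rst p t Z I) I).biUnion fun q =>
              er p (f + 1) s p.tm (spec p.g (rst p t Z I) q.1 q.2.1 q.2.2) I)).trans
            (Nat.add_le_add_right ((Finset.card_union_le _ _).trans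
              (Nat.add_le_add_right (Finset.card_union_le _ _) _)) _)
          exact_mod_cast this
        have h5 : (0 : ℝ) ≤ (m : ℝ) ^ (#I + (f + 1)) := by positivity
        have h6 := mul_le_mul_of_nonneg_right h4 h5
        rw [add_mul, add_mul, add_mul] at h6
        refine h6.trans ((add_le_add (add_le_add (add_le_add h1 h2) h3) hsp).trans ?_)
        set B : ℝ := AH ^ (f + 1) * AS ^ (s + 1) * (m : ℝ) ^ (Fintype.card E) with hB
        have hB0 : 0 ≤ B := by positivity
        have h7 : (1 : ℝ) ≤ 4 ^ t := one_le_pow₀ (by norm_num)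
        have h8 : AH ^ (f + 1) * AS ^ (s + 1) * 4 ^ t * (m : ℝ) ^ (Fintype.card E) =
            B * 4 ^ t := by
          rw [hB]; ring
        have h9 : AH ^ (f + 1) * AS ^ (s + 1) * 4 ^ (t + 1) * (m : ℝ) ^ (Fintype.card E) =
            B * (4 * 4 ^ t) := by
          rw [hB]; ring
        rw [h8, h9]
        nlinarith

/-- a good state of the point x at threshold θ of the chain R -/
structure Good (p : Par E m) (D : ℕ) (θ : ℝ) (f s : ℕ) (x : Pt E m) (R : Finset (Pt E m))
    (I : Finset E) : Prop where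
  mem : x ∈ up p.rk R θ
  dense : Dense (p.Λ / p.Γ) (up p.rk R θ) I
  fixed : Fixed R I
  hf : 1 ≤ f
  hI : #I + f = D + 1
  spec : ∀ s', s = s' + 1 → ∀ q ∈ sps p R I, x ∈ spec p.g R q.1 q.2.1 q.2.2 →
    x ∉ er p f s' p.tm (spec p.g R q.1 q.2.1 q.2.2) I

theorem Good.card_le {p : Par E m} {D : ℕ} {θ : ℝ} {f s : ℕ} {x : Pt E m}
    {R : Finset (Pt E m)} {I : Finset E} (h : Good p D θ f s x R I) : #I ≤ D := by
  have := h.hf; have := h.hI; omega

theorem good_of_not_er {p : Par E m} {D : ℕ} (hΓ : 1 ≤ p.Γ) (hΛ : 0 < p.Λ)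
    (htm : (m : ℝ) ^ (Fintype.card E) < p.Γ ^ p.tm) (θ : ℝ) :
    ∀ f s t : ℕ, ∀ (Z : Finset (Pt E m)) (I : Finset E) (x : Pt E m), x ∈ up p.rk Z θ →
      (#(up p.rk Z θ) : ℝ) < p.Γ ^ t → x ∉ er p f s t Z I → Fixed Z I → #I + f = D + 1 →
      ∃ (f' : ℕ) (R : Finset (Pt E m)) (I' : Finset E), I ⊆ I' ∧ R ⊆ Z ∧
        Good p D θ f' s x R I' := by
  classical
  have hbig : ∀ Z : Finset (Pt E m), (#(up p.rk Z θ) : ℝ) < p.Γ ^ p.tm := by
    intro Z
    have := Finset.card_le_univ (up p.rk Z θ)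
    have h4 : #(up p.rk Z θ) ≤ m ^ (Fintype.card E) := by simpa using this
    have h5 : (#(up p.rk Z θ) : ℝ) ≤ (m : ℝ) ^ (Fintype.card E) := by exact_mod_cast h4
    linarith
  intro f
  induction f with
  | zero =>
    intro s t Z I x hx _ herr
    exfalso
    apply herr
    simpa [er] using up_subset hx
  | succ f ihf =>
    intro s t
    induction t with
    | zero =>
      intro Z I x hx hc
      exfalso
      rw [pow_zero] at hc
      have h1 : 0 < #(up p.rk Z θ) := Finset.card_pos.2 ⟨x, hx⟩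
      have h2 : (1 : ℝ) ≤ #(up p.rk Z θ) := by exact_mod_cast h1
      linarith
    | succ t iht =>
      intro Z I x hx hc herr hfix hI
      have herr' : x ∉ er p (f + 1) s t Z I ∧ x ∉ er p (f + 1) s t (rst p t Z I) I ∧
          (∀ e ∈ hv p t Z I, x ∉ er p f s p.tm {x ∈ Z | x e.1 = e.2} (insert e.1 I)) ∧
          (∀ s', s = s' + 1 → ∀ q ∈ sps p (rst p t Z I) I,
            x ∉ er p (f + 1) s' p.tm (Lift.spec p.g (rst p t Z I) q.1 q.2.1 q.2.2) I) := by
        cases s with
        | zero =>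
          simp only [er, Finset.mem_union, Finset.mem_biUnion, not_or] at herr
          refine ⟨herr.1.1, herr.1.2, ?_, ?_⟩
          · intro e he hxe; exact herr.2 ⟨e, he, hxe⟩
          · intro s' hs'; omega
        | succ s =>
          simp only [er, Finset.mem_union, Finset.mem_biUnion, not_or] at herr
          refine ⟨herr.1.1.1, herr.1.1.2, ?_, ?_⟩
          · intro e he hxe; exact herr.1.2 ⟨e, he, hxe⟩
          · intro s' hs' q hq hxe
            have : s' = s := by omega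
            subst this
            exact herr.2 ⟨q, hq, hxe⟩
      obtain ⟨e1, e2, e3, e4⟩ := herr'
      by_cases h1 : (#(up p.rk Z θ) : ℝ) < p.Γ ^ t
      · exact iht Z I x hx h1 e1 hfix hI
      push Not at h1
      by_cases hr : x ∈ rst p t Z I
      · have hxr : x ∈ up p.rk (rst p t Z I) θ := mem_up.2 ⟨hr, (mem_up.1 hx).2⟩
        by_cases h2 : (#(up p.rk (rst p t Z I) θ) : ℝ) < p.Γ ^ t
        · obtain ⟨f', R, I', g1, g2, g3⟩ := iht (rst p t Z I) I x hxr h2 e2
            (hfix.mono rst_subset) hI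
          exact ⟨f', R, I', g1, g2.trans rst_subset, g3⟩
        · push Not at h2
          refine ⟨f + 1, rst p t Z I, I, Finset.Subset.refl _, rst_subset, ?_⟩
          exact ⟨hxr, rst_dense p hΓ hΛ t Z I θ h1 hc h2, hfix.mono rst_subset, by omega, hI,
            fun s' hs' q hq _ => e4 s' hs' q hq⟩
      · have h3 : ∃ e ∈ hv p t Z I, x e.1 = e.2 := by
          by_contra hcon
          push Not at hcon
          exact hr (Finset.mem_filter.2 ⟨up_subset hx, hcon⟩)
        obtain ⟨e, he, hxe⟩ := h3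
        have h4 : e.1 ∉ I := by
          unfold hv at he
          exact (Finset.mem_filter.1 he).2.1
        obtain ⟨f', R, I', g1, g2, g3⟩ := ihf s p.tm {x ∈ Z | x e.1 = e.2} (insert e.1 I) x
          (mem_up.2 ⟨Finset.mem_filter.2 ⟨up_subset hx, hxe⟩, (mem_up.1 hx).2⟩) (hbig _) (e3 e he)
          (hfix.insert e.1 e.2) (by rw [Finset.card_insert_of_notMem h4]; omega)
        exact ⟨f', R, I', (Finset.subset_insert _ _).trans g1,
          g2.trans (Finset.filter_subset _ _), g3⟩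

/-- imposing a special condition -/
theorem Good.next {p : Par E m} {D : ℕ} {θ : ℝ} {f s : ℕ} (hΓ : 1 ≤ p.Γ) (hΛ : 0 < p.Λ)
    (htm : (m : ℝ) ^ (Fintype.card E) < p.Γ ^ p.tm) {x : Pt E m}
    {R : Finset (Pt E m)} {I : Finset E} (h : Good p D θ f (s + 1) x R I) {S : Finset E}
    (hS : S.Nonempty) (hSI : Disjoint S I) {y : Pt E m} (hy : IsBad p.g p.η (up p.rk R θ) S y) :
    ∃ (f' : ℕ) (R' : Finset (Pt E m)) (I' : Finset E), I ⊆ I' ∧ R' ⊆ R ∧
        Good p D θ f' s x R' I' ∧
        ∀ x' ∈ R', ∀ a ∈ S, p.g a (x' a) (y a) = p.g a (x a) (y a) := by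
  classical
  have hq : (S, nrm S y, gv p.g x y) ∈ sps p R I := by
    unfold sps
    rw [Finset.mem_filter]
    exact ⟨Finset.mem_univ _, hS, hSI, θ, h.dense, mem_badRep hy⟩
  have hmem : ∀ x' : Pt E m, x' ∈ Lift.spec p.g R S (nrm S y) (gv p.g x y) ↔
      x' ∈ R ∧ ∀ a ∈ S, p.g a (x' a) (y a) = p.g a (x a) (y a) := by
    intro x'
    unfold Lift.spec gv
    rw [Finset.mem_filter]
    apply and_congr_right
    intro _
    apply forall₂_congr
    intro a ha
    rw [nrm_apply ha]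
  have hx : x ∈ Lift.spec p.g R S (nrm S y) (gv p.g x y) := by
    rw [hmem]; exact ⟨up_subset h.mem, fun _ _ => rfl⟩
  have h1 := h.spec s rfl _ hq hx
  have hbig : (#(up p.rk (Lift.spec p.g R S (nrm S y) (gv p.g x y)) θ) : ℝ) < p.Γ ^ p.tm := by
    have := Finset.card_le_univ (up p.rk (Lift.spec p.g R S (nrm S y) (gv p.g x y)) θ)
    have h4 : #(up p.rk (Lift.spec p.g R S (nrm S y) (gv p.g x y)) θ) ≤ m ^ (Fintype.card E) := by
      simpa using this
    have h5 : (#(up p.rk (Lift.spec p.g R S (nrm S y) (gv p.g x y)) θ) : ℝ) ≤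
      (m : ℝ) ^ (Fintype.card E) := by exact_mod_cast h4
    linarith
  obtain ⟨f', R', I', hI', hR', hgood⟩ := good_of_not_er (D := D) hΓ hΛ htm θ f s p.tm _ I x
    (mem_up.2 ⟨hx, (mem_up.1 h.mem).2⟩) hbig h1
    (h.fixed.mono (Finset.filter_subset _ _)) h.hI
  refine ⟨f', R', I', hI', hR'.trans (Finset.filter_subset _ _), hgood, ?_⟩
  intro x' hx'
  exact ((hmem x').1 (hR' hx')).2

end Pool.Agent.H29.Ch
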