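import Pool.Agent.H29.LiftStep

/-!
Lower bound for dag-like two-party protocols with threshold nodes.
-/

open Finset

namespace Pool.Agent.H29.Lift

set_option linter.unusedSectionVars false

variable {E : Type} [Fintype E] [DecidableEq E] {m : ℕ} [NeZero m]

/-- accumulated error sets; `lt i v x` says that x lies on the small side of threshold v at node i -/
noncomputable def EX (g : Gd E m) (η Λ : ℝ) (D : ℕ) (V : ℕ → Finset ℤ)
    (lt : ℕ → ℤ → Pt E m → Prop) [∀ i v x, Decidable (lt i v x)] : ℕ → Finset (Pt E m)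
  | 0 => ∅
  | i + 1 => EX g η Λ D V lt i ∪ (V i).biUnion (fun v =>
      err g η Λ (D + 1) (Fintype.card E) {x ∈ univ \ EX g η Λ D V lt i | lt i v x} ∅)

theorem EX_mono (g : Gd E m) (η Λ : ℝ) (D : ℕ) (V : ℕ → Finset ℤ)
    (lt : ℕ → ℤ → Pt E m → Prop) [∀ i v x, Decidable (lt i v x)] {i j : ℕ} (h : i ≤ j) :
    EX g η Λ D V lt i ⊆ EX g η Λ D V lt j := by
  induction j with
  | zero =>
    have : i = 0 := by omega
    rw [this]
  | succ j ih =>
    rcases Nat.lt_or_ge i (j + 1) with h1 | h1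
    · refine (ih (by omega)).trans ?_
      rw [EX]
      exact Finset.subset_union_left
    · have : i = j + 1 := by omega
      rw [this]

theorem EX_card {g : Gd E m} {η Λ₀ Λ : ℝ} {T : ℕ} (hG : GadProp g η Λ₀ T) (hΛ : 1 < Λ)
    (hΛ₀ : Λ₀ ≤ Λ) (hT : 1 ≤ T) (D M : ℕ) (V : ℕ → Finset ℤ)
    (lt : ℕ → ℤ → Pt E m → Prop) [∀ i v x, Decidable (lt i v x)] (hV : ∀ i, #(V i) ≤ M) (i : ℕ) :
    (#(EX g η Λ D V lt i) : ℝ) * (m : ℝ) ^ (D + 1) ≤ i * M *
      ((2 * P0 E m Λ) ^ (D + 1) * (2 * (4 ^ (Fintype.card E) * T)) ^ (Fintype.card E) *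
        (m : ℝ) ^ (Fintype.card E)) := by
  classical
  set B : ℝ := (2 * P0 E m Λ) ^ (D + 1) * (2 * (4 ^ (Fintype.card E) * T)) ^ (Fintype.card E) *
        (m : ℝ) ^ (Fintype.card E) with hB
  have hP1 : 1 ≤ P0 E m Λ := by
    unfold P0
    have : 0 ≤ Λ * (Fintype.card E * Real.log m) :=
      mul_nonneg (by linarith) (mul_nonneg (by positivity) (Real.log_natCast_nonneg _))
    linarith
  have hB0 : 0 ≤ B := by
    have : 0 ≤ P0 E m Λ := by linarith
    positivity
  induction i with
  | zero => simp [EX]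
  | succ i ih =>
    rw [EX]
    have h1 : (#(EX g η Λ D V lt i ∪ (V i).biUnion (fun v =>
      err g η Λ (D + 1) (Fintype.card E) {x ∈ univ \ EX g η Λ D V lt i | lt i v x} ∅)) : ℝ) ≤
      #(EX g η Λ D V lt i) + ∑ v ∈ V i,
      (#(err g η Λ (D + 1) (Fintype.card E) {x ∈ univ \ EX g η Λ D V lt i | lt i v x} ∅) : ℝ) := by
      have := (Finset.card_union_le (EX g η Λ D V lt i) ((V i).biUnion (fun v =>
        err g η Λ (D + 1) (Fintype.card E) {x ∈ univ \ EX g η Λ D V lt i | lt i v x} ∅))).trans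
        (Nat.add_le_add_left Finset.card_biUnion_le _)
      exact_mod_cast this
    have h2 : (∑ v ∈ V i,
      (#(err g η Λ (D + 1) (Fintype.card E) {x ∈ univ \ EX g η Λ D V lt i | lt i v x} ∅) : ℝ)) *
        (m : ℝ) ^ (D + 1) ≤ M * B := by
      rw [Finset.sum_mul]
      calc ∑ v ∈ V i, (#(err g η Λ (D + 1) (Fintype.card E)
            {x ∈ univ \ EX g η Λ D V lt i | lt i v x} ∅) : ℝ) * (m : ℝ) ^ (D + 1)
          ≤ ∑ v ∈ V i, B := by
            apply Finset.sum_le_sum
            intro v _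
            have := err_card hG hΛ hΛ₀ hT _ (D + 1) (Fintype.card E) le_rfl
              {x ∈ univ \ EX g η Λ D V lt i | lt i v x} ∅
              (fun x _ x' _ a ha => absurd ha (Finset.notMem_empty a))
            simpa using this
        _ = #(V i) * B := by rw [Finset.sum_const, nsmul_eq_mul]
        _ ≤ M * B := by
            apply mul_le_mul_of_nonneg_right _ hB0
            exact_mod_cast hV i
    have h3 : (0 : ℝ) ≤ (m : ℝ) ^ (D + 1) := by positivity
    have h4 := mul_le_mul_of_nonneg_right h1 h3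
    rw [add_mul] at h4
    push_cast
    calc _ ≤ _ := h4
      _ ≤ i * M * B + M * B := add_le_add ih h2
      _ = (i + 1) * M * B := by ring

theorem card_fibre (a : E) (ξ : Fin m) :
    #{x : Pt E m | x a = ξ} * m = m ^ (Fintype.card E) := by
  classical
  have h1 : ∀ ζ : Fin m, #{x : Pt E m | x a = ζ} = #{x : Pt E m | x a = ξ} := by
    intro ζ
    apply Finset.card_bij (fun x _ => Function.update x a ξ)
    · intro x _
      simp
    · intro x hx x' hx' h
      simp only [Finset.mem_filter, Finset.mem_univ, true_and] at hx hx'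
      ext1 b
      by_cases hb : b = a
      · subst hb; rw [hx, hx']
      · have := congrFun h b
        simpa [Function.update_of_ne hb] using this
    · intro y hy
      simp only [Finset.mem_filter, Finset.mem_univ, true_and] at hy
      refine ⟨Function.update y a ζ, by simp, ?_⟩
      ext1 b
      by_cases hb : b = a
      · subst hb; simp [hy]
      · simp [Function.update_of_ne hb]
  have h2 : Fintype.card (Pt E m) = ∑ ζ : Fin m, #{x : Pt E m | x a = ζ} := by
    rw [← Finset.card_univ]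
    exact Finset.card_eq_sum_card_fiberwise (fun x _ => Finset.mem_coe.2 (Finset.mem_univ _))
  rw [Finset.sum_congr rfl (fun ζ _ => h1 ζ), Finset.sum_const, Finset.card_univ,
    Fintype.card_fin, smul_eq_mul] at h2
  rw [mul_comm, ← h2]
  simp

theorem dag_bound {g : Gd E m} {η Λ₀ Λ : ℝ} {T D w t₀ : ℕ} {H : Finset E → (E → Bool) → Prop}
    (hH : Adv H w) (hD : 4 * D ≤ w) (hDt : 2 * D + t₀ ≤ w) (hG : GadProp g η Λ₀ T)
    (hG' : GadProp (sw g) η Λ₀ T) (hη : (2 : ℝ) ^ (Fintype.card E) * η ≤ 1 / 2) (hη0 : 0 ≤ η)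
    (hT : 1 ≤ T) (hΛ1 : 1 < Λ)
    (hL : (2 : ℝ) ^ (2 * Fintype.card E + 4) * T ≤
      Λ / 2 ^ (Fintype.card E + 1) / (2 * kap (Fintype.card E)))
    (hLΛ : Λ₀ ≤ Λ / 2 ^ (Fintype.card E + 1) / (2 * kap (Fintype.card E)))
    (hm : 2 * Λ ≤ m)
    {n M : ℕ} {a b : ℕ → Pt E m → ℤ} (hM : ∀ i, #(univ.image (a i)) ≤ M)
    (hnode : ∀ i < n, (∃ K : Finset E, #K ≤ t₀ ∧ ∀ x y, a i x < b i y → ¬ H K (gv g x y)) ∨
      (∃ j < i, ∃ l < i, ∀ x y, a i x < b i y → (a j x < b j y ∨ a l x < b l y)))
    (hroot : ∃ r < n, ∀ x y, a r x < b r y) :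
    (m : ℝ) ^ (D + 1) < 2 * n * M *
      ((2 * P0 E m Λ) ^ (D + 1) * (2 * (4 ^ (Fintype.card E) * T)) ^ (Fintype.card E)) := by
  classical
  set N := Fintype.card E with hN
  set L₁ : ℝ := Λ / 2 ^ (N + 1) with hL₁
  set L : ℝ := L₁ / (2 * kap N) with hLdef
  have hkap : 0 < kap N := by unfold kap; positivity
  have hkapr : (1 : ℝ) ≤ kap N := by exact_mod_cast hkap
  have hΛpos : 0 < Λ := by linarith
  have hL₁pos : 0 < L₁ := by positivity
  have hLL₁ : L ≤ L₁ := by
    rw [hLdef]
    apply div_le_self hL₁pos.le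
    linarith
  have hL₁Λ : L₁ ≤ Λ := by
    rw [hL₁]
    apply div_le_self hΛpos.le
    exact one_le_pow₀ (by norm_num)
  have hΛ₀Λ : Λ₀ ≤ Λ := hLΛ.trans (hLL₁.trans hL₁Λ)
  have hkL : (kap N : ℝ) * L = L₁ / 2 := by
    rw [hLdef]; field_simp
  let V : ℕ → Finset ℤ := fun i => univ.image (a i)
  let AX : ℕ → Finset (Pt E m) := EX g η Λ D V (fun i v x => a i x < v + 1)
  let AY : ℕ → Finset (Pt E m) := EX (sw g) η Λ D V (fun i v y => v + 1 ≤ b i y)
  have claim : ∀ i, i < n → ¬ ∃ (P R : Finset (Pt E m)) (I J : Finset E) (ρ : E → Bool),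
      P ⊆ univ \ AX i ∧ R ⊆ univ \ AY i ∧ (∀ x ∈ P, ∀ y ∈ R, a i x < b i y) ∧
        Struc g H D L₁ P R I J ρ := by
    intro i
    induction i using Nat.strong_induction_on with
    | _ i ih =>
      intro hi
      rintro ⟨P, R, I, J, ρ, hPX, hRY, hab, hst⟩
      rcases hnode i hi with hleaf | hinner
      · obtain ⟨K, hK, hviol⟩ := hleaf
        obtain ⟨z, hz1, hz2⟩ := hH.ext_many K hst.hρ (by
          have h1 := Finset.card_union_le I J
          have h3 := hst.cI
          have h4 := hst.cJ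
          omega)
        obtain ⟨x, hx, y, hy, hgz, -, -⟩ := select (Λ := Λ) (I := ∅) (J := ∅) hG hG' hη hη0 hT
          (hL.trans hLL₁) (hLΛ.trans hLL₁) hΛ₀Λ hst.neP hst.neR hst.dP hst.dR
          (fun _ => ∅) (fun _ => ∅) (fun x _ a _ ξ => by simp) (fun x _ a _ ξ => by simp) z
          (fun x hx y hy a ha => by rw [hst.val x hx y hy a ha, hz1 a ha])
        apply hviol x y (hab x hx y hy)
        apply hH.congr (hH.mono hz2 Finset.subset_union_right)
        intro a _
        exact (hgz a).symm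
      · obtain ⟨j, hj, l, hl, hcov⟩ := hinner
        -- choose a child and large subsets
        have hchild : ∃ c < i, ∃ P' ⊆ P, ∃ R' ⊆ R, #P ≤ 2 * #P' ∧ #R ≤ 2 * #R' ∧
            ∀ x ∈ P', ∀ y ∈ R', a c x < b c y := by
          obtain ⟨v₁, h1, h2⟩ := exists_median P hst.neP (a j)
          obtain ⟨v₂, h3, h4⟩ := exists_median R hst.neR (b j)
          by_cases hv : v₁ < v₂
          · refine ⟨j, hj, {x ∈ P | a j x ≤ v₁}, Finset.filter_subset _ _,
              {y ∈ R | v₂ ≤ b j y}, Finset.filter_subset _ _, h1, h4, ?_⟩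
            intro x hx y hy
            rw [Finset.mem_filter] at hx hy
            omega
          · refine ⟨l, hl, {x ∈ P | v₁ ≤ a j x}, Finset.filter_subset _ _,
              {y ∈ R | b j y ≤ v₂}, Finset.filter_subset _ _, h2, h3, ?_⟩
            intro x hx y hy
            rw [Finset.mem_filter] at hx hy
            rcases hcov x y (hab x hx.1 y hy.1) with h | h
            · omega
            · exact h
        obtain ⟨c, hc, P', hP', R', hR', hcP, hcR, hrel⟩ := hchild
        have hP'ne : P'.Nonempty := by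
          rw [← Finset.card_pos]; have := hst.neP.card_pos; omega
        have hR'ne : R'.Nonempty := by
          rw [← Finset.card_pos]; have := hst.neR.card_pos; omega
        -- threshold
        let v : ℤ := (P'.image (a c)).max' (hP'ne.image _)
        have hv : v ∈ P'.image (a c) := Finset.max'_mem _ _
        have hvle : ∀ x ∈ P', a c x ≤ v := fun x hx =>
          Finset.le_max' _ _ (Finset.mem_image_of_mem _ hx)
        rw [Finset.mem_image] at hv
        obtain ⟨x₀, hx₀, hx₀v⟩ := hv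
        have hvV : v ∈ V c := by
          rw [← hx₀v]; exact Finset.mem_image_of_mem _ (Finset.mem_univ _)
        set Xθ := {x ∈ univ \ AX c | a c x < v + 1} with hXθ
        set Yθ := {y ∈ univ \ AY c | v + 1 ≤ b c y} with hYθ
        have hP'X : P' ⊆ Xθ := by
          intro x hx
          rw [hXθ, Finset.mem_filter, Finset.mem_sdiff]
          refine ⟨⟨Finset.mem_univ _, ?_⟩, by have := hvle x hx; omega⟩
          intro h
          exact (Finset.mem_sdiff.1 (hPX (hP' hx))).2 (EX_mono _ _ _ _ _ _ hc.le h)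
        have hR'Y : R' ⊆ Yθ := by
          intro y hy
          rw [hYθ, Finset.mem_filter, Finset.mem_sdiff]
          refine ⟨⟨Finset.mem_univ _, ?_⟩, by have := hrel x₀ hx₀ y hy; omega⟩
          intro h
          exact (Finset.mem_sdiff.1 (hRY (hR' hy))).2 (EX_mono _ _ _ _ _ _ hc.le h)
        have hPe : ∀ x ∈ P', x ∉ err g η Λ (D + 1) N Xθ ∅ := by
          intro x hx h
          apply (Finset.mem_sdiff.1 (hPX (hP' hx))).2
          apply EX_mono _ _ _ _ _ _ (show c + 1 ≤ i by omega)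
          rw [EX]
          apply Finset.mem_union_right
          rw [Finset.mem_biUnion]
          exact ⟨v, hvV, h⟩
        have hRe : ∀ y ∈ R', y ∉ err (sw g) η Λ (D + 1) N Yθ ∅ := by
          intro y hy h
          apply (Finset.mem_sdiff.1 (hRY (hR' hy))).2
          apply EX_mono _ _ _ _ _ _ (show c + 1 ≤ i by omega)
          rw [EX]
          apply Finset.mem_union_right
          rw [Finset.mem_biUnion]
          exact ⟨v, hvV, h⟩
        have hst' : Struc g H D (kap N * L) P' R' I J ρ := by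
          refine ⟨hP'ne, hR'ne, hst.cI, hst.cJ, hst.fP.mono hP', hst.fR.mono hR', ?_, ?_,
            hst.hρ, fun x hx y hy a ha => hst.val x (hP' hx) y (hR' hy) a ha⟩
          · rw [hkL]
            apply dense_sub (κ := 2) (by norm_num) (by positivity) _ hP' (by exact_mod_cast hcP)
            rw [mul_div_cancel₀ _ (by norm_num)]; exact hst.dP
          · rw [hkL]
            apply dense_sub (κ := 2) (by norm_num) (by positivity) _ hR' (by exact_mod_cast hcR)
            rw [mul_div_cancel₀ _ (by norm_num)]; exact hst.dR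
        obtain ⟨P'', R'', I', J', ρ', h1, h2, h3⟩ := step hH hD hG hG' hη hη0 hT hL hLΛ hΛ₀Λ hΛ1
          hst' hP'X hR'Y hPe hRe
        apply ih c hc (hc.trans hi)
        refine ⟨P'', R'', I', J', ρ', h1.trans (Finset.filter_subset _ _),
          h2.trans (Finset.filter_subset _ _), ?_, h3⟩
        intro x hx y hy
        have h4 := (Finset.mem_filter.1 (h1 hx)).2
        have h5 := (Finset.mem_filter.1 (h2 hy)).2
        omega
  -- the root
  by_contra hcon
  push Not at hcon
  obtain ⟨r, hr, hroot⟩ := hroot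
  have hmpos : (0 : ℝ) < m := by linarith
  have hpow : (0 : ℝ) < (m : ℝ) ^ (D + 1) := by positivity
  have hsmall : ∀ A : Finset (Pt E m), (#A : ℝ) * (m : ℝ) ^ (D + 1) ≤ r * M *
      ((2 * P0 E m Λ) ^ (D + 1) * (2 * (4 ^ N * T)) ^ N * (m : ℝ) ^ N) →
      2 * (#A : ℝ) ≤ (m : ℝ) ^ N := by
    intro A hA
    have hP1 : 1 ≤ P0 E m Λ := by
      unfold P0
      have : 0 ≤ Λ * (Fintype.card E * Real.log m) :=
        mul_nonneg (by linarith) (mul_nonneg (by positivity) (Real.log_natCast_nonneg _))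
      linarith
    have hC : 0 ≤ (2 * P0 E m Λ) ^ (D + 1) * (2 * (4 ^ N * (T : ℝ))) ^ N := by
      have : 0 ≤ P0 E m Λ := by linarith
      positivity
    have h1 : (r : ℝ) ≤ n := by exact_mod_cast hr.le
    have h2 : 2 * (#A : ℝ) * (m : ℝ) ^ (D + 1) ≤ (m : ℝ) ^ N * (m : ℝ) ^ (D + 1) := by
      calc 2 * (#A : ℝ) * (m : ℝ) ^ (D + 1) = 2 * ((#A : ℝ) * (m : ℝ) ^ (D + 1)) := by ring
        _ ≤ 2 * (r * M * ((2 * P0 E m Λ) ^ (D + 1) * (2 * (4 ^ N * T)) ^ N * (m : ℝ) ^ N)) := by
            linarith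
        _ = (m : ℝ) ^ N * (2 * r * M * ((2 * P0 E m Λ) ^ (D + 1) * (2 * (4 ^ N * T)) ^ N)) := by
            ring
        _ ≤ (m : ℝ) ^ N * (2 * n * M * ((2 * P0 E m Λ) ^ (D + 1) * (2 * (4 ^ N * T)) ^ N)) := by
            apply mul_le_mul_of_nonneg_left _ (by positivity)
            apply mul_le_mul_of_nonneg_right _ hC
            apply mul_le_mul_of_nonneg_right _ (by positivity)
            linarith
        _ ≤ (m : ℝ) ^ N * (m : ℝ) ^ (D + 1) := mul_le_mul_of_nonneg_left hcon (by positivity)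
    exact le_of_mul_le_mul_right h2 hpow
  have hX := hsmall (AX r) (EX_card hG hΛ1 hΛ₀Λ hT D M V _ hM r)
  have hY := hsmall (AY r) (EX_card hG' hΛ1 hΛ₀Λ hT D M V _ hM r)
  have hroots : ∀ A : Finset (Pt E m), 2 * (#A : ℝ) ≤ (m : ℝ) ^ N →
      (univ \ A).Nonempty ∧ Dense L₁ (univ \ A) ∅ := by
    intro A hA
    have hcard : (#(univ \ A) : ℝ) + #A = (m : ℝ) ^ N := by
      have h1 := Finset.card_sdiff_add_card_eq_card (Finset.subset_univ A)
      have h2 : #(univ : Finset (Pt E m)) = m ^ N := by simp [hN]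
      rw [h2] at h1
      exact_mod_cast h1
    have hpos : (0 : ℝ) < (m : ℝ) ^ N := by positivity
    refine ⟨?_, ?_⟩
    · rw [← Finset.card_pos]
      have : (0 : ℝ) < #(univ \ A) := by linarith
      exact_mod_cast this
    · intro c _ ξ
      have h1 : (#{x ∈ univ \ A | x c = ξ} : ℝ) ≤ #{x : Pt E m | x c = ξ} := by
        exact_mod_cast Finset.card_le_card (Finset.filter_subset_filter _ (Finset.sdiff_subset))
      have h2 : (#{x : Pt E m | x c = ξ} : ℝ) * m = (m : ℝ) ^ N := by
        exact_mod_cast card_fibre c ξ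
      have h3 : L₁ * #{x ∈ univ \ A | x c = ξ} ≤ m / 2 * #{x : Pt E m | x c = ξ} := by
        apply mul_le_mul _ h1 (by positivity) (by positivity)
        linarith
      linarith
  obtain ⟨z, hz⟩ := hH.empty
  apply claim r hr
  refine ⟨univ \ AX r, univ \ AY r, ∅, ∅, z, Finset.Subset.refl _, Finset.Subset.refl _,
    fun x _ y _ => hroot x y, ?_⟩
  have hfixe : ∀ Z : Finset (Pt E m), Fixed Z ∅ := fun Z x _ x' _ a ha =>
    absurd ha (Finset.notMem_empty a)
  refine ⟨(hroots _ hX).1, (hroots _ hY).1, by simp, by simp, hfixe _, hfixe _,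
    (hroots _ hX).2, (hroots _ hY).2, by simpa using hz, ?_⟩
  intro x _ y _ a ha
  simp at ha

end Pool.Agent.H29.Lift
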