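import Pool.Agent.H29.ChStep
import Pool.Agent.H29.LiftMain

/-!
Lower bound for dag-like two-party protocols with real threshold nodes.
-/

open Finset

namespace Pool.Agent.H29.Ch

open Pool.Agent.H29.Lift hiding St side_step closure step Good EX EX_mono EX_card dag_bound

set_option linter.unusedSectionVars false

/-- medians -/
theorem exists_medianR {α : Type*} (P : Finset α) (hP : P.Nonempty) (f : α → ℝ) :
    ∃ v : ℝ, #P ≤ 2 * #{x ∈ P | f x ≤ v} ∧ #P ≤ 2 * #{x ∈ P | v ≤ f x} := by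
  classical
  let V := (P.image f).filter (fun v => #P ≤ 2 * #{x ∈ P | f x ≤ v})
  have hV : V.Nonempty := by
    refine ⟨(P.image f).max' (hP.image f), ?_⟩
    simp only [V, Finset.mem_filter]
    refine ⟨Finset.max'_mem _ _, ?_⟩
    have : {x ∈ P | f x ≤ (P.image f).max' (hP.image f)} = P := by
      apply Finset.filter_true_of_mem
      intro x hx
      exact Finset.le_max' _ _ (Finset.mem_image_of_mem f hx)
    rw [this]; omega
  refine ⟨V.min' hV, ?_, ?_⟩
  · have := Finset.min'_mem V hV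
    simp only [V, Finset.mem_filter] at this
    exact this.2
  · by_contra hcon
    push Not at hcon
    set v := V.min' hV with hv
    have h1 : #{x ∈ P | f x < v} + #{x ∈ P | v ≤ f x} = #P := by
      rw [← Finset.card_filter_add_card_filter_not (s := P) (fun x => f x < v)]
      congr 2
      ext x
      simp
    have h2 : #P < 2 * #{x ∈ P | f x < v} := by omega
    have h3 : ({x ∈ P | f x < v}).Nonempty := by
      rw [← Finset.card_pos]; omega
    let w := (({x ∈ P | f x < v}).image f).max' (h3.image f)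
    have hw : w ∈ ({x ∈ P | f x < v}).image f := Finset.max'_mem _ _
    rw [Finset.mem_image] at hw
    obtain ⟨x, hx, hxw⟩ := hw
    rw [Finset.mem_filter] at hx
    have h4 : w < v := by rw [← hxw]; exact hx.2
    have h5 : {x ∈ P | f x < v} ⊆ {x ∈ P | f x ≤ w} := by
      intro y hy
      rw [Finset.mem_filter]
      refine ⟨(Finset.mem_filter.1 hy).1, ?_⟩
      exact Finset.le_max' _ _ (Finset.mem_image_of_mem f hy)
    have h6 : w ∈ V := by
      simp only [V, Finset.mem_filter]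
      refine ⟨?_, ?_⟩
      · rw [← hxw]; exact Finset.mem_image_of_mem f hx.1
      · have := Finset.card_le_card h5
        omega
    have h7 : v ≤ w := Finset.min'_le V w h6
    exact absurd h4 (not_lt.2 h7)

variable {E : Type} [Fintype E] [DecidableEq E] {m : ℕ} [NeZero m]

/-- accumulated error sets -/
noncomputable def EX (g : Gd E m) (η Λ Γ : ℝ) (tm D : ℕ) (rk : ℕ → Pt E m → ℝ) :
    ℕ → Finset (Pt E m)
  | 0 => ∅
  | i + 1 => EX g η Λ Γ tm D rk i ∪
      er ⟨g, η, Λ, Γ, tm, rk i⟩ (D + 1) (Fintype.card E) tm (univ \ EX g η Λ Γ tm D rk i) ∅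

theorem EX_mono (g : Gd E m) (η Λ Γ : ℝ) (tm D : ℕ) (rk : ℕ → Pt E m → ℝ) {i j : ℕ}
    (h : i ≤ j) : EX g η Λ Γ tm D rk i ⊆ EX g η Λ Γ tm D rk j := by
  induction j with
  | zero =>
    have : i = 0 := by omega
    rw [this]
  | succ j ih =>
    rcases Nat.lt_or_ge i (j + 1) with h1 | h1
    · refine (ih (by omega)).trans ?_
      rw [EX]
      exact Finset.subset_union_left
    · have : i = j + 1 := by omega
      rw [this]

theorem EX_card {g : Gd E m} {η Λ Γ Λ₀ AH AS : ℝ} {T J tm : ℕ} (hη : 0 < η) (hη1 : η ≤ 1)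
    (hG : GadProp g (η / 2) Λ₀ T) (hΛ₀ : Λ₀ ≤ Λ / Γ) (hΓ : 1 ≤ Γ) (hΛ : 0 < Λ)
    (hJ : (m : ℝ) ^ (Fintype.card E) < (1 + η / 4) ^ J)
    (hAH : Fintype.card E * (Γ * Λ) * 4 ^ tm ≤ AH) (hAH1 : 1 ≤ AH)
    (hAS : 4 ^ (Fintype.card E) * (J * T) * 4 ^ tm ≤ AS) (hAS1 : 1 ≤ AS) (D : ℕ)
    (rk : ℕ → Pt E m → ℝ) (i : ℕ) :
    (#(EX g η Λ Γ tm D rk i) : ℝ) * (m : ℝ) ^ (D + 1) ≤ i *
      (AH ^ (D + 1) * AS ^ (Fintype.card E) * 4 ^ tm * (m : ℝ) ^ (Fintype.card E)) := by
  classical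
  induction i with
  | zero => simp [EX]
  | succ i ih =>
    rw [EX]
    have h1 : (#(EX g η Λ Γ tm D rk i ∪ er ⟨g, η, Λ, Γ, tm, rk i⟩ (D + 1) (Fintype.card E) tm
        (univ \ EX g η Λ Γ tm D rk i) ∅) : ℝ) ≤ #(EX g η Λ Γ tm D rk i) +
        #(er ⟨g, η, Λ, Γ, tm, rk i⟩ (D + 1) (Fintype.card E) tm
          (univ \ EX g η Λ Γ tm D rk i) ∅) := by
      exact_mod_cast Finset.card_union_le _ _
    have h2 := er_card (p := ⟨g, η, Λ, Γ, tm, rk i⟩) hη hη1 hG hΛ₀ hΓ hΛ hJ hAH hAH1 hAS hAS1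
      _ (D + 1) (Fintype.card E) le_rfl tm (univ \ EX g η Λ Γ tm D rk i) ∅
      (fun x _ x' _ a ha => absurd ha (Finset.notMem_empty a))
    simp only [Finset.card_empty, zero_add] at h2
    have h3 : (0 : ℝ) ≤ (m : ℝ) ^ (D + 1) := by positivity
    have h4 := mul_le_mul_of_nonneg_right h1 h3
    rw [add_mul] at h4
    push_cast
    linarith

theorem dag_bound {g : Gd E m} {η Λ₀ Λ Γ AH AS : ℝ} {T J D w t₀ tm : ℕ}
    {H : Finset E → (E → Bool) → Prop}
    (hH : Adv H w) (hD : 4 * D ≤ w) (hDt : 2 * D + t₀ ≤ w) (hG : GadProp g (η / 2) Λ₀ T)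
    (hG' : GadProp (sw g) (η / 2) Λ₀ T) (hη : (2 : ℝ) ^ (Fintype.card E) * η ≤ 1 / 2)
    (hη0 : 0 < η) (hη1 : η ≤ 1) (hT : 1 ≤ T) (hΛ : 0 < Λ) (hΓ : 1 ≤ Γ)
    (hL : (2 : ℝ) ^ (2 * Fintype.card E + 4) * T ≤
      Λ / Γ / 2 ^ (Fintype.card E + 1) / (2 * kap (Fintype.card E)))
    (hLΛ : Λ₀ ≤ Λ / Γ / 2 ^ (Fintype.card E + 1) / (2 * kap (Fintype.card E)))
    (hm : 2 * (Λ / Γ) ≤ m)
    (htm : (m : ℝ) ^ (Fintype.card E) < Γ ^ tm)
    (hJ : (m : ℝ) ^ (Fintype.card E) < (1 + η / 4) ^ J)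
    (hAH : Fintype.card E * (Γ * Λ) * 4 ^ tm ≤ AH) (hAH1 : 1 ≤ AH)
    (hAS : 4 ^ (Fintype.card E) * (J * T) * 4 ^ tm ≤ AS) (hAS1 : 1 ≤ AS)
    {n : ℕ} {a b : ℕ → Pt E m → ℝ}
    (hnode : ∀ i < n, (∃ K : Finset E, #K ≤ t₀ ∧ ∀ x y, a i x < b i y → ¬ H K (gv g x y)) ∨
      (∃ j < i, ∃ l < i, ∀ x y, a i x < b i y → (a j x < b j y ∨ a l x < b l y)))
    (hroot : ∃ r < n, ∀ x y, a r x < b r y) :
    (m : ℝ) ^ (D + 1) < 2 * n * (AH ^ (D + 1) * AS ^ (Fintype.card E) * 4 ^ tm) := by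
  classical
  set N := Fintype.card E with hN
  have hGη : ∀ {g' : Gd E m}, GadProp g' (η / 2) Λ₀ T → GadProp g' η Λ₀ T := by
    intro g' h Z S hS hd
    refine le_trans (Finset.card_le_card ?_) (h Z S hS hd)
    intro y hy
    unfold badRep at hy ⊢
    rw [Finset.mem_image] at hy ⊢
    obtain ⟨y', hy', rfl⟩ := hy
    refine ⟨y', ?_, rfl⟩
    rw [Finset.mem_filter] at hy' ⊢
    refine ⟨Finset.mem_univ _, ?_⟩
    have h1 := hy'.2
    unfold IsBad at h1 ⊢
    have h2 : (0 : ℝ) ≤ #Z := by positivity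
    nlinarith
  set L₁ : ℝ := Λ / Γ / 2 ^ (N + 1) with hL₁
  set L : ℝ := L₁ / (2 * kap N) with hLdef
  have hkap : 0 < kap N := by unfold kap; positivity
  have hkapr : (1 : ℝ) ≤ kap N := by exact_mod_cast hkap
  have hΓpos : 0 < Γ := by linarith
  have hL₁pos : 0 < L₁ := by positivity
  have hLL₁ : L ≤ L₁ := by
    rw [hLdef]
    apply div_le_self hL₁pos.le
    linarith
  have hL₁Λ : L₁ ≤ Λ / Γ := by
    rw [hL₁]
    apply div_le_self (by positivity)
    exact one_le_pow₀ (by norm_num)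
  have hΛ₀Λ : Λ₀ ≤ Λ / Γ := hLΛ.trans (hLL₁.trans hL₁Λ)
  have hkL : (kap N : ℝ) * L = L₁ / 2 := by
    rw [hLdef]; field_simp
  let AX : ℕ → Finset (Pt E m) := EX g η Λ Γ tm D a
  let AY : ℕ → Finset (Pt E m) := EX (sw g) η Λ Γ tm D (fun i y => - b i y)
  have claim : ∀ i, i < n → ¬ ∃ (P R : Finset (Pt E m)) (I J : Finset E) (ρ : E → Bool),
      P ⊆ univ \ AX i ∧ R ⊆ univ \ AY i ∧ (∀ x ∈ P, ∀ y ∈ R, a i x < b i y) ∧
        Struc g H D L₁ P R I J ρ := by
    intro i
    induction i using Nat.strong_induction_on with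
    | _ i ih =>
      intro hi
      rintro ⟨P, R, I, J, ρ, hPX, hRY, hab, hst⟩
      rcases hnode i hi with hleaf | hinner
      · obtain ⟨K, hK, hviol⟩ := hleaf
        obtain ⟨z, hz1, hz2⟩ := hH.ext_many K hst.hρ (by
          have h1 := Finset.card_union_le I J
          have h3 := hst.cI
          have h4 := hst.cJ
          omega)
        obtain ⟨x, hx, y, hy, hgz, -, -⟩ := select (Λ := Λ / Γ) (I := ∅) (J := ∅) (hGη hG)
          (hGη hG') hη hη0.le hT
          (hL.trans hLL₁) (hLΛ.trans hLL₁) hΛ₀Λ hst.neP hst.neR hst.dP hst.dR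
          (fun _ => ∅) (fun _ => ∅) (fun x _ a _ ξ => by simp) (fun x _ a _ ξ => by simp) z
          (fun x hx y hy a ha => by rw [hst.val x hx y hy a ha, hz1 a ha])
        apply hviol x y (hab x hx y hy)
        apply hH.congr (hH.mono hz2 Finset.subset_union_right)
        intro a _
        exact (hgz a).symm
      · obtain ⟨j, hj, l, hl, hcov⟩ := hinner
        -- choose a child and large subsets
        have hchild : ∃ c < i, ∃ P' ⊆ P, ∃ R' ⊆ R, #P ≤ 2 * #P' ∧ #R ≤ 2 * #R' ∧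
            ∀ x ∈ P', ∀ y ∈ R', a c x < b c y := by
          obtain ⟨v₁, h1, h2⟩ := exists_medianR P hst.neP (a j)
          obtain ⟨v₂, h3, h4⟩ := exists_medianR R hst.neR (b j)
          by_cases hv : v₁ < v₂
          · refine ⟨j, hj, {x ∈ P | a j x ≤ v₁}, Finset.filter_subset _ _,
              {y ∈ R | v₂ ≤ b j y}, Finset.filter_subset _ _, h1, h4, ?_⟩
            intro x hx y hy
            rw [Finset.mem_filter] at hx hy
            linarith [hx.2, hy.2]
          · refine ⟨l, hl, {x ∈ P | v₁ ≤ a j x}, Finset.filter_subset _ _,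
              {y ∈ R | b j y ≤ v₂}, Finset.filter_subset _ _, h2, h3, ?_⟩
            intro x hx y hy
            rw [Finset.mem_filter] at hx hy
            rcases hcov x y (hab x hx.1 y hy.1) with h | h
            · exfalso; linarith [hx.2, hy.2]
            · exact h
        obtain ⟨c, hc, P', hP', R', hR', hcP, hcR, hrel⟩ := hchild
        have hP'ne : P'.Nonempty := by
          rw [← Finset.card_pos]; have := hst.neP.card_pos; omega
        have hR'ne : R'.Nonempty := by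
          rw [← Finset.card_pos]; have := hst.neR.card_pos; omega
        obtain ⟨x₀, hx₀, hx₀m⟩ := Finset.exists_max_image P' (a c) hP'ne
        obtain ⟨y₀, hy₀, hy₀m⟩ := Finset.exists_min_image R' (b c) hR'ne
        have hP'X : P' ⊆ up (a c) (univ \ AX c) (a c x₀) := by
          intro x hx
          rw [mem_up, Finset.mem_sdiff]
          refine ⟨⟨Finset.mem_univ _, ?_⟩, hx₀m x hx⟩
          intro h
          exact (Finset.mem_sdiff.1 (hPX (hP' hx))).2 (EX_mono _ _ _ _ _ _ _ hc.le h)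
        have hR'Y : R' ⊆ up (fun y => - b c y) (univ \ AY c) (- b c y₀) := by
          intro y hy
          rw [mem_up, Finset.mem_sdiff]
          refine ⟨⟨Finset.mem_univ _, ?_⟩, neg_le_neg (hy₀m y hy)⟩
          intro h
          exact (Finset.mem_sdiff.1 (hRY (hR' hy))).2 (EX_mono _ _ _ _ _ _ _ hc.le h)
        have hPe : ∀ x ∈ P', x ∉ er ⟨g, η, Λ, Γ, tm, a c⟩ (D + 1) N tm (univ \ AX c) ∅ := by
          intro x hx h
          apply (Finset.mem_sdiff.1 (hPX (hP' hx))).2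
          apply EX_mono _ _ _ _ _ _ _ (show c + 1 ≤ i by omega)
          rw [EX]
          exact Finset.mem_union_right _ h
        have hRe : ∀ y ∈ R', y ∉ er ⟨sw g, η, Λ, Γ, tm, fun y => - b c y⟩ (D + 1) N tm
            (univ \ AY c) ∅ := by
          intro y hy h
          apply (Finset.mem_sdiff.1 (hRY (hR' hy))).2
          apply EX_mono _ _ _ _ _ _ _ (show c + 1 ≤ i by omega)
          rw [EX]
          exact Finset.mem_union_right _ h
        have hst' : Struc g H D (kap N * L) P' R' I J ρ := by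
          refine ⟨hP'ne, hR'ne, hst.cI, hst.cJ, hst.fP.mono hP', hst.fR.mono hR', ?_, ?_,
            hst.hρ, fun x hx y hy a ha => hst.val x (hP' hx) y (hR' hy) a ha⟩
          · rw [hkL]
            apply dense_sub (κ := 2) (by norm_num) (by positivity) _ hP' (by exact_mod_cast hcP)
            rw [mul_div_cancel₀ _ (by norm_num)]; exact hst.dP
          · rw [hkL]
            apply dense_sub (κ := 2) (by norm_num) (by positivity) _ hR' (by exact_mod_cast hcR)
            rw [mul_div_cancel₀ _ (by norm_num)]; exact hst.dR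
        obtain ⟨P'', R'', I', J', ρ', h1, h2, h3⟩ := step hH hD (hGη hG) (hGη hG') hη hη0.le hT
          hL hLΛ hΛ₀Λ hΛ hΓ htm hst' hP'X hR'Y hPe hRe
        apply ih c hc (hc.trans hi)
        refine ⟨P'', R'', I', J', ρ', h1.trans up_subset, h2.trans up_subset, ?_, h3⟩
        intro x hx y hy
        have h4 := (mem_up.1 (h1 hx)).2
        have h5 := (mem_up.1 (h2 hy)).2
        have h6 := hrel x₀ hx₀ y₀ hy₀
        linarith
  -- the root
  by_contra hcon
  push Not at hcon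
  obtain ⟨r, hr, hroot⟩ := hroot
  have hmpos : (0 : ℝ) < m := by
    have : 0 < Λ / Γ := by positivity
    linarith
  have hpow : (0 : ℝ) < (m : ℝ) ^ (D + 1) := by positivity
  have hsmall : ∀ A : Finset (Pt E m), (#A : ℝ) * (m : ℝ) ^ (D + 1) ≤ r *
      (AH ^ (D + 1) * AS ^ N * 4 ^ tm * (m : ℝ) ^ N) → 2 * (#A : ℝ) ≤ (m : ℝ) ^ N := by
    intro A hA
    have hC : 0 ≤ AH ^ (D + 1) * AS ^ N * 4 ^ tm := by positivity
    have h1 : (r : ℝ) ≤ n := by exact_mod_cast hr.le
    have h2 : 2 * (#A : ℝ) * (m : ℝ) ^ (D + 1) ≤ (m : ℝ) ^ N * (m : ℝ) ^ (D + 1) := by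
      calc 2 * (#A : ℝ) * (m : ℝ) ^ (D + 1) = 2 * ((#A : ℝ) * (m : ℝ) ^ (D + 1)) := by ring
        _ ≤ 2 * (r * (AH ^ (D + 1) * AS ^ N * 4 ^ tm * (m : ℝ) ^ N)) := by linarith
        _ = (m : ℝ) ^ N * (2 * r * (AH ^ (D + 1) * AS ^ N * 4 ^ tm)) := by ring
        _ ≤ (m : ℝ) ^ N * (2 * n * (AH ^ (D + 1) * AS ^ N * 4 ^ tm)) := by
            apply mul_le_mul_of_nonneg_left _ (by positivity)
            apply mul_le_mul_of_nonneg_right _ hC
            linarith
        _ ≤ (m : ℝ) ^ N * (m : ℝ) ^ (D + 1) := mul_le_mul_of_nonneg_left hcon (by positivity)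
    exact le_of_mul_le_mul_right h2 hpow
  have hX := hsmall (AX r) (EX_card hη0 hη1 hG hΛ₀Λ hΓ hΛ hJ hAH hAH1 hAS hAS1 D a r)
  have hY := hsmall (AY r) (EX_card hη0 hη1 hG' hΛ₀Λ hΓ hΛ hJ hAH hAH1 hAS hAS1 D _ r)
  have hroots : ∀ A : Finset (Pt E m), 2 * (#A : ℝ) ≤ (m : ℝ) ^ N →
      (univ \ A).Nonempty ∧ Dense L₁ (univ \ A) ∅ := by
    intro A hA
    have hcard : (#(univ \ A) : ℝ) + #A = (m : ℝ) ^ N := by
      have h1 := Finset.card_sdiff_add_card_eq_card (Finset.subset_univ A)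
      have h2 : #(univ : Finset (Pt E m)) = m ^ N := by simp [hN]
      rw [h2] at h1
      exact_mod_cast h1
    have hpos : (0 : ℝ) < (m : ℝ) ^ N := by positivity
    refine ⟨?_, ?_⟩
    · rw [← Finset.card_pos]
      have : (0 : ℝ) < #(univ \ A) := by linarith
      exact_mod_cast this
    · intro c _ ξ
      have h1 : (#{x ∈ univ \ A | x c = ξ} : ℝ) ≤ #{x : Pt E m | x c = ξ} := by
        exact_mod_cast Finset.card_le_card (Finset.filter_subset_filter _ (Finset.sdiff_subset))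
      have h2 : (#{x : Pt E m | x c = ξ} : ℝ) * m = (m : ℝ) ^ N := by
        exact_mod_cast card_fibre c ξ
      have h3 : L₁ * #{x ∈ univ \ A | x c = ξ} ≤ m / 2 * #{x : Pt E m | x c = ξ} := by
        apply mul_le_mul _ h1 (by positivity) (by positivity)
        linarith
      linarith
  obtain ⟨z, hz⟩ := hH.empty
  apply claim r hr
  refine ⟨univ \ AX r, univ \ AY r, ∅, ∅, z, Finset.Subset.refl _, Finset.Subset.refl _,
    fun x _ y _ => hroot x y, ?_⟩
  have hfixe : ∀ Z : Finset (Pt E m), Fixed Z ∅ := fun Z x _ x' _ a ha =>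
    absurd ha (Finset.notMem_empty a)
  refine ⟨(hroots _ hX).1, (hroots _ hY).1, by simp, by simp, hfixe _, hfixe _,
    (hroots _ hX).2, (hroots _ hY).2, by simpa using hz, ?_⟩
  intro x _ y _ a ha
  simp at ha

end Pool.Agent.H29.Ch
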