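import Mathlib

/-!
Proof lines evaluated by a short message followed by a real comparison can be turned into real
comparisons.
-/

open Finset

namespace Pool.Agent.H29.Ch

section

variable {X : Type} (s V r : ℕ) (α : ℕ → X → ℕ) (a : ℕ → X → ℝ) (b : ℕ → ℕ → X → ℝ)
  (p q : ℕ → ℕ)

/-- index of the pair of messages of the two premises -/
def prm (t : ℕ) (x : X) : ℕ := α (p t) x * V + α (q t) x

open Classical in
noncomputable def na (i : ℕ) (x : X) : ℝ :=
  if i < s * V * (2 * (V * V) + 1) then
    (if α (i / (2 * (V * V) + 1) / V) x = i / (2 * (V * V) + 1) % V ∧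
      (if i % (2 * (V * V) + 1) < V * V then
        prm V α p q (i / (2 * (V * V) + 1) / V) x = i % (2 * (V * V) + 1)
      else 2 * (V * V) - i % (2 * (V * V) + 1) ≤ prm V α p q (i / (2 * (V * V) + 1) / V) x)
      then a (i / (2 * (V * V) + 1) / V) x else 2)
  else (if V - (i - s * V * (2 * (V * V) + 1)) ≤ α r x then 0 else 2)

open Classical in
noncomputable def nb (i : ℕ) (y : X) : ℝ :=
  if i < s * V * (2 * (V * V) + 1) then
    b (i / (2 * (V * V) + 1) / V) (i / (2 * (V * V) + 1) % V) y
  else 1

variable {s V r α a b p q}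

theorem code_div {M i' j : ℕ} (hj : j < M) : (i' * M + j) / M = i' := by
  rw [mul_comm, Nat.mul_add_div (by omega), Nat.div_eq_of_lt hj, add_zero]

theorem code_mod {M i' j : ℕ} (hj : j < M) : (i' * M + j) % M = j := by
  rw [mul_comm, Nat.mul_add_mod, Nat.mod_eq_of_lt hj]

/-- membership in a node of a line -/
theorem node_iff (hb : ∀ t v y, b t v y ≤ 2) {t v j : ℕ} (ht : t < s) (hv : v < V)
    (hj : j < 2 * (V * V) + 1) (x y : X) :
    na s V r α a p q ((t * V + v) * (2 * (V * V) + 1) + j) x <
      nb s V b ((t * V + v) * (2 * (V * V) + 1) + j) y ↔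
    α t x = v ∧ (if j < V * V then prm V α p q t x = j else 2 * (V * V) - j ≤ prm V α p q t x) ∧
      a t x < b t v y := by
  classical
  set M := 2 * (V * V) + 1 with hM
  have hlt : (t * V + v) * M + j < s * V * M := by
    have h1 : t * V + v + 1 ≤ s * V := by
      have h2 : (t + 1) * V ≤ s * V := Nat.mul_le_mul_right _ ht
      rw [add_mul, one_mul] at h2
      omega
    have h3 : (t * V + v + 1) * M ≤ s * V * M := Nat.mul_le_mul_right _ h1
    rw [add_mul, one_mul] at h3
    omega
  unfold na nb
  rw [if_pos hlt, if_pos hlt, code_div hj, code_mod hj, code_div hv, code_mod hv]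
  by_cases h : α t x = v ∧
      (if j < V * V then prm V α p q t x = j else 2 * (V * V) - j ≤ prm V α p q t x)
  · rw [if_pos h]
    exact ⟨fun h' => ⟨h.1, h.2, h'⟩, fun h' => h'.2.2⟩
  · rw [if_neg h]
    constructor
    · intro h'
      exact absurd h' (not_lt.2 (hb t v y))
    · rintro ⟨h1, h2, -⟩
      exact absurd ⟨h1, h2⟩ h

theorem root_iff {j : ℕ} (x y : X) :
    na s V r α a p q (s * V * (2 * (V * V) + 1) + j) x <
      nb s V b (s * V * (2 * (V * V) + 1) + j) y ↔ V - j ≤ α r x := by
  classical
  have hn : ¬ (s * V * (2 * (V * V) + 1) + j < s * V * (2 * (V * V) + 1)) := by omega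
  unfold na nb
  rw [if_neg hn, if_neg hn, Nat.add_sub_cancel_left]
  by_cases h : V - j ≤ α r x
  · rw [if_pos h]
    exact ⟨fun _ => h, fun _ => by norm_num⟩
  · rw [if_neg h]
    constructor
    · intro h'; norm_num at h'
    · intro h'; exact absurd h' h

end

/-- From lines `a t x < b t (α t x) y`, evaluated by a message `α t x < V` and a comparison, to
plain comparisons. -/
theorem msg_dag {X : Type} (Ax : (X → X → Prop) → Prop)
    (hAx : ∀ F F' : X → X → Prop, (∀ x y, F' x y → F x y) → Ax F → Ax F')
    (hAx0 : Ax (fun _ _ => False))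
    (s V : ℕ) (α : ℕ → X → ℕ) (a : ℕ → X → ℝ) (b : ℕ → ℕ → X → ℝ)
    (hα : ∀ t x, α t x < V) (hb : ∀ t v y, b t v y ≤ 2)
    (hline : ∀ t < s, Ax (fun x y => a t x < b t (α t x) y) ∨
      ∃ p < t, ∃ q < t, ∀ x y, a t x < b t (α t x) y →
        a p x < b p (α p x) y ∨ a q x < b q (α q x) y)
    (hroot : ∃ t < s, ∀ x y, a t x < b t (α t x) y) (hX : Nonempty X) :
    ∃ (N : ℕ) (a' b' : ℕ → X → ℝ), N ≤ 5 * (s * V ^ 3) ∧
      (∀ i < N, Ax (fun x y => a' i x < b' i y) ∨
        ∃ j < i, ∃ l < i, ∀ x y, a' i x < b' i y → a' j x < b' j y ∨ a' l x < b' l y) ∧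
      ∃ r < N, ∀ x y, a' r x < b' r y := by
  classical
  obtain ⟨r, hr, hroot⟩ := hroot
  obtain ⟨x₀⟩ := hX
  have hV : 0 < V := lt_of_le_of_lt (Nat.zero_le _) (hα 0 x₀)
  have hs : 0 < s := by omega
  have hch : ∀ t, ∃ p q : ℕ, t < s → (Ax (fun x y => a t x < b t (α t x) y) ∨
      (p < t ∧ q < t ∧ ∀ x y, a t x < b t (α t x) y →
        a p x < b p (α p x) y ∨ a q x < b q (α q x) y)) := by
    intro t
    by_cases ht : t < s
    · rcases hline t ht with h | ⟨p, hp, q, hq, h⟩
      · exact ⟨0, 0, fun _ => Or.inl h⟩
      · exact ⟨p, q, fun _ => Or.inr ⟨hp, hq, h⟩⟩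
    · exact ⟨0, 0, fun h => absurd h ht⟩
  choose p q hpq using hch
  set M := 2 * (V * V) + 1 with hM
  have hprm : ∀ t x, prm V α p q t x < V * V := by
    intro t x
    unfold prm
    have h1 := hα (p t) x
    have h2 := hα (q t) x
    have h3 : (α (p t) x + 1) * V ≤ V * V := Nat.mul_le_mul_right _ h1
    rw [add_mul, one_mul] at h3
    omega
  have hempty : ∀ F : X → X → Prop, (∀ x y, ¬ F x y) → Ax F := fun F hF =>
    hAx _ _ (fun x y h => hF x y h) hAx0
  refine ⟨s * V * M + V + 1, na s V r α a p q, nb s V b, ?_, ?_, ?_⟩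
  · have h1 : 1 ≤ V ^ 3 := Nat.one_le_pow _ _ hV
    have h2 : V ≤ V ^ 3 := Nat.le_self_pow (by norm_num) _
    have h3 : s * V ≤ s * V ^ 3 := Nat.mul_le_mul_left _ h2
    have h4 : V ^ 3 ≤ s * V ^ 3 := Nat.le_mul_of_pos_left _ hs
    have h5 : s * V * M = 2 * (s * V ^ 3) + s * V := by rw [hM]; ring
    omega
  · intro i hi
    rcases Nat.lt_or_ge i (s * V * M) with hlt | hge
    · -- decompose the index
      obtain ⟨t, v, j, ht, hv, hj, rfl⟩ : ∃ t v j, t < s ∧ v < V ∧ j < M ∧
          i = (t * V + v) * M + j := by
        refine ⟨i / M / V, i / M % V, i % M, ?_, Nat.mod_lt _ hV, Nat.mod_lt _ (by omega), ?_⟩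
        · rw [Nat.div_div_eq_div_mul, Nat.div_lt_iff_lt_mul (by positivity)]
          calc i < s * V * M := hlt
            _ = s * (M * V) := by ring
        · have h1 := Nat.div_add_mod (i / M) V
          have h2 := Nat.div_add_mod i M
          rw [mul_comm (i / M / V) V, h1, mul_comm (i / M) M, h2]
      rcases hpq t ht with hax | ⟨hp, hq, himp⟩
      · left
        refine hAx _ _ (fun x y h => ?_) hax
        rw [node_iff hb ht hv hj] at h
        obtain ⟨h1, -, h3⟩ := h
        rw [h1]; exact h3
      · rcases Nat.lt_or_ge j (V * V) with hjW | hjW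
        · -- a leaf of the chain
          right
          have hv1 : j / V < V := by rwa [Nat.div_lt_iff_lt_mul hV]
          have hv2 : j % V < V := Nat.mod_lt _ hV
          have hidx : ∀ c v', c < t → v' < V →
              (c * V + v') * M + 2 * (V * V) < (t * V + v) * M + j := by
            intro c v' hc hv'
            have h2 : (c + 1) * V ≤ t * V := Nat.mul_le_mul_right _ hc
            rw [add_mul, one_mul] at h2
            have h3 : (c * V + v' + 1) * M ≤ (t * V + v) * M := by
              apply Nat.mul_le_mul_right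
              omega
            rw [add_mul, one_mul] at h3
            omega
          refine ⟨(p t * V + j / V) * M + 2 * (V * V), hidx _ _ hp hv1,
            (q t * V + j % V) * M + 2 * (V * V), hidx _ _ hq hv2, ?_⟩
          intro x y h
          rw [node_iff hb ht hv hj, if_pos hjW] at h
          obtain ⟨h1, h2, h3⟩ := h
          have hdm : α (p t) x = j / V ∧ α (q t) x = j % V := by
            unfold prm at h2
            rw [← h2]
            exact ⟨(code_div (hα _ _)).symm, (code_mod (hα _ _)).symm⟩
          rw [node_iff hb (hp.trans ht) hv1 (by omega), node_iff hb (hq.trans ht) hv2 (by omega),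
            if_neg (by omega), if_neg (by omega)]
          rw [← h1] at h3
          rcases himp x y h3 with h4 | h4
          · left
            rw [hdm.1] at h4
            exact ⟨hdm.1, by omega, h4⟩
          · right
            rw [hdm.2] at h4
            exact ⟨hdm.2, by omega, h4⟩
        · rcases Nat.eq_or_lt_of_le hjW with hjW' | hjW'
          · left
            apply hempty
            intro x y h
            rw [node_iff hb ht hv hj, if_neg (by omega)] at h
            have := hprm t x
            omega
          · right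
            refine ⟨(t * V + v) * M + (2 * (V * V) - j), by omega,
              (t * V + v) * M + (j - 1), by omega, ?_⟩
            intro x y h
            rw [node_iff hb ht hv hj, if_neg (by omega)] at h
            obtain ⟨h1, h2, h3⟩ := h
            rw [node_iff hb ht hv (by omega), node_iff hb ht hv (by omega), if_pos (by omega),
              if_neg (by omega)]
            rcases Nat.eq_or_lt_of_le h2 with h4 | h4
            · left; exact ⟨h1, h4.symm, h3⟩
            · right; exact ⟨h1, by omega, h3⟩
    · obtain ⟨j, rfl⟩ := Nat.exists_eq_add_of_le hge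
      rcases Nat.eq_zero_or_pos j with rfl | hj
      · left
        apply hempty
        intro x y h
        rw [root_iff] at h
        have := hα r x
        omega
      · right
        have hv : V - j < V := by omega
        refine ⟨(r * V + (V - j)) * M + 2 * (V * V), ?_, s * V * M + (j - 1), by omega, ?_⟩
        · have h2 : (r + 1) * V ≤ s * V := Nat.mul_le_mul_right _ hr
          rw [add_mul, one_mul] at h2
          have h3 : (r * V + (V - j) + 1) * M ≤ s * V * M := by
            apply Nat.mul_le_mul_right
            omega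
          rw [add_mul, one_mul] at h3
          omega
        · intro x y h
          rw [root_iff] at h
          rw [node_iff hb hr hv (by omega), if_neg (by omega), root_iff]
          rcases Nat.eq_or_lt_of_le h with h4 | h4
          · left
            refine ⟨h4.symm, by omega, ?_⟩
            rw [h4]; exact hroot x y
          · right; omega
  · refine ⟨s * V * M + V, by omega, ?_⟩
    intro x y
    rw [root_iff]; omega

end Pool.Agent.H29.Ch
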