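import Pool.Agent.H29.LiftErr

/-!
One step of the simulation.
-/

open Finset

namespace Pool.Agent.H29.Lift

set_option linter.unusedSectionVars false

variable {E : Type} [Fintype E] [DecidableEq E] {m : ℕ} [NeZero m]

/-- a state of the point x inside Xc, with fixed coordinates I and imposed conditions C -/
def St (g : Gd E m) (η Λ : ℝ) (D : ℕ) (Xc : Finset (Pt E m)) (s : ℕ) (I C : Finset E)
    (β x : Pt E m) (Z : Finset (Pt E m)) : Prop :=
  (∃ f, Good g η Λ D f s x Z I) ∧ Z ⊆ Xc ∧ ∀ x' ∈ Z, ∀ a ∈ C, g a (x' a) (β a) = g a (x a) (β a)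

theorem side_step {g : Gd E m} {η Λ : ℝ} {D : ℕ} (hΛ : 1 < Λ) {Xc : Finset (Pt E m)} {s : ℕ}
    {I C : Finset E} {β : Pt E m} (A : Finset E) {P : Finset (Pt E m)} (hP : P.Nonempty)
    (hst : ∀ x ∈ P, ∃ Z, St g η Λ D Xc s I C β x Z) (hs : Fintype.card E ≤ #C + s) :
    (∃ P' ⊆ P, #P ≤ 2 ^ (Fintype.card E) * #P' ∧ ∀ x ∈ P', ∃ Z, St g η Λ D Xc s I C β x Z ∧
      ∀ S : Finset E, S.Nonempty → S ⊆ A → Disjoint S I → Disjoint S C → ¬ IsBad g η Z S β) ∨
    (∃ P' ⊆ P, ∃ (S I' : Finset E) (s' : ℕ), S ⊆ A ∧ s = s' + 1 ∧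
      Fintype.card E ≤ #(C ∪ S) + s' ∧ #P ≤ 4 ^ (Fintype.card E) * #P' ∧
      ∀ x ∈ P', ∃ Z, St g η Λ D Xc s' I' (C ∪ S) β x Z) := by
  classical
  choose! Z hZ using hst
  let pr : Pt E m → Finset E → Prop := fun x S =>
    S.Nonempty ∧ S ⊆ A ∧ Disjoint S I ∧ Disjoint S C ∧ IsBad g η (Z x) S β
  let t : Pt E m → Finset E := fun x => if h : ∃ S, pr x S then Classical.choose h else ∅
  have ht : ∀ x, (∃ S, pr x S) → pr x (t x) := by
    intro x h
    simp only [t, dif_pos h]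
    exact Classical.choose_spec h
  obtain ⟨v, hv⟩ := popular P t (2 ^ (Fintype.card E)) (by rw [Fintype.card_finset]) hP
  by_cases hv0 : v = ∅
  · left
    refine ⟨{x ∈ P | t x = v}, Finset.filter_subset _ _, hv, ?_⟩
    intro x hx
    rw [Finset.mem_filter] at hx
    refine ⟨Z x, hZ x hx.1, ?_⟩
    intro S h1 h2 h3 h4 h5
    have h6 := (ht x ⟨S, h1, h2, h3, h4, h5⟩).1
    rw [hx.2, hv0] at h6
    exact Finset.not_nonempty_empty h6
  · right
    set P1 := {x ∈ P | t x = v} with hP1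
    have hP1ne : P1.Nonempty := by
      rw [← Finset.card_pos]
      by_contra h0
      have h0' : #P1 = 0 := by omega
      rw [h0'] at hv
      have := hP.card_pos
      omega
    have hprop : ∀ x ∈ P1, pr x v := by
      intro x hx
      rw [hP1, Finset.mem_filter] at hx
      have : ∃ S, pr x S := by
        by_contra hc
        have : t x = ∅ := by simp only [t, dif_neg hc]
        exact hv0 (hx.2 ▸ this)
      rw [← hx.2]; exact ht x this
    obtain ⟨x0, hx0⟩ := hP1ne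
    have hv1 := hprop x0 hx0
    have hcard : #(C ∪ v) = #C + #v := Finset.card_union_of_disjoint hv1.2.2.2.1.symm
    have hvpos : 0 < #v := hv1.1.card_pos
    have hle : #(C ∪ v) ≤ Fintype.card E := Finset.card_le_univ _
    obtain ⟨s', hs'⟩ : ∃ s', s = s' + 1 := ⟨s - 1, by omega⟩
    subst hs'
    have hnext : ∀ x ∈ P1, ∃ (I' : Finset E) (Z' : Finset (Pt E m)),
        St g η Λ D Xc s' I' (C ∪ v) β x Z' := by
      intro x hx
      have hxp := hprop x hx
      have hxP : x ∈ P := (Finset.mem_filter.1 hx).1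
      obtain ⟨⟨f, hf⟩, hsub, hC⟩ := hZ x hxP
      obtain ⟨f', Z', I', _, hZ', hgood, hval⟩ := hf.next hΛ hxp.1 hxp.2.2.1 hxp.2.2.2.2
      refine ⟨I', Z', ⟨f', hgood⟩, hZ'.trans hsub, ?_⟩
      intro x' hx' a ha
      rw [Finset.mem_union] at ha
      rcases ha with ha | ha
      · exact hC x' (hZ' hx') a ha
      · exact hval x' hx' a ha
    choose! I' Z' hI' using hnext
    obtain ⟨w, hw⟩ := popular P1 I' (2 ^ (Fintype.card E)) (by rw [Fintype.card_finset])
      ⟨x0, hx0⟩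
    refine ⟨{x ∈ P1 | I' x = w}, (Finset.filter_subset _ _).trans (Finset.filter_subset _ _),
      v, w, s', hv1.2.1, rfl, by omega, ?_, ?_⟩
    · calc #P ≤ 2 ^ (Fintype.card E) * #P1 := hv
        _ ≤ 2 ^ (Fintype.card E) * (2 ^ (Fintype.card E) * #{x ∈ P1 | I' x = w}) :=
          Nat.mul_le_mul_left _ hw
        _ = 4 ^ (Fintype.card E) * #{x ∈ P1 | I' x = w} := by
          rw [show 4 = 2 * 2 by norm_num, mul_pow]; ring
    · intro x hx
      rw [Finset.mem_filter] at hx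
      refine ⟨Z' x, ?_⟩
      rw [← hx.2]
      exact hI' x hx.1

theorem closure {g : Gd E m} {η Λ : ℝ} {D : ℕ} (hΛ : 1 < Λ) {Xc Yc : Finset (Pt E m)}
    {α β : Pt E m} {I₀ J₀ : Finset E} :
    ∀ n s s' : ℕ, s + s' ≤ n → ∀ (P R : Finset (Pt E m)), P.Nonempty → R.Nonempty →
    ∀ (I J C C' : Finset E), (∀ x ∈ P, ∃ Z, St g η Λ D Xc s I C β x Z) →
    (∀ y ∈ R, ∃ W, St (sw g) η Λ D Yc s' J C' α y W) → C ⊆ J₀ → C' ⊆ I₀ →
    Fintype.card E ≤ #C + s → Fintype.card E ≤ #C' + s' →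
    ∃ P' ⊆ P, ∃ R' ⊆ R, ∃ (I' J' C₁ C₁' : Finset E) (s₁ s₁' : ℕ),
      #P ≤ (4 ^ (Fintype.card E)) ^ (n + 1) * #P' ∧ #R ≤ (4 ^ (Fintype.card E)) ^ (n + 1) * #R' ∧
      C₁ ⊆ J₀ ∧ C₁' ⊆ I₀ ∧
      (∀ x ∈ P', ∃ Z, St g η Λ D Xc s₁ I' C₁ β x Z ∧ ∀ S : Finset E, S.Nonempty →
        S ⊆ J' ∩ J₀ → Disjoint S I' → Disjoint S C₁ → ¬ IsBad g η Z S β) ∧
      (∀ y ∈ R', ∃ W, St (sw g) η Λ D Yc s₁' J' C₁' α y W ∧ ∀ S : Finset E, S.Nonempty →
        S ⊆ I' ∩ I₀ → Disjoint S J' → Disjoint S C₁' → ¬ IsBad (sw g) η W S α) := by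
  classical
  have h24 : (2 : ℕ) ^ (Fintype.card E) ≤ 4 ^ (Fintype.card E) :=
    Nat.pow_le_pow_left (by norm_num) _
  have h41 : 1 ≤ (4 : ℕ) ^ (Fintype.card E) := Nat.one_le_pow _ _ (by norm_num)
  intro n
  induction n with
  | zero =>
    intro s s' hss P R hP hR I J C C' hPst hRst hCJ hCI hs hs'
    rcases side_step hΛ (J ∩ J₀) hP hPst hs with h | h
    · obtain ⟨P1, hP1, hc1, hst1⟩ := h
      rcases side_step hΛ (I ∩ I₀) hR hRst hs' with h' | h'
      · obtain ⟨R1, hR1, hc2, hst2⟩ := h'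
        refine ⟨P1, hP1, R1, hR1, I, J, C, C', s, s', ?_, ?_, hCJ, hCI, hst1, hst2⟩
        · rw [zero_add, pow_one]; exact hc1.trans (Nat.mul_le_mul_right _ h24)
        · rw [zero_add, pow_one]; exact hc2.trans (Nat.mul_le_mul_right _ h24)
      · obtain ⟨_, _, _, _, _, _, h1, _⟩ := h'; omega
    · obtain ⟨_, _, _, _, _, _, h1, _⟩ := h; omega
  | succ n ih =>
    intro s s' hss P R hP hR I J C C' hPst hRst hCJ hCI hs hs'
    have hne : ∀ {A B : Finset (Pt E m)} {k : ℕ}, A.Nonempty → #A ≤ k * #B → B.Nonempty := by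
      intro A B k hA hAB
      rw [← Finset.card_pos]
      by_contra h0
      have h0' : #B = 0 := by omega
      rw [h0'] at hAB
      have := hA.card_pos
      omega
    have hpow : (4 ^ (Fintype.card E)) ^ (n + 1) ≤ ((4 : ℕ) ^ (Fintype.card E)) ^ (n + 1 + 1) :=
      Nat.pow_le_pow_right h41 (by omega)
    rcases side_step hΛ (J ∩ J₀) hP hPst hs with h | h
    · obtain ⟨P1, hP1, hc1, hst1⟩ := h
      rcases side_step hΛ (I ∩ I₀) hR hRst hs' with h' | h'
      · obtain ⟨R1, hR1, hc2, hst2⟩ := h'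
        have hpow2 : (4 : ℕ) ^ (Fintype.card E) ≤ (4 ^ (Fintype.card E)) ^ (n + 1 + 1) := by
          calc (4 : ℕ) ^ (Fintype.card E) = (4 ^ (Fintype.card E)) ^ 1 := (pow_one _).symm
            _ ≤ _ := Nat.pow_le_pow_right h41 (by omega)
        refine ⟨P1, hP1, R1, hR1, I, J, C, C', s, s', ?_, ?_, hCJ, hCI, hst1, hst2⟩
        · exact hc1.trans (Nat.mul_le_mul_right _ (h24.trans hpow2))
        · exact hc2.trans (Nat.mul_le_mul_right _ (h24.trans hpow2))
      · obtain ⟨R1, hR1, S, J', t, hSA, hst', hcard, hc2, hst2⟩ := h'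
        obtain ⟨P', hP', R', hR', I₂, J₂, C₂, C₂', s₂, s₂', h1, h2, h3, h4, h5, h6⟩ :=
          ih s t (by omega) P1 R1 (hne hP hc1) (hne hR hc2) I J' C (C' ∪ S)
            (fun x hx => (hst1 x hx).imp fun Z hZ => hZ.1) hst2 hCJ
            (Finset.union_subset hCI (hSA.trans Finset.inter_subset_right)) hs hcard
        refine ⟨P', hP'.trans hP1, R', hR'.trans hR1, I₂, J₂, C₂, C₂', s₂, s₂', ?_, ?_,
          h3, h4, h5, h6⟩
        · calc #P ≤ 2 ^ (Fintype.card E) * #P1 := hc1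
            _ ≤ 4 ^ (Fintype.card E) * ((4 ^ (Fintype.card E)) ^ (n + 1) * #P') :=
              Nat.mul_le_mul h24 h1
            _ = (4 ^ (Fintype.card E)) ^ (n + 1 + 1) * #P' := by ring
        · calc #R ≤ 4 ^ (Fintype.card E) * #R1 := hc2
            _ ≤ 4 ^ (Fintype.card E) * ((4 ^ (Fintype.card E)) ^ (n + 1) * #R') :=
              Nat.mul_le_mul_left _ h2
            _ = (4 ^ (Fintype.card E)) ^ (n + 1 + 1) * #R' := by ring
    · obtain ⟨P1, hP1, S, I', t, hSA, hst', hcard, hc1, hst1⟩ := h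
      obtain ⟨P', hP', R', hR', I₂, J₂, C₂, C₂', s₂, s₂', h1, h2, h3, h4, h5, h6⟩ :=
        ih t s' (by omega) P1 R (hne hP hc1) hR I' J (C ∪ S) C' hst1 hRst
          (Finset.union_subset hCJ (hSA.trans Finset.inter_subset_right)) hCI hcard hs'
      refine ⟨P', hP'.trans hP1, R', hR', I₂, J₂, C₂, C₂', s₂, s₂', ?_, ?_, h3, h4, h5, h6⟩
      · calc #P ≤ 4 ^ (Fintype.card E) * #P1 := hc1
          _ ≤ 4 ^ (Fintype.card E) * ((4 ^ (Fintype.card E)) ^ (n + 1) * #P') :=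
            Nat.mul_le_mul_left _ h1
          _ = (4 ^ (Fintype.card E)) ^ (n + 1 + 1) * #P' := by ring
      · exact h2.trans (Nat.mul_le_mul_right _ hpow)

/-- few points of a dense set are bad for Z -/
theorem count_bad {g : Gd E m} {η Λ₀ L : ℝ} {T : ℕ} (hG : GadProp g η Λ₀ T) (hL : 0 ≤ L)
    {Z : Finset (Pt E m)} {I : Finset E} (hZ : Dense Λ₀ Z I) {R : Finset (Pt E m)}
    {J₀ : Finset E} (hR : Dense L R J₀) (B : Finset (Pt E m))
    (hB : ∀ y ∈ B, y ∈ R ∧ ∃ S : Finset E, S.Nonempty ∧ Disjoint S I ∧ ¬ S ⊆ J₀ ∧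
      IsBad g η Z S y) :
    L * #B ≤ 2 ^ (Fintype.card E) * T * #R := by
  classical
  let cd : Finset E → Prop := fun S => S.Nonempty ∧ Disjoint S I ∧ ¬ S ⊆ J₀
  have h1 : ∀ S : Finset E, cd S → ∃ a ∈ S, a ∉ J₀ := by
    intro S hS
    have := hS.2.2
    rw [Finset.not_subset] at this
    exact this
  let c : Finset E → Finset (Pt E m) := fun S =>
    (badRep g η Z S).biUnion (fun β => {y ∈ R | ∀ a ∈ S, y a = β a})
  have h2 : B ⊆ ((univ : Finset (Finset E)).filter cd).biUnion c := by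
    intro y hy
    obtain ⟨hyR, S, hS1, hS2, hS3, hS4⟩ := hB y hy
    rw [Finset.mem_biUnion]
    refine ⟨S, Finset.mem_filter.2 ⟨Finset.mem_univ _, hS1, hS2, hS3⟩, ?_⟩
    rw [Finset.mem_biUnion]
    refine ⟨nrm S y, mem_badRep hS4, Finset.mem_filter.2 ⟨hyR, ?_⟩⟩
    intro a ha
    exact (nrm_apply ha).symm
  have h3 : ∀ S, cd S → L * #(c S) ≤ T * #R := by
    intro S hS
    obtain ⟨a, haS, haJ⟩ := h1 S hS
    have h4 : (#(c S) : ℝ) ≤ ∑ β ∈ badRep g η Z S, (#{y ∈ R | y a = β a} : ℝ) := by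
      have h5 : #(c S) ≤ ∑ β ∈ badRep g η Z S, #{y ∈ R | y a = β a} := by
        refine Finset.card_biUnion_le.trans (Finset.sum_le_sum ?_)
        intro β _
        apply Finset.card_le_card
        intro y hy
        rw [Finset.mem_filter] at hy ⊢
        exact ⟨hy.1, hy.2 a haS⟩
      exact_mod_cast h5
    calc L * #(c S) ≤ L * ∑ β ∈ badRep g η Z S, (#{y ∈ R | y a = β a} : ℝ) :=
          mul_le_mul_of_nonneg_left h4 hL
      _ = ∑ β ∈ badRep g η Z S, L * (#{y ∈ R | y a = β a} : ℝ) := Finset.mul_sum _ _ _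
      _ ≤ ∑ β ∈ badRep g η Z S, (#R : ℝ) := Finset.sum_le_sum fun β _ => hR a haJ _
      _ = #(badRep g η Z S) * #R := by rw [Finset.sum_const, nsmul_eq_mul]
      _ ≤ T * #R := by
          apply mul_le_mul_of_nonneg_right _ (by positivity)
          have := hG Z S hS.1 (fun a ha ξ => hZ a (Finset.disjoint_left.1 hS.2.1 ha) ξ)
          exact_mod_cast this
  have h6 : (#B : ℝ) ≤ ∑ S ∈ (univ : Finset (Finset E)).filter cd, (#(c S) : ℝ) := by
    have := (Finset.card_le_card h2).trans Finset.card_biUnion_le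
    exact_mod_cast this
  calc L * #B ≤ L * ∑ S ∈ (univ : Finset (Finset E)).filter cd, (#(c S) : ℝ) :=
        mul_le_mul_of_nonneg_left h6 hL
    _ = ∑ S ∈ (univ : Finset (Finset E)).filter cd, L * (#(c S) : ℝ) := Finset.mul_sum _ _ _
    _ ≤ ∑ S ∈ (univ : Finset (Finset E)).filter cd, (T * #R : ℝ) :=
        Finset.sum_le_sum fun S hS => h3 S (Finset.mem_filter.1 hS).2
    _ = #((univ : Finset (Finset E)).filter cd) * (T * #R) := by
        rw [Finset.sum_const, nsmul_eq_mul]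
    _ ≤ 2 ^ (Fintype.card E) * (T * #R) := by
        apply mul_le_mul_of_nonneg_right _ (by positivity)
        have : #((univ : Finset (Finset E)).filter cd) ≤ 2 ^ (Fintype.card E) := by
          refine (Finset.card_filter_le _ _).trans ?_
          rw [Finset.card_univ, Fintype.card_finset]
        exact_mod_cast this
    _ = 2 ^ (Fintype.card E) * T * #R := by ring

/-- selection of a pair with prescribed gadget values avoiding all coincidences -/
theorem select {g : Gd E m} {η Λ₀ Λ L : ℝ} {T : ℕ} (hG : GadProp g η Λ₀ T)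
    (hG' : GadProp (sw g) η Λ₀ T) (hη : (2 : ℝ) ^ (Fintype.card E) * η ≤ 1 / 2) (hη0 : 0 ≤ η)
    (hT : 1 ≤ T)
    (hL : (2 : ℝ) ^ (2 * Fintype.card E + 4) * T ≤ L) (hLΛ : Λ₀ ≤ L) (hΛ : Λ₀ ≤ Λ)
    {P R : Finset (Pt E m)} (hP : P.Nonempty) (hR : R.Nonempty) {I₀ J₀ I J : Finset E}
    (hPd : Dense L P I₀) (hRd : Dense L R J₀) (Z W : Pt E m → Finset (Pt E m))
    (hZ : ∀ x ∈ P, Dense Λ (Z x) I) (hW : ∀ y ∈ R, Dense Λ (W y) J) (z : E → Bool)
    (hz : ∀ x ∈ P, ∀ y ∈ R, ∀ a ∈ I₀ ∪ J₀, g a (x a) (y a) = z a) :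
    ∃ x ∈ P, ∃ y ∈ R, (∀ a, g a (x a) (y a) = z a) ∧
      (∀ S : Finset E, S.Nonempty → Disjoint S I → ¬ S ⊆ J₀ → ¬ IsBad g η (Z x) S y) ∧
      (∀ S : Finset E, S.Nonempty → Disjoint S J → ¬ S ⊆ I₀ → ¬ IsBad (sw g) η (W y) S x) := by
  classical
  set N := Fintype.card E with hN
  have hPpos : (0 : ℝ) < #P := by exact_mod_cast hP.card_pos
  have hRpos : (0 : ℝ) < #R := by exact_mod_cast hR.card_pos
  have hL0 : 0 ≤ L := le_trans (by positivity) hL
  have hTpos : (0 : ℝ) < T := by exact_mod_cast hT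
  have hLpos : 0 < L := lt_of_lt_of_le (by positivity) hL
  set v : ℝ := 1 / 2 ^ (N + 4) with hv
  have hvpos : 0 < v := by positivity
  have hvL : (2 : ℝ) ^ N * T ≤ v * L := by
    have h1 : v * ((2 : ℝ) ^ (2 * N + 4) * T) ≤ v * L := mul_le_mul_of_nonneg_left hL hvpos.le
    have h2 : v * ((2 : ℝ) ^ (2 * N + 4) * T) = (2 : ℝ) ^ N * T := by
      rw [hv, show 2 * N + 4 = N + (N + 4) by ring, pow_add 2 N (N + 4)]
      field_simp
    linarith
  -- the three exceptional sets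
  let B1 : Pt E m → Finset (Pt E m) := fun x => {y ∈ R | ∃ S : Finset E, S.Nonempty ∧
    Disjoint S I ∧ ¬ S ⊆ J₀ ∧ IsBad g η (Z x) S y}
  let B2 : Pt E m → Finset (Pt E m) := fun y => {x ∈ P | ∃ S : Finset E, S.Nonempty ∧
    Disjoint S J ∧ ¬ S ⊆ I₀ ∧ IsBad (sw g) η (W y) S x}
  let B3 : Finset (Pt E m) := {y ∈ R | ∃ S : Finset E, S.Nonempty ∧
    Disjoint S (I₀ ∪ J₀) ∧ ¬ S ⊆ J₀ ∧ IsBad g η P S y}
  have hB : ∀ {b r : ℝ}, L * b ≤ 2 ^ N * T * r → 0 ≤ r → b ≤ v * r := by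
    intro b r h hr
    have h1 : L * b ≤ L * (v * r) := by
      calc L * b ≤ 2 ^ N * T * r := h
        _ ≤ v * L * r := mul_le_mul_of_nonneg_right hvL hr
        _ = L * (v * r) := by ring
    exact le_of_mul_le_mul_left h1 hLpos
  have hB1 : ∀ x ∈ P, (#(B1 x) : ℝ) ≤ v * #R := by
    intro x hx
    apply hB _ (by positivity)
    exact count_bad hG hL0 (dense_mono hΛ (hZ x hx)) hRd _ (fun y hy => Finset.mem_filter.1 hy)
  have hB2 : ∀ y ∈ R, (#(B2 y) : ℝ) ≤ v * #P := by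
    intro y hy
    apply hB _ (by positivity)
    exact count_bad hG' hL0 (dense_mono hΛ (hW y hy)) hPd _ (fun x hx => Finset.mem_filter.1 hx)
  have hPd' : Dense Λ₀ P (I₀ ∪ J₀) := by
    intro a ha ξ
    apply dense_mono hLΛ hPd a
    intro h; exact ha (Finset.mem_union_left _ h)
  have hB3 : (#B3 : ℝ) ≤ v * #R := by
    apply hB _ (by positivity)
    exact count_bad hG hL0 hPd' hRd _ (fun y hy => Finset.mem_filter.1 hy)
  -- counting pairs
  let G : Finset (Pt E m × Pt E m) := {p ∈ P ×ˢ R | ∀ a, g a (p.1 a) (p.2 a) = z a}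
  let E1 : Finset (Pt E m × Pt E m) := {p ∈ P ×ˢ R | p.2 ∈ B1 p.1}
  let E2 : Finset (Pt E m × Pt E m) := {p ∈ P ×ˢ R | p.1 ∈ B2 p.2}
  have hE1 : (#E1 : ℝ) ≤ v * #P * #R := by
    have h1 : #E1 ≤ ∑ x ∈ P, #(B1 x) := by
      have : E1 ⊆ P.biUnion (fun x => (B1 x).image (fun y => (x, y))) := by
        intro p hp
        rw [Finset.mem_filter, Finset.mem_product] at hp
        rw [Finset.mem_biUnion]
        exact ⟨p.1, hp.1.1, Finset.mem_image.2 ⟨p.2, hp.2, rfl⟩⟩
      refine (Finset.card_le_card this).trans (Finset.card_biUnion_le.trans ?_)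
      exact Finset.sum_le_sum fun x _ => Finset.card_image_le
    calc (#E1 : ℝ) ≤ ∑ x ∈ P, (#(B1 x) : ℝ) := by exact_mod_cast h1
      _ ≤ ∑ x ∈ P, v * #R := Finset.sum_le_sum hB1
      _ = v * #P * #R := by rw [Finset.sum_const, nsmul_eq_mul]; ring
  have hE2 : (#E2 : ℝ) ≤ v * #P * #R := by
    have h1 : #E2 ≤ ∑ y ∈ R, #(B2 y) := by
      have : E2 ⊆ R.biUnion (fun y => (B2 y).image (fun x => (x, y))) := by
        intro p hp
        rw [Finset.mem_filter, Finset.mem_product] at hp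
        rw [Finset.mem_biUnion]
        exact ⟨p.2, hp.1.2, Finset.mem_image.2 ⟨p.1, hp.2, rfl⟩⟩
      refine (Finset.card_le_card this).trans (Finset.card_biUnion_le.trans ?_)
      exact Finset.sum_le_sum fun x _ => Finset.card_image_le
    calc (#E2 : ℝ) ≤ ∑ y ∈ R, (#(B2 y) : ℝ) := by exact_mod_cast h1
      _ ≤ ∑ y ∈ R, v * #P := Finset.sum_le_sum hB2
      _ = v * #P * #R := by rw [Finset.sum_const, nsmul_eq_mul]; ring
  have hG3 : (1 - v) * #P * #R ≤ 2 ^ (N + 1) * #G := by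
    have h1 : ∀ y ∈ R \ B3, (#P : ℝ) ≤ 2 ^ (N + 1) * #{x ∈ P | ∀ a, g a (x a) (y a) = z a} := by
      intro y hy
      rw [Finset.mem_sdiff] at hy
      have h2 := fraction g η P (I₀ ∪ J₀)ᶜ y z hη hη0 (by
        intro S hS hSne
        by_contra hc
        push Not at hc
        apply hy.2
        rw [Finset.mem_filter]
        have hdis : Disjoint S (I₀ ∪ J₀) := by
          rw [Finset.disjoint_left]
          intro a ha
          exact Finset.mem_compl.1 (hS ha)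
        refine ⟨hy.1, S, hSne, hdis, ?_, hc⟩
        intro hSJ
        obtain ⟨a, ha⟩ := hSne
        exact Finset.disjoint_left.1 hdis ha (Finset.mem_union_right _ (hSJ ha)))
      have h3 : {x ∈ P | ∀ a ∈ (I₀ ∪ J₀)ᶜ, g a (x a) (y a) = z a} =
          {x ∈ P | ∀ a, g a (x a) (y a) = z a} := by
        apply Finset.filter_congr
        intro x hx
        constructor
        · intro h a
          by_cases ha : a ∈ I₀ ∪ J₀
          · exact hz x hx y hy.1 a ha
          · exact h a (Finset.mem_compl.2 ha)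
        · intro h a _; exact h a
      rw [h3] at h2
      exact h2
    have h4 : ∑ y ∈ R \ B3, #{x ∈ P | ∀ a, g a (x a) (y a) = z a} ≤ #G := by
      have h5 : (R \ B3).biUnion (fun y => ({x ∈ P | ∀ a, g a (x a) (y a) = z a}).image
          (fun x => (x, y))) ⊆ G := by
        intro p hp
        rw [Finset.mem_biUnion] at hp
        obtain ⟨y, hy, hp⟩ := hp
        rw [Finset.mem_image] at hp
        obtain ⟨x, hx, rfl⟩ := hp
        rw [Finset.mem_filter] at hx
        rw [Finset.mem_filter, Finset.mem_product]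
        exact ⟨⟨hx.1, (Finset.mem_sdiff.1 hy).1⟩, hx.2⟩
      refine le_trans (le_of_eq ?_) (Finset.card_le_card h5)
      rw [Finset.card_biUnion]
      · apply Finset.sum_congr rfl
        intro y _
        rw [Finset.card_image_of_injective]
        intro x x' h
        exact (Prod.mk.injEq _ _ _ _ ▸ h).1
      · intro y _ y' _ hyy
        rw [Function.onFun, Finset.disjoint_left]
        intro p hp hp'
        rw [Finset.mem_image] at hp hp'
        obtain ⟨x, _, rfl⟩ := hp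
        obtain ⟨x', _, h⟩ := hp'
        exact hyy (Prod.mk.inj h).2.symm
    have h6 : (#(R \ B3) : ℝ) ≥ (1 - v) * #R := by
      have h7 : #R ≤ #(R \ B3) + #B3 := by
        have := Finset.card_le_card (show R ⊆ (R \ B3) ∪ B3 by
          intro y hy; by_cases h : y ∈ B3
          · exact Finset.mem_union_right _ h
          · exact Finset.mem_union_left _ (Finset.mem_sdiff.2 ⟨hy, h⟩))
        exact this.trans (Finset.card_union_le _ _)
      have h8 : (#R : ℝ) ≤ #(R \ B3) + #B3 := by exact_mod_cast h7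
      linarith
    calc (1 - v) * #P * #R = ((1 - v) * #R) * #P := by ring
      _ ≤ #(R \ B3) * #P := mul_le_mul_of_nonneg_right h6 hPpos.le
      _ = ∑ y ∈ R \ B3, (#P : ℝ) := by rw [Finset.sum_const, nsmul_eq_mul]
      _ ≤ ∑ y ∈ R \ B3, 2 ^ (N + 1) * (#{x ∈ P | ∀ a, g a (x a) (y a) = z a} : ℝ) :=
          Finset.sum_le_sum h1
      _ = 2 ^ (N + 1) * ∑ y ∈ R \ B3, (#{x ∈ P | ∀ a, g a (x a) (y a) = z a} : ℝ) :=
          (Finset.mul_sum _ _ _).symm
      _ ≤ 2 ^ (N + 1) * #G := by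
          apply mul_le_mul_of_nonneg_left _ (by positivity)
          exact_mod_cast h4
  have hlt : #(E1 ∪ E2) < #G := by
    have h1 : (#(E1 ∪ E2) : ℝ) ≤ #E1 + #E2 := by exact_mod_cast Finset.card_union_le _ _
    have h2 : (2 : ℝ) ^ (N + 1) * #(E1 ∪ E2) < 2 ^ (N + 1) * #G := by
      have h3 : (2 : ℝ) ^ (N + 1) * #(E1 ∪ E2) ≤ 2 ^ (N + 1) * (2 * (v * #P * #R)) := by
        apply mul_le_mul_of_nonneg_left _ (by positivity)
        linarith
      have h4 : (2 : ℝ) ^ (N + 1) * (2 * (v * #P * #R)) = 1 / 4 * (#P * #R) := by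
        rw [hv, show N + 4 = (N + 1) + 3 by ring, pow_add 2 (N + 1) 3]
        field_simp
        ring
      have h5 : v ≤ 1 / 16 := by
        rw [hv]
        apply one_div_le_one_div_of_le (by norm_num)
        calc (16 : ℝ) = 2 ^ 4 := by norm_num
          _ ≤ 2 ^ (N + 4) := pow_le_pow_right₀ (by norm_num) (by omega)
      have h6 : 0 < (#P : ℝ) * #R := by positivity
      nlinarith
    have h3 := lt_of_mul_lt_mul_left h2 (by positivity)
    exact_mod_cast h3
  obtain ⟨p, hpG, hpE⟩ := Finset.exists_mem_notMem_of_card_lt_card hlt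
  rw [Finset.mem_filter, Finset.mem_product] at hpG
  rw [Finset.mem_union, not_or] at hpE
  refine ⟨p.1, hpG.1.1, p.2, hpG.1.2, hpG.2, ?_, ?_⟩
  · intro S h1 h2 h3 h4
    apply hpE.1
    rw [Finset.mem_filter, Finset.mem_product]
    exact ⟨hpG.1, Finset.mem_filter.2 ⟨hpG.1.2, S, h1, h2, h3, h4⟩⟩
  · intro S h1 h2 h3 h4
    apply hpE.2
    rw [Finset.mem_filter, Finset.mem_product]
    exact ⟨hpG.1, Finset.mem_filter.2 ⟨hpG.1.1, S, h1, h2, h3, h4⟩⟩

/-- adversary families of local assignments -/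
structure Adv (H : Finset E → (E → Bool) → Prop) (w : ℕ) : Prop where
  empty : ∃ z, H ∅ z
  mono : ∀ {K K' z}, H K z → K' ⊆ K → H K' z
  congr : ∀ {K z z'}, H K z → (∀ a ∈ K, z a = z' a) → H K z'
  ext : ∀ {K z}, H K z → #K < w → ∀ a, ∃ z', (∀ b ∈ K, z' b = z b) ∧ H (insert a K) z'

theorem Adv.ext_many {H : Finset E → (E → Bool) → Prop} {w : ℕ} (hH : Adv H w)
    (K' : Finset E) : ∀ {K : Finset E} {z : E → Bool}, H K z → #K + #K' ≤ w →
      ∃ z', (∀ b ∈ K, z' b = z b) ∧ H (K ∪ K') z' := by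
  classical
  induction K' using Finset.induction_on with
  | empty =>
    intro K z h _
    exact ⟨z, fun _ _ => rfl, by simpa using h⟩
  | insert a K' ha ih =>
    intro K z h hw
    rw [Finset.card_insert_of_notMem ha] at hw
    obtain ⟨z', h1, h2⟩ := ih h (by omega)
    obtain ⟨z'', h3, h4⟩ := hH.ext h2 (by
      have := Finset.card_union_le K K'
      omega) a
    refine ⟨z'', ?_, ?_⟩
    · intro b hb
      rw [h3 b (Finset.mem_union_left _ hb), h1 b hb]
    · have : K ∪ insert a K' = insert a (K ∪ K') := by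
        ext b; simp only [Finset.mem_union, Finset.mem_insert]; tauto
      rw [this]; exact h4

/-- structured pairs of sets -/
structure Struc (g : Gd E m) (H : Finset E → (E → Bool) → Prop) (D : ℕ) (L : ℝ)
    (P R : Finset (Pt E m)) (I J : Finset E) (ρ : E → Bool) : Prop where
  neP : P.Nonempty
  neR : R.Nonempty
  cI : #I ≤ D
  cJ : #J ≤ D
  fP : Fixed P I
  fR : Fixed R J
  dP : Dense L P I
  dR : Dense L R J
  hρ : H (I ∪ J) ρ
  val : ∀ x ∈ P, ∀ y ∈ R, ∀ a ∈ I ∪ J, g a (x a) (y a) = ρ a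

theorem dense_sub {L κ : ℝ} (hκ : 0 < κ) (hL : 0 ≤ L) {P P' : Finset (Pt E m)} {I : Finset E}
    (hP : Dense (κ * L) P I) (hsub : P' ⊆ P) (hc : (#P : ℝ) ≤ κ * #P') : Dense L P' I := by
  intro a ha ξ
  have h1 := hP a ha ξ
  have h2 : (#{x ∈ P' | x a = ξ} : ℝ) ≤ #{x ∈ P | x a = ξ} := by
    exact_mod_cast Finset.card_le_card (Finset.filter_subset_filter _ hsub)
  have h3 : κ * L * #{x ∈ P' | x a = ξ} ≤ κ * L * #{x ∈ P | x a = ξ} :=
    mul_le_mul_of_nonneg_left h2 (by positivity)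
  have h4 : κ * (L * #{x ∈ P' | x a = ξ}) ≤ κ * #P' := by linarith
  exact le_of_mul_le_mul_left h4 hκ

/-- the constant lost in one step -/
def kap (N : ℕ) : ℕ := 2 ^ N * (4 ^ N) ^ (2 * N + 1)

theorem step {g : Gd E m} {η Λ₀ Λ L : ℝ} {T D w : ℕ} {H : Finset E → (E → Bool) → Prop}
    (hH : Adv H w) (hD : 4 * D ≤ w) (hG : GadProp g η Λ₀ T)
    (hG' : GadProp (sw g) η Λ₀ T) (hη : (2 : ℝ) ^ (Fintype.card E) * η ≤ 1 / 2) (hη0 : 0 ≤ η)
    (hT : 1 ≤ T)
    (hL : (2 : ℝ) ^ (2 * Fintype.card E + 4) * T ≤ L) (hLΛ : Λ₀ ≤ L) (hΛ : Λ₀ ≤ Λ) (hΛ1 : 1 < Λ)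
    {P R X Y : Finset (Pt E m)} {I₀ J₀ : Finset E} {ρ : E → Bool}
    (hst : Struc g H D (kap (Fintype.card E) * L) P R I₀ J₀ ρ) (hPX : P ⊆ X) (hRY : R ⊆ Y)
    (hPe : ∀ x ∈ P, x ∉ err g η Λ (D + 1) (Fintype.card E) X ∅)
    (hRe : ∀ y ∈ R, y ∉ err (sw g) η Λ (D + 1) (Fintype.card E) Y ∅) :
    ∃ (P' R' : Finset (Pt E m)) (I J : Finset E) (ρ' : E → Bool), P' ⊆ X ∧ R' ⊆ Y ∧
      Struc g H D (Λ / 2 ^ (Fintype.card E + 1)) P' R' I J ρ' := by
  classical
  obtain ⟨α, hα⟩ := hst.neP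
  obtain ⟨β, hβ⟩ := hst.neR
  -- initial states
  have hfixe : ∀ Z : Finset (Pt E m), Fixed Z ∅ := fun Z x _ x' _ a ha =>
    absurd ha (Finset.notMem_empty a)
  have hX0 : ∀ x ∈ P, ∃ (I : Finset E) (Z : Finset (Pt E m)),
      St g η Λ D X (Fintype.card E) I ∅ β x Z := by
    intro x hx
    obtain ⟨f', Z', I', _, hZ', hgood⟩ := good_of_not_err (D := D) hΛ1 (D + 1) (Fintype.card E)
      X ∅ x (hPX hx) (hPe x hx) (hfixe X) (by simp)
    exact ⟨I', Z', ⟨f', hgood⟩, hZ', fun _ _ a ha => absurd ha (Finset.notMem_empty a)⟩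
  have hY0 : ∀ y ∈ R, ∃ (J : Finset E) (W : Finset (Pt E m)),
      St (sw g) η Λ D Y (Fintype.card E) J ∅ α y W := by
    intro y hy
    obtain ⟨f', Z', I', _, hZ', hgood⟩ := good_of_not_err (D := D) hΛ1 (D + 1) (Fintype.card E)
      Y ∅ y (hRY hy) (hRe y hy) (hfixe Y) (by simp)
    exact ⟨I', Z', ⟨f', hgood⟩, hZ', fun _ _ a ha => absurd ha (Finset.notMem_empty a)⟩
  choose! IX ZX hIX using hX0
  choose! JY WY hJY using hY0
  obtain ⟨I₁, hI₁⟩ := popular P IX (2 ^ (Fintype.card E)) (by rw [Fintype.card_finset]) hst.neP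
  obtain ⟨J₁, hJ₁⟩ := popular R JY (2 ^ (Fintype.card E)) (by rw [Fintype.card_finset]) hst.neR
  have hne : ∀ {A B : Finset (Pt E m)} {k : ℕ}, A.Nonempty → #A ≤ k * #B → B.Nonempty := by
    intro A B k hA hAB
    rw [← Finset.card_pos]
    by_contra h0
    have h0' : #B = 0 := by omega
    rw [h0'] at hAB
    have := hA.card_pos
    omega
  obtain ⟨P', hP', R', hR', I, J, C, C', s, s', hc1, hc2, hCJ, hCI, hPst, hRst⟩ :=
    closure (D := D) (Xc := X) (Yc := Y) (α := α) (β := β) (I₀ := I₀) (J₀ := J₀) hΛ1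
      (2 * Fintype.card E) (Fintype.card E) (Fintype.card E) (by omega)
      {x ∈ P | IX x = I₁} {y ∈ R | JY y = J₁} (hne hst.neP hI₁) (hne hst.neR hJ₁) I₁ J₁ ∅ ∅
      (by
        intro x hx
        rw [Finset.mem_filter] at hx
        refine ⟨ZX x, ?_⟩
        rw [← hx.2]
        exact hIX x hx.1)
      (by
        intro y hy
        rw [Finset.mem_filter] at hy
        refine ⟨WY y, ?_⟩
        rw [← hy.2]
        exact hJY y hy.1)
      (Finset.empty_subset _) (Finset.empty_subset _) (by simp) (by simp)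
  have hP'P : P' ⊆ P := hP'.trans (Finset.filter_subset _ _)
  have hR'R : R' ⊆ R := hR'.trans (Finset.filter_subset _ _)
  have hcP : #P ≤ kap (Fintype.card E) * #P' := by
    calc #P ≤ 2 ^ (Fintype.card E) * #{x ∈ P | IX x = I₁} := hI₁
      _ ≤ 2 ^ (Fintype.card E) * ((4 ^ (Fintype.card E)) ^ (2 * Fintype.card E + 1) * #P') :=
        Nat.mul_le_mul_left _ hc1
      _ = kap (Fintype.card E) * #P' := by unfold kap; ring
  have hcR : #R ≤ kap (Fintype.card E) * #R' := by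
    calc #R ≤ 2 ^ (Fintype.card E) * #{y ∈ R | JY y = J₁} := hJ₁
      _ ≤ 2 ^ (Fintype.card E) * ((4 ^ (Fintype.card E)) ^ (2 * Fintype.card E + 1) * #R') :=
        Nat.mul_le_mul_left _ hc2
      _ = kap (Fintype.card E) * #R' := by unfold kap; ring
  have hP'ne := hne hst.neP hcP
  have hR'ne := hne hst.neR hcR
  have hκ : (0 : ℝ) < kap (Fintype.card E) := by
    have : 0 < kap (Fintype.card E) := by unfold kap; positivity
    exact_mod_cast this
  have hL0 : 0 ≤ L := le_trans (by positivity) hL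
  have hP'd : Dense L P' I₀ := dense_sub hκ hL0 hst.dP hP'P (by exact_mod_cast hcP)
  have hR'd : Dense L R' J₀ := dense_sub hκ hL0 hst.dR hR'R (by exact_mod_cast hcR)
  choose! Z hZ using hPst
  choose! W hW using hRst
  have hI : #I ≤ D := by
    obtain ⟨x, hx⟩ := hP'ne
    obtain ⟨f, hf⟩ := (hZ x hx).1.1
    exact hf.card_le
  have hJ : #J ≤ D := by
    obtain ⟨x, hx⟩ := hR'ne
    obtain ⟨f, hf⟩ := (hW x hx).1.1
    exact hf.card_le
  obtain ⟨z, hz1, hz2⟩ := hH.ext_many (I ∪ J) hst.hρ (by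
    have h1 := Finset.card_union_le I₀ J₀
    have h2 := Finset.card_union_le I J
    have h3 := hst.cI
    have h4 := hst.cJ
    omega)
  obtain ⟨x, hx, y, hy, hgz, hxS, hyS⟩ := select hG hG' hη hη0 hT hL hLΛ hΛ hP'ne hR'ne
    hP'd hR'd Z W (fun x hx => by obtain ⟨f, hf⟩ := (hZ x hx).1.1; exact hf.dense)
    (fun y hy => by obtain ⟨f, hf⟩ := (hW y hy).1.1; exact hf.dense) z
    (fun x hx y hy a ha => by
      rw [hst.val x (hP'P hx) y (hR'R hy) a ha, hz1 a ha])
  obtain ⟨⟨⟨f, hf⟩, hZX, hZC⟩, hZcl⟩ := hZ x hx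
  obtain ⟨⟨⟨f', hf'⟩, hWY, hWC⟩, hWcl⟩ := hW y hy
  have hyβ : ∀ a ∈ J₀, y a = β a := fun a ha => hst.fR y (hR'R hy) β hβ a ha
  have hxα : ∀ a ∈ I₀, x a = α a := fun a ha => hst.fP x (hP'P hx) α hα a ha
  set Pn := {x' ∈ Z x | ∀ a ∈ J \ I, g a (x' a) (y a) = z a} with hPn
  set Rn := {y' ∈ W y | ∀ a ∈ I \ J, g a (x a) (y' a) = z a} with hRn
  have hPcard : (#(Z x) : ℝ) ≤ 2 ^ (Fintype.card E + 1) * #Pn := by
    have h1 := fraction g η (Z x) ((J \ I) \ C) y z hη hη0 (by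
      intro S hS hSne
      by_contra hc
      push Not at hc
      have hbad : IsBad g η (Z x) S y := hc
      have hSI : Disjoint S I := by
        rw [Finset.disjoint_left]
        intro a ha
        exact (Finset.mem_sdiff.1 (Finset.mem_sdiff.1 (hS ha)).1).2
      have hSC : Disjoint S C := by
        rw [Finset.disjoint_left]
        intro a ha
        exact (Finset.mem_sdiff.1 (hS ha)).2
      by_cases hSJ : S ⊆ J₀
      · apply hZcl S hSne _ hSI hSC (hbad.congr (fun a ha => hyβ a (hSJ ha)))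
        intro a ha
        rw [Finset.mem_inter]
        exact ⟨(Finset.mem_sdiff.1 (Finset.mem_sdiff.1 (hS ha)).1).1, hSJ ha⟩
      · exact hxS S hSne hSI hSJ hbad)
    have h2 : {x' ∈ Z x | ∀ a ∈ (J \ I) \ C, g a (x' a) (y a) = z a} = Pn := by
      rw [hPn]
      apply Finset.filter_congr
      intro x' hx'
      constructor
      · intro h a ha
        by_cases haC : a ∈ C
        · have h3 := hZC x' hx' a haC
          rw [← hyβ a (hCJ haC)] at h3
          rw [h3]; exact hgz a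
        · exact h a (Finset.mem_sdiff.2 ⟨ha, haC⟩)
      · intro h a ha
        exact h a (Finset.mem_sdiff.1 ha).1
    rw [h2] at h1
    exact h1
  have hRcard : (#(W y) : ℝ) ≤ 2 ^ (Fintype.card E + 1) * #Rn := by
    have h1 := fraction (sw g) η (W y) ((I \ J) \ C') x z hη hη0 (by
      intro S hS hSne
      by_contra hc
      push Not at hc
      have hbad : IsBad (sw g) η (W y) S x := hc
      have hSI : Disjoint S J := by
        rw [Finset.disjoint_left]
        intro a ha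
        exact (Finset.mem_sdiff.1 (Finset.mem_sdiff.1 (hS ha)).1).2
      have hSC : Disjoint S C' := by
        rw [Finset.disjoint_left]
        intro a ha
        exact (Finset.mem_sdiff.1 (hS ha)).2
      by_cases hSJ : S ⊆ I₀
      · apply hWcl S hSne _ hSI hSC (hbad.congr (fun a ha => hxα a (hSJ ha)))
        intro a ha
        rw [Finset.mem_inter]
        exact ⟨(Finset.mem_sdiff.1 (Finset.mem_sdiff.1 (hS ha)).1).1, hSJ ha⟩
      · exact hyS S hSne hSI hSJ hbad)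
    have h2 : {y' ∈ W y | ∀ a ∈ (I \ J) \ C', sw g a (y' a) (x a) = z a} = Rn := by
      rw [hRn]
      apply Finset.filter_congr
      intro y' hy'
      constructor
      · intro h a ha
        by_cases haC : a ∈ C'
        · have h3 := hWC y' hy' a haC
          rw [← hxα a (hCI haC)] at h3
          have h4 : g a (x a) (y' a) = g a (x a) (y a) := h3
          rw [h4]; exact hgz a
        · exact h a (Finset.mem_sdiff.2 ⟨ha, haC⟩)
      · intro h a ha
        exact h a (Finset.mem_sdiff.1 ha).1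
    rw [h2] at h1
    exact h1
  have hdens : ∀ {Z' Pn' : Finset (Pt E m)} {I' : Finset E}, Dense Λ Z' I' → Pn' ⊆ Z' →
      (#Z' : ℝ) ≤ 2 ^ (Fintype.card E + 1) * #Pn' →
      Dense (Λ / 2 ^ (Fintype.card E + 1)) Pn' I' := by
    intro Z' Pn' I' h1 h2 h3
    apply dense_sub (κ := 2 ^ (Fintype.card E + 1)) (by positivity) (by positivity) _ h2 h3
    rw [mul_div_cancel₀ _ (by positivity)]
    exact h1
  refine ⟨Pn, Rn, I, J, z, (Finset.filter_subset _ _).trans hZX,
    (Finset.filter_subset _ _).trans hWY, ?_⟩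
  refine ⟨⟨x, ?_⟩, ⟨y, ?_⟩, hI, hJ, hf.fixed.mono (Finset.filter_subset _ _),
    hf'.fixed.mono (Finset.filter_subset _ _), hdens hf.dense (Finset.filter_subset _ _) hPcard,
    hdens hf'.dense (Finset.filter_subset _ _) hRcard, hH.mono hz2 Finset.subset_union_right, ?_⟩
  · rw [hPn, Finset.mem_filter]; exact ⟨hf.mem, fun a _ => hgz a⟩
  · rw [hRn, Finset.mem_filter]; exact ⟨hf'.mem, fun a _ => hgz a⟩
  · intro x' hx' y' hy' a ha
    rw [hPn, Finset.mem_filter] at hx'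
    rw [hRn, Finset.mem_filter] at hy'
    rw [Finset.mem_union] at ha
    by_cases haI : a ∈ I
    · have h1 : x' a = x a := hf.fixed x' hx'.1 x hf.mem a haI
      by_cases haJ : a ∈ J
      · have h2 : y' a = y a := hf'.fixed y' hy'.1 y hf'.mem a haJ
        rw [h1, h2]; exact hgz a
      · rw [h1]; exact hy'.2 a (Finset.mem_sdiff.2 ⟨haI, haJ⟩)
    · have haJ : a ∈ J := by tauto
      have h2 : y' a = y a := hf'.fixed y' hy'.1 y hf'.mem a haJ
      rw [h2]; exact hx'.2 a (Finset.mem_sdiff.2 ⟨haJ, haI⟩)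

end Pool.Agent.H29.Lift
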