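import Pool.Agent.H29.ChErr
import Pool.Agent.H29.LiftStep

/-!
One step of the simulation, for chains.
-/

open Finset

namespace Pool.Agent.H29.Ch

open Pool.Agent.H29.Lift hiding St side_step closure step Good

set_option linter.unusedSectionVars false

variable {E : Type} [Fintype E] [DecidableEq E] {m : ℕ} [NeZero m]

/-- a state of the point x inside Xc, with fixed coordinates I and imposed conditions C -/
def St (p : Par E m) (D : ℕ) (θ : ℝ) (Xc : Finset (Pt E m)) (s : ℕ) (I C : Finset E)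
    (β x : Pt E m) (Z : Finset (Pt E m)) : Prop :=
  (∃ f, Good p D θ f s x Z I) ∧ Z ⊆ Xc ∧
    ∀ x' ∈ Z, ∀ a ∈ C, p.g a (x' a) (β a) = p.g a (x a) (β a)

theorem side_step {p : Par E m} {D : ℕ} {θ : ℝ} (hΓ : 1 ≤ p.Γ) (hΛ : 0 < p.Λ)
    (htm : (m : ℝ) ^ (Fintype.card E) < p.Γ ^ p.tm) {Xc : Finset (Pt E m)} {s : ℕ}
    {I C : Finset E} {β : Pt E m} (A : Finset E) {P : Finset (Pt E m)} (hP : P.Nonempty)
    (hst : ∀ x ∈ P, ∃ Z, St p D θ Xc s I C β x Z) (hs : Fintype.card E ≤ #C + s) :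
    (∃ P' ⊆ P, #P ≤ 2 ^ (Fintype.card E) * #P' ∧ ∀ x ∈ P', ∃ Z, St p D θ Xc s I C β x Z ∧
      ∀ S : Finset E, S.Nonempty → S ⊆ A → Disjoint S I → Disjoint S C → ¬ IsBad p.g p.η (up p.rk Z θ) S β) ∨
    (∃ P' ⊆ P, ∃ (S I' : Finset E) (s' : ℕ), S ⊆ A ∧ s = s' + 1 ∧
      Fintype.card E ≤ #(C ∪ S) + s' ∧ #P ≤ 4 ^ (Fintype.card E) * #P' ∧
      ∀ x ∈ P', ∃ Z, St p D θ Xc s' I' (C ∪ S) β x Z) := by
  classical
  choose! Z hZ using hst
  let pr : Pt E m → Finset E → Prop := fun x S =>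
    S.Nonempty ∧ S ⊆ A ∧ Disjoint S I ∧ Disjoint S C ∧ IsBad p.g p.η (up p.rk (Z x) θ) S β
  let t : Pt E m → Finset E := fun x => if h : ∃ S, pr x S then Classical.choose h else ∅
  have ht : ∀ x, (∃ S, pr x S) → pr x (t x) := by
    intro x h
    simp only [t, dif_pos h]
    exact Classical.choose_spec h
  obtain ⟨v, hv⟩ := popular P t (2 ^ (Fintype.card E)) (by rw [Fintype.card_finset]) hP
  by_cases hv0 : v = ∅
  · left
    refine ⟨{x ∈ P | t x = v}, Finset.filter_subset _ _, hv, ?_⟩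
    intro x hx
    rw [Finset.mem_filter] at hx
    refine ⟨Z x, hZ x hx.1, ?_⟩
    intro S h1 h2 h3 h4 h5
    have h6 := (ht x ⟨S, h1, h2, h3, h4, h5⟩).1
    rw [hx.2, hv0] at h6
    exact Finset.not_nonempty_empty h6
  · right
    set P1 := {x ∈ P | t x = v} with hP1
    have hP1ne : P1.Nonempty := by
      rw [← Finset.card_pos]
      by_contra h0
      have h0' : #P1 = 0 := by omega
      rw [h0'] at hv
      have := hP.card_pos
      omega
    have hprop : ∀ x ∈ P1, pr x v := by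
      intro x hx
      rw [hP1, Finset.mem_filter] at hx
      have : ∃ S, pr x S := by
        by_contra hc
        have : t x = ∅ := by simp only [t, dif_neg hc]
        exact hv0 (hx.2 ▸ this)
      rw [← hx.2]; exact ht x this
    obtain ⟨x0, hx0⟩ := hP1ne
    have hv1 := hprop x0 hx0
    have hcard : #(C ∪ v) = #C + #v := Finset.card_union_of_disjoint hv1.2.2.2.1.symm
    have hvpos : 0 < #v := hv1.1.card_pos
    have hle : #(C ∪ v) ≤ Fintype.card E := Finset.card_le_univ _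
    obtain ⟨s', hs'⟩ : ∃ s', s = s' + 1 := ⟨s - 1, by omega⟩
    subst hs'
    have hnext : ∀ x ∈ P1, ∃ (I' : Finset E) (Z' : Finset (Pt E m)),
        St p D θ Xc s' I' (C ∪ v) β x Z' := by
      intro x hx
      have hxp := hprop x hx
      have hxP : x ∈ P := (Finset.mem_filter.1 hx).1
      obtain ⟨⟨f, hf⟩, hsub, hC⟩ := hZ x hxP
      obtain ⟨f', Z', I', _, hZ', hgood, hval⟩ := hf.next hΓ hΛ htm hxp.1 hxp.2.2.1 hxp.2.2.2.2
      refine ⟨I', Z', ⟨f', hgood⟩, hZ'.trans hsub, ?_⟩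
      intro x' hx' a ha
      rw [Finset.mem_union] at ha
      rcases ha with ha | ha
      · exact hC x' (hZ' hx') a ha
      · exact hval x' hx' a ha
    choose! I' Z' hI' using hnext
    obtain ⟨w, hw⟩ := popular P1 I' (2 ^ (Fintype.card E)) (by rw [Fintype.card_finset])
      ⟨x0, hx0⟩
    refine ⟨{x ∈ P1 | I' x = w}, (Finset.filter_subset _ _).trans (Finset.filter_subset _ _),
      v, w, s', hv1.2.1, rfl, by omega, ?_, ?_⟩
    · calc #P ≤ 2 ^ (Fintype.card E) * #P1 := hv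
        _ ≤ 2 ^ (Fintype.card E) * (2 ^ (Fintype.card E) * #{x ∈ P1 | I' x = w}) :=
          Nat.mul_le_mul_left _ hw
        _ = 4 ^ (Fintype.card E) * #{x ∈ P1 | I' x = w} := by
          rw [show 4 = 2 * 2 by norm_num, mul_pow]; ring
    · intro x hx
      rw [Finset.mem_filter] at hx
      refine ⟨Z' x, ?_⟩
      rw [← hx.2]
      exact hI' x hx.1

theorem closure {p p' : Par E m} {D : ℕ} {θ θ' : ℝ} (hΓ : 1 ≤ p.Γ) (hΛ : 0 < p.Λ)
    (htm : (m : ℝ) ^ (Fintype.card E) < p.Γ ^ p.tm) (hΓ' : 1 ≤ p'.Γ) (hΛ' : 0 < p'.Λ)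
    (htm' : (m : ℝ) ^ (Fintype.card E) < p'.Γ ^ p'.tm) {Xc Yc : Finset (Pt E m)}
    {α β : Pt E m} {I₀ J₀ : Finset E} :
    ∀ n s s' : ℕ, s + s' ≤ n → ∀ (P R : Finset (Pt E m)), P.Nonempty → R.Nonempty →
    ∀ (I J C C' : Finset E), (∀ x ∈ P, ∃ Z, St p D θ Xc s I C β x Z) →
    (∀ y ∈ R, ∃ W, St p' D θ' Yc s' J C' α y W) → C ⊆ J₀ → C' ⊆ I₀ →
    Fintype.card E ≤ #C + s → Fintype.card E ≤ #C' + s' →
    ∃ P' ⊆ P, ∃ R' ⊆ R, ∃ (I' J' C₁ C₁' : Finset E) (s₁ s₁' : ℕ),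
      #P ≤ (4 ^ (Fintype.card E)) ^ (n + 1) * #P' ∧ #R ≤ (4 ^ (Fintype.card E)) ^ (n + 1) * #R' ∧
      C₁ ⊆ J₀ ∧ C₁' ⊆ I₀ ∧
      (∀ x ∈ P', ∃ Z, St p D θ Xc s₁ I' C₁ β x Z ∧ ∀ S : Finset E, S.Nonempty →
        S ⊆ J' ∩ J₀ → Disjoint S I' → Disjoint S C₁ → ¬ IsBad p.g p.η (up p.rk Z θ) S β) ∧
      (∀ y ∈ R', ∃ W, St p' D θ' Yc s₁' J' C₁' α y W ∧ ∀ S : Finset E, S.Nonempty →
        S ⊆ I' ∩ I₀ → Disjoint S J' → Disjoint S C₁' → ¬ IsBad p'.g p'.η (up p'.rk W θ') S α) := by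
  classical
  have h24 : (2 : ℕ) ^ (Fintype.card E) ≤ 4 ^ (Fintype.card E) :=
    Nat.pow_le_pow_left (by norm_num) _
  have h41 : 1 ≤ (4 : ℕ) ^ (Fintype.card E) := Nat.one_le_pow _ _ (by norm_num)
  intro n
  induction n with
  | zero =>
    intro s s' hss P R hP hR I J C C' hPst hRst hCJ hCI hs hs'
    rcases side_step hΓ hΛ htm (J ∩ J₀) hP hPst hs with h | h
    · obtain ⟨P1, hP1, hc1, hst1⟩ := h
      rcases side_step hΓ' hΛ' htm' (I ∩ I₀) hR hRst hs' with h' | h'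
      · obtain ⟨R1, hR1, hc2, hst2⟩ := h'
        refine ⟨P1, hP1, R1, hR1, I, J, C, C', s, s', ?_, ?_, hCJ, hCI, hst1, hst2⟩
        · rw [zero_add, pow_one]; exact hc1.trans (Nat.mul_le_mul_right _ h24)
        · rw [zero_add, pow_one]; exact hc2.trans (Nat.mul_le_mul_right _ h24)
      · obtain ⟨_, _, _, _, _, _, h1, _⟩ := h'; omega
    · obtain ⟨_, _, _, _, _, _, h1, _⟩ := h; omega
  | succ n ih =>
    intro s s' hss P R hP hR I J C C' hPst hRst hCJ hCI hs hs'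
    have hne : ∀ {A B : Finset (Pt E m)} {k : ℕ}, A.Nonempty → #A ≤ k * #B → B.Nonempty := by
      intro A B k hA hAB
      rw [← Finset.card_pos]
      by_contra h0
      have h0' : #B = 0 := by omega
      rw [h0'] at hAB
      have := hA.card_pos
      omega
    have hpow : (4 ^ (Fintype.card E)) ^ (n + 1) ≤ ((4 : ℕ) ^ (Fintype.card E)) ^ (n + 1 + 1) :=
      Nat.pow_le_pow_right h41 (by omega)
    rcases side_step hΓ hΛ htm (J ∩ J₀) hP hPst hs with h | h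
    · obtain ⟨P1, hP1, hc1, hst1⟩ := h
      rcases side_step hΓ' hΛ' htm' (I ∩ I₀) hR hRst hs' with h' | h'
      · obtain ⟨R1, hR1, hc2, hst2⟩ := h'
        have hpow2 : (4 : ℕ) ^ (Fintype.card E) ≤ (4 ^ (Fintype.card E)) ^ (n + 1 + 1) := by
          calc (4 : ℕ) ^ (Fintype.card E) = (4 ^ (Fintype.card E)) ^ 1 := (pow_one _).symm
            _ ≤ _ := Nat.pow_le_pow_right h41 (by omega)
        refine ⟨P1, hP1, R1, hR1, I, J, C, C', s, s', ?_, ?_, hCJ, hCI, hst1, hst2⟩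
        · exact hc1.trans (Nat.mul_le_mul_right _ (h24.trans hpow2))
        · exact hc2.trans (Nat.mul_le_mul_right _ (h24.trans hpow2))
      · obtain ⟨R1, hR1, S, J', t, hSA, hst', hcard, hc2, hst2⟩ := h'
        obtain ⟨P', hP', R', hR', I₂, J₂, C₂, C₂', s₂, s₂', h1, h2, h3, h4, h5, h6⟩ :=
          ih s t (by omega) P1 R1 (hne hP hc1) (hne hR hc2) I J' C (C' ∪ S)
            (fun x hx => (hst1 x hx).imp fun Z hZ => hZ.1) hst2 hCJ
            (Finset.union_subset hCI (hSA.trans Finset.inter_subset_right)) hs hcard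
        refine ⟨P', hP'.trans hP1, R', hR'.trans hR1, I₂, J₂, C₂, C₂', s₂, s₂', ?_, ?_,
          h3, h4, h5, h6⟩
        · calc #P ≤ 2 ^ (Fintype.card E) * #P1 := hc1
            _ ≤ 4 ^ (Fintype.card E) * ((4 ^ (Fintype.card E)) ^ (n + 1) * #P') :=
              Nat.mul_le_mul h24 h1
            _ = (4 ^ (Fintype.card E)) ^ (n + 1 + 1) * #P' := by ring
        · calc #R ≤ 4 ^ (Fintype.card E) * #R1 := hc2
            _ ≤ 4 ^ (Fintype.card E) * ((4 ^ (Fintype.card E)) ^ (n + 1) * #R') :=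
              Nat.mul_le_mul_left _ h2
            _ = (4 ^ (Fintype.card E)) ^ (n + 1 + 1) * #R' := by ring
    · obtain ⟨P1, hP1, S, I', t, hSA, hst', hcard, hc1, hst1⟩ := h
      obtain ⟨P', hP', R', hR', I₂, J₂, C₂, C₂', s₂, s₂', h1, h2, h3, h4, h5, h6⟩ :=
        ih t s' (by omega) P1 R (hne hP hc1) hR I' J (C ∪ S) C' hst1 hRst
          (Finset.union_subset hCJ (hSA.trans Finset.inter_subset_right)) hCI hcard hs'
      refine ⟨P', hP'.trans hP1, R', hR', I₂, J₂, C₂, C₂', s₂, s₂', ?_, ?_, h3, h4, h5, h6⟩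
      · calc #P ≤ 4 ^ (Fintype.card E) * #P1 := hc1
          _ ≤ 4 ^ (Fintype.card E) * ((4 ^ (Fintype.card E)) ^ (n + 1) * #P') :=
            Nat.mul_le_mul_left _ h1
          _ = (4 ^ (Fintype.card E)) ^ (n + 1 + 1) * #P' := by ring
      · exact h2.trans (Nat.mul_le_mul_right _ hpow)

theorem step {g : Gd E m} {η Λ₀ Λ Γ L θ θ' : ℝ} {rk rk' : Pt E m → ℝ} {T D w tm : ℕ}
    {H : Finset E → (E → Bool) → Prop}
    (hH : Adv H w) (hD : 4 * D ≤ w) (hG : GadProp g η Λ₀ T)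
    (hG' : GadProp (sw g) η Λ₀ T) (hη : (2 : ℝ) ^ (Fintype.card E) * η ≤ 1 / 2) (hη0 : 0 ≤ η)
    (hT : 1 ≤ T)
    (hL : (2 : ℝ) ^ (2 * Fintype.card E + 4) * T ≤ L) (hLΛ : Λ₀ ≤ L) (hΛ : Λ₀ ≤ Λ / Γ)
    (hΛ1 : 0 < Λ) (hΓ : 1 ≤ Γ) (htm : (m : ℝ) ^ (Fintype.card E) < Γ ^ tm)
    {P R X Y : Finset (Pt E m)} {I₀ J₀ : Finset E} {ρ : E → Bool}
    (hst : Struc g H D (kap (Fintype.card E) * L) P R I₀ J₀ ρ) (hPX : P ⊆ up rk X θ)
    (hRY : R ⊆ up rk' Y θ')
    (hPe : ∀ x ∈ P, x ∉ er ⟨g, η, Λ, Γ, tm, rk⟩ (D + 1) (Fintype.card E) tm X ∅)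
    (hRe : ∀ y ∈ R, y ∉ er ⟨sw g, η, Λ, Γ, tm, rk'⟩ (D + 1) (Fintype.card E) tm Y ∅) :
    ∃ (P' R' : Finset (Pt E m)) (I J : Finset E) (ρ' : E → Bool), P' ⊆ up rk X θ ∧
      R' ⊆ up rk' Y θ' ∧
      Struc g H D (Λ / Γ / 2 ^ (Fintype.card E + 1)) P' R' I J ρ' := by
  classical
  set p : Par E m := ⟨g, η, Λ, Γ, tm, rk⟩ with hp
  set p' : Par E m := ⟨sw g, η, Λ, Γ, tm, rk'⟩ with hp'
  have hbig : ∀ A : Finset (Pt E m), (#A : ℝ) < Γ ^ tm := by
    intro A
    have := Finset.card_le_univ A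
    have h4 : #A ≤ m ^ (Fintype.card E) := by simpa using this
    have h5 : (#A : ℝ) ≤ (m : ℝ) ^ (Fintype.card E) := by exact_mod_cast h4
    linarith
  obtain ⟨α, hα⟩ := hst.neP
  obtain ⟨β, hβ⟩ := hst.neR
  -- initial states
  have hfixe : ∀ Z : Finset (Pt E m), Fixed Z ∅ := fun Z x _ x' _ a ha =>
    absurd ha (Finset.notMem_empty a)
  have hX0 : ∀ x ∈ P, ∃ (I : Finset E) (Z : Finset (Pt E m)),
      St p D θ X (Fintype.card E) I ∅ β x Z := by
    intro x hx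
    obtain ⟨f', Z', I', _, hZ', hgood⟩ := good_of_not_er (p := p) (D := D) hΓ hΛ1 htm θ (D + 1)
      (Fintype.card E) tm X ∅ x (hPX hx) (hbig _) (hPe x hx) (hfixe X) (by simp)
    exact ⟨I', Z', ⟨f', hgood⟩, hZ', fun _ _ a ha => absurd ha (Finset.notMem_empty a)⟩
  have hY0 : ∀ y ∈ R, ∃ (J : Finset E) (W : Finset (Pt E m)),
      St p' D θ' Y (Fintype.card E) J ∅ α y W := by
    intro y hy
    obtain ⟨f', Z', I', _, hZ', hgood⟩ := good_of_not_er (p := p') (D := D) hΓ hΛ1 htm θ' (D + 1)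
      (Fintype.card E) tm Y ∅ y (hRY hy) (hbig _) (hRe y hy) (hfixe Y) (by simp)
    exact ⟨I', Z', ⟨f', hgood⟩, hZ', fun _ _ a ha => absurd ha (Finset.notMem_empty a)⟩
  choose! IX ZX hIX using hX0
  choose! JY WY hJY using hY0
  obtain ⟨I₁, hI₁⟩ := popular P IX (2 ^ (Fintype.card E)) (by rw [Fintype.card_finset]) hst.neP
  obtain ⟨J₁, hJ₁⟩ := popular R JY (2 ^ (Fintype.card E)) (by rw [Fintype.card_finset]) hst.neR
  have hne : ∀ {A B : Finset (Pt E m)} {k : ℕ}, A.Nonempty → #A ≤ k * #B → B.Nonempty := by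
    intro A B k hA hAB
    rw [← Finset.card_pos]
    by_contra h0
    have h0' : #B = 0 := by omega
    rw [h0'] at hAB
    have := hA.card_pos
    omega
  obtain ⟨P', hP', R', hR', I, J, C, C', s, s', hc1, hc2, hCJ, hCI, hPst, hRst⟩ :=
    closure (p := p) (p' := p') (θ := θ) (θ' := θ') (D := D) (Xc := X) (Yc := Y) (α := α)
      (β := β) (I₀ := I₀) (J₀ := J₀) hΓ hΛ1 htm hΓ hΛ1 htm
      (2 * Fintype.card E) (Fintype.card E) (Fintype.card E) (by omega)
      {x ∈ P | IX x = I₁} {y ∈ R | JY y = J₁} (hne hst.neP hI₁) (hne hst.neR hJ₁) I₁ J₁ ∅ ∅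
      (by
        intro x hx
        rw [Finset.mem_filter] at hx
        refine ⟨ZX x, ?_⟩
        rw [← hx.2]
        exact hIX x hx.1)
      (by
        intro y hy
        rw [Finset.mem_filter] at hy
        refine ⟨WY y, ?_⟩
        rw [← hy.2]
        exact hJY y hy.1)
      (Finset.empty_subset _) (Finset.empty_subset _) (by simp) (by simp)
  have hP'P : P' ⊆ P := hP'.trans (Finset.filter_subset _ _)
  have hR'R : R' ⊆ R := hR'.trans (Finset.filter_subset _ _)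
  have hcP : #P ≤ kap (Fintype.card E) * #P' := by
    calc #P ≤ 2 ^ (Fintype.card E) * #{x ∈ P | IX x = I₁} := hI₁
      _ ≤ 2 ^ (Fintype.card E) * ((4 ^ (Fintype.card E)) ^ (2 * Fintype.card E + 1) * #P') :=
        Nat.mul_le_mul_left _ hc1
      _ = kap (Fintype.card E) * #P' := by unfold kap; ring
  have hcR : #R ≤ kap (Fintype.card E) * #R' := by
    calc #R ≤ 2 ^ (Fintype.card E) * #{y ∈ R | JY y = J₁} := hJ₁
      _ ≤ 2 ^ (Fintype.card E) * ((4 ^ (Fintype.card E)) ^ (2 * Fintype.card E + 1) * #R') :=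
        Nat.mul_le_mul_left _ hc2
      _ = kap (Fintype.card E) * #R' := by unfold kap; ring
  have hP'ne := hne hst.neP hcP
  have hR'ne := hne hst.neR hcR
  have hκ : (0 : ℝ) < kap (Fintype.card E) := by
    have : 0 < kap (Fintype.card E) := by unfold kap; positivity
    exact_mod_cast this
  have hL0 : 0 ≤ L := le_trans (by positivity) hL
  have hP'd : Dense L P' I₀ := dense_sub hκ hL0 hst.dP hP'P (by exact_mod_cast hcP)
  have hR'd : Dense L R' J₀ := dense_sub hκ hL0 hst.dR hR'R (by exact_mod_cast hcR)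
  choose! Z hZ using hPst
  choose! W hW using hRst
  have hI : #I ≤ D := by
    obtain ⟨x, hx⟩ := hP'ne
    obtain ⟨f, hf⟩ := (hZ x hx).1.1
    exact hf.card_le
  have hJ : #J ≤ D := by
    obtain ⟨x, hx⟩ := hR'ne
    obtain ⟨f, hf⟩ := (hW x hx).1.1
    exact hf.card_le
  obtain ⟨z, hz1, hz2⟩ := hH.ext_many (I ∪ J) hst.hρ (by
    have h1 := Finset.card_union_le I₀ J₀
    have h2 := Finset.card_union_le I J
    have h3 := hst.cI
    have h4 := hst.cJ
    omega)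
  obtain ⟨x, hx, y, hy, hgz, hxS, hyS⟩ := select hG hG' hη hη0 hT hL hLΛ hΛ hP'ne hR'ne
    hP'd hR'd (fun x => up rk (Z x) θ) (fun y => up rk' (W y) θ') (fun x hx => by obtain ⟨f, hf⟩ := (hZ x hx).1.1; exact hf.dense)
    (fun y hy => by obtain ⟨f, hf⟩ := (hW y hy).1.1; exact hf.dense) z
    (fun x hx y hy a ha => by
      rw [hst.val x (hP'P hx) y (hR'R hy) a ha, hz1 a ha])
  obtain ⟨⟨⟨f, hf⟩, hZX, hZC⟩, hZcl⟩ := hZ x hx
  obtain ⟨⟨⟨f', hf'⟩, hWY, hWC⟩, hWcl⟩ := hW y hy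
  have hyβ : ∀ a ∈ J₀, y a = β a := fun a ha => hst.fR y (hR'R hy) β hβ a ha
  have hxα : ∀ a ∈ I₀, x a = α a := fun a ha => hst.fP x (hP'P hx) α hα a ha
  set Pn := {x' ∈ up rk (Z x) θ | ∀ a ∈ J \ I, g a (x' a) (y a) = z a} with hPn
  set Rn := {y' ∈ up rk' (W y) θ' | ∀ a ∈ I \ J, g a (x a) (y' a) = z a} with hRn
  have hPcard : (#(up rk (Z x) θ) : ℝ) ≤ 2 ^ (Fintype.card E + 1) * #Pn := by
    have h1 := fraction g η (up rk (Z x) θ) ((J \ I) \ C) y z hη hη0 (by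
      intro S hS hSne
      by_contra hc
      push Not at hc
      have hbad : IsBad g η (up rk (Z x) θ) S y := hc
      have hSI : Disjoint S I := by
        rw [Finset.disjoint_left]
        intro a ha
        exact (Finset.mem_sdiff.1 (Finset.mem_sdiff.1 (hS ha)).1).2
      have hSC : Disjoint S C := by
        rw [Finset.disjoint_left]
        intro a ha
        exact (Finset.mem_sdiff.1 (hS ha)).2
      by_cases hSJ : S ⊆ J₀
      · apply hZcl S hSne _ hSI hSC (hbad.congr (fun a ha => hyβ a (hSJ ha)))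
        intro a ha
        rw [Finset.mem_inter]
        exact ⟨(Finset.mem_sdiff.1 (Finset.mem_sdiff.1 (hS ha)).1).1, hSJ ha⟩
      · exact hxS S hSne hSI hSJ hbad)
    have h2 : {x' ∈ up rk (Z x) θ | ∀ a ∈ (J \ I) \ C, g a (x' a) (y a) = z a} = Pn := by
      rw [hPn]
      apply Finset.filter_congr
      intro x' hx'
      constructor
      · intro h a ha
        by_cases haC : a ∈ C
        · have h3 := hZC x' (up_subset hx') a haC
          rw [← hyβ a (hCJ haC)] at h3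
          have h4 : g a (x' a) (y a) = g a (x a) (y a) := h3
          rw [h4]; exact hgz a
        · exact h a (Finset.mem_sdiff.2 ⟨ha, haC⟩)
      · intro h a ha
        exact h a (Finset.mem_sdiff.1 ha).1
    rw [h2] at h1
    exact h1
  have hRcard : (#(up rk' (W y) θ') : ℝ) ≤ 2 ^ (Fintype.card E + 1) * #Rn := by
    have h1 := fraction (sw g) η (up rk' (W y) θ') ((I \ J) \ C') x z hη hη0 (by
      intro S hS hSne
      by_contra hc
      push Not at hc
      have hbad : IsBad (sw g) η (up rk' (W y) θ') S x := hc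
      have hSI : Disjoint S J := by
        rw [Finset.disjoint_left]
        intro a ha
        exact (Finset.mem_sdiff.1 (Finset.mem_sdiff.1 (hS ha)).1).2
      have hSC : Disjoint S C' := by
        rw [Finset.disjoint_left]
        intro a ha
        exact (Finset.mem_sdiff.1 (hS ha)).2
      by_cases hSJ : S ⊆ I₀
      · apply hWcl S hSne _ hSI hSC (hbad.congr (fun a ha => hxα a (hSJ ha)))
        intro a ha
        rw [Finset.mem_inter]
        exact ⟨(Finset.mem_sdiff.1 (Finset.mem_sdiff.1 (hS ha)).1).1, hSJ ha⟩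
      · exact hyS S hSne hSI hSJ hbad)
    have h2 : {y' ∈ up rk' (W y) θ' | ∀ a ∈ (I \ J) \ C', sw g a (y' a) (x a) = z a} = Rn := by
      rw [hRn]
      apply Finset.filter_congr
      intro y' hy'
      constructor
      · intro h a ha
        by_cases haC : a ∈ C'
        · have h3 := hWC y' (up_subset hy') a haC
          rw [← hxα a (hCI haC)] at h3
          have h4 : g a (x a) (y' a) = g a (x a) (y a) := h3
          rw [h4]; exact hgz a
        · exact h a (Finset.mem_sdiff.2 ⟨ha, haC⟩)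
      · intro h a ha
        exact h a (Finset.mem_sdiff.1 ha).1
    rw [h2] at h1
    exact h1
  have hdens : ∀ {Z' Pn' : Finset (Pt E m)} {I' : Finset E}, Dense (Λ / Γ) Z' I' → Pn' ⊆ Z' →
      (#Z' : ℝ) ≤ 2 ^ (Fintype.card E + 1) * #Pn' →
      Dense (Λ / Γ / 2 ^ (Fintype.card E + 1)) Pn' I' := by
    intro Z' Pn' I' h1 h2 h3
    apply dense_sub (κ := 2 ^ (Fintype.card E + 1)) (by positivity) (by positivity) _ h2 h3
    rw [mul_div_cancel₀ _ (by positivity)]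
    exact h1
  have hup : ∀ {r : Pt E m → ℝ} {A B : Finset (Pt E m)} {t : ℝ}, A ⊆ B → up r A t ⊆ up r B t :=
    fun h _ hx => mem_up.2 ⟨h (mem_up.1 hx).1, (mem_up.1 hx).2⟩
  refine ⟨Pn, Rn, I, J, z, (Finset.filter_subset _ _).trans (hup hZX),
    (Finset.filter_subset _ _).trans (hup hWY), ?_⟩
  refine ⟨⟨x, ?_⟩, ⟨y, ?_⟩, hI, hJ, hf.fixed.mono ((Finset.filter_subset _ _).trans up_subset),
    hf'.fixed.mono ((Finset.filter_subset _ _).trans up_subset), hdens hf.dense (Finset.filter_subset _ _) hPcard,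
    hdens hf'.dense (Finset.filter_subset _ _) hRcard, hH.mono hz2 Finset.subset_union_right, ?_⟩
  · rw [hPn, Finset.mem_filter]; exact ⟨hf.mem, fun a _ => hgz a⟩
  · rw [hRn, Finset.mem_filter]; exact ⟨hf'.mem, fun a _ => hgz a⟩
  · intro x' hx' y' hy' a ha
    rw [hPn, Finset.mem_filter] at hx'
    rw [hRn, Finset.mem_filter] at hy'
    rw [Finset.mem_union] at ha
    by_cases haI : a ∈ I
    · have h1 : x' a = x a := hf.fixed x' (up_subset hx'.1) x (up_subset hf.mem) a haI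
      by_cases haJ : a ∈ J
      · have h2 : y' a = y a := hf'.fixed y' (up_subset hy'.1) y (up_subset hf'.mem) a haJ
        rw [h1, h2]; exact hgz a
      · rw [h1]; exact hy'.2 a (Finset.mem_sdiff.2 ⟨haI, haJ⟩)
    · have haJ : a ∈ J := by tauto
      have h2 : y' a = y a := hf'.fixed y' (up_subset hy'.1) y (up_subset hf'.mem) a haJ
      rw [h2]; exact hx'.2 a (Finset.mem_sdiff.2 ⟨haJ, haI⟩)

end Pool.Agent.H29.Ch
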