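import Mathlib

/-!
Subgroups of small index in a finite symmetric group: a subgroup of `Perm M` of index less than
`choose |M| k`, where `|M| ≥ 16 ^ k`, contains all even permutations fixing pointwise some set of
fewer than `k` points.
-/

open Equiv Equiv.Perm Finset

namespace Pool.Agent.H29

variable {M : Type*} [Fintype M] [DecidableEq M]

/-- Commutator of two permutations whose supports meet in exactly one point. -/
theorem commutator_eq_of_support_inter {x y : Perm M} {a : M} (hx : x a ≠ a) (hy : y a ≠ a)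
    (h : ∀ z, x z ≠ z → y z ≠ z → z = a) :
    x * y * x⁻¹ * y⁻¹ = swap a (y a) * swap a (x a) := by
  -- basic facts
  have hxinv : ∀ z, x z ≠ z ↔ x⁻¹ z ≠ z := by
    intro z
    constructor
    · intro h1 h2
      apply h1
      conv_lhs => rw [← h2]
      simp
    · intro h1 h2
      apply h1
      conv_lhs => rw [← h2]
      simp
  have hyinv : ∀ z, y z ≠ z ↔ y⁻¹ z ≠ z := by
    intro z
    constructor
    · intro h1 h2
      apply h1
      conv_lhs => rw [← h2]
      simp
    · intro h1 h2
      apply h1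
      conv_lhs => rw [← h2]
      simp
  have fx : ∀ z, z ≠ a → y z ≠ z → x z = z := by
    intro z hz hyz
    by_contra hxz
    exact hz (h z hxz hyz)
  have fy : ∀ z, z ≠ a → x z ≠ z → y z = z := by
    intro z hz hxz
    by_contra hyz
    exact hz (h z hxz hyz)
  have fxi : ∀ z, x z = z → x⁻¹ z = z := by
    intro z hz
    conv_lhs => rw [← hz]
    simp
  have fyi : ∀ z, y z = z → y⁻¹ z = z := by
    intro z hz
    conv_lhs => rw [← hz]
    simp
  have hxa : y (x a) = x a := by
    apply fy _ hx
    intro hh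
    exact hx (x.injective hh)
  have hya : x (y a) = y a := by
    apply fx _ hy
    intro hh
    exact hy (y.injective hh)
  have hxy : x a ≠ y a := by
    intro hh
    have h1 : x (x a) ≠ x a := fun hh => hx (x.injective hh)
    rw [hh] at h1
    exact h1 hya
  ext z
  simp only [Perm.mul_apply]
  by_cases hza : z = a
  · subst hza
    rw [swap_apply_left, swap_apply_of_ne_of_ne hx hxy]
    have h1 : y⁻¹ z ≠ z := (hyinv z).1 hy
    have h2 : y (y⁻¹ z) ≠ y⁻¹ z := by
      simpa using h1.symm
    rw [fxi _ (fx _ h1 h2)]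
    simp
  by_cases hzx : z = x a
  · subst hzx
    rw [swap_apply_right, swap_apply_left, fyi _ hxa]
    simp [hya]
  by_cases hzy : z = y a
  · subst hzy
    rw [swap_apply_of_ne_of_ne hy (Ne.symm hxy), swap_apply_right]
    have h1 : x⁻¹ a ≠ a := (hxinv a).1 hx
    have h2 : x (x⁻¹ a) ≠ x⁻¹ a := by simpa using h1.symm
    have : y⁻¹ (y a) = a := by simp
    rw [this, fy _ h1 h2]
    simp
  · rw [swap_apply_of_ne_of_ne hza hzx, swap_apply_of_ne_of_ne hza hzy]
    by_cases hyz : y z = z
    · rw [fyi z hyz]
      by_cases hxz : x z = z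
      · rw [fxi z hxz, hyz, hxz]
      · have h1 : x⁻¹ z ≠ a := by
          intro hh
          apply hzx
          rw [← hh]; simp
        have h2 : x (x⁻¹ z) ≠ x⁻¹ z := by
          have := (hxinv z).1 hxz
          simpa using this.symm
        rw [fy _ h1 h2]; simp
    · have hxz := fx z hza hyz
      have h1 : y⁻¹ z ≠ a := by
        intro hh
        apply hzy
        rw [← hh]; simp
      have h2 : y (y⁻¹ z) ≠ y⁻¹ z := by
        have := (hyinv z).1 hyz
        simpa using this.symm
      rw [fxi _ (fx _ h1 h2)]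
      simp [hxz]

/-- If no nontrivial element of `H` is supported in `Γ`, the index is at least `|Γ|!`. -/
theorem factorial_le_index (H : Subgroup (Perm M)) (Γ : Finset M)
    (h : ∀ g ∈ H, (∀ x ∉ Γ, g x = x) → g = 1) : (Γ.card).factorial ≤ H.index := by
  have hinj : Function.Injective
      (fun σ : Perm Γ => (QuotientGroup.mk (ofSubtype σ) : Perm M ⧸ H)) := by
    intro σ τ hστ
    have h1 : (ofSubtype σ)⁻¹ * ofSubtype τ ∈ H := QuotientGroup.eq.1 hστ
    have h2 : (ofSubtype σ)⁻¹ * ofSubtype τ = ofSubtype (σ⁻¹ * τ) := by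
      rw [map_mul, map_inv]
    rw [h2] at h1
    have h3 := h _ h1 (by
      intro x hx
      exact ofSubtype_apply_of_not_mem _ hx)
    have h4 : σ⁻¹ * τ = 1 := by
      apply ofSubtype_injective
      rw [h3, map_one]
    exact inv_mul_eq_one.1 h4
  have := Nat.card_le_card_of_injective _ hinj
  rw [Nat.card_perm, Nat.card_eq_fintype_card, Fintype.card_coe] at this
  exact this

/-- Existence of three-cycles supported in moderately large sets. -/
theorem exists_threeCycle (H : Subgroup (Perm M)) (q : ℕ) (hq : H.index < q.factorial)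
    (U : Finset M) (hU : 2 * q - 1 ≤ U.card) :
    ∃ a ∈ U, ∃ b ∈ U, ∃ c ∈ U, a ≠ b ∧ a ≠ c ∧ b ≠ c ∧ swap a b * swap a c ∈ H := by
  classical
  let P : Finset M → Prop := fun Γ => ∀ g ∈ H, (∀ x ∉ Γ, g x = x) → g = 1
  have hP : ∀ Γ, P Γ → Γ.card < q := by
    intro Γ hΓ
    by_contra hlt
    push Not at hlt
    have h1 := factorial_le_index H Γ hΓ
    have h2 := Nat.factorial_le hlt
    omega
  have hne : (U.powerset.filter P).Nonempty := by
    refine ⟨∅, ?_⟩
    simp only [Finset.mem_filter, Finset.mem_powerset, Finset.empty_subset, true_and]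
    intro g _ hg
    ext x
    simpa using hg x (by simp)
  obtain ⟨Γ, hΓ⟩ := Finset.exists_maximal hne
  have hΓU : Γ ⊆ U := by
    have := hΓ.1
    simp only [Finset.mem_filter, Finset.mem_powerset] at this
    exact this.1
  have hΓP : P Γ := by
    have := hΓ.1
    simp only [Finset.mem_filter, Finset.mem_powerset] at this
    exact this.2
  have hΓq := hP Γ hΓP
  have hcard : q ≤ (U \ Γ).card := by
    rw [Finset.card_sdiff_of_subset hΓU]
    omega
  have hnP : ¬ P (U \ Γ) := fun hh => by
    have := hP _ hh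
    omega
  simp only [P] at hnP
  push Not at hnP
  obtain ⟨x, hxH, hxs, hx1⟩ := hnP
  obtain ⟨a, ha⟩ : ∃ a, x a ≠ a := by
    by_contra hcon
    push Not at hcon
    exact hx1 (by ext z; simpa using hcon z)
  have haU : a ∈ U \ Γ := by
    by_contra hh
    exact ha (hxs a hh)
  have hnP2 : ¬ P (insert a Γ) := by
    intro hh
    have hmem : insert a Γ ∈ U.powerset.filter P := by
      simp only [Finset.mem_filter, Finset.mem_powerset]
      refine ⟨?_, hh⟩
      intro z hz
      rcases Finset.mem_insert.1 hz with rfl | hz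
      · exact (Finset.mem_sdiff.1 haU).1
      · exact hΓU hz
    have := hΓ.2 hmem (Finset.subset_insert _ _)
    exact (Finset.mem_sdiff.1 haU).2 (this (Finset.mem_insert_self _ _))
  simp only [P] at hnP2
  push Not at hnP2
  obtain ⟨y, hyH, hys, hy1⟩ := hnP2
  have hya : y a ≠ a := by
    intro hh
    apply hy1
    apply hΓP y hyH
    intro z hz
    by_cases hza : z = a
    · rw [hza, hh]
    · apply hys
      simp [hza, hz]
  have hint : ∀ z, x z ≠ z → y z ≠ z → z = a := by
    intro z hxz hyz
    have h1 : z ∈ U \ Γ := by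
      by_contra hh
      exact hxz (hxs z hh)
    have h2 : z ∈ insert a Γ := by
      by_contra hh
      exact hyz (hys z hh)
    rcases Finset.mem_insert.1 h2 with h3 | h3
    · exact h3
    · exact absurd h3 (Finset.mem_sdiff.1 h1).2
  have hcomm := commutator_eq_of_support_inter ha hya hint
  have hxaU : x a ∈ U := by
    by_contra hh
    have h1 : x a ∉ U \ Γ := fun h => hh (Finset.mem_sdiff.1 h).1
    have h2 := hxs _ h1
    exact ha (x.injective h2)
  have hyaU : y a ∈ U := by
    by_contra hh
    have h1 : y a ∉ insert a Γ := by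
      intro h
      rcases Finset.mem_insert.1 h with h3 | h3
      · exact hya h3
      · exact hh (hΓU h3)
    have h2 := hys _ h1
    exact hya (y.injective h2)
  have hne2 : y a ≠ x a := by
    intro hh
    have h1 : x (x a) ≠ x a := fun h => ha (x.injective h)
    have h2 : y (y a) ≠ y a := fun h => hya (y.injective h)
    rw [← hh] at h1
    exact hya (hint _ h1 h2)
  refine ⟨a, (Finset.mem_sdiff.1 haU).1, y a, hyaU, x a, hxaU, hya.symm, ha.symm, hne2, ?_⟩
  rw [← hcomm]
  exact H.mul_mem (H.mul_mem (H.mul_mem hxH hyH) (H.inv_mem hxH)) (H.inv_mem hyH)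

/-- Two points are related if they are equal or lie in a common three-cycle of `H`. -/
def Rel (H : Subgroup (Perm M)) (a b : M) : Prop :=
  a = b ∨ (a ≠ b ∧ ∃ c, c ≠ a ∧ c ≠ b ∧ swap a b * swap a c ∈ H)

theorem conj_cycle (g : Perm M) (a b c : M) :
    g * (swap a b * swap a c) * g⁻¹ = swap (g a) (g b) * swap (g a) (g c) := by
  have h1 : g * (swap a b * swap a c) * g⁻¹ = (g * swap a b * g⁻¹) * (g * swap a c * g⁻¹) := by
    group
  rw [h1, ← swap_apply_apply, ← swap_apply_apply]

theorem cycle_inv {a b c : M} (hab : a ≠ b) (hac : a ≠ c) (hbc : b ≠ c) :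
    (swap a b * swap a c)⁻¹ = swap b a * swap b c := by
  rw [mul_inv_rev, swap_inv, swap_inv]
  ext z
  simp only [Perm.mul_apply]
  by_cases hza : z = a
  · subst hza
    rw [swap_apply_left, swap_apply_of_ne_of_ne hab hac, swap_apply_of_ne_of_ne hab.symm hbc,
      swap_apply_right]
  by_cases hzb : z = b
  · subst hzb
    rw [swap_apply_right, swap_apply_left, swap_apply_left,
      swap_apply_of_ne_of_ne hbc.symm hac.symm]
  by_cases hzc : z = c
  · subst hzc
    rw [swap_apply_of_ne_of_ne hza hzb, swap_apply_right, swap_apply_right, swap_apply_left]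
  · rw [swap_apply_of_ne_of_ne hza hzb, swap_apply_of_ne_of_ne hza hzc,
      swap_apply_of_ne_of_ne hzb hzc, swap_apply_of_ne_of_ne hzb hza]

theorem Rel.symm {H : Subgroup (Perm M)} {a b : M} (h : Rel H a b) : Rel H b a := by
  rcases h with rfl | ⟨hab, c, hca, hcb, hc⟩
  · exact Or.inl rfl
  · refine Or.inr ⟨hab.symm, c, hcb, hca, ?_⟩
    rw [← cycle_inv hab hca.symm hcb.symm]
    exact H.inv_mem hc

theorem Rel.trans {H : Subgroup (Perm M)} {a b c : M} (h : Rel H a b) (h' : Rel H b c) :
    Rel H a c := by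
  rcases h with rfl | ⟨hab, d, hda, hdb, hd⟩
  · exact h'
  rcases h' with rfl | ⟨hbc, e, heb, hec, he⟩
  · exact Or.inr ⟨hab, d, hda, hdb, hd⟩
  by_cases hac : a = c
  · exact Or.inl hac
  by_cases hea : e = a
  · subst hea
    refine Or.inr ⟨hac, b, hab.symm, hbc, ?_⟩
    -- swap e c * swap e b = (swap b c * swap b e)⁻¹
    have h1 := cycle_inv (a := c) (b := e) (c := b) (Ne.symm hac) (Ne.symm hbc) hab
    -- (swap c e * swap c b)⁻¹ = swap e c * swap e b
    have h2 := cycle_inv (a := b) (b := c) (c := e) hbc hab.symm (Ne.symm hac)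
    -- (swap b c * swap b e)⁻¹ = swap c b * swap c e
    have h3 : swap e c * swap e b = (swap b c * swap b e)⁻¹ := by
      rw [← h1]
      congr 1
      have h4 := congrArg (fun t => t⁻¹) h2
      simpa only [inv_inv, mul_inv_rev, swap_inv] using h4.symm
    rw [h3]
    exact H.inv_mem he
  · -- conjugate
    set g : Perm M := (swap b c * swap b e)⁻¹ with hg
    have hgH : g ∈ H := H.inv_mem he
    have hga : g a = a := by
      rw [hg, mul_inv_rev, swap_inv, swap_inv, Perm.mul_apply,
        swap_apply_of_ne_of_ne hab hac, swap_apply_of_ne_of_ne hab (Ne.symm hea)]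
    have hgb : g b = c := by
      rw [hg, mul_inv_rev, swap_inv, swap_inv, Perm.mul_apply, swap_apply_left,
        swap_apply_of_ne_of_ne hbc.symm (Ne.symm hec)]
    have hconj := conj_cycle g a b d
    rw [hga, hgb] at hconj
    refine Or.inr ⟨hac, g d, ?_, ?_, ?_⟩
    · intro hh
      rw [← hga] at hh
      exact hda (g.injective hh)
    · intro hh
      rw [← hgb] at hh
      exact hdb (g.injective hh)
    · rw [← hconj]
      exact H.mul_mem (H.mul_mem hgH hd) (H.inv_mem hgH)

theorem Rel.map {H : Subgroup (Perm M)} {a b : M} {g : Perm M} (hg : g ∈ H) (h : Rel H a b) :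
    Rel H (g a) (g b) := by
  rcases h with rfl | ⟨hab, c, hca, hcb, hc⟩
  · exact Or.inl rfl
  · refine Or.inr ⟨fun hh => hab (g.injective hh), g c, fun hh => hca (g.injective hh),
      fun hh => hcb (g.injective hh), ?_⟩
    rw [← conj_cycle]
    exact H.mul_mem (H.mul_mem hg hc) (H.inv_mem hg)

/-- third point of the cycle is in the same class -/
theorem Rel.third {H : Subgroup (Perm M)} {a b c : M} (hab : a ≠ b) (hca : c ≠ a) (hcb : c ≠ b)
    (hc : swap a b * swap a c ∈ H) : Rel H a c := by
  refine Or.inr ⟨hca.symm, b, hab.symm, hcb.symm, ?_⟩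
  have h1 : swap a c * swap a b = (swap a b * swap a c)⁻¹ := by
    rw [mul_inv_rev, swap_inv, swap_inv]
  rw [h1]
  exact H.inv_mem hc

/-- the class of a point -/
noncomputable def cls (H : Subgroup (Perm M)) (a : M) : Finset M := by
  classical
  exact Finset.univ.filter (fun b => Rel H a b)

theorem mem_cls {H : Subgroup (Perm M)} {a b : M} : b ∈ cls H a ↔ Rel H a b := by
  classical
  simp [cls]

theorem map_cls {H : Subgroup (Perm M)} {g : Perm M} (hg : g ∈ H) (a : M) :
    (cls H a).map g.toEmbedding = cls H (g a) := by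
  ext z
  simp only [Finset.mem_map, mem_cls, Equiv.coe_toEmbedding]
  constructor
  · rintro ⟨w, hw, rfl⟩
    exact hw.map hg
  · intro hz
    refine ⟨g⁻¹ z, ?_, by simp⟩
    have := hz.map (H.inv_mem hg)
    simpa using this

theorem cls_eq_or_disjoint {H : Subgroup (Perm M)} (a b : M) :
    cls H a = cls H b ∨ Disjoint (cls H a) (cls H b) := by
  by_cases h : Disjoint (cls H a) (cls H b)
  · exact Or.inr h
  · left
    rw [Finset.not_disjoint_iff] at h
    obtain ⟨z, hza, hzb⟩ := h
    rw [mem_cls] at hza hzb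
    have hab : Rel H a b := hza.trans hzb.symm
    ext w
    rw [mem_cls, mem_cls]
    exact ⟨fun h => hab.symm.trans h, fun h => hab.trans h⟩

open MulAction Pointwise in
/-- Alternating group on a class. -/
theorem mem_of_sign_eq_one_of_class (H : Subgroup (Perm M)) (a₀ : M)
    (g : Perm M) (hsign : sign g = 1) (hfix : ∀ x ∉ cls H a₀, g x = x) : g ∈ H := by
  classical
  set Δ := cls H a₀ with hΔ
  by_cases hone : Δ.card ≤ 1
  · have : g = 1 := by
      ext x
      by_cases hx : x ∈ Δ
      · have hgx : g x ∈ Δ := by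
          by_contra hh
          have := hfix _ hh
          exact hh (by rw [g.injective this]; exact hx)
        have := Finset.card_le_one.1 hone _ hgx _ hx
        simpa using this
      · simpa using hfix x hx
    rw [this]; exact H.one_mem
  push Not at hone
  let L : Subgroup (Perm Δ) := H.comap (ofSubtype : Perm {x // x ∈ Δ} →* Perm M)
  have hrel : ∀ x y : Δ, Rel H x.1 y.1 := by
    intro x y
    have hx : Rel H a₀ x.1 := mem_cls.1 x.2
    have hy : Rel H a₀ y.1 := mem_cls.1 y.2
    exact hx.symm.trans hy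
  -- three cycles inside
  have key : ∀ x y : Δ, x ≠ y → ∃ z : Δ, z ≠ x ∧ z ≠ y ∧ swap x y * swap x z ∈ L := by
    intro x y hxy
    rcases hrel x y with h | ⟨hab, c, hca, hcb, hc⟩
    · exact absurd (Subtype.ext h) hxy
    · have hcΔ : c ∈ Δ := by
        have h1 : Rel H x.1 c := Rel.third hab hca hcb hc
        have h2 : Rel H a₀ x.1 := mem_cls.1 x.2
        rw [hΔ, mem_cls]
        exact h2.trans h1
      refine ⟨⟨c, hcΔ⟩, fun h => hca (congrArg Subtype.val h), fun h => hcb (congrArg Subtype.val h), ?_⟩
      change ofSubtype _ ∈ H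
      rw [map_mul, ofSubtype_swap_eq, ofSubtype_swap_eq]
      exact hc
  have hval : ∀ x y z : Δ, x ≠ y → z ≠ y → (swap x y * swap x z) y = x := by
    intro x y z hxy hzy
    rw [Perm.mul_apply, swap_apply_of_ne_of_ne (Ne.symm hxy) (Ne.symm hzy), swap_apply_right]
  have hval2 : ∀ x y z : Δ, z ≠ x → z ≠ y → (swap x y * swap x z) x = z := by
    intro x y z hzx hzy
    rw [Perm.mul_apply, swap_apply_left, swap_apply_of_ne_of_ne hzx hzy]
  have hval3 : ∀ x y z w : Δ, w ≠ x → w ≠ y → w ≠ z → (swap x y * swap x z) w = w := by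
    intro x y z w hwx hwy hwz
    rw [Perm.mul_apply, swap_apply_of_ne_of_ne hwx hwz, swap_apply_of_ne_of_ne hwx hwy]
  have hprim : IsPreprimitive L Δ := by
    have htrans : IsPretransitive L Δ := by
      constructor
      intro x y
      by_cases hxy : y = x
      · exact ⟨1, by rw [one_smul]; exact hxy.symm⟩
      · obtain ⟨z, hzy, hzx, hz⟩ := key y x hxy
        exact ⟨⟨_, hz⟩, hval y x z hxy hzx⟩
    refine { htrans with isTrivialBlock_of_isBlock := ?_ }
    intro B hB
    by_contra hnt
    rw [IsTrivialBlock] at hnt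
    push Not at hnt
    obtain ⟨hns, hnu⟩ := hnt
    obtain ⟨x, hx, y, hy, hxy⟩ := hns
    obtain ⟨w, hw⟩ := (Set.ne_univ_iff_exists_notMem B).1 hnu
    have hwx : w ≠ x := fun h => hw (h ▸ hx)
    have hwy : w ≠ y := fun h => hw (h ▸ hy)
    -- three cycle mapping x to w
    obtain ⟨z, hzw, hzx, hz⟩ := key w x hwx
    have hgx : (swap w x * swap w z) x = w := hval w x z hwx hzx
    have hsmul : ∀ v : Δ, (⟨_, hz⟩ : L) • v = (swap w x * swap w z) v := fun v => rfl
    have hgB : (⟨_, hz⟩ : L) • B = B ∨ Disjoint ((⟨_, hz⟩ : L) • B) B :=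
      (isBlock_iff_smul_eq_or_disjoint.1 hB) _
    rcases hgB with h1 | h1
    · apply hw
      rw [← h1]
      refine ⟨x, hx, ?_⟩
      exact hgx
    · rw [Set.disjoint_left] at h1
      by_cases hzy : z = y
      · -- g y = (swap w x * swap w z) z = x
        subst hzy
        apply h1 (a := x) ?_ hx
        refine ⟨z, hy, ?_⟩
        change (swap w x * swap w z) z = x
        rw [Perm.mul_apply, swap_apply_right, swap_apply_left]
      · apply h1 (a := y) ?_ hy
        refine ⟨y, hy, ?_⟩
        exact hval3 w x z y (Ne.symm hwy) (Ne.symm hxy) (Ne.symm hzy)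
  -- three cycle in L
  obtain ⟨x, hx, y, hy, hxy⟩ := Finset.one_lt_card.1 hone
  obtain ⟨z, hzx, hzy, hz⟩ := key ⟨x, hx⟩ ⟨y, hy⟩ (fun h => hxy (congrArg Subtype.val h))
  have h3 : IsThreeCycle (swap (⟨x, hx⟩ : Δ) ⟨y, hy⟩ * swap ⟨x, hx⟩ z) :=
    isThreeCycle_swap_mul_swap_same (fun h => hxy (congrArg Subtype.val h)) (Ne.symm hzx)
      (Ne.symm hzy)
  have hAlt := alternatingGroup_le_of_isPreprimitive_of_isThreeCycle_mem hprim h3 hz
  -- conclude
  have hmaps : ∀ v, v ∈ Δ ↔ g v ∈ Δ := by
    intro v
    constructor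
    · intro hv
      by_contra hh
      exact hh (by rw [g.injective (hfix _ hh)]; exact hv)
    · intro hv
      by_contra hh
      rw [hfix v hh] at hv
      exact hh hv
  have hg2 : ofSubtype (g.subtypePerm (fun v => (hmaps v).symm)) = g :=
    ofSubtype_subtypePerm (fun v => (hmaps v).symm) (fun v hv => by
      by_contra hh
      exact hv (hfix v hh))
  have hs : sign (g.subtypePerm (fun v => (hmaps v).symm)) = 1 := by
    rw [← sign_ofSubtype, hg2, hsign]
  have := hAlt (mem_alternatingGroup.2 hs)
  change ofSubtype _ ∈ H at this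
  rwa [hg2] at this

theorem exists_perm_map (E A B : Finset M) (hA : A ⊆ E) (hB : B ⊆ E) (hc : A.card = B.card) :
    ∃ π : Perm M, A.map π.toEmbedding = B ∧ ∀ x ∉ E, π x = x := by
  classical
  let p : E → Prop := fun x => x.1 ∈ A
  let r : E → Prop := fun x => x.1 ∈ B
  have hp : Fintype.card {x : E // p x} = A.card := by
    rw [Fintype.card_of_subtype (Finset.univ.filter p) (by simp)]
    apply Finset.card_bij (fun x _ => x.1)
    · intro x hx; simpa [p] using hx
    · intro x _ y _ h; exact Subtype.ext h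
    · intro b hb; exact ⟨⟨b, hA hb⟩, by simpa [p] using hb, rfl⟩
  have hr : Fintype.card {x : E // r x} = B.card := by
    rw [Fintype.card_of_subtype (Finset.univ.filter r) (by simp)]
    apply Finset.card_bij (fun x _ => x.1)
    · intro x hx; simpa [r] using hx
    · intro x _ y _ h; exact Subtype.ext h
    · intro b hb; exact ⟨⟨b, hB hb⟩, by simpa [r] using hb, rfl⟩
  let e : {x : E // p x} ≃ {x : E // r x} := Fintype.equivOfCardEq (by rw [hp, hr, hc])
  refine ⟨ofSubtype (e.extendSubtype : Perm E), ?_, fun x hx => ofSubtype_apply_of_not_mem _ hx⟩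
  apply Finset.eq_of_subset_of_card_le
  · intro z hz
    simp only [Finset.mem_map, Equiv.coe_toEmbedding] at hz
    obtain ⟨w, hw, rfl⟩ := hz
    have := ofSubtype_apply_of_mem (e.extendSubtype : Perm E) (hA hw)
    rw [this]
    exact e.extendSubtype_mem ⟨w, hA hw⟩ hw
  · rw [Finset.card_map, hc]

theorem exists_large_class (H : Subgroup (Perm M)) (q c : ℕ) (hq : H.index < q.factorial)
    (hc : (2 * q - 2) * c ≤ Fintype.card M) [Nonempty M] : ∃ a, c ≤ (cls H a).card := by
  classical
  let s : Setoid M := ⟨Rel H, ⟨fun a => Or.inl rfl, fun h => h.symm, fun h h' => h.trans h'⟩⟩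
  have hcard : Fintype.card (Quotient s) ≤ 2 * q - 2 := by
    by_contra hlt
    push Not at hlt
    let U : Finset M := Finset.univ.image (fun x : Quotient s => x.out)
    have hU : U.card = Fintype.card (Quotient s) := by
      rw [Finset.card_image_of_injective _ (Quotient.out_injective)]
      rfl
    have hqpos : 0 < q := by
      rcases Nat.eq_zero_or_pos q with h | h
      · exfalso
        rw [h] at hq
        simp only [Nat.factorial_zero, Nat.lt_one_iff] at hq
        exact Subgroup.index_ne_zero_of_finite hq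
      · exact h
    obtain ⟨a, ha, b, hb, c', hc', hab, hac, hbc, hH⟩ := exists_threeCycle H q hq U (by omega)
    simp only [U, Finset.mem_image, Finset.mem_univ, true_and] at ha hb
    obtain ⟨x, rfl⟩ := ha
    obtain ⟨y, rfl⟩ := hb
    apply hab
    have hrel : Rel H x.out y.out := Or.inr ⟨hab, c', hac.symm, hbc.symm, hH⟩
    have h1 : (Quotient.mk s x.out) = Quotient.mk s y.out := Quotient.sound hrel
    rw [Quotient.out_eq, Quotient.out_eq] at h1
    rw [h1]
  have : Nonempty (Quotient s) := ⟨Quotient.mk s (Classical.arbitrary M)⟩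
  obtain ⟨y, hy⟩ := Fintype.exists_le_card_fiber_of_mul_le_card (fun x : M => Quotient.mk s x)
    (n := c) (le_trans (Nat.mul_le_mul_right c hcard) hc)
  refine ⟨y.out, le_trans hy (Finset.card_le_card ?_)⟩
  intro z hz
  simp only [Finset.mem_filter, Finset.mem_univ, true_and] at hz
  rw [mem_cls]
  have : (Quotient.mk s y.out) = Quotient.mk s z := by rw [Quotient.out_eq, hz]
  exact Quotient.exact this

theorem choose_le_index (H : Subgroup (Perm M)) (a : M)
    (h : Fintype.card M < 2 * (cls H a).card) :
    (Fintype.card M).choose (cls H a).card ≤ H.index := by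
  classical
  set Δ := cls H a with hΔ
  have hex : ∀ S : Finset M, S.card = Δ.card → ∃ π : Perm M, Δ.map π.toEmbedding = S := by
    intro S hS
    obtain ⟨π, h1, _⟩ := exists_perm_map Finset.univ Δ S (Finset.subset_univ _)
      (Finset.subset_univ _) hS.symm
    exact ⟨π, h1⟩
  choose! π hπ using hex
  have hinj : Set.InjOn (fun S : Finset M => (QuotientGroup.mk (π S) : Perm M ⧸ H))
      (Finset.powersetCard Δ.card Finset.univ : Finset (Finset M)) := by
    intro S hS T hT hST
    simp only [Finset.mem_coe,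
      Finset.mem_powersetCard, Finset.subset_univ, true_and] at hS hT
    have h1 : (π S)⁻¹ * π T ∈ H := QuotientGroup.eq.1 hST
    have h2 : Δ.map ((π S)⁻¹ * π T).toEmbedding = cls H (((π S)⁻¹ * π T) a) := map_cls h1 a
    have h3 : Δ.map ((π S)⁻¹ * π T).toEmbedding = Δ := by
      rcases cls_eq_or_disjoint (H := H) (((π S)⁻¹ * π T) a) a with h4 | h4
      · rw [h2, h4]
      · exfalso
        rw [← h2, ← hΔ] at h4
        have h5 := Finset.card_union_of_disjoint h4
        rw [Finset.card_map] at h5
        have h6 := Finset.card_le_univ (Finset.map ((π S)⁻¹ * π T).toEmbedding Δ ∪ Δ)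
        omega
    have h7 : Δ.map (π T).toEmbedding = Δ.map (π S).toEmbedding := by
      conv_rhs => rw [← h3]
      rw [Finset.map_map]
      congr 1
      ext z
      simp
    rw [hπ S hS, hπ T hT] at h7
    exact h7.symm
  have h8 := Finset.card_image_of_injOn hinj
  rw [Finset.card_powersetCard, Finset.card_univ] at h8
  rw [← h8]
  rw [Subgroup.index, Nat.card_eq_fintype_card]
  exact Finset.card_le_univ _

theorem choose_le_two_mul_index (H : Subgroup (Perm M)) (a : M)
    (h : 2 * (cls H a).card ≤ Fintype.card M) :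
    (2 * (cls H a).card).choose (cls H a).card ≤ 2 * H.index := by
  classical
  set Δ := cls H a with hΔ
  obtain ⟨E, hE1, hE2⟩ : ∃ E : Finset M, Δ ⊆ E ∧ E.card = 2 * Δ.card := by
    obtain ⟨E, h1, h2⟩ := Finset.exists_superset_card_eq (s := Δ) (n := 2 * Δ.card) (by omega)
      (by simpa using h)
    exact ⟨E, h1, h2⟩
  have hex : ∀ S : Finset M, S ⊆ E ∧ S.card = Δ.card →
      ∃ π : Perm M, Δ.map π.toEmbedding = S ∧ ∀ x ∉ E, π x = x := by
    intro S hS
    exact exists_perm_map E Δ S hE1 hS.1 hS.2.symm
  choose! π hπ hπE using hex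
  have hmemE : ∀ S : Finset M, S ⊆ E ∧ S.card = Δ.card → ∀ x, x ∈ E ↔ π S x ∈ E := by
    intro S hS x
    constructor
    · intro hx
      by_contra hh
      have := hπE S hS _ hh
      rw [(π S).injective this] at hh
      exact hh hx
    · intro hx
      by_contra hh
      rw [hπE S hS x hh] at hx
      exact hh hx
  have hfib : ∀ b ∈ (Finset.powersetCard Δ.card E).image
      (fun S : Finset M => (QuotientGroup.mk (π S) : Perm M ⧸ H)),
      (Finset.filter (fun S => (QuotientGroup.mk (π S) : Perm M ⧸ H) = b)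
        (Finset.powersetCard Δ.card E)).card ≤ 2 := by
    intro b hb
    rw [Finset.mem_image] at hb
    obtain ⟨S, hS, hSb⟩ := hb
    rw [Finset.mem_powersetCard] at hS
    have hsub : (Finset.filter (fun S => (QuotientGroup.mk (π S) : Perm M ⧸ H) = b)
        (Finset.powersetCard Δ.card E)) ⊆ {S, E \ S} := by
      intro T hT
      rw [Finset.mem_filter, Finset.mem_powersetCard] at hT
      obtain ⟨hT, hTb⟩ := hT
      rw [← hSb] at hTb
      have h1 : (π S)⁻¹ * π T ∈ H := QuotientGroup.eq.1 hTb.symm
      have h2 : Δ.map ((π S)⁻¹ * π T).toEmbedding = cls H (((π S)⁻¹ * π T) a) := map_cls h1 a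
      have h7 : Δ.map (π T).toEmbedding =
          (Δ.map ((π S)⁻¹ * π T).toEmbedding).map (π S).toEmbedding := by
        rw [Finset.map_map]
        congr 1
        ext z
        simp
      rw [hπ T hT] at h7
      rw [Finset.mem_insert, Finset.mem_singleton]
      rcases cls_eq_or_disjoint (H := H) (((π S)⁻¹ * π T) a) a with h4 | h4
      · left
        rw [h7, h2, h4]
        exact hπ S hS
      · right
        rw [← h2, ← hΔ] at h4
        -- Δ.map h = E \ Δ
        have h9 : Δ.map ((π S)⁻¹ * π T).toEmbedding = E \ Δ := by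
          apply Finset.eq_of_subset_of_card_le
          · intro z hz
            rw [Finset.mem_sdiff]
            refine ⟨?_, fun hzΔ => Finset.disjoint_left.1 h4 hz hzΔ⟩
            rw [Finset.mem_map] at hz
            obtain ⟨w, hw, rfl⟩ := hz
            simp only [Equiv.coe_toEmbedding, Perm.mul_apply]
            rw [hmemE S hS]
            have : (π S) ((π S)⁻¹ ((π T) w)) = π T w := by simp
            rw [this]
            exact (hmemE T hT w).1 (hE1 hw)
          · rw [Finset.card_map, Finset.card_sdiff_of_subset hE1, hE2]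
            omega
        rw [h7, h9]
        ext z
        simp only [Finset.mem_map, Equiv.coe_toEmbedding, Finset.mem_sdiff]
        constructor
        · rintro ⟨w, ⟨hwE, hwΔ⟩, rfl⟩
          refine ⟨(hmemE S hS w).1 hwE, ?_⟩
          intro hh
          have hh2 : π S w ∈ Δ.map (π S).toEmbedding := by rw [hπ S hS]; exact hh
          rw [Finset.mem_map] at hh2
          obtain ⟨v, hv, hvw⟩ := hh2
          exact hwΔ ((π S).injective hvw ▸ hv)
        · rintro ⟨hzE, hzS⟩
          refine ⟨(π S)⁻¹ z, ⟨?_, ?_⟩, by simp⟩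
          · rw [hmemE S hS]; simpa using hzE
          · intro hh
            apply hzS
            have hh2 : (π S) ((π S)⁻¹ z) ∈ Δ.map (π S).toEmbedding :=
              Finset.mem_map.2 ⟨_, hh, rfl⟩
            rw [hπ S hS] at hh2
            simpa using hh2
    exact le_trans (Finset.card_le_card hsub) Finset.card_le_two
  have h1 := Finset.card_le_mul_card_image (Finset.powersetCard Δ.card E) 2 hfib
  rw [Finset.card_powersetCard, hE2] at h1
  refine le_trans h1 (Nat.mul_le_mul_left 2 ?_)
  rw [Subgroup.index, Nat.card_eq_fintype_card]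
  exact Finset.card_le_univ _

theorem two_pow_le_factorial_succ (n : ℕ) : 2 ^ n ≤ (n + 1).factorial := by
  induction n with
  | zero => simp
  | succ n ih =>
    rw [Nat.factorial_succ, pow_succ]
    nlinarith [Nat.factorial_pos (n + 1)]

theorem two_pow_le_choose (n : ℕ) : 2 ^ n ≤ (2 * n).choose n := by
  induction n with
  | zero => simp
  | succ n ih =>
    have h := Nat.succ_mul_centralBinom_succ n
    rw [Nat.centralBinom_eq_two_mul_choose, Nat.centralBinom_eq_two_mul_choose] at h
    rw [pow_succ]
    have h1 : 2 * (2 * n + 1) * (2 * n).choose n ≥ 2 * (n + 1) * 2 ^ n := by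
      have : 2 * (2 * n + 1) ≥ 2 * (n + 1) := by omega
      exact Nat.mul_le_mul this ih
    have h2 : (n + 1) * (2 * (n + 1)).choose (n + 1) ≥ (n + 1) * (2 * 2 ^ n) := by
      rw [h]; nlinarith
    have h3 := Nat.le_of_mul_le_mul_left h2 (Nat.succ_pos n)
    linarith

theorem choose_mono_half {m k r : ℕ} (hkr : k ≤ r) (hr : 2 * r ≤ m) : m.choose k ≤ m.choose r := by
  induction r, hkr using Nat.le_induction with
  | base => exact le_rfl
  | succ n hn ih =>
    refine le_trans (ih (by omega)) ?_
    exact Nat.choose_le_succ_of_lt_half_left (by omega)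

theorem poly_le_two_pow (x : ℕ) (hx : 12 ≤ x) : (x + 1) * x * ((x + 1) * x + 4) ≤ 8 * 2 ^ x := by
  induction x, hx using Nat.le_induction with
  | base => norm_num
  | succ n hn ih =>
    obtain ⟨y, rfl⟩ := Nat.exists_eq_add_of_le hn
    rw [pow_succ]
    have : (12 + y + 1 + 1) * (12 + y + 1) * ((12 + y + 1 + 1) * (12 + y + 1) + 4) ≤
        2 * ((12 + y + 1) * (12 + y) * ((12 + y + 1) * (12 + y) + 4)) := by
      ring_nf
      nlinarith [sq_nonneg y, sq_nonneg (y * y), Nat.zero_le (y ^ 3)]
    calc _ ≤ _ := this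
      _ ≤ 2 * (8 * 2 ^ (12 + y)) := Nat.mul_le_mul_left 2 ih
      _ = _ := by ring

/-- **Small index subgroups of symmetric groups.** If `k ≥ 3`, `|M| ≥ 16 ^ k`, and `H` is a subgroup
of `Perm M` of index less than `choose |M| k`, then `H` contains every even permutation fixing
pointwise a suitable set `Y` with fewer than `k` elements. -/
theorem exists_support_of_index_lt {k : ℕ} (hk : 3 ≤ k) (hm : 16 ^ k ≤ Fintype.card M)
    (H : Subgroup (Perm M)) (hH : H.index < (Fintype.card M).choose k) :
    ∃ Y : Finset M, Y.card < k ∧ ∀ π : Perm M, sign π = 1 → (∀ y ∈ Y, π y = y) → π ∈ H := by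
  classical
  set m := Fintype.card M with hmdef
  have hmpos : 0 < m := lt_of_lt_of_le (by positivity) hm
  have : Nonempty M := Fintype.card_pos_iff.1 hmpos
  set x := Nat.log 2 m with hx
  have hx1 : 2 ^ x ≤ m := Nat.pow_log_le_self 2 hmpos.ne'
  have hx2 : m < 2 ^ (x + 1) := Nat.lt_pow_succ_log_self (by norm_num) m
  have hx3 : 4 * k ≤ x := by
    have h1 : (2 : ℕ) ^ (4 * k) ≤ m := by
      rw [pow_mul]; norm_num; exact hm
    have h2 : (2 : ℕ) ^ (4 * k) < 2 ^ (x + 1) := lt_of_le_of_lt h1 hx2
    have := (Nat.pow_lt_pow_iff_right (by norm_num : 1 < 2)).1 h2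
    omega
  set c := (x + 1) * k + 1 with hc
  have ha : m.choose k ≤ 2 ^ (c - 1) := by
    calc m.choose k ≤ m ^ k := Nat.choose_le_pow m k
      _ ≤ (2 ^ (x + 1)) ^ k := Nat.pow_le_pow_left hx2.le k
      _ = 2 ^ (c - 1) := by rw [← pow_mul, hc, Nat.add_sub_cancel]
  have hb : H.index < c.factorial := by
    calc H.index < m.choose k := hH
      _ ≤ 2 ^ (c - 1) := ha
      _ ≤ (c - 1 + 1).factorial := two_pow_le_factorial_succ _
      _ = c.factorial := by rw [hc, Nat.add_sub_cancel]
  have hcc : (2 * c - 2) * c ≤ m := by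
    refine le_trans ?_ hx1
    have h1 := poly_le_two_pow x (by omega)
    have h2 : 4 * ((x + 1) * k) ≤ (x + 1) * x := by nlinarith
    have h3 : 2 * c - 2 = 2 * ((x + 1) * k) := by omega
    rw [h3, hc]
    set y := (x + 1) * k with hy
    have h4 : (4 * y) * (4 * y + 4) ≤ (x + 1) * x * ((x + 1) * x + 4) :=
      Nat.mul_le_mul h2 (by omega)
    have h5 : 8 * (2 * y * (y + 1)) ≤ 8 * 2 ^ x := by
      calc 8 * (2 * y * (y + 1)) = (4 * y) * (4 * y + 4) := by ring
        _ ≤ _ := h4
        _ ≤ _ := h1
    omega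
  obtain ⟨a, ha2⟩ := exists_large_class H c c hb hcc
  have hbig : m < 2 * (cls H a).card := by
    by_contra hle
    push Not at hle
    have h1 := choose_le_two_mul_index H a hle
    have h2 := two_pow_le_choose (cls H a).card
    have h3 : 2 ^ c ≤ 2 ^ (cls H a).card := Nat.pow_le_pow_right (by norm_num) ha2
    have h4 : 2 ^ c = 2 * 2 ^ (c - 1) := by
      rw [← pow_succ', hc, Nat.add_sub_cancel]
    omega
  have h1 := choose_le_index H a hbig
  have hle : (cls H a).card ≤ m := Finset.card_le_univ _
  have hr : m - (cls H a).card < k := by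
    by_contra hlt
    push Not at hlt
    have h2 : m.choose k ≤ m.choose (m - (cls H a).card) := choose_mono_half hlt (by omega)
    rw [Nat.choose_symm hle] at h2
    have h3 : m.choose (cls H a).card ≤ H.index := h1
    have h4 : H.index < m.choose k := hH
    omega
  refine ⟨(cls H a)ᶜ, ?_, ?_⟩
  · rw [Finset.card_compl]; exact hr
  · intro π hs hπ
    apply mem_of_sign_eq_one_of_class H a π hs
    intro z hz
    exact hπ z (by simpa using hz)

end Pool.Agent.H29
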