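import Mathlib

/-!
Basic definitions for the lifting argument: gadgets, characters, pigeonhole, medians.
-/

open Finset

namespace Pool.Agent.H29.Lift

/-- points: one symbol of an alphabet of size m for every coordinate -/
abbrev Pt (E : Type) (m : ℕ) := E → Fin m

/-- a gadget for every coordinate -/
abbrev Gd (E : Type) (m : ℕ) := E → Fin m → Fin m → Bool

def sg (b : Bool) : ℝ := if b then -1 else 1

theorem sg_mul_self (b : Bool) : sg b * sg b = 1 := by cases b <;> simp [sg]

theorem abs_sg (b : Bool) : |sg b| = 1 := by cases b <;> simp [sg]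

theorem sg_mul_sg (b c : Bool) : sg b * sg c = if b = c then 1 else -1 := by
  cases b <;> cases c <;> simp [sg]

set_option linter.unusedSectionVars false

variable {E : Type} [Fintype E] [DecidableEq E] {m : ℕ}

def chi (g : Gd E m) (S : Finset E) (x y : Pt E m) : ℝ := ∏ a ∈ S, sg (g a (x a) (y a))

def sw (g : Gd E m) : Gd E m := fun a s t => g a t s

def gv (g : Gd E m) (x y : Pt E m) : E → Bool := fun a => g a (x a) (y a)

theorem chi_sw (g : Gd E m) (S : Finset E) (x y : Pt E m) : chi (sw g) S y x = chi g S x y := rfl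

theorem sw_sw (g : Gd E m) : sw (sw g) = g := rfl

theorem abs_chi (g : Gd E m) (S : Finset E) (x y : Pt E m) : |chi g S x y| = 1 := by
  unfold chi
  rw [Finset.abs_prod]
  exact Finset.prod_eq_one fun a _ => abs_sg _

theorem chi_le_one (g : Gd E m) (S : Finset E) (x y : Pt E m) : chi g S x y ≤ 1 :=
  (le_abs_self _).trans (abs_chi g S x y).le

theorem chi_congr (g : Gd E m) (S : Finset E) (x y y' : Pt E m) (h : ∀ a ∈ S, y a = y' a) :
    chi g S x y = chi g S x y' := by
  unfold chi
  exact Finset.prod_congr rfl fun a ha => by rw [h a ha]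

theorem chi_congr_left (g : Gd E m) (S : Finset E) (x x' y : Pt E m) (h : ∀ a ∈ S, x a = x' a) :
    chi g S x y = chi g S x' y := by
  unfold chi
  exact Finset.prod_congr rfl fun a ha => by rw [h a ha]

/-- character expansion: unbiased characters give large fibres -/
theorem fraction (g : Gd E m) (η : ℝ) (Z : Finset (Pt E m)) (A : Finset E) (y : Pt E m)
    (z : E → Bool) (hη : (2 : ℝ) ^ (Fintype.card E) * η ≤ 1 / 2) (hη0 : 0 ≤ η)
    (h : ∀ S ⊆ A, S.Nonempty → |∑ x ∈ Z, chi g S x y| ≤ η * #Z) :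
    (#Z : ℝ) ≤ 2 ^ (Fintype.card E + 1) * #{x ∈ Z | ∀ a ∈ A, g a (x a) (y a) = z a} := by
  classical
  have h1 : ∀ x : Pt E m, ∏ a ∈ A, (1 + sg (z a) * sg (g a (x a) (y a))) =
      if (∀ a ∈ A, g a (x a) (y a) = z a) then (2 : ℝ) ^ #A else 0 := by
    intro x
    split_ifs with hx
    · rw [← Finset.prod_const]
      apply Finset.prod_congr rfl
      intro a ha
      rw [hx a ha, sg_mul_self]; norm_num
    · push Not at hx
      obtain ⟨a, ha, hne⟩ := hx
      apply Finset.prod_eq_zero ha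
      rw [sg_mul_sg, if_neg (Ne.symm hne)]; norm_num
  have h2 : ∑ x ∈ Z, ∏ a ∈ A, (1 + sg (z a) * sg (g a (x a) (y a))) =
      2 ^ #A * #{x ∈ Z | ∀ a ∈ A, g a (x a) (y a) = z a} := by
    simp_rw [h1]
    rw [← Finset.sum_filter, Finset.sum_const, nsmul_eq_mul, mul_comm]
  have h3 : ∑ x ∈ Z, ∏ a ∈ A, (1 + sg (z a) * sg (g a (x a) (y a))) =
      ∑ S ∈ A.powerset, (∏ a ∈ S, sg (z a)) * ∑ x ∈ Z, chi g S x y := by
    simp_rw [Finset.prod_one_add]
    rw [Finset.sum_comm]
    apply Finset.sum_congr rfl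
    intro S _
    rw [Finset.mul_sum]
    apply Finset.sum_congr rfl
    intro x _
    unfold chi
    rw [← Finset.prod_mul_distrib]
  have h4 : ∑ S ∈ A.powerset, (∏ a ∈ S, sg (z a)) * ∑ x ∈ Z, chi g S x y ≥
      #Z - (2 : ℝ) ^ (Fintype.card E) * (η * #Z) := by
    rw [← Finset.add_sum_erase _ _ (Finset.empty_mem_powerset A)]
    have h5 : (∏ a ∈ (∅ : Finset E), sg (z a)) * ∑ x ∈ Z, chi g ∅ x y = #Z := by
      simp [chi]
    rw [h5]
    have h6 : ∀ S ∈ A.powerset.erase ∅, (∏ a ∈ S, sg (z a)) * ∑ x ∈ Z, chi g S x y ≥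
        -(η * #Z) := by
      intro S hS
      rw [Finset.mem_erase, Finset.mem_powerset] at hS
      have h7 := h S hS.2 (Finset.nonempty_iff_ne_empty.2 hS.1)
      have h8 : |(∏ a ∈ S, sg (z a)) * ∑ x ∈ Z, chi g S x y| ≤ η * #Z := by
        rw [abs_mul, Finset.abs_prod, Finset.prod_eq_one (fun a _ => abs_sg _), one_mul]
        exact h7
      exact (abs_le.1 h8).1
    have h9 := Finset.sum_le_sum h6
    rw [Finset.sum_const, nsmul_eq_mul] at h9
    have h10 : (#(A.powerset.erase ∅) : ℝ) ≤ 2 ^ (Fintype.card E) := by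
      have : #(A.powerset.erase ∅) ≤ 2 ^ (Fintype.card E) := by
        calc #(A.powerset.erase ∅) ≤ #A.powerset := Finset.card_erase_le
          _ = 2 ^ #A := Finset.card_powerset A
          _ ≤ 2 ^ (Fintype.card E) := Nat.pow_le_pow_right (by norm_num) (Finset.card_le_univ A)
      exact_mod_cast this
    have h11 : 0 ≤ η * (#Z : ℝ) := by positivity
    nlinarith
  have h12 : (2 : ℝ) ^ #A * #{x ∈ Z | ∀ a ∈ A, g a (x a) (y a) = z a} ≥ #Z / 2 := by
    rw [← h2, h3]
    have : (2 : ℝ) ^ (Fintype.card E) * (η * #Z) ≤ 1 / 2 * #Z := by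
      rw [← mul_assoc]
      exact mul_le_mul_of_nonneg_right hη (by positivity)
    linarith
  have h13 : (2 : ℝ) ^ #A ≤ 2 ^ (Fintype.card E) :=
    pow_le_pow_right₀ (by norm_num) (Finset.card_le_univ A)
  have h14 : (2 : ℝ) ^ #A * #{x ∈ Z | ∀ a ∈ A, g a (x a) (y a) = z a} ≤
      2 ^ (Fintype.card E) * #{x ∈ Z | ∀ a ∈ A, g a (x a) (y a) = z a} :=
    mul_le_mul_of_nonneg_right h13 (by positivity)
  rw [pow_succ]
  linarith

/-- pigeonhole -/
theorem popular {α τ : Type*} [Fintype τ] [DecidableEq τ] (P : Finset α) (t : α → τ) (M : ℕ)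
    (hM : Fintype.card τ ≤ M) (hP : P.Nonempty) :
    ∃ v : τ, #P ≤ M * #{x ∈ P | t x = v} := by
  by_contra hcon
  push Not at hcon
  have h1 : #P = ∑ v : τ, #{x ∈ P | t x = v} :=
    Finset.card_eq_sum_card_fiberwise (fun x _ => Finset.mem_coe.2 (Finset.mem_univ _))
  have hne : (Finset.univ : Finset τ).Nonempty := by
    obtain ⟨x, _⟩ := hP
    exact ⟨t x, Finset.mem_univ _⟩
  have h2 : ∑ v : τ, M * #{x ∈ P | t x = v} < ∑ v : τ, #P :=
    Finset.sum_lt_sum_of_nonempty hne (fun v _ => hcon v)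
  rw [← Finset.mul_sum, ← h1, Finset.sum_const, Finset.card_univ, smul_eq_mul] at h2
  have h3 : Fintype.card τ * #P ≤ M * #P := Nat.mul_le_mul_right _ hM
  omega

/-- medians -/
theorem exists_median {α : Type*} (P : Finset α) (hP : P.Nonempty) (f : α → ℤ) :
    ∃ v : ℤ, #P ≤ 2 * #{x ∈ P | f x ≤ v} ∧ #P ≤ 2 * #{x ∈ P | v ≤ f x} := by
  classical
  let V := (P.image f).filter (fun v => #P ≤ 2 * #{x ∈ P | f x ≤ v})
  have hV : V.Nonempty := by
    refine ⟨(P.image f).max' (hP.image f), ?_⟩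
    simp only [V, Finset.mem_filter]
    refine ⟨Finset.max'_mem _ _, ?_⟩
    have : {x ∈ P | f x ≤ (P.image f).max' (hP.image f)} = P := by
      apply Finset.filter_true_of_mem
      intro x hx
      exact Finset.le_max' _ _ (Finset.mem_image_of_mem f hx)
    rw [this]; omega
  refine ⟨V.min' hV, ?_, ?_⟩
  · have := Finset.min'_mem V hV
    simp only [V, Finset.mem_filter] at this
    exact this.2
  · by_contra hcon
    push Not at hcon
    set v := V.min' hV with hv
    have h1 : #{x ∈ P | f x < v} + #{x ∈ P | v ≤ f x} = #P := by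
      rw [← Finset.card_filter_add_card_filter_not (s := P) (fun x => f x < v)]
      congr 2
      ext x
      simp
    have h2 : #P < 2 * #{x ∈ P | f x < v} := by omega
    have h3 : ({x ∈ P | f x < v}).Nonempty := by
      rw [← Finset.card_pos]; omega
    let w := (({x ∈ P | f x < v}).image f).max' (h3.image f)
    have hw : w ∈ ({x ∈ P | f x < v}).image f := Finset.max'_mem _ _
    rw [Finset.mem_image] at hw
    obtain ⟨x, hx, hxw⟩ := hw
    rw [Finset.mem_filter] at hx
    have h4 : w < v := by rw [← hxw]; exact hx.2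
    have h5 : {x ∈ P | f x < v} ⊆ {x ∈ P | f x ≤ w} := by
      intro y hy
      rw [Finset.mem_filter]
      refine ⟨(Finset.mem_filter.1 hy).1, ?_⟩
      exact Finset.le_max' _ _ (Finset.mem_image_of_mem f hy)
    have h6 : w ∈ V := by
      simp only [V, Finset.mem_filter]
      refine ⟨?_, ?_⟩
      · rw [← hxw]; exact Finset.mem_image_of_mem f hx.1
      · have := Finset.card_le_card h5
        omega
    have h7 : v ≤ w := Finset.min'_le V w h6
    omega

end Pool.Agent.H29.Lift
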