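import Pool.Agent.H29.LiftGadget

/-!
Density restoration, error sets and good states.
-/

open Finset

namespace Pool.Agent.H29.Lift

set_option linter.unusedSectionVars false

variable {E : Type} [Fintype E] [DecidableEq E] {m : ℕ}

/-- no coordinate outside I has a heavy value -/
def Dense (Λ : ℝ) (Z : Finset (Pt E m)) (I : Finset E) : Prop :=
  ∀ a, a ∉ I → ∀ ξ, Λ * #{x ∈ Z | x a = ξ} ≤ #Z

/-- all points agree on I -/
def Fixed (Z : Finset (Pt E m)) (I : Finset E) : Prop :=
  ∀ x ∈ Z, ∀ x' ∈ Z, ∀ a ∈ I, x a = x' a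

theorem Fixed.mono {Z Z' : Finset (Pt E m)} {I : Finset E} (h : Fixed Z I) (hZ : Z' ⊆ Z) :
    Fixed Z' I := fun x hx x' hx' a ha => h x (hZ hx) x' (hZ hx') a ha

theorem Fixed.insert {Z : Finset (Pt E m)} {I : Finset E} (h : Fixed Z I) (a : E) (ξ : Fin m) :
    Fixed {x ∈ Z | x a = ξ} (insert a I) := by
  intro x hx x' hx' b hb
  rw [Finset.mem_filter] at hx hx'
  rw [Finset.mem_insert] at hb
  rcases hb with rfl | hb
  · rw [hx.2, hx'.2]
  · exact h x hx.1 x' hx'.1 b hb

theorem Fixed.card_le {Z : Finset (Pt E m)} {I : Finset E} (h : Fixed Z I) :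
    #Z * m ^ #I ≤ m ^ (Fintype.card E) := by
  classical
  have h1 : #Z ≤ m ^ #Iᶜ := by
    have : #Z ≤ Fintype.card (↥(Iᶜ) → Fin m) := by
      rw [← Finset.card_univ]
      apply Finset.card_le_card_of_injOn (fun x (a : ↥(Iᶜ)) => x a) (fun _ _ => Finset.mem_coe.2 (Finset.mem_univ _))
      intro x hx x' hx' hxx
      ext1 a
      by_cases ha : a ∈ I
      · exact h x hx x' hx' a ha
      · exact congrFun hxx ⟨a, Finset.mem_compl.2 ha⟩
    rw [Finset.card_compl]
    simpa using this
  calc #Z * m ^ #I ≤ m ^ #Iᶜ * m ^ #I := Nat.mul_le_mul_right _ h1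
    _ = m ^ (Fintype.card E) := by
      rw [← pow_add, Finset.card_compl, Nat.sub_add_cancel (Finset.card_le_univ I)]

theorem heavy_exists (Λ : ℝ) (hΛ : 1 < Λ) (I : Finset E) :
    ∀ n : ℕ, ∀ Z : Finset (Pt E m), #Z ≤ n → ∃ L : Finset (E × Fin m), (∀ p ∈ L, p.1 ∉ I) ∧
      (#L : ℝ) ≤ Λ * Real.log (#Z) + 1 ∧ Dense Λ {x ∈ Z | ∀ p ∈ L, x p.1 ≠ p.2} I := by
  classical
  intro n
  induction n with
  | zero =>
    intro Z hZ
    have : Z = ∅ := by
      rw [← Finset.card_eq_zero]; omega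
    subst this
    refine ⟨∅, by simp, by simp, ?_⟩
    intro a _ ξ
    simp
  | succ n ih =>
    intro Z hZ
    by_cases hD : Dense Λ Z I
    · refine ⟨∅, by simp, ?_, ?_⟩
      · have h1 : 0 ≤ Real.log (#Z : ℝ) := Real.log_natCast_nonneg _
        have h2 : 0 ≤ Λ * Real.log (#Z : ℝ) := mul_nonneg (by linarith) h1
        simp
        linarith
      · simpa using hD
    · unfold Dense at hD
      push Not at hD
      obtain ⟨a, ha, ξ, hlt⟩ := hD
      set Z' := {x ∈ Z | x a ≠ ξ} with hZ'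
      have hcard : #{x ∈ Z | x a = ξ} + #Z' = #Z :=
        Finset.card_filter_add_card_filter_not (s := Z) (fun x => x a = ξ)
      have hpos : 0 < #{x ∈ Z | x a = ξ} := by
        by_contra h0
        have h0' : #{x ∈ Z | x a = ξ} = 0 := by omega
        rw [h0'] at hlt
        simp at hlt
        have : (0 : ℝ) ≤ #Z := by positivity
        linarith
      have hfil : ∀ L : Finset (E × Fin m),
          {x ∈ Z | ∀ p ∈ insert (a, ξ) L, x p.1 ≠ p.2} = {x ∈ Z' | ∀ p ∈ L, x p.1 ≠ p.2} := by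
        intro L
        ext x
        simp only [Finset.mem_filter, Finset.mem_insert, forall_eq_or_imp, hZ']
        tauto
      have hlog : 0 ≤ Real.log (#Z : ℝ) := Real.log_natCast_nonneg _
      by_cases hZ0 : #Z' = 0
      · refine ⟨{(a, ξ)}, ?_, ?_, ?_⟩
        · intro p hp
          rw [Finset.mem_singleton] at hp
          rw [hp]; exact ha
        · have : 0 ≤ Λ * Real.log (#Z : ℝ) := mul_nonneg (by linarith) hlog
          simp
          linarith
        · have h1 := hfil ∅
          rw [Finset.card_eq_zero] at hZ0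
          rw [hZ0] at h1
          simp only [insert_empty_eq] at h1
          rw [h1]
          intro b _ ξ'
          simp
      · obtain ⟨L, hL1, hL2, hL3⟩ := ih Z' (by omega)
        refine ⟨insert (a, ξ) L, ?_, ?_, ?_⟩
        · intro p hp
          rw [Finset.mem_insert] at hp
          rcases hp with rfl | hp
          · exact ha
          · exact hL1 p hp
        · have h3 : (#(insert (a, ξ) L) : ℝ) ≤ #L + 1 := by
            exact_mod_cast Finset.card_insert_le _ _
          have h4 : (0 : ℝ) < #Z' := by exact_mod_cast Nat.pos_of_ne_zero hZ0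
          have h5 : (0 : ℝ) < #Z := by
            have : #Z' ≤ #Z := by omega
            have : (#Z' : ℝ) ≤ #Z := by exact_mod_cast this
            linarith
          have h6 : Real.log (#Z' : ℝ) ≤ Real.log (#Z : ℝ) - 1 / Λ := by
            have h7 : Real.log ((#Z' : ℝ) / #Z) ≤ (#Z' : ℝ) / #Z - 1 :=
              Real.log_le_sub_one_of_pos (by positivity)
            rw [Real.log_div h4.ne' h5.ne'] at h7
            have h8 : (#Z' : ℝ) / #Z - 1 ≤ - (1 / Λ) := by
              have h9 : (#{x ∈ Z | x a = ξ} : ℝ) + #Z' = #Z := by exact_mod_cast hcard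
              rw [div_sub_one h5.ne', ← neg_div, div_le_div_iff₀ h5 (by linarith)]
              nlinarith
            linarith
          have h7 : Λ * Real.log (#Z' : ℝ) ≤ Λ * (Real.log (#Z : ℝ) - 1 / Λ) :=
            mul_le_mul_of_nonneg_left h6 (by linarith)
          have h8 : Λ * (Real.log (#Z : ℝ) - 1 / Λ) = Λ * Real.log (#Z : ℝ) - 1 := by
            field_simp
          linarith
        · rw [hfil]
          exact hL3

/-- bound for the number of heavy values -/
noncomputable def P0 (E : Type) [Fintype E] (m : ℕ) (Λ : ℝ) : ℝ :=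
  Λ * (Fintype.card E * Real.log m) + 1

theorem heavy_exists' (Λ : ℝ) (hΛ : 1 < Λ) (Z : Finset (Pt E m)) (I : Finset E) :
    ∃ L : Finset (E × Fin m), (∀ p ∈ L, p.1 ∉ I) ∧
      (#L : ℝ) ≤ P0 E m Λ ∧ Dense Λ {x ∈ Z | ∀ p ∈ L, x p.1 ≠ p.2} I := by
  classical
  obtain ⟨L, h1, h2, h3⟩ := heavy_exists Λ hΛ I (#Z) Z le_rfl
  refine ⟨L, h1, h2.trans ?_, h3⟩
  unfold P0
  have h4 : Real.log (#Z : ℝ) ≤ Fintype.card E * Real.log m := by
    by_cases hZ : #Z = 0
    · rw [hZ]
      simp
      exact mul_nonneg (by positivity) (Real.log_natCast_nonneg _)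
    · have h5 : (0 : ℝ) < #Z := by exact_mod_cast Nat.pos_of_ne_zero hZ
      have h6 : #Z ≤ m ^ (Fintype.card E) := by
        have := Finset.card_le_univ Z
        simpa using this
      rw [← Real.log_pow]
      apply Real.log_le_log h5
      exact_mod_cast h6
  have := mul_le_mul_of_nonneg_left h4 (show (0 : ℝ) ≤ Λ by linarith)
  linarith

open Classical in
/-- a set of heavy values whose removal makes Z dense outside I -/
noncomputable def heavy (Λ : ℝ) (Z : Finset (Pt E m)) (I : Finset E) : Finset (E × Fin m) :=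
  if h : 1 < Λ then Classical.choose (heavy_exists' Λ h Z I) else ∅

theorem heavy_spec {Λ : ℝ} (hΛ : 1 < Λ) (Z : Finset (Pt E m)) (I : Finset E) :
    (∀ p ∈ heavy Λ Z I, p.1 ∉ I) ∧ (#(heavy Λ Z I) : ℝ) ≤ P0 E m Λ ∧
      Dense Λ {x ∈ Z | ∀ p ∈ heavy Λ Z I, x p.1 ≠ p.2} I := by
  unfold heavy
  rw [dif_pos hΛ]
  exact Classical.choose_spec (heavy_exists' Λ hΛ Z I)

/-- what remains after removing the heavy values -/
noncomputable def rest (Λ : ℝ) (Z : Finset (Pt E m)) (I : Finset E) : Finset (Pt E m) :=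
  {x ∈ Z | ∀ p ∈ heavy Λ Z I, x p.1 ≠ p.2}

/-- impose gadget values -/
def spec (g : Gd E m) (Z : Finset (Pt E m)) (S : Finset E) (β : Pt E m) (τ : E → Bool) :
    Finset (Pt E m) := {x ∈ Z | ∀ a ∈ S, g a (x a) (β a) = τ a}

variable [NeZero m]

open Classical in
/-- the special conditions at a dense set -/
noncomputable def specs (g : Gd E m) (η : ℝ) (Z : Finset (Pt E m)) (I : Finset E) :
    Finset (Finset E × Pt E m × (E → Bool)) :=
  univ.filter (fun q => q.1.Nonempty ∧ Disjoint q.1 I ∧ q.2.1 ∈ badRep g η Z q.1)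

/-- error sets: f further coordinates may be fixed, s further special conditions imposed -/
noncomputable def err (g : Gd E m) (η Λ : ℝ) : ℕ → ℕ → Finset (Pt E m) → Finset E →
    Finset (Pt E m)
  | 0, _, Z, _ => Z
  | f + 1, 0, Z, I => (heavy Λ Z I).biUnion fun p =>
      err g η Λ f 0 {x ∈ Z | x p.1 = p.2} (insert p.1 I)
  | f + 1, s + 1, Z, I => ((heavy Λ Z I).biUnion fun p =>
      err g η Λ f (s + 1) {x ∈ Z | x p.1 = p.2} (insert p.1 I)) ∪
      ((specs g η (rest Λ Z I) I).biUnion fun q =>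
        err g η Λ (f + 1) s (spec g (rest Λ Z I) q.1 q.2.1 q.2.2) I)
  termination_by f s => f + s

theorem specs_card {g : Gd E m} {η Λ₀ : ℝ} {T : ℕ} (hG : GadProp g η Λ₀ T)
    {Z : Finset (Pt E m)} {I : Finset E} (hZ : Dense Λ₀ Z I) :
    #(specs g η Z I) ≤ 4 ^ (Fintype.card E) * T := by
  classical
  have h1 : specs g η Z I ⊆ ((univ : Finset (Finset E)).filter
      (fun S => S.Nonempty ∧ Disjoint S I)).biUnion (fun S =>
      ((badRep g η Z S) ×ˢ (univ : Finset (E → Bool))).image (fun r => (S, r.1, r.2))) := by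
    intro q hq
    unfold specs at hq
    rw [Finset.mem_filter] at hq
    rw [Finset.mem_biUnion]
    refine ⟨q.1, ?_, ?_⟩
    · rw [Finset.mem_filter]; exact ⟨Finset.mem_univ _, hq.2.1, hq.2.2.1⟩
    · rw [Finset.mem_image]
      refine ⟨(q.2.1, q.2.2), ?_, rfl⟩
      rw [Finset.mem_product]
      exact ⟨hq.2.2.2, Finset.mem_univ _⟩
  have h2 := (Finset.card_le_card h1).trans Finset.card_biUnion_le
  have h3 : ∀ S ∈ (univ : Finset (Finset E)).filter (fun S => S.Nonempty ∧ Disjoint S I),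
      #(((badRep g η Z S) ×ˢ (univ : Finset (E → Bool))).image (fun r => (S, r.1, r.2))) ≤
        T * 2 ^ (Fintype.card E) := by
    intro S hS
    rw [Finset.mem_filter] at hS
    refine Finset.card_image_le.trans ?_
    rw [Finset.card_product, Finset.card_univ, Fintype.card_fun, Fintype.card_bool]
    apply Nat.mul_le_mul_right
    apply hG Z S hS.2.1
    intro a ha ξ
    exact hZ a (Finset.disjoint_left.1 hS.2.2 ha) ξ
  have h4 := Finset.sum_le_sum h3
  rw [Finset.sum_const, smul_eq_mul] at h4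
  have h5 : #((univ : Finset (Finset E)).filter (fun S => S.Nonempty ∧ Disjoint S I)) ≤
      2 ^ (Fintype.card E) := by
    refine (Finset.card_filter_le _ _).trans ?_
    rw [Finset.card_univ, Fintype.card_finset]
  calc #(specs g η Z I) ≤ _ := h2
    _ ≤ _ := h4
    _ ≤ 2 ^ (Fintype.card E) * (T * 2 ^ (Fintype.card E)) := Nat.mul_le_mul_right _ h5
    _ = 4 ^ (Fintype.card E) * T := by
      rw [show 4 = 2 * 2 by norm_num, mul_pow]; ring

theorem dense_mono {Λ Λ' : ℝ} (h : Λ' ≤ Λ) {Z : Finset (Pt E m)} {I : Finset E}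
    (hZ : Dense Λ Z I) : Dense Λ' Z I := fun a ha ξ =>
  (mul_le_mul_of_nonneg_right h (by positivity)).trans (hZ a ha ξ)

theorem err_card {g : Gd E m} {η Λ₀ Λ : ℝ} {T : ℕ} (hG : GadProp g η Λ₀ T) (hΛ : 1 < Λ)
    (hΛ₀ : Λ₀ ≤ Λ) (hT : 1 ≤ T) :
    ∀ n f s : ℕ, f + s ≤ n → ∀ (Z : Finset (Pt E m)) (I : Finset E), Fixed Z I →
      (#(err g η Λ f s Z I) : ℝ) * (m : ℝ) ^ (#I + f) ≤
        (2 * P0 E m Λ) ^ f * (2 * (4 ^ (Fintype.card E) * T)) ^ s * (m : ℝ) ^ (Fintype.card E) := by
  classical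
  set Q' : ℝ := 4 ^ (Fintype.card E) * T with hQ'
  have hT' : (1 : ℝ) ≤ T := by exact_mod_cast hT
  have hQ1 : 1 ≤ Q' := by
    have : (1 : ℝ) ≤ 4 ^ (Fintype.card E) := one_le_pow₀ (by norm_num)
    nlinarith
  have hP1 : 1 ≤ P0 E m Λ := by
    unfold P0
    have : 0 ≤ Λ * (Fintype.card E * Real.log m) :=
      mul_nonneg (by linarith) (mul_nonneg (by positivity) (Real.log_natCast_nonneg _))
    linarith
  intro n
  induction n with
  | zero =>
    intro f s hfs Z I hZ
    have hf : f = 0 := by omega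
    have hs : s = 0 := by omega
    subst hf; subst hs
    simp only [err, pow_zero, one_mul, add_zero]
    exact_mod_cast hZ.card_le
  | succ n ih =>
    intro f s hfs Z I hZ
    -- contribution of the heavy values
    have hheavy : ∀ f' s' : ℕ, f' + s' ≤ n →
        (#((heavy Λ Z I).biUnion fun p =>
          err g η Λ f' s' {x ∈ Z | x p.1 = p.2} (insert p.1 I)) : ℝ) * (m : ℝ) ^ (#I + (f' + 1)) ≤
        P0 E m Λ * ((2 * P0 E m Λ) ^ f' * (2 * Q') ^ s' * (m : ℝ) ^ (Fintype.card E)) := by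
      intro f' s' h'
      have h1 : (#((heavy Λ Z I).biUnion fun p =>
          err g η Λ f' s' {x ∈ Z | x p.1 = p.2} (insert p.1 I)) : ℝ) ≤
          ∑ p ∈ heavy Λ Z I, (#(err g η Λ f' s' {x ∈ Z | x p.1 = p.2} (insert p.1 I)) : ℝ) := by
        exact_mod_cast Finset.card_biUnion_le
      calc (#((heavy Λ Z I).biUnion fun p =>
          err g η Λ f' s' {x ∈ Z | x p.1 = p.2} (insert p.1 I)) : ℝ) * (m : ℝ) ^ (#I + (f' + 1))
          ≤ (∑ p ∈ heavy Λ Z I, (#(err g η Λ f' s' {x ∈ Z | x p.1 = p.2} (insert p.1 I)) : ℝ)) *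
            (m : ℝ) ^ (#I + (f' + 1)) := mul_le_mul_of_nonneg_right h1 (by positivity)
        _ = ∑ p ∈ heavy Λ Z I, (#(err g η Λ f' s' {x ∈ Z | x p.1 = p.2} (insert p.1 I)) : ℝ) *
            (m : ℝ) ^ (#I + (f' + 1)) := Finset.sum_mul _ _ _
        _ ≤ ∑ p ∈ heavy Λ Z I,
            ((2 * P0 E m Λ) ^ f' * (2 * Q') ^ s' * (m : ℝ) ^ (Fintype.card E)) := by
            apply Finset.sum_le_sum
            intro p hp
            have h2 := ih f' s' h' {x ∈ Z | x p.1 = p.2} (insert p.1 I) (hZ.insert p.1 p.2)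
            rw [Finset.card_insert_of_notMem ((heavy_spec hΛ Z I).1 p hp)] at h2
            have h3 : #I + 1 + f' = #I + (f' + 1) := by ring
            rw [h3] at h2
            exact h2
        _ = #(heavy Λ Z I) *
            ((2 * P0 E m Λ) ^ f' * (2 * Q') ^ s' * (m : ℝ) ^ (Fintype.card E)) := by
            rw [Finset.sum_const, nsmul_eq_mul]
        _ ≤ P0 E m Λ * ((2 * P0 E m Λ) ^ f' * (2 * Q') ^ s' * (m : ℝ) ^ (Fintype.card E)) := by
            apply mul_le_mul_of_nonneg_right (heavy_spec hΛ Z I).2.1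
            positivity
    match f, s, hfs with
    | 0, s, _ =>
      simp only [err, pow_zero, one_mul, add_zero]
      have h1 : (#Z : ℝ) * (m : ℝ) ^ #I ≤ (m : ℝ) ^ (Fintype.card E) := by
        exact_mod_cast hZ.card_le
      have h2 : 1 ≤ (2 * Q') ^ s := one_le_pow₀ (by linarith)
      have h3 : 0 ≤ (m : ℝ) ^ (Fintype.card E) := by positivity
      nlinarith
    | f + 1, 0, hfs =>
      simp only [err]
      have h1 := hheavy f 0 (by omega)
      refine h1.trans ?_
      simp only [pow_zero, mul_one]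
      have h2 : 0 ≤ (2 * P0 E m Λ) ^ f * (m : ℝ) ^ (Fintype.card E) := by positivity
      have h3 : (2 * P0 E m Λ) ^ (f + 1) * (m : ℝ) ^ (Fintype.card E) =
        2 * P0 E m Λ * ((2 * P0 E m Λ) ^ f * (m : ℝ) ^ (Fintype.card E)) := by ring
      rw [h3]
      nlinarith
    | f + 1, s + 1, hfs =>
      simp only [err]
      have h1 := hheavy f (s + 1) (by omega)
      have h2 : (#((specs g η (rest Λ Z I) I).biUnion fun q =>
          err g η Λ (f + 1) s (spec g (rest Λ Z I) q.1 q.2.1 q.2.2) I) : ℝ) *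
          (m : ℝ) ^ (#I + (f + 1)) ≤
          Q' * ((2 * P0 E m Λ) ^ (f + 1) * (2 * Q') ^ s * (m : ℝ) ^ (Fintype.card E)) := by
        have h3 : (#((specs g η (rest Λ Z I) I).biUnion fun q =>
            err g η Λ (f + 1) s (spec g (rest Λ Z I) q.1 q.2.1 q.2.2) I) : ℝ) ≤
            ∑ q ∈ specs g η (rest Λ Z I) I,
              (#(err g η Λ (f + 1) s (spec g (rest Λ Z I) q.1 q.2.1 q.2.2) I) : ℝ) := by
          exact_mod_cast Finset.card_biUnion_le
        calc _ ≤ (∑ q ∈ specs g η (rest Λ Z I) I,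
              (#(err g η Λ (f + 1) s (spec g (rest Λ Z I) q.1 q.2.1 q.2.2) I) : ℝ)) *
              (m : ℝ) ^ (#I + (f + 1)) := mul_le_mul_of_nonneg_right h3 (by positivity)
          _ = ∑ q ∈ specs g η (rest Λ Z I) I,
              (#(err g η Λ (f + 1) s (spec g (rest Λ Z I) q.1 q.2.1 q.2.2) I) : ℝ) *
              (m : ℝ) ^ (#I + (f + 1)) := Finset.sum_mul _ _ _
          _ ≤ ∑ q ∈ specs g η (rest Λ Z I) I,
              ((2 * P0 E m Λ) ^ (f + 1) * (2 * Q') ^ s * (m : ℝ) ^ (Fintype.card E)) := by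
              apply Finset.sum_le_sum
              intro q hq
              apply ih (f + 1) s (by omega)
              apply hZ.mono
              exact (Finset.filter_subset _ _).trans (Finset.filter_subset _ _)
          _ = #(specs g η (rest Λ Z I) I) *
              ((2 * P0 E m Λ) ^ (f + 1) * (2 * Q') ^ s * (m : ℝ) ^ (Fintype.card E)) := by
              rw [Finset.sum_const, nsmul_eq_mul]
          _ ≤ Q' * ((2 * P0 E m Λ) ^ (f + 1) * (2 * Q') ^ s * (m : ℝ) ^ (Fintype.card E)) := by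
              apply mul_le_mul_of_nonneg_right _ (by positivity)
              have := specs_card hG (dense_mono hΛ₀ (heavy_spec hΛ Z I).2.2)
              rw [hQ']
              exact_mod_cast this
      have h4 : (#(((heavy Λ Z I).biUnion fun p =>
          err g η Λ f (s + 1) {x ∈ Z | x p.1 = p.2} (insert p.1 I)) ∪
          ((specs g η (rest Λ Z I) I).biUnion fun q =>
          err g η Λ (f + 1) s (spec g (rest Λ Z I) q.1 q.2.1 q.2.2) I)) : ℝ) ≤
          #((heavy Λ Z I).biUnion fun p =>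
          err g η Λ f (s + 1) {x ∈ Z | x p.1 = p.2} (insert p.1 I)) +
          #((specs g η (rest Λ Z I) I).biUnion fun q =>
          err g η Λ (f + 1) s (spec g (rest Λ Z I) q.1 q.2.1 q.2.2) I) := by
        exact_mod_cast Finset.card_union_le _ _
      have h5 : (0 : ℝ) ≤ (m : ℝ) ^ (#I + (f + 1)) := by positivity
      have h6 := mul_le_mul_of_nonneg_right h4 h5
      rw [add_mul] at h6
      refine h6.trans ((add_le_add h1 h2).trans (le_of_eq ?_))
      ring

/-- a good state of the point x: at most D fixed coordinates, dense elsewhere, and no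
special condition leads into an error set -/
structure Good (g : Gd E m) (η Λ : ℝ) (D : ℕ) (f s : ℕ) (x : Pt E m) (Z : Finset (Pt E m))
    (I : Finset E) : Prop where
  mem : x ∈ Z
  dense : Dense Λ Z I
  fixed : Fixed Z I
  hf : 1 ≤ f
  hI : #I + f = D + 1
  spec : ∀ s', s = s' + 1 → ∀ q ∈ specs g η Z I, x ∈ spec g Z q.1 q.2.1 q.2.2 →
    x ∉ err g η Λ f s' (spec g Z q.1 q.2.1 q.2.2) I

theorem Good.card_le {g : Gd E m} {η Λ : ℝ} {D f s : ℕ} {x : Pt E m} {Z : Finset (Pt E m)}
    {I : Finset E} (h : Good g η Λ D f s x Z I) : #I ≤ D := by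
  have := h.hf; have := h.hI; omega

theorem good_of_not_err {g : Gd E m} {η Λ : ℝ} {D : ℕ} (hΛ : 1 < Λ) :
    ∀ f s : ℕ, ∀ (Z : Finset (Pt E m)) (I : Finset E) (x : Pt E m), x ∈ Z →
      x ∉ err g η Λ f s Z I → Fixed Z I → #I + f = D + 1 →
      ∃ (f' : ℕ) (Z' : Finset (Pt E m)) (I' : Finset E), I ⊆ I' ∧ Z' ⊆ Z ∧
        Good g η Λ D f' s x Z' I' := by
  classical
  intro f
  induction f with
  | zero =>
    intro s Z I x hx herr
    exfalso
    apply herr
    simpa [err] using hx
  | succ f ih =>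
    intro s Z I x hx herr hfix hI
    by_cases hr : x ∈ rest Λ Z I
    · refine ⟨f + 1, rest Λ Z I, I, Finset.Subset.refl _, Finset.filter_subset _ _, ?_⟩
      refine ⟨hr, (heavy_spec hΛ Z I).2.2, hfix.mono (Finset.filter_subset _ _), by omega, hI, ?_⟩
      intro s' hs' q hq hxq hxe
      subst hs'
      apply herr
      simp only [err, Finset.mem_union, Finset.mem_biUnion]
      exact Or.inr ⟨q, hq, hxe⟩
    · have h1 : ∃ p ∈ heavy Λ Z I, x p.1 = p.2 := by
        by_contra hc
        push Not at hc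
        exact hr (Finset.mem_filter.2 ⟨hx, hc⟩)
      obtain ⟨p, hp, hxp⟩ := h1
      have h2 : x ∉ err g η Λ f s {x ∈ Z | x p.1 = p.2} (insert p.1 I) := by
        intro hxe
        apply herr
        cases s with
        | zero =>
          simp only [err, Finset.mem_biUnion]
          exact ⟨p, hp, hxe⟩
        | succ s =>
          simp only [err, Finset.mem_union, Finset.mem_biUnion]
          exact Or.inl ⟨p, hp, hxe⟩
      have h3 : #(insert p.1 I) + f = D + 1 := by
        rw [Finset.card_insert_of_notMem ((heavy_spec hΛ Z I).1 p hp)]; omega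
      obtain ⟨f', Z', I', hI', hZ', hgood⟩ := ih s _ _ x (Finset.mem_filter.2 ⟨hx, hxp⟩) h2
        (hfix.insert p.1 p.2) h3
      exact ⟨f', Z', I', (Finset.subset_insert _ _).trans hI',
        hZ'.trans (Finset.filter_subset _ _), hgood⟩

/-- imposing a special condition -/
theorem Good.next {g : Gd E m} {η Λ : ℝ} {D f s : ℕ} (hΛ : 1 < Λ) {x : Pt E m}
    {Z : Finset (Pt E m)} {I : Finset E} (h : Good g η Λ D f (s + 1) x Z I) {S : Finset E}
    (hS : S.Nonempty) (hSI : Disjoint S I) {y : Pt E m} (hy : IsBad g η Z S y) :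
    ∃ (f' : ℕ) (Z' : Finset (Pt E m)) (I' : Finset E), I ⊆ I' ∧ Z' ⊆ Z ∧
        Good g η Λ D f' s x Z' I' ∧ ∀ x' ∈ Z', ∀ a ∈ S, g a (x' a) (y a) = g a (x a) (y a) := by
  classical
  have hq : (S, nrm S y, gv g x y) ∈ specs g η Z I := by
    unfold specs
    rw [Finset.mem_filter]
    exact ⟨Finset.mem_univ _, hS, hSI, mem_badRep hy⟩
  have hmem : ∀ x' : Pt E m, x' ∈ Lift.spec g Z S (nrm S y) (gv g x y) ↔
      x' ∈ Z ∧ ∀ a ∈ S, g a (x' a) (y a) = g a (x a) (y a) := by
    intro x'
    unfold Lift.spec gv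
    rw [Finset.mem_filter]
    apply and_congr_right
    intro _
    apply forall₂_congr
    intro a ha
    rw [nrm_apply ha]
  have hx : x ∈ Lift.spec g Z S (nrm S y) (gv g x y) := by
    rw [hmem]; exact ⟨h.mem, fun _ _ => rfl⟩
  have h1 := h.spec s rfl _ hq hx
  obtain ⟨f', Z', I', hI', hZ', hgood⟩ := good_of_not_err (D := D) hΛ f s _ I x hx h1
    (h.fixed.mono (Finset.filter_subset _ _)) h.hI
  refine ⟨f', Z', I', hI', hZ'.trans (Finset.filter_subset _ _), hgood, ?_⟩
  intro x' hx'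
  exact ((hmem x').1 (hZ' hx')).2

end Pool.Agent.H29.Lift
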