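import Pool.Agent.H29.LiftBasic

/-!
Existence of a pseudo-random gadget.
-/

open Finset

namespace Pool.Agent.H29.Lift

set_option linter.unusedSectionVars false

/-- exponential moment of a signed sum -/
theorem rademacher {κ τ : Type*} [Fintype κ] [Fintype τ] [DecidableEq τ] [DecidableEq κ]
    (φ : κ → τ) (hφ : Function.Injective φ) (e : κ → ℝ) (he : ∀ k, e k ^ 2 ≤ 1) (l : ℝ) :
    ∑ Ω : τ → Bool, Real.exp (l * ∑ k, e k * sg (Ω (φ k))) ≤
      2 ^ (Fintype.card τ) * Real.exp (l ^ 2 * Fintype.card κ / 2) := by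
  classical
  let d : τ → ℝ := fun p => ∑ k ∈ univ.filter (fun k => φ k = p), e k
  have h1 : ∀ Ω : τ → Bool, ∑ k, e k * sg (Ω (φ k)) = ∑ p, d p * sg (Ω p) := by
    intro Ω
    rw [← Finset.sum_fiberwise (s := univ) (g := φ)]
    apply Finset.sum_congr rfl
    intro p _
    simp only [d]
    rw [Finset.sum_mul]
    apply Finset.sum_congr rfl
    intro k hk
    rw [(Finset.mem_filter.1 hk).2]
  have h2 : ∀ Ω : τ → Bool, Real.exp (l * ∑ k, e k * sg (Ω (φ k))) =
      ∏ p, Real.exp (l * d p * sg (Ω p)) := by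
    intro Ω
    rw [h1, Finset.mul_sum, Real.exp_sum]
    apply Finset.prod_congr rfl
    intro p _
    rw [mul_assoc]
  simp_rw [h2]
  have h3 : ∑ Ω : τ → Bool, ∏ p, Real.exp (l * d p * sg (Ω p)) =
      ∏ p, ∑ b : Bool, Real.exp (l * d p * sg b) := by
    rw [Finset.prod_univ_sum, Fintype.piFinset_univ]
  rw [h3]
  have h4 : ∀ p, ∑ b : Bool, Real.exp (l * d p * sg b) ≤ 2 * Real.exp ((l * d p) ^ 2 / 2) := by
    intro p
    have h5 : ∑ b : Bool, Real.exp (l * d p * sg b) = 2 * Real.cosh (l * d p) := by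
      rw [Fintype.sum_bool, Real.cosh_eq]
      simp [sg]
      ring
    rw [h5]
    have := Real.cosh_le_exp_half_sq (l * d p)
    linarith
  calc ∏ p, ∑ b : Bool, Real.exp (l * d p * sg b)
      ≤ ∏ p : τ, (2 * Real.exp ((l * d p) ^ 2 / 2)) :=
        Finset.prod_le_prod (fun p _ => Finset.sum_nonneg fun b _ => (Real.exp_pos _).le)
          (fun p _ => h4 p)
    _ = 2 ^ (Fintype.card τ) * Real.exp (∑ p, (l * d p) ^ 2 / 2) := by
        rw [Finset.prod_mul_distrib, Finset.prod_const, Finset.card_univ, ← Real.exp_sum]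
    _ ≤ 2 ^ (Fintype.card τ) * Real.exp (l ^ 2 * Fintype.card κ / 2) := by
        apply mul_le_mul_of_nonneg_left _ (by positivity)
        apply Real.exp_le_exp.2
        have h6 : ∑ p, (l * d p) ^ 2 / 2 = l ^ 2 / 2 * ∑ p, d p ^ 2 := by
          rw [Finset.mul_sum]
          apply Finset.sum_congr rfl
          intro p _; ring
        have h7 : ∑ p, d p ^ 2 ≤ Fintype.card κ := by
          have h8 : ∑ p, d p ^ 2 = ∑ p ∈ univ.image φ, d p ^ 2 := by
            symm
            apply Finset.sum_subset (Finset.subset_univ _)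
            intro p _ hp
            have : univ.filter (fun k => φ k = p) = ∅ := by
              apply Finset.filter_eq_empty_iff.2
              intro k _ hk
              exact hp (Finset.mem_image.2 ⟨k, Finset.mem_univ _, hk⟩)
            simp [d, this]
          rw [h8, Finset.sum_image (fun k _ k' _ h => hφ h)]
          have h9 : ∀ k, d (φ k) = e k := by
            intro k
            have : univ.filter (fun k' => φ k' = φ k) = {k} := by
              ext k'
              simp only [Finset.mem_filter, Finset.mem_univ, true_and, Finset.mem_singleton]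
              exact ⟨fun h => hφ h, fun h => by rw [h]⟩
            simp [d, this]
          simp_rw [h9]
          calc ∑ k, e k ^ 2 ≤ ∑ k : κ, (1 : ℝ) := Finset.sum_le_sum fun k _ => he k
            _ = Fintype.card κ := by simp
        rw [h6]
        have : l ^ 2 / 2 * ∑ p, d p ^ 2 ≤ l ^ 2 / 2 * Fintype.card κ :=
          mul_le_mul_of_nonneg_left h7 (by positivity)
        linarith

variable {E : Type} [Fintype E] [DecidableEq E] {m : ℕ}

/-- pseudo-randomness of a gadget -/
def Pseudo (g : Gd E m) (η : ℝ) (Q : ℕ) : Prop :=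
  ∀ a, ∀ S : Finset E, a ∈ S → ∀ V B : Fin Q → Pt E m,
    Function.Injective (fun i => V i a) → Function.Injective (fun j => B j a) →
    ∀ ε ε' : Fin Q → Bool,
      ∑ i, ∑ j, sg (ε' i) * sg (ε j) * chi g S (V i) (B j) ≤ η / 2 * Q ^ 2

/-- flip the gadget at coordinate a -/
def flip (g : Gd E m) (a : E) (Ω : Fin m × Fin m → Bool) : Gd E m :=
  Function.update g a (fun s t => xor (g a s t) (Ω (s, t)))

theorem flip_flip (g : Gd E m) (a : E) (Ω : Fin m × Fin m → Bool) :
    flip (flip g a Ω) a Ω = g := by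
  unfold flip
  ext b s t
  by_cases h : b = a
  · subst h; simp
  · simp [Function.update_of_ne h]

theorem moment (a : E) (S : Finset E) (ha : a ∈ S) (Q : ℕ) (V B : Fin Q → Pt E m)
    (hV : Function.Injective (fun i => V i a)) (hB : Function.Injective (fun j => B j a))
    (ε ε' : Fin Q → Bool) (l : ℝ) :
    ∑ g : Gd E m, Real.exp (l * ∑ i, ∑ j, sg (ε' i) * sg (ε j) * chi g S (V i) (B j)) ≤
      Fintype.card (Gd E m) * Real.exp (l ^ 2 * Q ^ 2 / 2) := by
  classical
  set F : Gd E m → ℝ := fun g => ∑ i, ∑ j, sg (ε' i) * sg (ε j) * chi g S (V i) (B j) with hF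
  have h1 : ∀ Ω : Fin m × Fin m → Bool,
      ∑ g : Gd E m, Real.exp (l * F g) = ∑ g : Gd E m, Real.exp (l * F (flip g a Ω)) := by
    intro Ω
    exact (Fintype.sum_equiv (Function.Involutive.toPerm (fun g => flip g a Ω)
      (fun g => flip_flip g a Ω)) _ _ (fun g => rfl)).symm
  have h2 : ∀ g : Gd E m, ∑ Ω : Fin m × Fin m → Bool, Real.exp (l * F (flip g a Ω)) ≤
      2 ^ (Fintype.card (Fin m × Fin m)) * Real.exp (l ^ 2 * Q ^ 2 / 2) := by
    intro g
    have h3 : ∀ Ω : Fin m × Fin m → Bool, F (flip g a Ω) =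
        ∑ k : Fin Q × Fin Q, (sg (ε' k.1) * sg (ε k.2) * chi g S (V k.1) (B k.2)) *
          sg (Ω (V k.1 a, B k.2 a)) := by
      intro Ω
      rw [Fintype.sum_prod_type]
      apply Finset.sum_congr rfl
      intro i _
      apply Finset.sum_congr rfl
      intro j _
      have h4 : chi (flip g a Ω) S (V i) (B j) =
          chi g S (V i) (B j) * sg (Ω (V i a, B j a)) := by
        unfold chi
        rw [← Finset.mul_prod_erase S _ ha, ← Finset.mul_prod_erase S
          (fun a => sg (g a (V i a) (B j a))) ha]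
        have h5 : ∏ b ∈ S.erase a, sg (flip g a Ω b (V i b) (B j b)) =
            ∏ b ∈ S.erase a, sg (g b (V i b) (B j b)) := by
          apply Finset.prod_congr rfl
          intro b hb
          unfold flip
          rw [Function.update_of_ne (Finset.ne_of_mem_erase hb)]
        have h6 : sg (flip g a Ω a (V i a) (B j a)) =
            sg (g a (V i a) (B j a)) * sg (Ω (V i a, B j a)) := by
          unfold flip
          rw [Function.update_self]
          cases g a (V i a) (B j a) <;> cases Ω (V i a, B j a) <;> simp [sg]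
        rw [h5, h6]; ring
      rw [h4]; ring
    simp_rw [h3]
    have h7 := rademacher (κ := Fin Q × Fin Q) (τ := Fin m × Fin m)
      (fun k => (V k.1 a, B k.2 a))
      (by
        rintro ⟨i, j⟩ ⟨i', j'⟩ h
        simp only [Prod.mk.injEq] at h
        exact Prod.ext (hV h.1) (hB h.2))
      (fun k => sg (ε' k.1) * sg (ε k.2) * chi g S (V k.1) (B k.2))
      (by
        intro k
        have : |sg (ε' k.1) * sg (ε k.2) * chi g S (V k.1) (B k.2)| = 1 := by
          rw [abs_mul, abs_mul, abs_sg, abs_sg, abs_chi]; norm_num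
        rw [← sq_abs, this]; norm_num) l
    have h8 : (Fintype.card (Fin Q × Fin Q) : ℝ) = (Q : ℝ) ^ 2 := by
      rw [Fintype.card_prod, Fintype.card_fin]; push_cast; ring
    rw [h8] at h7
    exact h7
  have h9 : (2 : ℝ) ^ (Fintype.card (Fin m × Fin m)) * ∑ g : Gd E m, Real.exp (l * F g) =
      ∑ Ω : Fin m × Fin m → Bool, ∑ g : Gd E m, Real.exp (l * F (flip g a Ω)) := by
    rw [Finset.sum_congr rfl (fun Ω _ => (h1 Ω).symm), Finset.sum_const, Finset.card_univ,
      nsmul_eq_mul]
    congr 1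
    simp
  have h10 : ∑ Ω : Fin m × Fin m → Bool, ∑ g : Gd E m, Real.exp (l * F (flip g a Ω)) ≤
      Fintype.card (Gd E m) * (2 ^ (Fintype.card (Fin m × Fin m)) *
        Real.exp (l ^ 2 * Q ^ 2 / 2)) := by
    rw [Finset.sum_comm]
    calc ∑ g : Gd E m, ∑ Ω : Fin m × Fin m → Bool, Real.exp (l * F (flip g a Ω))
        ≤ ∑ g : Gd E m, (2 ^ (Fintype.card (Fin m × Fin m)) * Real.exp (l ^ 2 * Q ^ 2 / 2)) :=
          Finset.sum_le_sum fun g _ => h2 g
      _ = _ := by rw [Finset.sum_const, Finset.card_univ, nsmul_eq_mul]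
  have hpos : (0 : ℝ) < 2 ^ (Fintype.card (Fin m × Fin m)) := by positivity
  have h11 : (2 : ℝ) ^ (Fintype.card (Fin m × Fin m)) * ∑ g : Gd E m, Real.exp (l * F g) ≤
      2 ^ (Fintype.card (Fin m × Fin m)) * (Fintype.card (Gd E m) *
        Real.exp (l ^ 2 * Q ^ 2 / 2)) := by
    rw [h9]
    refine h10.trans (le_of_eq ?_)
    ring
  exact le_of_mul_le_mul_left h11 hpos

theorem exists_pseudo (Q : ℕ) (η : ℝ) (hη : 0 < η)
    (hQ : (Fintype.card E : ℝ) * 2 ^ (Fintype.card E) * (4 * (m : ℝ) ^ (2 * Fintype.card E)) ^ Q *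
      Real.exp (-(η ^ 2 * Q ^ 2 / 8)) < 1) :
    ∃ g : Gd E m, Pseudo g η Q := by
  classical
  by_contra hcon
  push Not at hcon
  let K := E × Finset E × (Fin Q → Pt E m) × (Fin Q → Pt E m) × (Fin Q → Bool) × (Fin Q → Bool)
  let F : K → Gd E m → ℝ := fun t g =>
    ∑ i, ∑ j, sg (t.2.2.2.2.2 i) * sg (t.2.2.2.2.1 j) * chi g t.2.1 (t.2.2.1 i) (t.2.2.2.1 j)
  let val : K → Prop := fun t => t.1 ∈ t.2.1 ∧ Function.Injective (fun i => t.2.2.1 i t.1) ∧
    Function.Injective (fun j => t.2.2.2.1 j t.1)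
  have h1 : ∀ t : K, val t → (#{g : Gd E m | η / 2 * Q ^ 2 < F t g} : ℝ) ≤
      Fintype.card (Gd E m) * Real.exp (-(η ^ 2 * Q ^ 2 / 8)) := by
    rintro t ⟨ha, hV, hB⟩
    have h2 := moment t.1 t.2.1 ha Q t.2.2.1 t.2.2.2.1 hV hB t.2.2.2.2.1 t.2.2.2.2.2 (η / 2)
    have h3 : (#{g : Gd E m | η / 2 * Q ^ 2 < F t g} : ℝ) * Real.exp (η / 2 * (η / 2 * Q ^ 2)) ≤
        ∑ g : Gd E m, Real.exp (η / 2 * F t g) := by
      calc (#{g : Gd E m | η / 2 * Q ^ 2 < F t g} : ℝ) * Real.exp (η / 2 * (η / 2 * Q ^ 2))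
          = ∑ g ∈ univ.filter (fun g : Gd E m => η / 2 * Q ^ 2 < F t g),
              Real.exp (η / 2 * (η / 2 * Q ^ 2)) := by
            rw [Finset.sum_const, nsmul_eq_mul]
        _ ≤ ∑ g ∈ univ.filter (fun g : Gd E m => η / 2 * Q ^ 2 < F t g),
              Real.exp (η / 2 * F t g) := by
            apply Finset.sum_le_sum
            intro g hg
            apply Real.exp_le_exp.2
            exact mul_le_mul_of_nonneg_left (Finset.mem_filter.1 hg).2.le (by positivity)
        _ ≤ ∑ g : Gd E m, Real.exp (η / 2 * F t g) :=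
            Finset.sum_le_sum_of_subset_of_nonneg (Finset.filter_subset _ _)
              (fun _ _ _ => (Real.exp_pos _).le)
    have h4 := h3.trans h2
    have h5 : Real.exp ((η / 2) ^ 2 * Q ^ 2 / 2) =
        Real.exp (-(η ^ 2 * Q ^ 2 / 8)) * Real.exp (η / 2 * (η / 2 * Q ^ 2)) := by
      rw [← Real.exp_add]; congr 1; ring
    rw [h5] at h4
    have h4' : (#{g : Gd E m | η / 2 * Q ^ 2 < F t g} : ℝ) *
        Real.exp (η / 2 * (η / 2 * Q ^ 2)) ≤
        (Fintype.card (Gd E m) * Real.exp (-(η ^ 2 * Q ^ 2 / 8))) *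
          Real.exp (η / 2 * (η / 2 * Q ^ 2)) := by
      refine h4.trans (le_of_eq ?_)
      ring
    exact le_of_mul_le_mul_right h4' (Real.exp_pos _)
  have h6 : (univ : Finset (Gd E m)) ⊆ (univ.filter val).biUnion
      (fun t => univ.filter (fun g : Gd E m => η / 2 * Q ^ 2 < F t g)) := by
    intro g _
    have := hcon g
    unfold Pseudo at this
    push Not at this
    obtain ⟨a, S, ha, V, B, hV, hB, ε, ε', h⟩ := this
    rw [Finset.mem_biUnion]
    refine ⟨(a, S, V, B, ε, ε'), ?_, ?_⟩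
    · rw [Finset.mem_filter]; exact ⟨Finset.mem_univ _, ha, hV, hB⟩
    · rw [Finset.mem_filter]; exact ⟨Finset.mem_univ _, h⟩
  have h7 := (Finset.card_le_card h6).trans Finset.card_biUnion_le
  rw [Finset.card_univ] at h7
  have h8 : (Fintype.card (Gd E m) : ℝ) ≤
      Fintype.card K * (Fintype.card (Gd E m) * Real.exp (-(η ^ 2 * Q ^ 2 / 8))) := by
    calc (Fintype.card (Gd E m) : ℝ)
        ≤ ∑ t ∈ univ.filter val, (#{g : Gd E m | η / 2 * Q ^ 2 < F t g} : ℝ) := by
          exact_mod_cast h7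
      _ ≤ ∑ t ∈ univ.filter val, (Fintype.card (Gd E m) * Real.exp (-(η ^ 2 * Q ^ 2 / 8))) :=
          Finset.sum_le_sum fun t ht => h1 t (Finset.mem_filter.1 ht).2
      _ = #(univ.filter val) * (Fintype.card (Gd E m) * Real.exp (-(η ^ 2 * Q ^ 2 / 8))) := by
          rw [Finset.sum_const, nsmul_eq_mul]
      _ ≤ Fintype.card K * (Fintype.card (Gd E m) * Real.exp (-(η ^ 2 * Q ^ 2 / 8))) := by
          apply mul_le_mul_of_nonneg_right _ (by positivity)
          exact_mod_cast Finset.card_le_univ _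
  have h9 : (0 : ℝ) < Fintype.card (Gd E m) := by
    exact_mod_cast Fintype.card_pos
  have h10 : (Fintype.card K : ℝ) = (Fintype.card E : ℝ) * 2 ^ (Fintype.card E) *
      (4 * (m : ℝ) ^ (2 * Fintype.card E)) ^ Q := by
    simp only [K, Fintype.card_prod, Fintype.card_finset, Fintype.card_fun, Fintype.card_fin,
      Fintype.card_bool]
    push_cast
    rw [mul_pow, show (4 : ℝ) = 2 * 2 by norm_num, mul_pow, two_mul (Fintype.card E), pow_add,
      mul_pow]
    ring
  rw [h10] at h8
  have h11 : (Fintype.card (Gd E m) : ℝ) * 1 ≤ Fintype.card (Gd E m) *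
      ((Fintype.card E : ℝ) * 2 ^ (Fintype.card E) * (4 * (m : ℝ) ^ (2 * Fintype.card E)) ^ Q *
      Real.exp (-(η ^ 2 * Q ^ 2 / 8))) := by
    linarith
  have h12 := le_of_mul_le_mul_left h11 h9
  linarith

theorem Pseudo.sw {g : Gd E m} {η : ℝ} {Q : ℕ} (h : Pseudo g η Q) : Pseudo (Lift.sw g) η Q := by
  intro a S ha V B hV hB ε ε'
  have h1 := h a S ha B V hB hV ε' ε
  refine le_trans (le_of_eq ?_) h1
  rw [Finset.sum_comm]
  apply Finset.sum_congr rfl
  intro j _
  apply Finset.sum_congr rfl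
  intro i _
  have : chi (Lift.sw g) S (V i) (B j) = chi g S (B j) (V i) := rfl
  rw [this]; ring

/-- y is bad for Z and S if the character of S at y is biased on Z -/
def IsBad (g : Gd E m) (η : ℝ) (Z : Finset (Pt E m)) (S : Finset E) (y : Pt E m) : Prop :=
  η * #Z < |∑ x ∈ Z, chi g S x y|

theorem IsBad.congr {g : Gd E m} {η : ℝ} {Z : Finset (Pt E m)} {S : Finset E} {y y' : Pt E m}
    (h : IsBad g η Z S y) (h' : ∀ a ∈ S, y a = y' a) : IsBad g η Z S y' := by
  unfold IsBad at *
  rw [Finset.sum_congr rfl (fun x _ => chi_congr g S x y y' h')] at h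
  exact h

variable [NeZero m]

/-- normal form of a point with respect to S -/
def nrm (S : Finset E) (y : Pt E m) : Pt E m := fun a => if a ∈ S then y a else 0

open Classical in
/-- representatives of the bad points -/
noncomputable def badRep (g : Gd E m) (η : ℝ) (Z : Finset (Pt E m)) (S : Finset E) :
    Finset (Pt E m) := (univ.filter (fun y => IsBad g η Z S y)).image (nrm S)

theorem mem_badRep {g : Gd E m} {η : ℝ} {Z : Finset (Pt E m)} {S : Finset E} {y : Pt E m}
    (h : IsBad g η Z S y) : nrm S y ∈ badRep g η Z S := by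
  classical
  unfold badRep
  exact Finset.mem_image_of_mem _ (Finset.mem_filter.2 ⟨Finset.mem_univ _, h⟩)

theorem nrm_apply {S : Finset E} {y : Pt E m} {a : E} (ha : a ∈ S) : nrm S y a = y a := by
  simp [nrm, ha]

theorem isBad_of_mem {g : Gd E m} {η : ℝ} {Z : Finset (Pt E m)} {S : Finset E} {y : Pt E m}
    (h : y ∈ badRep g η Z S) : IsBad g η Z S y := by
  classical
  unfold badRep at h
  rw [Finset.mem_image] at h
  obtain ⟨y', hy', rfl⟩ := h
  exact (Finset.mem_filter.1 hy').2.congr (fun a ha => (nrm_apply ha).symm)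

/-- few bad points for spread sets -/
def GadProp (g : Gd E m) (η Λ₀ : ℝ) (T : ℕ) : Prop :=
  ∀ (Z : Finset (Pt E m)) (S : Finset E), S.Nonempty →
    (∀ a ∈ S, ∀ ξ, Λ₀ * #{x ∈ Z | x a = ξ} ≤ #Z) → #(badRep g η Z S) ≤ T

theorem exists_distinct (B : Finset (Pt E m)) (a : E) (Q : ℕ)
    (h : Q ≤ #(B.image (fun y => y a))) :
    ∃ V : Fin Q → Pt E m, (∀ j, V j ∈ B) ∧ Function.Injective (fun j => V j a) := by
  classical
  obtain ⟨T, hT, hcard⟩ := Finset.exists_subset_card_eq h
  let e : Fin Q ≃ T := (Finset.equivFinOfCardEq hcard).symm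
  have h1 : ∀ j : Fin Q, ∃ y ∈ B, y a = (e j : Fin m) := by
    intro j
    have := hT (e j).2
    rw [Finset.mem_image] at this
    exact this
  choose V hV hVa using h1
  refine ⟨V, hV, ?_⟩
  intro i j hij
  simp only [hVa] at hij
  exact e.injective (Subtype.ext hij)

theorem gadProp_of_pseudo {g : Gd E m} {η Λ₀ : ℝ} {Q : ℕ} (hη : 0 < η) (hQ : 0 < Q)
    (hg : Pseudo g η Q) (hΛ : 2 * Q < η * Λ₀) :
    GadProp g η Λ₀ (Q ^ (Fintype.card E)) := by
  classical
  intro Z S hS hdens
  by_contra hcon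
  push Not at hcon
  have hΛpos : 0 < Λ₀ := by
    by_contra h
    push Not at h
    have : η * Λ₀ ≤ 0 := mul_nonpos_of_nonneg_of_nonpos hη.le h
    have : (0 : ℝ) < Q := by exact_mod_cast hQ
    linarith
  have h1 : ∃ a ∈ S, Q ≤ #((badRep g η Z S).image (fun y => y a)) := by
    by_contra h
    push Not at h
    have h2 : badRep g η Z S ⊆ Fintype.piFinset
        (fun a => if a ∈ S then (badRep g η Z S).image (fun y => y a) else {0}) := by
      intro y hy
      rw [Fintype.mem_piFinset]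
      intro a
      split_ifs with ha
      · exact Finset.mem_image_of_mem _ hy
      · unfold badRep at hy
        rw [Finset.mem_image] at hy
        obtain ⟨y', _, rfl⟩ := hy
        simp [nrm, ha]
    have h3 := Finset.card_le_card h2
    rw [Fintype.card_piFinset] at h3
    have h4 : ∏ a, #(if a ∈ S then (badRep g η Z S).image (fun y => y a) else {0}) ≤
        ∏ _a : E, Q := by
      apply Finset.prod_le_prod' 
      intro a _
      split_ifs with ha
      · exact (h a ha).le
      · simp; omega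
    rw [Finset.prod_const, Finset.card_univ] at h4
    omega
  obtain ⟨a, ha, hcard⟩ := h1
  obtain ⟨B, hB, hBinj⟩ := exists_distinct _ a Q hcard
  have hQr : (0 : ℝ) < Q := by exact_mod_cast hQ
  let ε : Fin Q → Bool := fun j => decide (∑ x ∈ Z, chi g S x (B j) < 0)
  have hε : ∀ j, sg (ε j) * ∑ x ∈ Z, chi g S x (B j) = |∑ x ∈ Z, chi g S x (B j)| := by
    intro j
    by_cases h : ∑ x ∈ Z, chi g S x (B j) < 0
    · simp [ε, h, sg, abs_of_neg h]
    · simp [ε, h, sg]
      rw [abs_of_nonneg (not_lt.1 h)]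
  let h : Pt E m → ℝ := fun x => ∑ j, sg (ε j) * chi g S x (B j)
  have hh : ∀ x, h x ≤ Q := by
    intro x
    calc h x ≤ ∑ j : Fin Q, (1 : ℝ) := by
          apply Finset.sum_le_sum
          intro j _
          have : |sg (ε j) * chi g S x (B j)| = 1 := by rw [abs_mul, abs_sg, abs_chi]; norm_num
          exact (le_abs_self _).trans this.le
      _ = Q := by simp
  have hsum : ∑ x ∈ Z, h x = ∑ j, |∑ x ∈ Z, chi g S x (B j)| := by
    simp only [h]
    rw [Finset.sum_comm]
    apply Finset.sum_congr rfl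
    intro j _
    rw [← Finset.mul_sum, hε]
  have hlow : (Q : ℝ) * (η * #Z) < ∑ x ∈ Z, h x := by
    rw [hsum]
    have : Nonempty (Fin Q) := ⟨⟨0, hQ⟩⟩
    calc (Q : ℝ) * (η * #Z) = ∑ j : Fin Q, η * #Z := by simp
      _ < _ := Finset.sum_lt_sum_of_nonempty Finset.univ_nonempty
          (fun j _ => isBad_of_mem (hB j))
  let U := ({x ∈ Z | η / 2 * Q < h x}).image (fun x => x a)
  have hU : #U < Q := by
    by_contra hUcon
    push Not at hUcon
    obtain ⟨V, hV, hVinj⟩ := exists_distinct _ a Q hUcon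
    have h5 := hg a S ha V B hVinj hBinj ε (fun _ => false)
    have h6 : ∑ i, ∑ j, sg false * sg (ε j) * chi g S (V i) (B j) = ∑ i, h (V i) := by
      apply Finset.sum_congr rfl
      intro i _
      apply Finset.sum_congr rfl
      intro j _
      simp [sg]
    rw [h6] at h5
    have : Nonempty (Fin Q) := ⟨⟨0, hQ⟩⟩
    have h7 : (Q : ℝ) * (η / 2 * Q) < ∑ i, h (V i) := by
      calc (Q : ℝ) * (η / 2 * Q) = ∑ i : Fin Q, η / 2 * Q := by simp
        _ < _ := Finset.sum_lt_sum_of_nonempty Finset.univ_nonempty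
            (fun i _ => (Finset.mem_filter.1 (hV i)).2)
    nlinarith
  have hup : ∑ x ∈ Z, h x ≤ η / 2 * Q * #Z + Q * #{x ∈ Z | x a ∈ U} := by
    calc ∑ x ∈ Z, h x ≤ ∑ x ∈ Z, (η / 2 * Q + if x a ∈ U then (Q : ℝ) else 0) := by
          apply Finset.sum_le_sum
          intro x hx
          split_ifs with hxU
          · have := hh x
            have : 0 ≤ η / 2 * Q := by positivity
            linarith
          · by_contra hc
            push Not at hc
            apply hxU
            rw [Finset.mem_image]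
            exact ⟨x, Finset.mem_filter.2 ⟨hx, by linarith⟩, rfl⟩
      _ = η / 2 * Q * #Z + Q * #{x ∈ Z | x a ∈ U} := by
          rw [Finset.sum_add_distrib, Finset.sum_const, nsmul_eq_mul, ← Finset.sum_filter,
            Finset.sum_const, nsmul_eq_mul]
          ring
  have hcount : Λ₀ * (#{x ∈ Z | x a ∈ U} : ℝ) ≤ Q * #Z := by
    have h8 : {x ∈ Z | x a ∈ U} ⊆ U.biUnion (fun ξ => {x ∈ Z | x a = ξ}) := by
      intro x hx
      rw [Finset.mem_filter] at hx
      rw [Finset.mem_biUnion]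
      exact ⟨x a, hx.2, Finset.mem_filter.2 ⟨hx.1, rfl⟩⟩
    have h9 := (Finset.card_le_card h8).trans Finset.card_biUnion_le
    calc Λ₀ * (#{x ∈ Z | x a ∈ U} : ℝ) ≤ Λ₀ * ∑ ξ ∈ U, (#{x ∈ Z | x a = ξ} : ℝ) := by
          apply mul_le_mul_of_nonneg_left _ hΛpos.le
          exact_mod_cast h9
      _ = ∑ ξ ∈ U, Λ₀ * (#{x ∈ Z | x a = ξ} : ℝ) := Finset.mul_sum _ _ _
      _ ≤ ∑ ξ ∈ U, (#Z : ℝ) := Finset.sum_le_sum fun ξ _ => hdens a ha ξ
      _ = #U * #Z := by rw [Finset.sum_const, nsmul_eq_mul]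
      _ ≤ Q * #Z := by
          apply mul_le_mul_of_nonneg_right _ (by positivity)
          exact_mod_cast hU.le
  have hZ : (0 : ℝ) < #Z := by
    by_contra hZc
    have hZ0 : Z = ∅ := by
      rw [← Finset.card_eq_zero]
      by_contra h0
      exact hZc (by exact_mod_cast Nat.pos_of_ne_zero h0)
    have := isBad_of_mem (hB ⟨0, hQ⟩)
    simp [IsBad, hZ0] at this
  -- combine
  have h10 : Q * (η / 2 * #Z) < Q * (#{x ∈ Z | x a ∈ U} : ℝ) := by nlinarith
  have h11 : η / 2 * #Z < (#{x ∈ Z | x a ∈ U} : ℝ) := lt_of_mul_lt_mul_left h10 hQr.le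
  have h12 : Λ₀ * (η / 2 * #Z) < Q * #Z :=
    (mul_lt_mul_of_pos_left h11 hΛpos).trans_le hcount
  have h13 : (Λ₀ * (η / 2)) * #Z < Q * #Z := by linarith
  have h14 := lt_of_mul_lt_mul_right h13 hZ.le
  linarith

end Pool.Agent.H29.Lift
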