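import Pool.Agent.H29.LiftTseitin

/-!
The hard graphs: blocks hold rows and columns of the two inputs of the gadgets.
-/

open Finset

namespace Pool.Agent.H29.Lift

set_option linter.unusedSectionVars false

variable {q r m : ℕ}

abbrev Blk (q r : ℕ) := (Bool × Fin q) ⊕ Fin r

abbrev Fn (q m : ℕ) := Fin q → Fin m

abbrev Vx (q r m : ℕ) := Blk q r × Fn q m × Fn q m

/-- the parity constraint at u, for row and column data of the two sides -/
def OKc (g : Gd (Fin q × Fin q) m) (c : Fin q → ZMod 2) (u : Fin q) (p p' : Fn q m × Fn q m) :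
    Prop :=
  ∑ w ∈ univ.erase u, (bz (g (u, w) (p.1 w) (p'.1 w)) + bz (g (w, u) (p.2 w) (p'.2 w))) = c u

def Rel (g : Gd (Fin q × Fin q) m) (c : Fin q → ZMod 2) (b b' : Blk q r)
    (p p' : Fn q m × Fn q m) : Prop :=
  match b, b' with
  | Sum.inl (false, u), Sum.inl (false, u') => p.1 u' = p'.2 u ∧ p.2 u' = p'.1 u
  | Sum.inl (true, u), Sum.inl (true, u') => p.1 u' = p'.2 u ∧ p.2 u' = p'.1 u
  | Sum.inl (false, u), Sum.inl (true, u') => u = u' → OKc g c u p p'
  | Sum.inl (true, u), Sum.inl (false, u') => u = u' → OKc g c u p' p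
  | _, _ => True

theorem Rel_symm {g : Gd (Fin q × Fin q) m} {c : Fin q → ZMod 2} {b b' : Blk q r}
    {p p' : Fn q m × Fn q m} (h : Rel g c b b' p p') : Rel g c b' b p' p := by
  rcases b with ⟨s, u⟩ | i <;> rcases b' with ⟨s', u'⟩ | i'
  · cases s <;> cases s' <;> simp only [Rel] at h ⊢
    · exact ⟨h.2.symm, h.1.symm⟩
    · rintro rfl; exact h rfl
    · rintro rfl; exact h rfl
    · exact ⟨h.2.symm, h.1.symm⟩
  · simp [Rel]
  · simp [Rel]
  · simp [Rel]

/-- the graph on structured vertices -/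
def G0 (g : Gd (Fin q × Fin q) m) (c : Fin q → ZMod 2) : SimpleGraph (Vx q r m) where
  Adj v w := v.1 ≠ w.1 ∧ Rel g c v.1 w.1 v.2 w.2
  symm := ⟨fun _ _ h => ⟨h.1.symm, Rel_symm h.2⟩⟩
  loopless := ⟨fun _ h => h.1 rfl⟩

theorem cliqueFree (g : Gd (Fin q × Fin q) m) (c : Fin q → ZMod 2) (hc : ∑ u, c u = 1) :
    (G0 (r := r) g c).CliqueFree (2 * q + r) := by
  classical
  intro s hs
  have hadj : ∀ v ∈ s, ∀ w ∈ s, v ≠ w → (G0 g c).Adj v w := fun v hv w hw hvw =>
    hs.isClique (Finset.mem_coe.2 hv) (Finset.mem_coe.2 hw) hvw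
  have hinj : Set.InjOn (fun v : Vx q r m => v.1) (s : Set (Vx q r m)) := by
    intro v hv w hw hvw
    by_contra hne
    exact (hadj v hv w hw hne).1 hvw
  have himg : s.image (fun v => v.1) = univ := by
    apply Finset.eq_univ_of_card
    rw [Finset.card_image_of_injOn hinj, hs.card_eq]
    simp [Fintype.card_sum, Fintype.card_prod]
  have hex : ∀ b : Blk q r, ∃ d : Fn q m × Fn q m, (b, d) ∈ s := by
    intro b
    have : b ∈ s.image (fun v => v.1) := by rw [himg]; exact Finset.mem_univ _
    rw [Finset.mem_image] at this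
    obtain ⟨v, hv, rfl⟩ := this
    exact ⟨v.2, hv⟩
  choose d hd using hex
  have hrel : ∀ b b' : Blk q r, b ≠ b' → Rel g c b b' (d b) (d b') := by
    intro b b' hb
    exact (hadj _ (hd b) _ (hd b') (fun h => hb (congrArg Prod.fst h))).2
  let T : Fin q → Fin q → ZMod 2 := fun u w =>
    bz (g (u, w) ((d (Sum.inl (false, u))).1 w) ((d (Sum.inl (true, u))).1 w))
  have h1 : ∀ u, ∑ w ∈ univ.erase u, (T u w + T w u) = c u := by
    intro u
    have h2 := hrel (Sum.inl (false, u)) (Sum.inl (true, u)) (by simp)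
    simp only [Rel, OKc, forall_const] at h2
    rw [← h2]
    apply Finset.sum_congr rfl
    intro w hw
    have hwu : w ≠ u := Finset.ne_of_mem_erase hw
    have h3 := hrel (Sum.inl (false, u)) (Sum.inl (false, w)) (by simp [hwu.symm])
    have h4 := hrel (Sum.inl (true, u)) (Sum.inl (true, w)) (by simp [hwu.symm])
    simp only [Rel] at h3 h4
    rw [h3.2, h4.2]
  have h5 : ∑ u, ∑ w ∈ univ.erase u, (T u w + T w u) = 0 := by
    have h6 : ∑ u, ∑ w ∈ univ.erase u, T w u = ∑ u, ∑ w ∈ univ.erase u, T u w := by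
      rw [Finset.sum_comm' (t' := univ) (s' := fun w => univ.erase w)]
      intro x y
      simp [eq_comm]
    simp_rw [Finset.sum_add_distrib]
    rw [h6]
    have h7 : ∀ t : ZMod 2, t + t = 0 := by decide
    exact h7 _
  rw [Finset.sum_congr rfl (fun u _ => h1 u), hc] at h5
  exact one_ne_zero h5

/-- the block data coming from the two inputs -/
def dat (x y : Pt (Fin q × Fin q) m) [NeZero m] : Blk q r → Fn q m × Fn q m
  | Sum.inl (false, u) => (fun w => x (u, w), fun w => x (w, u))
  | Sum.inl (true, u) => (fun w => y (u, w), fun w => y (w, u))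
  | Sum.inr _ => (fun _ => 0, fun _ => 0)

/-- blocks that depend on the first input -/
def isA : Blk q r → Bool
  | Sum.inl (false, _) => true
  | _ => false

theorem dat_A [NeZero m] {x y y' : Pt (Fin q × Fin q) m} {b : Blk q r} (h : isA b = true) :
    dat x y b = dat x y' b := by
  rcases b with ⟨s, u⟩ | i
  · cases s
    · rfl
    · simp [isA] at h
  · rfl

theorem dat_B [NeZero m] {x x' y : Pt (Fin q × Fin q) m} {b : Blk q r} (h : isA b = false) :
    dat x y b = dat x' y b := by
  rcases b with ⟨s, u⟩ | i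
  · cases s
    · simp [isA] at h
    · rfl
  · rfl

theorem leafK [NeZero m] (hq : 2 ≤ q) (g : Gd (Fin q × Fin q) m) (c : Fin q → ZMod 2)
    (b b' : Blk q r) (hb : b ≠ b') : ∃ K : Finset (Fin q × Fin q), #K ≤ 2 * q ∧
      ∀ x y : Pt (Fin q × Fin q) m, ¬ Rel g c b b' (dat x y b) (dat x y b') →
        ¬ TH c K (gv g x y) := by
  rcases b with ⟨s, u⟩ | i <;> rcases b' with ⟨s', u'⟩ | i'
  · cases s <;> cases s'
    · refine ⟨∅, by simp, fun x y h => ?_⟩
      exact absurd (by simp [Rel, dat]) h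
    · by_cases huu : u = u'
      · subst huu
        refine ⟨cut {u}, card_cut_singleton u, fun x y h hT => h ?_⟩
        simp only [Rel, OKc, dat, forall_const]
        exact TH_star hq u hT
      · refine ⟨∅, by simp, fun x y h => ?_⟩
        exact absurd (by simp [Rel, huu]) h
    · by_cases huu : u = u'
      · subst huu
        refine ⟨cut {u}, card_cut_singleton u, fun x y h hT => h ?_⟩
        simp only [Rel, OKc, dat, forall_const]
        exact TH_star hq u hT
      · refine ⟨∅, by simp, fun x y h => ?_⟩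
        exact absurd (by simp [Rel, huu]) h
    · refine ⟨∅, by simp, fun x y h => ?_⟩
      exact absurd (by simp [Rel, dat]) h
  · exact ⟨∅, by simp, fun x y h => absurd (by simp [Rel]) h⟩
  · exact ⟨∅, by simp, fun x y h => absurd (by simp [Rel]) h⟩
  · exact ⟨∅, by simp, fun x y h => absurd (by simp [Rel]) h⟩

end Pool.Agent.H29.Lift
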