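import Pool.Agent.H29.LiftStep

/-!
The parity constraints on the complete digraph: an adversary family of quadratic width.
-/

open Finset

namespace Pool.Agent.H29.Lift

set_option linter.unusedSectionVars false

variable {q : ℕ}

def bz (b : Bool) : ZMod 2 := if b then 1 else 0

def ind (U : Finset (Fin q)) (u : Fin q) : ZMod 2 := if u ∈ U then 1 else 0

/-- coordinates crossing U -/
def cut (U : Finset (Fin q)) : Finset (Fin q × Fin q) :=
  univ.filter (fun e => ind U e.1 + ind U e.2 ≠ 0)

def Par (U : Finset (Fin q)) (z : Fin q × Fin q → Bool) : ZMod 2 :=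
  ∑ e : Fin q × Fin q, (ind U e.1 + ind U e.2) * bz (z e)

theorem ind_symmDiff (U U' : Finset (Fin q)) (u : Fin q) :
    ind (symmDiff U U') u = ind U u + ind U' u := by
  unfold ind
  by_cases h1 : u ∈ U <;> by_cases h2 : u ∈ U' <;>
    simp [Finset.mem_symmDiff, h1, h2] <;> decide

theorem Par_symmDiff (U U' : Finset (Fin q)) (z : Fin q × Fin q → Bool) :
    Par (symmDiff U U') z = Par U z + Par U' z := by
  unfold Par
  rw [← Finset.sum_add_distrib]
  apply Finset.sum_congr rfl
  intro e _
  rw [ind_symmDiff, ind_symmDiff]; ring

theorem Par_congr {U : Finset (Fin q)} {z z' : Fin q × Fin q → Bool}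
    (h : ∀ e ∈ cut U, z e = z' e) : Par U z = Par U z' := by
  unfold Par
  apply Finset.sum_congr rfl
  intro e _
  by_cases he : e ∈ cut U
  · rw [h e he]
  · have : ind U e.1 + ind U e.2 = 0 := by
      by_contra hc
      exact he (Finset.mem_filter.2 ⟨Finset.mem_univ _, hc⟩)
    rw [this]; simp

theorem mem_cut {U : Finset (Fin q)} {e : Fin q × Fin q} :
    e ∈ cut U ↔ ¬ (e.1 ∈ U ↔ e.2 ∈ U) := by
  unfold cut ind
  rw [Finset.mem_filter]
  by_cases h1 : e.1 ∈ U <;> by_cases h2 : e.2 ∈ U <;> simp [h1, h2]
  decide

theorem card_cut (U : Finset (Fin q)) : 2 * (#U * (q - #U)) ≤ #(cut U) := by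
  classical
  have h1 : (U ×ˢ Uᶜ) ∪ (Uᶜ ×ˢ U) ⊆ cut U := by
    intro e he
    rw [mem_cut]
    rw [Finset.mem_union, Finset.mem_product, Finset.mem_product, Finset.mem_compl,
      Finset.mem_compl] at he
    tauto
  have h2 : Disjoint (U ×ˢ Uᶜ) (Uᶜ ×ˢ U) := by
    rw [Finset.disjoint_left]
    intro e he he'
    rw [Finset.mem_product] at he he'
    exact (Finset.mem_compl.1 he'.1) he.1
  have h3 := Finset.card_le_card h1
  rw [Finset.card_union_of_disjoint h2, Finset.card_product, Finset.card_product,
    Finset.card_compl, Fintype.card_fin] at h3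
  calc 2 * (#U * (q - #U)) = #U * (q - #U) + (q - #U) * #U := by ring
    _ ≤ _ := h3

/-- the adversary family -/
def TH (c : Fin q → ZMod 2) (K : Finset (Fin q × Fin q)) (z : Fin q × Fin q → Bool) : Prop :=
  ∀ U : Finset (Fin q), 2 * #U ≤ q → cut U ⊆ K → Par U z = ∑ u ∈ U, c u

theorem charge_symmDiff (c : Fin q → ZMod 2) (U U' : Finset (Fin q)) :
    ∑ u ∈ symmDiff U U', c u = ∑ u ∈ U, c u + ∑ u ∈ U', c u := by
  have h : ∀ V : Finset (Fin q), ∑ u ∈ V, c u = ∑ u, ind V u * c u := by
    intro V
    unfold ind
    simp only [ite_mul, one_mul, zero_mul]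
    rw [Finset.sum_ite_mem, Finset.univ_inter]
  rw [h, h U, h U', ← Finset.sum_add_distrib]
  apply Finset.sum_congr rfl
  intro u _
  rw [ind_symmDiff]; ring

theorem adv_TH (hq : 0 < q) (c : Fin q → ZMod 2) : Adv (TH c) (q ^ 2 / 4) := by
  classical
  refine ⟨⟨fun _ => false, ?_⟩, ?_, ?_, ?_⟩
  · intro U hU hcut
    have hU0 : U = ∅ := by
      by_contra hne
      have h1 := card_cut U
      have h2 : cut U = ∅ := Finset.subset_empty.1 hcut
      rw [h2, Finset.card_empty] at h1
      have h3 : 0 < #U := Finset.card_pos.2 (Finset.nonempty_iff_ne_empty.2 hne)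
      have h4 : 0 < q - #U := by omega
      have : 0 < #U * (q - #U) := Nat.mul_pos h3 h4
      omega
    subst hU0
    simp [Par, ind]
  · intro K K' z h hK U hU hcut
    exact h U hU (hcut.trans hK)
  · intro K z z' h hzz U hU hcut
    rw [← h U hU hcut]
    exact (Par_congr (fun e he => hzz e (hcut he))).symm
  · intro K z h hK a
    by_cases haK : a ∈ K
    · exact ⟨z, fun _ _ => rfl, by rw [Finset.insert_eq_of_mem haK]; exact h⟩
    by_cases hex : ∃ U : Finset (Fin q), 2 * #U ≤ q ∧ cut U ⊆ insert a K ∧ a ∈ cut U
    · obtain ⟨U₁, hU₁, hcut₁, ha₁⟩ := hex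
      -- choose the value at a
      obtain ⟨v, hv⟩ : ∃ v : Bool, Par U₁ (Function.update z a v) = ∑ u ∈ U₁, c u := by
        have hpar : ∀ v : Bool, Par U₁ (Function.update z a v) =
            Par U₁ (Function.update z a false) + bz v := by
          intro v
          unfold Par
          rw [← Finset.add_sum_erase _ _ (Finset.mem_univ a),
            ← Finset.add_sum_erase _ (fun e => (ind U₁ e.1 + ind U₁ e.2) *
              bz (Function.update z a false e)) (Finset.mem_univ a)]
          rw [Function.update_self, Function.update_self]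
          have h1 : ind U₁ a.1 + ind U₁ a.2 = 1 := by
            have h2 : ind U₁ a.1 + ind U₁ a.2 ≠ 0 := (Finset.mem_filter.1 ha₁).2
            have h3 : ∀ t : ZMod 2, t ≠ 0 → t = 1 := by decide
            exact h3 _ h2
          have h4 : ∀ w w' : Bool, ∑ e ∈ univ.erase a, (ind U₁ e.1 + ind U₁ e.2) *
              bz (Function.update z a w e) = ∑ e ∈ univ.erase a, (ind U₁ e.1 + ind U₁ e.2) *
              bz (Function.update z a w' e) := by
            intro w w'
            apply Finset.sum_congr rfl
            intro e he
            rw [Function.update_of_ne (Finset.ne_of_mem_erase he),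
              Function.update_of_ne (Finset.ne_of_mem_erase he)]
          rw [h1, h4 v false]
          simp [bz]
          ring
        have h5 : ∀ s t : ZMod 2, ∃ v : Bool, s + bz v = t := by
          unfold bz; decide
        obtain ⟨v, hv⟩ := h5 (Par U₁ (Function.update z a false)) (∑ u ∈ U₁, c u)
        exact ⟨v, by rw [hpar]; exact hv⟩
      refine ⟨Function.update z a v, ?_, ?_⟩
      · intro b hb
        apply Function.update_of_ne
        rintro rfl
        exact haK hb
      · intro U₂ hU₂ hcut₂
        have hsame : ∀ U : Finset (Fin q), cut U ⊆ K →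
            Par U (Function.update z a v) = Par U z := by
          intro U hU
          apply Par_congr
          intro e he
          apply Function.update_of_ne
          rintro rfl
          exact haK (hU he)
        by_cases ha₂ : a ∈ cut U₂
        · have hcut : cut (symmDiff U₁ U₂) ⊆ K := by
            intro e he
            have h1 : e ∈ cut U₁ ∪ cut U₂ := by
              rw [Finset.mem_union, mem_cut, mem_cut]
              rw [mem_cut, Finset.mem_symmDiff, Finset.mem_symmDiff] at he
              tauto
            have h2 : e ∈ insert a K := by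
              rcases Finset.mem_union.1 h1 with h | h
              · exact hcut₁ h
              · exact hcut₂ h
            rcases Finset.mem_insert.1 h2 with h | h
            · exfalso
              rw [h] at he
              rw [mem_cut, Finset.mem_symmDiff, Finset.mem_symmDiff] at he
              rw [mem_cut] at ha₁ ha₂
              tauto
            · exact h
          have hsize : ∀ U : Finset (Fin q), 2 * #U ≤ q → cut U ⊆ insert a K →
              #U * q ≤ q ^ 2 / 4 := by
            intro U hU hc
            have h1 := card_cut U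
            have h2 := Finset.card_le_card hc
            rw [Finset.card_insert_of_notMem haK] at h2
            have h3 : #U * q ≤ 2 * (#U * (q - #U)) := by
              calc #U * q ≤ #U * (2 * (q - #U)) := Nat.mul_le_mul_left _ (by omega)
                _ = 2 * (#U * (q - #U)) := by ring
            omega
          have hcard : 2 * #(symmDiff U₁ U₂) ≤ q := by
            have h1 : #(symmDiff U₁ U₂) ≤ #U₁ + #U₂ := by
              have : symmDiff U₁ U₂ ⊆ U₁ ∪ U₂ := by
                intro u hu
                rw [Finset.mem_symmDiff] at hu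
                rw [Finset.mem_union]; tauto
              exact (Finset.card_le_card this).trans (Finset.card_union_le _ _)
            have h2 := hsize U₁ hU₁ hcut₁
            have h3 := hsize U₂ hU₂ hcut₂
            have h4 : 4 * (q ^ 2 / 4) ≤ q ^ 2 := Nat.mul_div_le _ _
            have h5 : 2 * (#U₁ + #U₂) * q ≤ q * q := by nlinarith
            have h6 := Nat.le_of_mul_le_mul_right h5 hq
            omega
          have h7 := h _ hcard hcut
          rw [← hsame _ hcut, Par_symmDiff, charge_symmDiff, hv] at h7
          exact add_left_cancel h7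
        · have hc : cut U₂ ⊆ K := by
            intro e he
            rcases Finset.mem_insert.1 (hcut₂ he) with h1 | h1
            · exact absurd (h1 ▸ he) ha₂
            · exact h1
          rw [hsame _ hc]
          exact h U₂ hU₂ hc
    · push Not at hex
      refine ⟨z, fun _ _ => rfl, ?_⟩
      intro U hU hcut
      have ha := hex U hU hcut
      apply h U hU
      intro e he
      rcases Finset.mem_insert.1 (hcut he) with h1 | h1
      · exact absurd (h1 ▸ he) ha
      · exact h1

theorem Par_singleton (u : Fin q) (z : Fin q × Fin q → Bool) :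
    Par {u} z = ∑ w ∈ univ.erase u, (bz (z (u, w)) + bz (z (w, u))) := by
  classical
  unfold Par
  rw [Fintype.sum_prod_type]
  have h1 : ∀ a b : Fin q, (ind {u} a + ind {u} b) * bz (z (a, b)) =
      (if a = u then bz (z (u, b)) else 0) + (if b = u then bz (z (a, u)) else 0) := by
    intro a b
    unfold ind
    by_cases ha : a = u <;> by_cases hb : b = u
    · subst ha; subst hb; simp; ring
    · subst ha; simp [hb]
    · subst hb; simp [ha]
    · simp [ha, hb]
  simp_rw [h1, Finset.sum_add_distrib]
  rw [Finset.sum_comm (f := fun a b => if b = u then bz (z (a, u)) else 0)]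
  have h2 : ∑ a : Fin q, ∑ b : Fin q, (if a = u then bz (z (u, b)) else 0) =
      ∑ b, bz (z (u, b)) := by
    rw [Finset.sum_comm]
    apply Finset.sum_congr rfl
    intro b _
    simp
  have h3 : ∑ b : Fin q, ∑ a : Fin q, (if b = u then bz (z (a, u)) else 0) =
      ∑ a, bz (z (a, u)) := by
    rw [Finset.sum_comm]
    apply Finset.sum_congr rfl
    intro b _
    simp
  rw [h2, h3]
  rw [← Finset.add_sum_erase _ (fun b => bz (z (u, b))) (Finset.mem_univ u),
    ← Finset.add_sum_erase _ (fun b => bz (z (b, u))) (Finset.mem_univ u)]
  have h4 : ∀ s a b : ZMod 2, s + a + (s + b) = a + b := by decide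
  rw [h4]

theorem card_cut_singleton (u : Fin q) : #(cut {u}) ≤ 2 * q := by
  classical
  have h1 : cut {u} ⊆ (univ.image (fun w => (u, w))) ∪ (univ.image (fun w => (w, u))) := by
    rintro ⟨a, b⟩ he
    rw [mem_cut] at he
    simp only [Finset.mem_singleton] at he
    rw [Finset.mem_union, Finset.mem_image, Finset.mem_image]
    by_cases ha : a = u
    · left; exact ⟨b, Finset.mem_univ _, by rw [ha]⟩
    · right
      have hb : b = u := by tauto
      exact ⟨a, Finset.mem_univ _, by rw [hb]⟩
  refine (Finset.card_le_card h1).trans ((Finset.card_union_le _ _).trans ?_)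
  have h2 : #((univ : Finset (Fin q)).image (fun w => (u, w))) ≤ q := by
    refine Finset.card_image_le.trans ?_
    simp
  have h3 : #((univ : Finset (Fin q)).image (fun w => (w, u))) ≤ q := by
    refine Finset.card_image_le.trans ?_
    simp
  omega

theorem TH_star (hq : 2 ≤ q) {c : Fin q → ZMod 2} {z : Fin q × Fin q → Bool} (u : Fin q)
    (h : TH c (cut {u}) z) :
    ∑ w ∈ univ.erase u, (bz (z (u, w)) + bz (z (w, u))) = c u := by
  have := h {u} (by simpa using hq) (Finset.Subset.refl _)
  rw [Par_singleton] at this
  simpa using this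

end Pool.Agent.H29.Lift
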