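import Pool.Agent.H29.NzPar

/-!
Simple graphs, and the size condition.
-/

open Finset

namespace Pool.Agent.H29.Nz

set_option linter.unusedSectionVars false

/-- the simple graph of H -/
def toSG {V : Type} (H : Gr V) : SimpleGraph V := SimpleGraph.fromEdgeSet {e | H e = true}

theorem toSG_adj {V : Type} (H : Gr V) (u v : V) :
    (toSG H).Adj u v ↔ H s(u, v) = true ∧ u ≠ v := by
  unfold toSG
  rw [SimpleGraph.fromEdgeSet_adj, Set.mem_ofPred_eq]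

theorem clique_toSG {V : Type} (H : Gr V) (k : ℕ) : ¬ (toSG H).CliqueFree k ↔ Clq k H := by
  classical
  unfold SimpleGraph.CliqueFree Clq
  push Not
  constructor
  · rintro ⟨S, hS⟩
    rw [SimpleGraph.isNClique_iff] at hS
    refine ⟨S, hS.2, fun u hu v hv huv => ?_⟩
    exact ((toSG_adj H u v).1 (hS.1 hu hv huv)).1
  · rintro ⟨S, hS, hc⟩
    refine ⟨S, ?_⟩
    rw [SimpleGraph.isNClique_iff]
    refine ⟨?_, hS⟩
    intro u hu v hv huv
    exact (toSG_adj H u v).2 ⟨hc u hu v hv huv, huv⟩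

/-- an edge variable depends on two vertices -/
theorem jun_edge {V : Type} [DecidableEq V] (f : SimpleGraph V → Bool) (u v : V)
    (hf : ∀ G, f G = true ↔ G.Adj u v) : Jun 2 (fun H : Gr V => f (toSG H)) := by
  refine ⟨{u, v}, Finset.card_le_two, fun H H' hH => ?_⟩
  rw [Bool.eq_iff_iff, hf, hf, toSG_adj, toSG_adj, hH s(u, v)]
  intro w hw
  rcases Sym2.mem_iff.1 hw with rfl | rfl <;> simp

theorem size_cond {c g s n Q E₀ z : ℕ} (hs : s ≤ n ^ c) (hz : z ≤ g) (hn : n < (Q + 1) ^ E₀)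
    (hQ : 2 ^ (g + 1 + c * E₀) ≤ Q) (hE : 1 ≤ E₀) :
    2 * (s * 2 ^ z) ≤ Q ^ ((c + 1) * E₀) := by
  have hQ1 : 1 ≤ Q := Nat.one_le_two_pow.trans hQ
  have h1 : s ≤ (2 * Q) ^ (c * E₀) := by
    calc s ≤ n ^ c := hs
      _ ≤ ((Q + 1) ^ E₀) ^ c := Nat.pow_le_pow_left hn.le _
      _ ≤ ((2 * Q) ^ E₀) ^ c := Nat.pow_le_pow_left (Nat.pow_le_pow_left (by omega) _) _
      _ = (2 * Q) ^ (c * E₀) := by rw [← pow_mul, mul_comm E₀ c]
  have h2 : 2 ^ z ≤ 2 ^ g := Nat.pow_le_pow_right (by norm_num) hz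
  calc 2 * (s * 2 ^ z) ≤ 2 * ((2 * Q) ^ (c * E₀) * 2 ^ g) := by gcongr
    _ = 2 ^ (g + 1 + c * E₀) * Q ^ (c * E₀) := by
        rw [mul_pow, pow_add, pow_add]; ring
    _ ≤ Q * Q ^ (c * E₀) := Nat.mul_le_mul_right _ hQ
    _ = Q ^ (c * E₀ + 1) := by rw [pow_succ, mul_comm]
    _ ≤ Q ^ ((c + 1) * E₀) := Nat.pow_le_pow_right hQ1 (by rw [add_mul]; omega)

end Pool.Agent.H29.Nz
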