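import Mathlib

/-!
Functions on graphs that depend on few vertices; hitting sets for families of such functions.
-/

open Finset

namespace Pool.Agent.H29.Nz

set_option linter.unusedSectionVars false

/-- graphs as Boolean functions on unordered pairs -/
abbrev Gr (V : Type) := Sym2 V → Bool

/-- the graphs G and G' agree on the pairs inside U -/
def Ag {V : Type} (U : Finset V) (G G' : Gr V) : Prop := ∀ e : Sym2 V, (∀ v ∈ e, v ∈ U) → G e = G' e

theorem Ag.symm {V : Type} {U : Finset V} {G G' : Gr V} (h : Ag U G G') : Ag U G' G :=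
  fun e he => (h e he).symm

theorem Ag.trans {V : Type} {U : Finset V} {G G' G'' : Gr V} (h : Ag U G G') (h' : Ag U G' G'') :
    Ag U G G'' := fun e he => (h e he).trans (h' e he)

theorem Ag.mono {V : Type} {U U' : Finset V} (hU : U ⊆ U') {G G' : Gr V} (h : Ag U' G G') :
    Ag U G G' := fun e he => h e fun v hv => hU (he v hv)

/-- f depends on at most w vertices -/
def Jun {V : Type} (w : ℕ) (f : Gr V → Bool) : Prop :=
  ∃ U : Finset V, #U ≤ w ∧ ∀ G G', Ag U G G' → f G = f G'

theorem Jun.mono {V : Type} {w w' : ℕ} (h : w ≤ w') {f : Gr V → Bool} (hf : Jun w f) :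
    Jun w' f := by
  obtain ⟨U, hU, h'⟩ := hf
  exact ⟨U, hU.trans h, h'⟩

section kernel

variable {Y ι : Type} [DecidableEq Y] [DecidableEq ι]

/-- the graph with edge set P -/
def pat (P : Finset (Sym2 Y)) : Gr Y := fun e => decide (e ∈ P)

/-- f j is compatible with the pattern P on C -/
def Tc (U : ι → Finset Y) (f : ι → Gr Y → Bool) (C : Finset Y) (P : Finset (Sym2 Y)) (j : ι) :
    Prop := C ⊆ U j ∧ ∃ G, Ag C G (pat P) ∧ f j G = true

/-- K compatible functions with disjoint petals -/
def Sat (U : ι → Finset Y) (f : ι → Gr Y → Bool) (K : ℕ) (C : Finset Y) (P : Finset (Sym2 Y)) :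
    Prop :=
  ∃ S : Finset ι, #S = K ∧ (∀ j ∈ S, Tc U f C P j) ∧
    ∀ i ∈ S, ∀ j ∈ S, i ≠ j → Disjoint (U i \ C) (U j \ C)

theorem exists_hit [Fintype ι] (U : ι → Finset Y) (f : ι → Gr Y → Bool) {w : ℕ}
    (hU : ∀ j, #(U j) ≤ w) (K : ℕ) (C : Finset Y) (P : Finset (Sym2 Y)) :
    ∃ Hs : Finset Y, Hs.card ≤ K * w ∧ (¬ Sat U f K C P →
      ∀ j, Tc U f C P j → U j ⊆ C ∨ ∃ x ∈ U j \ C, x ∈ Hs) := by
  classical
  by_cases hs : Sat U f K C P
  · exact ⟨∅, by simp, fun h => absurd hs h⟩
  -- a largest family with disjoint petals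
  let F : Finset (Finset ι) := univ.filter (fun S => (∀ j ∈ S, Tc U f C P j) ∧
    ∀ i ∈ S, ∀ j ∈ S, i ≠ j → Disjoint (U i \ C) (U j \ C))
  have hF : F.Nonempty := ⟨∅, by simp [F]⟩
  obtain ⟨S, hS, hmax⟩ := Finset.exists_max_image F (fun S => #S) hF
  have hS' := (Finset.mem_filter.1 hS).2
  have hcard : #S < K := by
    by_contra hge
    push Not at hge
    obtain ⟨S', hS'S, hS'c⟩ := Finset.exists_subset_card_eq hge
    exact hs ⟨S', hS'c, fun j hj => hS'.1 j (hS'S hj), fun i hi j hj => hS'.2 i (hS'S hi) j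
      (hS'S hj)⟩
  refine ⟨S.biUnion (fun j => U j \ C), ?_, fun _ j hj => ?_⟩
  · calc #(S.biUnion (fun j => U j \ C)) ≤ ∑ j ∈ S, #(U j \ C) := Finset.card_biUnion_le
      _ ≤ ∑ _j ∈ S, w := Finset.sum_le_sum fun j _ =>
          (Finset.card_le_card Finset.sdiff_subset).trans (hU j)
      _ = #S * w := by rw [Finset.sum_const, smul_eq_mul]
      _ ≤ K * w := Nat.mul_le_mul_right _ hcard.le
  · by_cases hsub : U j ⊆ C
    · exact Or.inl hsub
    right
    by_cases hjS : j ∈ S
    · obtain ⟨x, hx⟩ := Finset.not_subset.1 hsub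
      exact ⟨x, Finset.mem_sdiff.2 hx, Finset.mem_biUnion.2 ⟨j, hjS, Finset.mem_sdiff.2 hx⟩⟩
    · by_contra hcon
      push Not at hcon
      have hins : insert j S ∈ F := by
        rw [Finset.mem_filter]
        refine ⟨Finset.mem_univ _, ?_, ?_⟩
        · intro i hi
          rcases Finset.mem_insert.1 hi with rfl | hi
          · exact hj
          · exact hS'.1 i hi
        · have key : ∀ i ∈ S, Disjoint (U j \ C) (U i \ C) := by
            intro i hi
            rw [Finset.disjoint_left]
            intro x hx hx'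
            exact hcon x hx (Finset.mem_biUnion.2 ⟨i, hi, hx'⟩)
          intro i hi i' hi' hne
          rw [Finset.mem_insert] at hi hi'
          by_cases h1 : i = j
          · have h2 : i' ∈ S := hi'.resolve_left (fun h => hne (h1.trans h.symm))
            rw [h1]; exact key i' h2
          · have h2 : i ∈ S := hi.resolve_left h1
            by_cases h3 : i' = j
            · rw [h3]; exact (key i h2).symm
            · exact hS'.2 i h2 i' (hi'.resolve_left h3) hne
      have := hmax _ hins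
      rw [Finset.card_insert_of_notMem hjS] at this
      omega

/-- all hitting sets reachable from C in n steps -/
def Dk (hs : Finset Y → Finset (Sym2 Y) → Finset Y) : ℕ → Finset Y → Finset Y
  | 0, _ => ∅
  | n + 1, C => (C.sym2.powerset).biUnion (fun P => hs C P ∪
      (hs C P).biUnion (fun x => Dk hs n (insert x C)))

theorem card_sym2_le {C : Finset Y} {w : ℕ} (h : #C ≤ w) : #C.sym2 ≤ w ^ 2 := by
  rw [Finset.card_sym2]
  have h1 : (#C + 1).choose 2 ≤ #C * #C := by
    rw [Nat.choose_two_right, Nat.add_sub_cancel]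
    apply Nat.div_le_of_le_mul
    rcases Nat.eq_zero_or_pos #C with h0 | h0
    · rw [h0]
    · nlinarith
  calc (#C + 1).choose 2 ≤ #C * #C := h1
    _ ≤ w * w := Nat.mul_le_mul h h
    _ = w ^ 2 := by ring

theorem card_Dk {hs : Finset Y → Finset (Sym2 Y) → Finset Y} {B w : ℕ}
    (hB : ∀ C P, #(hs C P) ≤ B) : ∀ (n : ℕ) (C : Finset Y), #C + n ≤ w + 1 →
      #(Dk hs n C) + 1 ≤ (2 ^ (w ^ 2) * B + 1) ^ n := by
  classical
  intro n
  induction n with
  | zero => intro C _; simp [Dk]
  | succ n ih =>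
    intro C hC
    set A := 2 ^ (w ^ 2) * B + 1 with hA
    rw [Dk]
    have h1 : #((C.sym2.powerset).biUnion (fun P => hs C P ∪
        (hs C P).biUnion (fun x => Dk hs n (insert x C)))) ≤
        ∑ _P ∈ C.sym2.powerset, B * A ^ n := by
      refine Finset.card_biUnion_le.trans (Finset.sum_le_sum fun P _ => ?_)
      have h2 : #((hs C P).biUnion (fun x => Dk hs n (insert x C))) ≤
          #(hs C P) * (A ^ n - 1) := by
        refine Finset.card_biUnion_le.trans ?_
        rw [← smul_eq_mul, ← Finset.sum_const]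
        apply Finset.sum_le_sum
        intro x _
        have h3 := ih (insert x C) (by
          have := Finset.card_insert_le x C
          omega)
        omega
      have hA1 : 1 ≤ A ^ n := Nat.one_le_pow _ _ (by omega)
      calc #(hs C P ∪ (hs C P).biUnion (fun x => Dk hs n (insert x C)))
          ≤ #(hs C P) + #((hs C P).biUnion (fun x => Dk hs n (insert x C))) :=
            Finset.card_union_le _ _
        _ ≤ #(hs C P) + #(hs C P) * (A ^ n - 1) := Nat.add_le_add_left h2 _
        _ = #(hs C P) * A ^ n := by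
            obtain ⟨z, hz⟩ := Nat.exists_eq_add_of_le hA1
            rw [hz, Nat.add_sub_cancel_left]; ring
        _ ≤ B * A ^ n := Nat.mul_le_mul_right _ (hB C P)
    have h4 : ∑ _P ∈ C.sym2.powerset, B * A ^ n ≤ 2 ^ (w ^ 2) * B * A ^ n := by
      rw [Finset.sum_const, smul_eq_mul, Finset.card_powerset, ← mul_assoc]
      apply Nat.mul_le_mul_right
      apply Nat.mul_le_mul_right
      exact Nat.pow_le_pow_right (by norm_num) (card_sym2_le (by omega))
    have hA1 : 1 ≤ A ^ n := Nat.one_le_pow _ _ (by omega)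
    calc _ ≤ 2 ^ (w ^ 2) * B * A ^ n + 1 := by omega
      _ ≤ 2 ^ (w ^ 2) * B * A ^ n + 1 * A ^ n := by omega
      _ = A ^ (n + 1) := by rw [← add_mul, ← hA, pow_succ, mul_comm]

theorem Dk_subset {hs : Finset Y → Finset (Sym2 Y) → Finset Y} {n : ℕ} {C : Finset Y}
    {P : Finset (Sym2 Y)} (hP : P ⊆ C.sym2) : hs C P ⊆ Dk hs (n + 1) C := by
  classical
  intro x hx
  rw [Dk, Finset.mem_biUnion]
  exact ⟨P, Finset.mem_powerset.2 hP, Finset.mem_union_left _ hx⟩

theorem Dk_subset' {hs : Finset Y → Finset (Sym2 Y) → Finset Y} {n : ℕ} {C : Finset Y}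
    {P : Finset (Sym2 Y)} (hP : P ⊆ C.sym2) {x : Y} (hx : x ∈ hs C P) :
    Dk hs n (insert x C) ⊆ Dk hs (n + 1) C := by
  classical
  intro y hy
  rw [Dk, Finset.mem_biUnion]
  exact ⟨P, Finset.mem_powerset.2 hP, Finset.mem_union_right _
    (Finset.mem_biUnion.2 ⟨x, hx, hy⟩)⟩

/-- following the hitting sets -/
theorem walk {U : ι → Finset Y} {f : ι → Gr Y → Bool} {w K : ℕ}
    (hf : ∀ j G G', Ag (U j) G G' → f j G = f j G')
    {hs : Finset Y → Finset (Sym2 Y) → Finset Y}
    (hhit : ∀ C P, ¬ Sat U f K C P → ∀ j, Tc U f C P j → U j ⊆ C ∨ ∃ x ∈ U j \ C, x ∈ hs C P)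
    {S : Finset Y} {G G' : Gr Y} (hG : Ag S G G')
    (hgood : ∀ C P, #C ≤ w → P ⊆ C.sym2 → Sat U f K C P → Ag C G' (pat P) →
      ∃ j, f j G' = true) {j : ι} (hUj : #(U j) ≤ w) (hj : f j G = true) :
    ∀ (n : ℕ) (C : Finset Y), C ⊆ U j → C ⊆ S → #(U j) ≤ #C + n → Dk hs (n + 1) C ⊆ S →
      ∃ j', f j' G' = true := by
  classical
  intro n
  induction n with
  | zero =>
    intro C hCU hCS hcard _
    have : U j = C := (Finset.eq_of_subset_of_card_le hCU (by omega)).symm
    refine ⟨j, ?_⟩
    rw [← hf j G G' (hG.mono (by rw [this]; exact hCS))]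
    exact hj
  | succ n ih =>
    intro C hCU hCS hcard hD
    set P := C.sym2.filter (fun e => G e = true) with hP
    have hPC : P ⊆ C.sym2 := Finset.filter_subset _ _
    have hGP : Ag C G (pat P) := by
      intro e he
      unfold pat
      have heC : e ∈ C.sym2 := Finset.mem_sym2_iff.2 he
      by_cases h : G e = true
      · rw [h, eq_comm, decide_eq_true_eq, hP, Finset.mem_filter]; exact ⟨heC, h⟩
      · rw [Bool.not_eq_true] at h
        rw [h, eq_comm, decide_eq_false_iff_not, hP, Finset.mem_filter]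
        rintro ⟨-, h'⟩
        rw [h] at h'
        exact absurd h' (by decide)
    have hT : Tc U f C P j := ⟨hCU, G, hGP, hj⟩
    by_cases hsat : Sat U f K C P
    · exact hgood C P ((Finset.card_le_card hCU).trans hUj) hPC hsat
        ((hG.mono hCS).symm.trans hGP)
    · rcases hhit C P hsat j hT with h | ⟨x, hx, hxs⟩
      · refine ⟨j, ?_⟩
        rw [← hf j G G' (hG.mono (h.trans hCS))]
        exact hj
      · rw [Finset.mem_sdiff] at hx
        apply ih (insert x C)
        · exact Finset.insert_subset hx.1 hCU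
        · exact Finset.insert_subset (hD (Dk_subset hPC hxs)) hCS
        · rw [Finset.card_insert_of_notMem hx.2]; omega
        · exact (Dk_subset' hPC hxs).trans hD

end kernel

end Pool.Agent.H29.Nz
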