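import Pool.Agent.H29.NzTower

/-!
The random restrictions create no new cliques; the collapse theorem.
-/

open Finset

namespace Pool.Agent.H29.Nz

set_option linter.unusedSectionVars false

/-- S is a clique of G -/
def IsC {V : Type} (G : Gr V) (S : Finset V) : Prop :=
  ∀ u ∈ S, ∀ v ∈ S, u ≠ v → G s(u, v) = true

/-- G contains k pairwise adjacent vertices -/
def Clq {V : Type} (k : ℕ) (G : Gr V) : Prop := ∃ S : Finset V, #S = k ∧ IsC G S

variable {X : Type} [Fintype X] [DecidableEq X]

/-- large cliques lie in the alive part -/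
def Dist.Ok {m : ℕ} (D : Dist X m) (t : ℕ) (a : D.A) (r : D.N) : Prop :=
  ∀ H (S : Finset D.V), 2 * t ≤ #S → IsC (D.ext a r H) S → ∀ v ∈ S, v ∈ Set.range (D.al a)

theorem Dist.Ok.clq {m : ℕ} {D : Dist X m} {t : ℕ} {a : D.A} {r : D.N} (h : D.Ok t a r) {k : ℕ}
    (hk : 2 * t ≤ k) (H : Gr X) : Clq k (D.ext a r H) ↔ Clq k H := by
  classical
  constructor
  · rintro ⟨S, hS, hc⟩
    have h1 := h H S (hS ▸ hk) hc
    have h2 : (univ.filter (fun x => D.al a x ∈ S)).image (D.al a) = S := by
      ext v
      simp only [Finset.mem_image, Finset.mem_filter, Finset.mem_univ, true_and]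
      constructor
      · rintro ⟨x, hx, rfl⟩; exact hx
      · intro hv
        obtain ⟨x, rfl⟩ := h1 v hv
        exact ⟨x, hv, rfl⟩
    refine ⟨univ.filter (fun x => D.al a x ∈ S), ?_, ?_⟩
    · rw [← hS, ← h2, Finset.card_image_of_injective _ (D.inj a)]
      congr 1
      rw [h2]
    · intro u hu v hv huv
      rw [Finset.mem_filter] at hu hv
      have h3 := hc _ hu.2 _ hv.2 (fun h => huv (D.inj a h))
      rw [← Sym2.map_mk, D.live] at h3
      exact h3
  · rintro ⟨S, hS, hc⟩
    refine ⟨S.image (D.al a), ?_, ?_⟩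
    · rw [Finset.card_image_of_injective _ (D.inj a), hS]
    · intro u hu v hv huv
      obtain ⟨x, hx, rfl⟩ := Finset.mem_image.1 hu
      obtain ⟨y, hy, rfl⟩ := Finset.mem_image.1 hv
      rw [← Sym2.map_mk, D.live]
      exact hc x hx y hy (fun h => huv (by rw [h]))

open Classical in
theorem Dist.card_not_ok {E₀ Q t m : ℕ} (hm : m = Q ^ 4) (D : Dist X m) (hQ : 1 ≤ Q)
    (hX : Fintype.card X ≤ Q) (hV : Fintype.card D.V ≤ Q ^ E₀) (ht : E₀ + 2 ≤ t) (a : D.A) :
    #(univ.filter (fun r => ¬ D.Ok t a r)) * Q ≤ 2 * Fintype.card D.N := by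
  classical
  have hs1 : ∀ z : ℕ, Q ^ (z + 1) = Q ^ z * Q := fun z => pow_succ Q z
  have hs2 : ∀ z : ℕ, Q ^ (4 * z) = m ^ z := fun z => by rw [pow_mul, hm]
  let H₀ : Gr X := fun _ => false
  -- first event
  let I1 : Finset D.V → Finset D.N := fun T =>
    univ.filter (fun r => (∀ v ∈ T, v ∉ Set.range (D.al a)) ∧
      ∀ e ∈ T.offDiag.image (fun p => s(p.1, p.2)), D.ext a r H₀ e = true)
  let I2 : D.V × Finset X → Finset D.N := fun p =>
    univ.filter (fun r => p.1 ∉ Set.range (D.al a) ∧
      ∀ e ∈ p.2.image (fun x => s(p.1, D.al a x)), D.ext a r H₀ e = true)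
  have hsub : univ.filter (fun r => ¬ D.Ok t a r) ⊆
      ((univ : Finset D.V).powersetCard t).biUnion I1 ∪
      ((univ : Finset D.V) ×ˢ (univ : Finset X).powersetCard t).biUnion I2 := by
    intro r hr
    have hr' := (Finset.mem_filter.1 hr).2
    unfold Dist.Ok at hr'
    push Not at hr'
    obtain ⟨H, S, hS, hc, v, hv, hvd⟩ := hr'
    rw [Finset.mem_union]
    by_cases hdead : t ≤ #(S.filter (fun v => v ∉ Set.range (D.al a)))
    · left
      obtain ⟨T, hTS, hT⟩ := Finset.exists_subset_card_eq hdead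
      rw [Finset.mem_biUnion]
      refine ⟨T, Finset.mem_powersetCard.2 ⟨Finset.subset_univ _, hT⟩, ?_⟩
      refine Finset.mem_filter.2 ⟨Finset.mem_univ _, fun v hv =>
        (Finset.mem_filter.1 (hTS hv)).2, ?_⟩
      intro e he
      obtain ⟨⟨x, y⟩, hxy, rfl⟩ := Finset.mem_image.1 he
      rw [Finset.mem_offDiag] at hxy
      have hx := Finset.mem_filter.1 (hTS hxy.1)
      have hy := Finset.mem_filter.1 (hTS hxy.2.1)
      rw [D.dead a r H₀ H]
      · exact hc x hx.1 y hy.1 hxy.2.2
      · intro hcon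
        exact hx.2 (hcon x (Sym2.mem_mk_left x y))
    · right
      have hal : t ≤ #(S.filter (fun v => v ∈ Set.range (D.al a))) := by
        have := Finset.card_filter_add_card_filter_not (s := S)
          (fun v => v ∈ Set.range (D.al a))
        omega
      obtain ⟨T, hTS, hT⟩ := Finset.exists_subset_card_eq hal
      rw [Finset.mem_biUnion]
      have himg : (univ.filter (fun x => D.al a x ∈ T)).image (D.al a) = T := by
        ext v
        simp only [Finset.mem_image, Finset.mem_filter, Finset.mem_univ, true_and]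
        constructor
        · rintro ⟨x, hx, rfl⟩; exact hx
        · intro hv
          obtain ⟨x, rfl⟩ := (Finset.mem_filter.1 (hTS hv)).2
          exact ⟨x, hv, rfl⟩
      refine ⟨(v, univ.filter (fun x => D.al a x ∈ T)), ?_, ?_⟩
      · rw [Finset.mem_product, Finset.mem_powersetCard]
        refine ⟨Finset.mem_univ _, Finset.subset_univ _, ?_⟩
        rw [← hT, ← Finset.card_image_of_injective _ (D.inj a), himg]
      · refine Finset.mem_filter.2 ⟨Finset.mem_univ _, hvd, ?_⟩
        intro e he
        obtain ⟨x, hx, rfl⟩ := Finset.mem_image.1 he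
        rw [Finset.mem_filter] at hx
        rw [D.dead a r H₀ H]
        · apply hc v hv _ (Finset.mem_filter.1 (hTS hx.2)).1
          intro h
          exact hvd ⟨x, h.symm⟩
        · intro hcon
          exact hvd (hcon v (Sym2.mem_mk_left _ _))
  have h1 : ∀ T ∈ (univ : Finset D.V).powersetCard t, #(I1 T) * m ^ (t.choose 2) ≤
      Fintype.card D.N := by
    intro T hT
    rw [Finset.mem_powersetCard] at hT
    by_cases hd : ∀ v ∈ T, v ∉ Set.range (D.al a)
    · have h2 := D.noise a H₀ (T.offDiag.image (fun p => s(p.1, p.2))) (by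
        intro e he hcon
        obtain ⟨⟨x, y⟩, hxy, rfl⟩ := Finset.mem_image.1 he
        rw [Finset.mem_offDiag] at hxy
        exact hd x hxy.1 (hcon x (Sym2.mem_mk_left x y)))
      have h2' : #(T.offDiag.image (fun p => s(p.1, p.2))) = t.choose 2 := by
        rw [← hT.2]
        exact Sym2.card_image_offDiag T
      rw [h2'] at h2
      refine le_trans (Nat.mul_le_mul_right _ (Finset.card_le_card ?_)) h2
      intro r hr
      exact Finset.mem_filter.2 ⟨Finset.mem_univ _, (Finset.mem_filter.1 hr).2.2⟩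
    · have : I1 T = ∅ := by
        rw [Finset.eq_empty_iff_forall_notMem]
        intro r hr
        exact hd (Finset.mem_filter.1 hr).2.1
      rw [this]; simp
  have h2 : ∀ p ∈ (univ : Finset D.V) ×ˢ (univ : Finset X).powersetCard t,
      #(I2 p) * m ^ t ≤ Fintype.card D.N := by
    intro p hp
    rw [Finset.mem_product, Finset.mem_powersetCard] at hp
    by_cases hd : p.1 ∉ Set.range (D.al a)
    · have h3 := D.noise a H₀ (p.2.image (fun x => s(p.1, D.al a x))) (by
        intro e he hcon
        obtain ⟨x, hx, rfl⟩ := Finset.mem_image.1 he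
        exact hd (hcon p.1 (Sym2.mem_mk_left _ _)))
      rw [Finset.card_image_of_injective _ (by
        intro x y h
        exact D.inj a (Sym2.congr_right.1 h)), hp.2.2] at h3
      refine le_trans (Nat.mul_le_mul_right _ (Finset.card_le_card ?_)) h3
      intro r hr
      exact Finset.mem_filter.2 ⟨Finset.mem_univ _, (Finset.mem_filter.1 hr).2.2⟩
    · have : I2 p = ∅ := by
        rw [Finset.eq_empty_iff_forall_notMem]
        intro r hr
        exact hd (Finset.mem_filter.1 hr).2.1
      rw [this]; simp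
  -- totals
  have hI1 : #(((univ : Finset D.V).powersetCard t).biUnion I1) * Q ≤ Fintype.card D.N := by
    have h3 : #(((univ : Finset D.V).powersetCard t).biUnion I1) * m ^ (t.choose 2) ≤
        (Q ^ E₀) ^ t * Fintype.card D.N := by
      calc _ ≤ (∑ T ∈ (univ : Finset D.V).powersetCard t, #(I1 T)) * m ^ (t.choose 2) :=
            Nat.mul_le_mul_right _ Finset.card_biUnion_le
        _ = ∑ T ∈ (univ : Finset D.V).powersetCard t, #(I1 T) * m ^ (t.choose 2) := by
            rw [Finset.sum_mul]
        _ ≤ ∑ _T ∈ (univ : Finset D.V).powersetCard t, Fintype.card D.N :=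
            Finset.sum_le_sum h1
        _ = (Fintype.card D.V).choose t * Fintype.card D.N := by
            rw [Finset.sum_const, smul_eq_mul, Finset.card_powersetCard, Finset.card_univ]
        _ ≤ (Q ^ E₀) ^ t * Fintype.card D.N :=
            Nat.mul_le_mul_right _ ((Nat.choose_le_pow _ _).trans (Nat.pow_le_pow_left hV _))
    have h4 : E₀ * t + 1 ≤ 4 * t.choose 2 := by
      have h5 : 2 * t.choose 2 = t * (t - 1) := by
        rw [Nat.choose_two_right, Nat.mul_div_cancel' (Nat.even_mul_pred_self t).two_dvd]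
      have h6 : t * (E₀ + 1) ≤ t * (t - 1) := Nat.mul_le_mul_left _ (by omega)
      nlinarith
    have h7 : #(((univ : Finset D.V).powersetCard t).biUnion I1) * Q * Q ^ (E₀ * t) ≤
        Fintype.card D.N * Q ^ (E₀ * t) := by
      calc _ = #(((univ : Finset D.V).powersetCard t).biUnion I1) * Q ^ (E₀ * t + 1) := by
            rw [hs1]; ring
        _ ≤ #(((univ : Finset D.V).powersetCard t).biUnion I1) * Q ^ (4 * t.choose 2) :=
            Nat.mul_le_mul_left _ (Nat.pow_le_pow_right hQ h4)
        _ = #(((univ : Finset D.V).powersetCard t).biUnion I1) * m ^ (t.choose 2) := by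
            rw [hs2]
        _ ≤ (Q ^ E₀) ^ t * Fintype.card D.N := h3
        _ = Fintype.card D.N * Q ^ (E₀ * t) := by rw [← pow_mul, mul_comm]
    exact Nat.le_of_mul_le_mul_right h7 (by positivity)
  have hI2 : #(((univ : Finset D.V) ×ˢ (univ : Finset X).powersetCard t).biUnion I2) * Q ≤
      Fintype.card D.N := by
    have h3 : #(((univ : Finset D.V) ×ˢ (univ : Finset X).powersetCard t).biUnion I2) *
        m ^ t ≤ (Q ^ E₀ * Q ^ t) * Fintype.card D.N := by
      calc _ ≤ (∑ p ∈ (univ : Finset D.V) ×ˢ (univ : Finset X).powersetCard t, #(I2 p)) *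
            m ^ t := Nat.mul_le_mul_right _ Finset.card_biUnion_le
        _ = ∑ p ∈ (univ : Finset D.V) ×ˢ (univ : Finset X).powersetCard t, #(I2 p) *
            m ^ t := by rw [Finset.sum_mul]
        _ ≤ ∑ _p ∈ (univ : Finset D.V) ×ˢ (univ : Finset X).powersetCard t,
            Fintype.card D.N := Finset.sum_le_sum h2
        _ = (Fintype.card D.V * (Fintype.card X).choose t) * Fintype.card D.N := by
            rw [Finset.sum_const, smul_eq_mul, Finset.card_product, Finset.card_powersetCard,
              Finset.card_univ, Finset.card_univ]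
        _ ≤ (Q ^ E₀ * Q ^ t) * Fintype.card D.N :=
            Nat.mul_le_mul_right _ (Nat.mul_le_mul hV ((Nat.choose_le_pow _ _).trans
              (Nat.pow_le_pow_left hX _)))
    have h7 : #(((univ : Finset D.V) ×ˢ (univ : Finset X).powersetCard t).biUnion I2) * Q *
        Q ^ (E₀ + t) ≤ Fintype.card D.N * Q ^ (E₀ + t) := by
      calc _ = #(((univ : Finset D.V) ×ˢ (univ : Finset X).powersetCard t).biUnion I2) *
            Q ^ (E₀ + t + 1) := by rw [hs1]; ring
        _ ≤ #(((univ : Finset D.V) ×ˢ (univ : Finset X).powersetCard t).biUnion I2) *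
            Q ^ (4 * t) := Nat.mul_le_mul_left _ (Nat.pow_le_pow_right hQ (by omega))
        _ = #(((univ : Finset D.V) ×ˢ (univ : Finset X).powersetCard t).biUnion I2) *
            m ^ t := by rw [hs2]
        _ ≤ (Q ^ E₀ * Q ^ t) * Fintype.card D.N := h3
        _ = Fintype.card D.N * Q ^ (E₀ + t) := by rw [← pow_add, mul_comm]
    exact Nat.le_of_mul_le_mul_right h7 (by positivity)
  calc _ ≤ #(((univ : Finset D.V).powersetCard t).biUnion I1 ∪
      ((univ : Finset D.V) ×ˢ (univ : Finset X).powersetCard t).biUnion I2) * Q :=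
        Nat.mul_le_mul_right _ (Finset.card_le_card hsub)
    _ ≤ (#(((univ : Finset D.V).powersetCard t).biUnion I1) +
        #(((univ : Finset D.V) ×ˢ (univ : Finset X).powersetCard t).biUnion I2)) * Q :=
        Nat.mul_le_mul_right _ (Finset.card_union_le _ _)
    _ ≤ _ := by rw [add_mul]; omega

section pad

variable {V V' : Type}

open Classical in
/-- the graph G on a larger vertex set, the new vertices are isolated -/
noncomputable def pad (j : V → V') (G : Gr V) : Gr V' :=
  fun e => decide (∃ e', e'.map j = e ∧ G e' = true)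

theorem pad_map {j : V → V'} (hj : Function.Injective j) (G : Gr V) (e : Sym2 V) :
    pad j G (e.map j) = G e := by
  classical
  unfold pad
  by_cases h : G e = true
  · rw [h]; exact decide_eq_true ⟨e, rfl, h⟩
  · rw [Bool.not_eq_true] at h
    rw [h]
    apply decide_eq_false
    rintro ⟨e', he', h'⟩
    rw [Sym2.map.injective hj he', h] at h'
    exact absurd h' (by decide)

theorem clq_pad {j : V → V'} (hj : Function.Injective j) (G : Gr V) {k : ℕ} (hk : 2 ≤ k) :
    Clq k (pad j G) ↔ Clq k G := by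
  classical
  constructor
  · rintro ⟨S, hS, hc⟩
    have hrange : ∀ v ∈ S, ∃ x, j x = v := by
      intro v hv
      obtain ⟨u, hu, huv⟩ := Finset.exists_mem_ne (by omega : 1 < #S) v
      have h1 := hc u hu v hv huv
      unfold pad at h1
      obtain ⟨e', he', -⟩ := of_decide_eq_true h1
      have h2 : v ∈ e'.map j := by rw [he']; exact Sym2.mem_mk_right u v
      obtain ⟨x, -, hx⟩ := Sym2.mem_map.1 h2
      exact ⟨x, hx⟩
    refine ⟨S.preimage j hj.injOn, ?_, ?_⟩
    · rw [← hS]
      rw [← Finset.card_image_of_injective _ hj, Finset.image_preimage]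
      congr 1
      rw [Finset.filter_eq_self]
      intro v hv
      exact hrange v hv
    · intro u hu v hv huv
      rw [Finset.mem_preimage] at hu hv
      have := hc _ hu _ hv (fun h => huv (hj h))
      rw [← Sym2.map_mk, pad_map hj] at this
      exact this
  · rintro ⟨S, hS, hc⟩
    refine ⟨S.image j, by rw [Finset.card_image_of_injective _ hj, hS], ?_⟩
    intro u hu v hv huv
    obtain ⟨x, hx, rfl⟩ := Finset.mem_image.1 hu
    obtain ⟨y, hy, rfl⟩ := Finset.mem_image.1 hv
    rw [← Sym2.map_mk, pad_map hj]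
    exact hc x hx y hy (fun h => huv (by rw [h]))

theorem Jun.pad {j : V → V'} (hj : Function.Injective j) {w : ℕ} {f : Gr V' → Bool}
    (h : Jun w f) : Jun w (fun G => f (pad j G)) := by
  classical
  obtain ⟨U, hU, hf⟩ := h
  refine ⟨U.preimage j hj.injOn, ?_, fun G G' hG => hf _ _ ?_⟩
  · refine le_trans ?_ hU
    rw [← Finset.card_image_of_injective _ hj]
    apply Finset.card_le_card
    intro v hv
    obtain ⟨x, hx, rfl⟩ := Finset.mem_image.1 hv
    exact Finset.mem_preimage.1 hx
  · intro e he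
    unfold Nz.pad
    rw [decide_eq_decide]
    have key : ∀ e', e'.map j = e → G e' = G' e' := by
      intro e' he'
      apply hG
      intro v hv
      rw [Finset.mem_preimage]
      apply he
      rw [← he']
      exact Sym2.mem_map.2 ⟨v, hv, rfl⟩
    constructor
    · rintro ⟨e', he', h⟩; exact ⟨e', he', by rw [← key e' he']; exact h⟩
    · rintro ⟨e', he', h⟩; exact ⟨e', he', by rw [key e' he']; exact h⟩

theorem Sys.pad {ι : Type} {j : V → V'} (hj : Function.Injective j) {d w : ℕ}
    {f : ι → Gr V' → Bool} (h : Sys d w f) : Sys d w (fun i G => f i (pad j G)) := by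
  obtain ⟨lab, hlab, hf⟩ := h
  refine ⟨lab, hlab, fun i => ?_⟩
  rcases hf i with h | ⟨b, T, hT, h⟩
  · exact Or.inl (h.pad hj)
  · exact Or.inr ⟨b, T, hT, fun G => h _⟩

end pad

open Classical in
/-- small shallow circuits on n vertices become functions of few vertices, the k-clique problem
on n vertices becomes the k-clique problem on a smaller set -/
theorem collapse (d w c : ℕ) : ∃ W E₀ : ℕ, 1 ≤ E₀ ∧ ∃ Q₀ : ℕ, ∀ Q ≥ Q₀,
    ∀ (X : Type) [Fintype X] [DecidableEq X], Fintype.card X ≤ Q → ∀ n : ℕ, Q ^ E₀ ≤ n →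
    ∀ (ι : Type) [Fintype ι] (f : ι → Gr (Fin n) → Bool), Sys d w f →
      2 * Fintype.card ι ≤ Q ^ (c * E₀) →
      ∃ F : Gr X → Gr (Fin n), (∀ k, 2 * E₀ + 4 ≤ k → ∀ H, (Clq k (F H) ↔ Clq k H)) ∧
        ∀ i, Jun W (fun H => f i (F H)) := by
  obtain ⟨W, C, hWC⟩ := tower d w c
  obtain ⟨E₀, hE₀, -, Q₀, hQ₀⟩ := hWC 1 (le_refl _)
  refine ⟨W, E₀, hE₀, max Q₀ 5, fun Q hQ X _ _ hX n hn ι _ f hf hι => ?_⟩
  have hQ5 : 5 ≤ Q := (le_max_right _ _).trans hQ
  obtain ⟨D, hD1, hD2⟩ := hQ₀ Q ((le_max_left _ _).trans hQ) X (by rw [pow_one]; exact hX)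
  -- embedding of the vertex set
  obtain ⟨j⟩ : Nonempty (D.V ↪ Fin n) := by
    rw [Function.Embedding.nonempty_iff_card_le, Fintype.card_fin]
    exact hD1.trans hn
  have h1 := hD2 ι (fun i G => f i (pad j G)) (hf.pad j.injective)
  set bad1 := univ.filter (fun p : D.A × D.N => ¬ ∀ i, Jun W (fun H =>
    (fun i G => f i (pad j G)) i (D.ext p.1 p.2 H))) with hbad1
  set bad2 := univ.filter (fun p : D.A × D.N => ¬ D.Ok (E₀ + 2) p.1 p.2) with hbad2
  have hpos : 0 < Fintype.card (D.A × D.N) := Fintype.card_pos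
  have h2 : 2 * bad1.card ≤ Fintype.card (D.A × D.N) := by
    have h3 : (bad1.card : ℝ) * (Q : ℝ) ^ (c * E₀) * 2 ≤ Fintype.card (D.A × D.N) *
        (Q : ℝ) ^ (c * E₀) := by
      have h4 : (2 : ℝ) * Fintype.card ι ≤ (Q : ℝ) ^ (c * E₀) := by exact_mod_cast hι
      calc _ ≤ (Fintype.card ι * Fintype.card (D.A × D.N) : ℝ) * 2 :=
            mul_le_mul_of_nonneg_right h1 (by norm_num)
        _ = Fintype.card (D.A × D.N) * (2 * Fintype.card ι) := by ring
        _ ≤ _ := mul_le_mul_of_nonneg_left h4 (Nat.cast_nonneg _)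
    have h5 : (0 : ℝ) < (Q : ℝ) ^ (c * E₀) := by
      have : (0 : ℝ) < Q := by
        have : 0 < Q := by omega
        exact_mod_cast this
      positivity
    have h6 : (2 : ℝ) * bad1.card ≤ Fintype.card (D.A × D.N) := by
      have : (2 * bad1.card : ℝ) * (Q : ℝ) ^ (c * E₀) ≤ Fintype.card (D.A × D.N) *
          (Q : ℝ) ^ (c * E₀) := by linarith
      exact le_of_mul_le_mul_right this h5
    exact_mod_cast h6
  have h3 : bad2.card * Q ≤ 2 * Fintype.card (D.A × D.N) := by
    rw [hbad2, card_prod_filter, Finset.sum_mul, Fintype.card_prod]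
    calc _ ≤ ∑ _a : D.A, 2 * Fintype.card D.N := by
          apply Finset.sum_le_sum
          intro a _
          have := Dist.card_not_ok (E₀ := E₀) (t := E₀ + 2) rfl D (by omega) hX hD1 (le_refl _) a
          convert this
      _ = _ := by rw [Finset.sum_const, smul_eq_mul, Finset.card_univ]; ring
  have h4 : 5 * bad2.card ≤ 2 * Fintype.card (D.A × D.N) := by
    calc 5 * bad2.card ≤ Q * bad2.card := Nat.mul_le_mul_right _ hQ5
      _ = bad2.card * Q := mul_comm _ _
      _ ≤ _ := h3
  have h5 : #(bad1 ∪ bad2) < Fintype.card (D.A × D.N) := by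
    have := Finset.card_union_le bad1 bad2
    omega
  obtain ⟨p, hp⟩ : ∃ p, p ∉ bad1 ∪ bad2 := by
    by_contra hcon
    push Not at hcon
    have : bad1 ∪ bad2 = univ := Finset.eq_univ_iff_forall.2 hcon
    rw [this, Finset.card_univ] at h5
    exact lt_irrefl _ h5
  rw [Finset.mem_union, not_or, hbad1, hbad2, Finset.mem_filter, Finset.mem_filter] at hp
  have hp1 : ∀ i, Jun W (fun H => f i (pad j (D.ext p.1 p.2 H))) := by
    by_contra h
    exact hp.1 ⟨Finset.mem_univ _, h⟩
  have hp2 : D.Ok (E₀ + 2) p.1 p.2 := by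
    by_contra h
    exact hp.2 ⟨Finset.mem_univ _, h⟩
  refine ⟨fun H => pad j (D.ext p.1 p.2 H), fun k hk H => ?_, hp1⟩
  rw [clq_pad j.injective _ (by omega)]
  exact hp2.clq (by omega) H

end Pool.Agent.H29.Nz
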