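import Mathlib

/-!
Counting lemmas: independence of disjoint sets of coordinates, number of selected points in a
small set, number of small subsets.
-/

open Finset

namespace Pool.Agent.H29.Nz

set_option linter.unusedSectionVars false

section indep

variable {I κ : Type} [Fintype I] [DecidableEq I] [Fintype κ] [DecidableEq κ]

/-- exchange of the coordinates in Q -/
def swp (Q : Finset I) (p : (I → κ) × (I → κ)) : (I → κ) × (I → κ) :=
  (fun i => if i ∈ Q then p.2 i else p.1 i, fun i => if i ∈ Q then p.1 i else p.2 i)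

theorem swp_swp (Q : Finset I) : Function.Involutive (swp (κ := κ) Q) := by
  rintro ⟨a, b⟩
  unfold swp
  ext i <;> by_cases h : i ∈ Q <;> simp [h]

theorem sum_mul_indep (Q : Finset I) (Φ ψ : (I → κ) → ℝ)
    (hΦ : ∀ R R' : I → κ, (∀ i, i ∉ Q → R i = R' i) → Φ R = Φ R')
    (hψ : ∀ R R' : I → κ, (∀ i ∈ Q, R i = R' i) → ψ R = ψ R') :
    (∑ R, Φ R) * (∑ R, ψ R) = Fintype.card (I → κ) * ∑ R, Φ R * ψ R := by
  classical
  rw [Finset.sum_mul_sum, ← Finset.sum_product']
  have h1 : ∑ p ∈ (univ : Finset (I → κ)) ×ˢ (univ : Finset (I → κ)), Φ p.1 * ψ p.2 =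
      ∑ p : (I → κ) × (I → κ), Φ p.1 * ψ p.2 := by
    rw [Finset.univ_product_univ]
  rw [h1, ← Fintype.sum_equiv (Function.Involutive.toPerm _ (swp_swp Q))
    (fun p => Φ (swp Q p).1 * ψ (swp Q p).2) (fun p => Φ p.1 * ψ p.2) (fun p => rfl)]
  have h2 : ∀ p : (I → κ) × (I → κ), Φ (swp Q p).1 * ψ (swp Q p).2 = Φ p.1 * ψ p.1 := by
    intro p
    rw [hΦ (swp Q p).1 p.1 (fun i hi => by simp [swp, hi]),
      hψ (swp Q p).2 p.1 (fun i hi => by simp [swp, hi])]
  rw [Fintype.sum_congr _ _ h2, Fintype.sum_prod_type]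
  simp only [Finset.sum_const, smul_eq_mul, nsmul_eq_mul, Finset.card_univ]
  rw [← Finset.mul_sum]

/-- a set of assignments determined by few coordinates -/
theorem card_fixed {m : ℕ} (Q : Finset I) {q : ℕ} (hQ : #Q ≤ q) (V : I → Finset (Fin m))
    (hV : ∀ i ∈ Q, (V i).Nonempty) (hm : 1 ≤ m) :
    (1 / m : ℝ) ^ q * Fintype.card (I → Fin m) ≤
      #(univ.filter (fun R : I → Fin m => ∀ i ∈ Q, R i ∈ V i)) := by
  classical
  have h1 : univ.filter (fun R : I → Fin m => ∀ i ∈ Q, R i ∈ V i) =
      Fintype.piFinset (fun i => if i ∈ Q then V i else univ) := by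
    ext R
    simp only [Finset.mem_filter, Finset.mem_univ, true_and, Fintype.mem_piFinset]
    constructor
    · intro h i
      by_cases hi : i ∈ Q
      · rw [if_pos hi]; exact h i hi
      · rw [if_neg hi]; exact Finset.mem_univ _
    · intro h i hi
      have := h i
      rwa [if_pos hi] at this
  have hmr : (1 : ℝ) ≤ m := by exact_mod_cast hm
  have hm0 : (0 : ℝ) < m := by linarith
  rw [h1, Fintype.card_piFinset, Fintype.card_fun, Fintype.card_fin]
  have h2 : (∏ i : I, if i ∈ Q then 1 else m) ≤
      ∏ i : I, #(if i ∈ Q then V i else (univ : Finset (Fin m))) := by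
    apply Finset.prod_le_prod'
    intro i _
    by_cases hi : i ∈ Q
    · rw [if_pos hi, if_pos hi]
      exact Finset.Nonempty.card_pos (hV i hi)
    · rw [if_neg hi, if_neg hi]; simp
  have h3 : ((∏ i : I, if i ∈ Q then 1 else m : ℕ) : ℝ) * (m : ℝ) ^ #Q =
      (m : ℝ) ^ Fintype.card I := by
    rw [Finset.prod_ite, Finset.prod_const_one, one_mul, Finset.prod_const]
    have h4 : #(univ.filter (fun i : I => i ∉ Q)) + #Q = Fintype.card I := by
      have h5 := Finset.card_filter_add_card_filter_not (s := (univ : Finset I)) (fun i => i ∈ Q)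
      rw [Finset.card_univ] at h5
      have h6 : univ.filter (fun i : I => i ∈ Q) = Q := by ext; simp
      rw [h6] at h5
      omega
    push_cast
    rw [← pow_add, h4]
  have h5 : (1 / m : ℝ) ^ q * ((m ^ Fintype.card I : ℕ) : ℝ) ≤
      ((∏ i : I, if i ∈ Q then 1 else m : ℕ) : ℝ) := by
    push_cast at h3 ⊢
    rw [← h3]
    have h6 : (1 / m : ℝ) ^ q * (m : ℝ) ^ #Q ≤ 1 := by
      rw [one_div, inv_pow]
      rw [inv_mul_le_iff₀ (by positivity), mul_one]
      exact pow_le_pow_right₀ hmr hQ
    have h7 : (0 : ℝ) ≤ ∏ i : I, if i ∈ Q then (1 : ℝ) else m := by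
      apply Finset.prod_nonneg
      intro i _
      split_ifs <;> positivity
    calc (1 / m : ℝ) ^ q * ((∏ i : I, if i ∈ Q then (1 : ℝ) else m) * (m : ℝ) ^ #Q)
        = (∏ i : I, if i ∈ Q then (1 : ℝ) else m) * ((1 / m : ℝ) ^ q * (m : ℝ) ^ #Q) := by ring
      _ ≤ (∏ i : I, if i ∈ Q then (1 : ℝ) else m) * 1 := mul_le_mul_of_nonneg_left h6 h7
      _ = _ := by rw [mul_one]
  refine h5.trans ?_
  exact_mod_cast h2

/-- probability that none of many independent events happens -/
theorem few_miss {m : ℕ} (hm : 1 ≤ m) {J : Type} [DecidableEq J] {q : ℕ} (Q : J → Finset I)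
    (V : J → I → Finset (Fin m)) :
    ∀ S : Finset J, (∀ j ∈ S, #(Q j) ≤ q) → (∀ j ∈ S, ∀ i ∈ Q j, (V j i).Nonempty) →
      (∀ i ∈ S, ∀ j ∈ S, i ≠ j → Disjoint (Q i) (Q j)) →
      (#(univ.filter (fun R : I → Fin m => ∀ j ∈ S, ¬ ∀ i ∈ Q j, R i ∈ V j i)) : ℝ) ≤
        (1 - (1 / m : ℝ) ^ q) ^ #S * Fintype.card (I → Fin m) := by
  classical
  intro S
  have hm0 : (0 : ℝ) < m := by exact_mod_cast hm
  have hmr : (1 : ℝ) ≤ m := by exact_mod_cast hm
  have hδ0 : 0 ≤ 1 - (1 / m : ℝ) ^ q := by
    have : (1 / m : ℝ) ^ q ≤ 1 := pow_le_one₀ (by positivity) (by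
      rw [div_le_one hm0]; exact hmr)
    linarith
  induction S using Finset.induction_on with
  | empty => intro _ _ _; simp
  | insert j S hj ih =>
    intro h1 h2 h3
    have ih' := ih (fun i hi => h1 i (Finset.mem_insert_of_mem hi))
      (fun i hi => h2 i (Finset.mem_insert_of_mem hi))
      (fun i hi i' hi' => h3 i (Finset.mem_insert_of_mem hi) i' (Finset.mem_insert_of_mem hi'))
    let Φ : (I → Fin m) → ℝ := fun R => if ∀ j ∈ S, ¬ ∀ i ∈ Q j, R i ∈ V j i then 1 else 0
    let ψ : (I → Fin m) → ℝ := fun R => if ¬ ∀ i ∈ Q j, R i ∈ V j i then 1 else 0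
    have hΦs : ∑ R, Φ R = #(univ.filter (fun R : I → Fin m => ∀ j ∈ S, ¬ ∀ i ∈ Q j, R i ∈ V j i)) := by
      simp only [Φ, Finset.sum_boole]
    have hψs : ∑ R, ψ R = Fintype.card (I → Fin m) -
        #(univ.filter (fun R : I → Fin m => ∀ i ∈ Q j, R i ∈ V j i)) := by
      simp only [ψ, Finset.sum_boole]
      have h5 := Finset.card_filter_add_card_filter_not (s := (univ : Finset (I → Fin m)))
        (fun R => ∀ i ∈ Q j, R i ∈ V j i)
      rw [Finset.card_univ] at h5
      rw [← h5]; push_cast; ring
    have hψle : ∑ R, ψ R ≤ (1 - (1 / m : ℝ) ^ q) * Fintype.card (I → Fin m) := by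
      rw [hψs]
      have := card_fixed (Q j) (h1 j (Finset.mem_insert_self _ _)) (V j)
        (h2 j (Finset.mem_insert_self _ _)) hm
      linarith
    have hprod : ∀ R, Φ R * ψ R = if ∀ j' ∈ insert j S, ¬ ∀ i ∈ Q j', R i ∈ V j' i then 1 else 0 := by
      intro R
      simp only [Φ, ψ]
      by_cases ha : ∀ j' ∈ S, ¬ ∀ i ∈ Q j', R i ∈ V j' i
      · by_cases hb : ¬ ∀ i ∈ Q j, R i ∈ V j i
        · rw [if_pos ha, if_pos hb, if_pos, one_mul]
          intro j' hj'
          rcases Finset.mem_insert.1 hj' with h | h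
          · rw [h]; exact hb
          · exact ha j' h
        · rw [if_neg hb, mul_zero, if_neg]
          intro h
          exact hb (h j (Finset.mem_insert_self _ _))
      · rw [if_neg ha, zero_mul, if_neg]
        intro h
        exact ha fun j' hj' => h j' (Finset.mem_insert_of_mem hj')
    have hind := sum_mul_indep (Q j) Φ ψ (by
      intro R R' hR
      simp only [Φ]
      have : (∀ j ∈ S, ¬ ∀ i ∈ Q j, R i ∈ V j i) ↔ (∀ j ∈ S, ¬ ∀ i ∈ Q j, R' i ∈ V j i) := by
        apply forall_congr'
        intro j'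
        apply forall_congr'
        intro hj'
        apply not_congr
        apply forall_congr'
        intro i
        apply forall_congr'
        intro hi
        rw [hR i]
        intro hi'
        have hne : j' ≠ j := by rintro rfl; exact hj hj'
        exact Finset.disjoint_left.1 (h3 j' (Finset.mem_insert_of_mem hj') j
          (Finset.mem_insert_self _ _) hne) hi hi'
      simp only [this]) (by
      intro R R' hR
      simp only [ψ]
      have : (∀ i ∈ Q j, R i ∈ V j i) ↔ (∀ i ∈ Q j, R' i ∈ V j i) := by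
        apply forall_congr'
        intro i
        apply forall_congr'
        intro hi
        rw [hR i hi]
      simp only [this])
    have hsum : ∑ R, Φ R * ψ R = #(univ.filter (fun R : I → Fin m =>
        ∀ j' ∈ insert j S, ¬ ∀ i ∈ Q j', R i ∈ V j' i)) := by
      rw [Fintype.sum_congr _ _ hprod, Finset.sum_boole]
    rw [← hsum]
    have hcard : (0 : ℝ) < Fintype.card (I → Fin m) := by
      rw [Fintype.card_fun, Fintype.card_fin]
      push_cast
      positivity
    have hΦ0 : 0 ≤ ∑ R, Φ R := Finset.sum_nonneg fun R _ => by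
      simp only [Φ]; split_ifs <;> norm_num
    rw [← hΦs] at ih'
    have h6 : (Fintype.card (I → Fin m) : ℝ) * ∑ R, Φ R * ψ R ≤ Fintype.card (I → Fin m) *
        ((1 - (1 / m : ℝ) ^ q) ^ #(insert j S) * Fintype.card (I → Fin m)) := by
      rw [← hind, Finset.card_insert_of_notMem hj, pow_succ]
      calc (∑ R, Φ R) * ∑ R, ψ R ≤ ((1 - (1 / m : ℝ) ^ q) ^ #S * Fintype.card (I → Fin m)) *
            ((1 - (1 / m : ℝ) ^ q) * Fintype.card (I → Fin m)) := by
            apply mul_le_mul ih' hψle _ (by positivity)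
            apply Finset.sum_nonneg
            intro R _
            simp only [ψ]; split_ifs <;> norm_num
        _ = _ := by ring
    exact le_of_mul_le_mul_left h6 hcard

end indep

/-- number of subsets of size at most w -/
theorem card_small {Y : Type} [Fintype Y] [DecidableEq Y] (w : ℕ) :
    #((univ : Finset (Finset Y)).filter (fun C => #C ≤ w)) ≤ (Fintype.card Y + 1) ^ w := by
  classical
  have h1 : (univ : Finset (Finset Y)).filter (fun C => #C ≤ w) ⊆
      (univ : Finset (Fin w → Option Y)).image (fun g => univ.filter (fun y => ∃ i, g i = some y)) := by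
    intro C hC
    rw [Finset.mem_filter] at hC
    rw [Finset.mem_image]
    let e : Fin #C ≃ C := C.equivFin.symm
    refine ⟨fun i => if h : (i : ℕ) < #C then some (e ⟨i, h⟩ : Y) else none, Finset.mem_univ _, ?_⟩
    ext y
    simp only [Finset.mem_filter, Finset.mem_univ, true_and]
    constructor
    · rintro ⟨i, hi⟩
      by_cases h : (i : ℕ) < #C
      · rw [dif_pos h] at hi
        rw [← Option.some.inj hi]
        exact (e ⟨i, h⟩).2
      · rw [dif_neg h] at hi; exact absurd hi (by simp)
    · intro hy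
      refine ⟨⟨e.symm ⟨y, hy⟩, lt_of_lt_of_le (e.symm ⟨y, hy⟩).2 hC.2⟩, ?_⟩
      rw [dif_pos (e.symm ⟨y, hy⟩).2]
      simp
  calc _ ≤ #((univ : Finset (Fin w → Option Y)).image
        (fun g => univ.filter (fun y => ∃ i, g i = some y))) := Finset.card_le_card h1
    _ ≤ #(univ : Finset (Fin w → Option Y)) := Finset.card_image_le
    _ = _ := by simp [Fintype.card_option]

/-- a random selection of one point per fibre rarely meets a small set often -/
theorem card_alive {X : Type} [Fintype X] [DecidableEq X] {M B : ℕ} (hB : 1 ≤ B) (hBM : B ≤ M)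
    (S : Finset (X × Fin M)) (hS : #S ≤ B) (t : ℕ) :
    (#(univ.filter (fun a : X → Fin M => t ≤ #(univ.filter (fun x => (x, a x) ∈ S)))) : ℝ) ≤
      3 * (B / M : ℝ) ^ t * Fintype.card (X → Fin M) := by
  classical
  have hB0 : (0 : ℝ) < B := by exact_mod_cast hB
  have hM0 : (0 : ℝ) < M := lt_of_lt_of_le hB0 (by exact_mod_cast hBM)
  set l : ℝ := M / B with hl
  have hl1 : 1 ≤ l := by
    rw [hl, one_le_div hB0]; exact_mod_cast hBM
  -- exponential moment
  have h1 : ∑ a : X → Fin M, l ^ #(univ.filter (fun x => (x, a x) ∈ S)) =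
      ∏ x : X, ∑ u : Fin M, (if (x, u) ∈ S then l else 1) := by
    rw [Finset.prod_univ_sum]
    simp only [Fintype.piFinset_univ]
    apply Finset.sum_congr rfl
    intro a _
    rw [Finset.prod_ite, Finset.prod_const_one, mul_one, Finset.prod_const]
  have h2 : ∀ x : X, ∑ u : Fin M, (if (x, u) ∈ S then l else 1) ≤
      M * Real.exp (#(univ.filter (fun u => (x, u) ∈ S)) / B) := by
    intro x
    have h3 : ∑ u : Fin M, (if (x, u) ∈ S then l else 1) =
        #(univ.filter (fun u => (x, u) ∈ S)) * l + #(univ.filter (fun u => (x, u) ∉ S)) := by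
      rw [Finset.sum_ite, Finset.sum_const, Finset.sum_const, nsmul_eq_mul, nsmul_eq_mul, mul_one]
    have h4 : (#(univ.filter (fun u : Fin M => (x, u) ∉ S)) : ℝ) ≤ M := by
      have := Finset.card_le_univ (univ.filter (fun u : Fin M => (x, u) ∉ S))
      rw [Fintype.card_fin] at this
      exact_mod_cast this
    rw [h3]
    have h5 := Real.add_one_le_exp ((#(univ.filter (fun u : Fin M => (x, u) ∈ S)) : ℝ) / B)
    calc (#(univ.filter (fun u : Fin M => (x, u) ∈ S)) : ℝ) * l +
          #(univ.filter (fun u : Fin M => (x, u) ∉ S)) ≤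
          #(univ.filter (fun u : Fin M => (x, u) ∈ S)) * l + M := by linarith
      _ = M * ((#(univ.filter (fun u : Fin M => (x, u) ∈ S)) : ℝ) / B + 1) := by
          rw [hl]; ring
      _ ≤ _ := mul_le_mul_of_nonneg_left h5 hM0.le
  have h6 : ∏ x : X, ∑ u : Fin M, (if (x, u) ∈ S then l else 1) ≤
      (M : ℝ) ^ Fintype.card X * 3 := by
    calc _ ≤ ∏ x : X, (M * Real.exp (#(univ.filter (fun u : Fin M => (x, u) ∈ S)) / B)) := by
          apply Finset.prod_le_prod
          · intro x _
            apply Finset.sum_nonneg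
            intro u _
            split_ifs <;> linarith
          · intro x _; exact h2 x
      _ = (M : ℝ) ^ Fintype.card X *
          Real.exp (∑ x : X, (#(univ.filter (fun u : Fin M => (x, u) ∈ S)) : ℝ) / B) := by
          rw [Finset.prod_mul_distrib, Finset.prod_const, Finset.card_univ, Real.exp_sum]
      _ ≤ (M : ℝ) ^ Fintype.card X * 3 := by
          apply mul_le_mul_of_nonneg_left _ (by positivity)
          have h7 : ∑ x : X, (#(univ.filter (fun u : Fin M => (x, u) ∈ S)) : ℝ) / B = #S / B := by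
            rw [← Finset.sum_div]
            congr 1
            have h8 : ∑ x : X, #(univ.filter (fun u : Fin M => (x, u) ∈ S)) = #S := by
              rw [Finset.card_eq_sum_card_fiberwise (s := S) (t := univ) (f := Prod.fst)
                (fun x _ => Finset.mem_coe.2 (Finset.mem_univ _))]
              apply Finset.sum_congr rfl
              intro x _
              apply Finset.card_bij (fun u _ => (x, u))
              · intro u hu
                rw [Finset.mem_filter] at hu ⊢
                exact ⟨hu.2, rfl⟩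
              · intro u _ u' _ h
                exact (Prod.mk.inj h).2
              · rintro ⟨x', u⟩ hu
                rw [Finset.mem_filter] at hu
                refine ⟨u, ?_, ?_⟩
                · rw [Finset.mem_filter]
                  refine ⟨Finset.mem_univ _, ?_⟩
                  have := hu.2
                  simp only at this
                  rw [← this]; exact hu.1
                · have := hu.2
                  simp only at this
                  rw [this]
            exact_mod_cast h8
          rw [h7]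
          have h9 : (#S : ℝ) / B ≤ 1 := by
            rw [div_le_one hB0]; exact_mod_cast hS
          calc Real.exp (#S / B) ≤ Real.exp 1 := Real.exp_le_exp.2 h9
            _ ≤ 3 := by have := Real.exp_one_lt_d9; linarith
  -- Markov
  have h10 : (#(univ.filter (fun a : X → Fin M => t ≤ #(univ.filter (fun x => (x, a x) ∈ S)))) : ℝ) *
      l ^ t ≤ ∑ a : X → Fin M, l ^ #(univ.filter (fun x => (x, a x) ∈ S)) := by
    rw [← nsmul_eq_mul, ← Finset.sum_const]
    calc _ ≤ ∑ a ∈ univ.filter (fun a : X → Fin M => t ≤ #(univ.filter (fun x => (x, a x) ∈ S))),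
          l ^ #(univ.filter (fun x => (x, a x) ∈ S)) := by
          apply Finset.sum_le_sum
          intro a ha
          exact pow_le_pow_right₀ hl1 (Finset.mem_filter.1 ha).2
      _ ≤ _ := by
          apply Finset.sum_le_sum_of_subset_of_nonneg (Finset.filter_subset _ _)
          intro a _ _
          positivity
  have h11 : (Fintype.card (X → Fin M) : ℝ) = (M : ℝ) ^ Fintype.card X := by
    rw [Fintype.card_fun, Fintype.card_fin]; push_cast; ring
  rw [h11]
  have hlt : 0 < l ^ t := by positivity
  have h12 : (#(univ.filter (fun a : X → Fin M => t ≤ #(univ.filter (fun x => (x, a x) ∈ S)))) : ℝ) *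
      l ^ t ≤ (3 * (B / M : ℝ) ^ t * (M : ℝ) ^ Fintype.card X) * l ^ t := by
    have h13 : (B / M : ℝ) ^ t * l ^ t = 1 := by
      rw [hl, ← mul_pow]
      have : (B / M : ℝ) * (M / B) = 1 := by field_simp
      rw [this, one_pow]
    calc _ ≤ (M : ℝ) ^ Fintype.card X * 3 := h10.trans (h1.le.trans h6)
      _ = 3 * ((B / M : ℝ) ^ t * l ^ t) * (M : ℝ) ^ Fintype.card X := by rw [h13]; ring
      _ = _ := by ring
  exact le_of_mul_le_mul_right h12 hlt

end Pool.Agent.H29.Nz
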