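import Pool.Agent.H29.NzNof

/-!
Linear combinations of cylinder intersections; Fourier expansions of predicates of integers.
-/

open Finset

namespace Pool.Agent.H29.Nz

set_option linter.unusedSectionVars false

variable {L : Type} [Fintype L] [DecidableEq L] {p : ℕ}

/-- combinations of products of cylinders with coefficients of total weight at most Λ -/
def Kc (Λ : ℝ) (Ψ : Pt p L → ℂ) : Prop :=
  ∃ (ι : Type) (_ : Fintype ι) (c : ι → ℂ) (φ : ι → Fin p → Pt p L → ℂ),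
    (∀ a π, Ind π (φ a π)) ∧ (∀ a π x, ‖φ a π x‖ ≤ 1) ∧ ∑ a, ‖c a‖ ≤ Λ ∧
    ∀ x, Ψ x = ∑ a, c a * ∏ π, φ a π x

theorem Kc.mono {Λ Λ' : ℝ} (h : Λ ≤ Λ') {Ψ : Pt p L → ℂ} (hΨ : Kc Λ Ψ) : Kc Λ' Ψ := by
  obtain ⟨ι, _, c, φ, h1, h2, h3, h4⟩ := hΨ
  exact ⟨ι, _, c, φ, h1, h2, h3.trans h, h4⟩

theorem Kc.nonneg {Λ : ℝ} {Ψ : Pt p L → ℂ} (hΨ : Kc Λ Ψ) : 0 ≤ Λ := by
  obtain ⟨ι, _, c, φ, h1, h2, h3, h4⟩ := hΨ
  exact le_trans (Finset.sum_nonneg fun _ _ => norm_nonneg _) h3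

theorem Kc.congr {Λ : ℝ} {Ψ Ψ' : Pt p L → ℂ} (h : ∀ x, Ψ' x = Ψ x) (hΨ : Kc Λ Ψ) : Kc Λ Ψ' := by
  have : Ψ' = Ψ := funext h
  rw [this]; exact hΨ

theorem Kc.mul {Λ Λ' : ℝ} {Ψ Ψ' : Pt p L → ℂ} (h : Kc Λ Ψ) (h' : Kc Λ' Ψ') :
    Kc (Λ * Λ') (fun x => Ψ x * Ψ' x) := by
  have hΛ := h.nonneg
  obtain ⟨ι, _, c, φ, h1, h2, h3, h4⟩ := h
  obtain ⟨ι', _, c', φ', h1', h2', h3', h4'⟩ := h'
  refine ⟨ι × ι', inferInstance, fun a => c a.1 * c' a.2, fun a π x => φ a.1 π x * φ' a.2 π x,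
    ?_, ?_, ?_, ?_⟩
  · intro a π x x' hx
    show φ a.1 π x * φ' a.2 π x = φ a.1 π x' * φ' a.2 π x'
    rw [h1 a.1 π x x' hx, h1' a.2 π x x' hx]
  · intro a π x
    rw [norm_mul]
    exact mul_le_one₀ (h2 _ _ _) (norm_nonneg _) (h2' _ _ _)
  · rw [Fintype.sum_prod_type]
    simp only [norm_mul]
    simp only [← Finset.mul_sum, ← Finset.sum_mul]
    exact mul_le_mul h3 h3' (Finset.sum_nonneg fun _ _ => norm_nonneg _) hΛ
  · intro x
    show Ψ x * Ψ' x = _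
    rw [h4, h4', Finset.sum_mul_sum, Fintype.sum_prod_type]
    apply Finset.sum_congr rfl
    intro a _
    apply Finset.sum_congr rfl
    intro a' _
    rw [Finset.prod_mul_distrib]
    ring

theorem Kc.sum {κ : Type} [Fintype κ] {Λ : κ → ℝ} {Ψ : κ → Pt p L → ℂ} (h : ∀ j, Kc (Λ j) (Ψ j)) :
    Kc (∑ j, Λ j) (fun x => ∑ j, Ψ j x) := by
  choose ι hι c φ h1 h2 h3 h4 using h
  refine ⟨Σ j, ι j, inferInstance, fun a => c a.1 a.2, fun a π x => φ a.1 a.2 π x, ?_, ?_, ?_, ?_⟩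
  · intro a π
    exact h1 a.1 a.2 π
  · intro a π x
    exact h2 _ _ _ _
  · rw [Fintype.sum_sigma]
    exact Finset.sum_le_sum fun j _ => h3 j
  · intro x
    rw [Fintype.sum_sigma]
    apply Finset.sum_congr rfl
    intro j _
    exact h4 j x

theorem Kc.smul {Λ : ℝ} {Ψ : Pt p L → ℂ} (a : ℂ) (h : Kc Λ Ψ) : Kc (‖a‖ * Λ) (fun x => a * Ψ x) := by
  obtain ⟨ι, _, c, φ, h1, h2, h3, h4⟩ := h
  refine ⟨ι, inferInstance, fun b => a * c b, φ, h1, h2, ?_, ?_⟩
  · simp only [norm_mul]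
    rw [← Finset.mul_sum]
    exact mul_le_mul_of_nonneg_left h3 (norm_nonneg _)
  · intro x
    show a * Ψ x = _
    rw [h4, Finset.mul_sum]
    apply Finset.sum_congr rfl
    intro b _
    ring

/-- products of cylinders -/
theorem Kc.cyl (φ : Fin p → Pt p L → ℂ) (h1 : ∀ π, Ind π (φ π)) (h2 : ∀ π x, ‖φ π x‖ ≤ 1) :
    Kc 1 (fun x => ∏ π, φ π x) := by
  refine ⟨Unit, inferInstance, fun _ => 1, fun _ => φ, fun _ => h1, fun _ => h2, ?_, ?_⟩
  · simp
  · intro x; simp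

theorem Kc.one : Kc 1 (fun _ : Pt p L => (1 : ℂ)) := by
  refine (Kc.cyl (fun _ _ => 1) (fun _ _ _ _ => rfl) (fun _ _ => by simp)).congr ?_
  intro x; simp

theorem Kc.of_ind {φ : Pt p L → ℂ} (π : Fin p) (h1 : Ind π φ) (h2 : ∀ x, ‖φ x‖ ≤ 1) : Kc 1 φ := by
  refine (Kc.cyl (fun π' x => if π' = π then φ x else 1) ?_ ?_).congr ?_
  · intro π' x x' hx
    by_cases h : π' = π
    · subst h
      simp only [if_true]
      exact h1 x x' hx
    · simp only [if_neg h]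
  · intro π' x
    by_cases h : π' = π
    · simp only [h, if_true]; exact h2 x
    · simp only [h, if_false]; simp
  · intro x
    rw [Finset.prod_ite_eq']
    simp

theorem Kc.prod {κ : Type} {Λ : κ → ℝ} {Ψ : κ → Pt p L → ℂ} (S : Finset κ)
    (h : ∀ j, Kc (Λ j) (Ψ j)) : Kc (∏ j ∈ S, Λ j) (fun x => ∏ j ∈ S, Ψ j x) := by
  classical
  induction S using Finset.induction_on with
  | empty => simpa using Kc.one
  | insert j S hj ih =>
    rw [Finset.prod_insert hj]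
    refine ((h j).mul ih).congr ?_
    intro x
    rw [Finset.prod_insert hj]

/-- correlation with the generalised inner product -/
theorem Kc.corr {Λ : ℝ} {Ψ : Pt (p + 1) L → ℂ} (h : Kc Λ Ψ) (S : Finset L) :
    ‖∑ x, ((sgs S x : ℝ) : ℂ) * Ψ x‖ ≤ Λ * (rh p ^ #S * (2 ^ Fintype.card L) ^ (p + 1)) := by
  obtain ⟨ι, _, c, φ, h1, h2, h3, h4⟩ := h
  have h5 : ∑ x, ((sgs S x : ℝ) : ℂ) * Ψ x =
      ∑ a, c a * ∑ x, ((sgs S x : ℝ) : ℂ) * ∏ π, φ a π x := by
    simp only [h4, Finset.mul_sum]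
    rw [Finset.sum_comm]
    apply Finset.sum_congr rfl
    intro a _
    apply Finset.sum_congr rfl
    intro x _
    ring
  rw [h5]
  have hr := rh_nonneg p
  calc _ ≤ ∑ a, ‖c a‖ * (rh p ^ #S * (2 ^ Fintype.card L) ^ (p + 1)) := by
        refine (norm_sum_le _ _).trans (Finset.sum_le_sum fun a _ => ?_)
        rw [norm_mul]
        exact mul_le_mul_of_nonneg_left (bns p S (φ a) (h1 a) (h2 a)) (norm_nonneg _)
    _ = (∑ a, ‖c a‖) * (rh p ^ #S * (2 ^ Fintype.card L) ^ (p + 1)) := by rw [Finset.sum_mul]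
    _ ≤ _ := mul_le_mul_of_nonneg_right h3 (by positivity)

/-- the character t -/
noncomputable def ee (t : ℝ) : ℂ := Complex.exp (Complex.I * t)

theorem norm_ee (t : ℝ) : ‖ee t‖ = 1 := Complex.norm_exp_I_mul_ofReal t

theorem ee_add (s t : ℝ) : ee (s + t) = ee s * ee t := by
  unfold ee
  rw [← Complex.exp_add]; congr 1; push_cast; ring

theorem ee_sum {κ : Type} (S : Finset κ) (f : κ → ℝ) : ee (∑ j ∈ S, f j) = ∏ j ∈ S, ee (f j) := by
  unfold ee
  rw [← Complex.exp_sum]; congr 1; push_cast; rw [Finset.mul_sum]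

theorem ee_nat_mul (n : ℕ) (t : ℝ) : ee (n * t) = ee t ^ n := by
  unfold ee
  rw [← Complex.exp_nat_mul]; congr 1; push_cast; ring

theorem ee_zero : ee 0 = 1 := by unfold ee; simp

theorem ee_eq_one_iff (t : ℝ) : ee t = 1 ↔ ∃ n : ℤ, t = n * (2 * Real.pi) := by
  unfold ee
  rw [Complex.exp_eq_one_iff]
  constructor
  · rintro ⟨n, hn⟩
    refine ⟨n, ?_⟩
    have h1 : Complex.I * (t : ℂ) = Complex.I * ((n * (2 * Real.pi) : ℝ) : ℂ) := by
      rw [hn]; push_cast; ring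
    have h2 := mul_left_cancel₀ Complex.I_ne_zero h1
    exact_mod_cast h2
  · rintro ⟨n, hn⟩
    refine ⟨n, ?_⟩
    rw [hn]; push_cast; ring

/-- orthogonality of the characters modulo M -/
theorem sum_ee (M : ℕ) (hM : 1 ≤ M) (z : ℤ) :
    ∑ k ∈ range M, ee (k * (2 * Real.pi * z / M)) = if (M : ℤ) ∣ z then (M : ℂ) else 0 := by
  have hM0 : (M : ℝ) ≠ 0 := by
    have : M ≠ 0 := by omega
    exact_mod_cast this
  simp only [ee_nat_mul]
  by_cases h : (M : ℤ) ∣ z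
  · rw [if_pos h]
    obtain ⟨q, rfl⟩ := h
    have h1 : ee (2 * Real.pi * ((M * q : ℤ) : ℝ) / M) = 1 := by
      rw [ee_eq_one_iff]
      refine ⟨q, ?_⟩
      push_cast
      field_simp
    rw [h1]
    simp
  · rw [if_neg h]
    have h1 : ee (2 * Real.pi * z / M) ≠ 1 := by
      intro h2
      rw [ee_eq_one_iff] at h2
      obtain ⟨n, hn⟩ := h2
      apply h
      refine ⟨n, ?_⟩
      have hpi := Real.pi_ne_zero
      field_simp at hn
      have h3 : (z : ℝ) = M * n := by linarith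
      exact_mod_cast h3
    have h2 : ee (2 * Real.pi * z / M) ^ M = 1 := by
      rw [← ee_nat_mul, ee_eq_one_iff]
      refine ⟨z, ?_⟩
      field_simp
    rw [geom_sum_eq h1, h2]
    simp

/-- Fourier coefficients of a function on an interval of M integers -/
noncomputable def fc (M : ℕ) (lo : ℤ) (f : ℤ → ℂ) (k : ℕ) : ℂ :=
  (1 / M) * ∑ r ∈ range M, f (lo + r) * ee (-(k * (2 * Real.pi * r / M)))

theorem four_inv (M : ℕ) (hM : 1 ≤ M) (lo : ℤ) (f : ℤ → ℂ) (z : ℤ) (h1 : lo ≤ z)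
    (h2 : z < lo + M) :
    f z = ∑ k ∈ range M, fc M lo f k * ee (k * (2 * Real.pi * ((z - lo : ℤ) : ℝ) / M)) := by
  have hM0 : (M : ℂ) ≠ 0 := by
    have : M ≠ 0 := by omega
    exact_mod_cast this
  obtain ⟨r₀, hr₀⟩ : ∃ r₀ : ℕ, (r₀ : ℤ) = z - lo := ⟨(z - lo).toNat, Int.toNat_of_nonneg (by omega)⟩
  have hr₀M : r₀ < M := by omega
  have hz : z = lo + r₀ := by omega
  have h3 : ∀ k ∈ range M, fc M lo f k * ee (k * (2 * Real.pi * ((z - lo : ℤ) : ℝ) / M)) =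
      (1 / M) * ∑ r ∈ range M, f (lo + r) * ee (k * (2 * Real.pi * ((z - lo - r : ℤ) : ℝ) / M)) := by
    intro k _
    unfold fc
    rw [mul_assoc, Finset.sum_mul]
    congr 1
    apply Finset.sum_congr rfl
    intro r _
    rw [mul_assoc, ← ee_add]
    congr 2
    push_cast
    ring
  rw [Finset.sum_congr rfl h3, ← Finset.mul_sum, Finset.sum_comm]
  have h4 : ∀ r ∈ range M, ∑ k ∈ range M, f (lo + r) *
      ee (k * (2 * Real.pi * ((z - lo - r : ℤ) : ℝ) / M)) =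
      if r = r₀ then f z * M else 0 := by
    intro r hr
    rw [Finset.mem_range] at hr
    rw [← Finset.mul_sum, sum_ee M hM]
    by_cases h : r = r₀
    · subst h
      rw [if_pos rfl, if_pos (by rw [hr₀.symm]; simp), ← hz]
    · rw [if_neg h, if_neg, mul_zero]
      intro hd
      obtain ⟨q, hq⟩ := hd
      rw [← hr₀] at hq
      have hMz : (0 : ℤ) < M := by exact_mod_cast (by omega : 0 < M)
      have hq0 : q = 0 := by
        by_contra hq0
        rcases lt_or_gt_of_ne hq0 with hlt | hgt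
        · have : (M : ℤ) * q ≤ M * (-1) := mul_le_mul_of_nonneg_left (by omega) hMz.le
          omega
        · have : (M : ℤ) * 1 ≤ M * q := mul_le_mul_of_nonneg_left (by omega) hMz.le
          omega
      rw [hq0, mul_zero] at hq
      apply h
      omega
  rw [Finset.sum_congr rfl h4, Finset.sum_ite_eq' (range M) r₀, if_pos (Finset.mem_range.2 hr₀M)]
  field_simp

/-- functions of the sum of integers known to the players -/
theorem Kc.four (M : ℕ) (hM : 1 ≤ M) (lo : ℤ) (f : ℤ → ℂ) (u : Fin p → Pt p L → ℤ)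
    (hu : ∀ π, Ind π (u π)) (h1 : ∀ x, lo ≤ ∑ π, u π x) (h2 : ∀ x, ∑ π, u π x < lo + M) :
    Kc (∑ k ∈ range M, ‖fc M lo f k‖) (fun x => f (∑ π, u π x)) := by
  have h3 : ∀ k : Fin M, Kc (‖fc M lo f k * ee (-(k * (2 * Real.pi * (lo : ℝ) / M)))‖ * 1)
      (fun x => (fc M lo f k * ee (-(k * (2 * Real.pi * (lo : ℝ) / M)))) *
        ∏ π, ee (k * (2 * Real.pi * (u π x : ℝ) / M))) := by
    intro k
    apply Kc.smul
    apply Kc.cyl
    · intro π x x' hx
      simp only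
      rw [hu π x x' hx]
    · intro π x
      rw [norm_ee]
  have h4 := Kc.sum h3
  refine (h4.mono ?_).congr ?_
  · rw [← Fin.sum_univ_eq_sum_range (fun k => ‖fc M lo f k‖)]
    apply Finset.sum_le_sum
    intro k _
    rw [mul_one, norm_mul, norm_ee, mul_one]
  · intro x
    rw [four_inv M hM lo f _ (h1 x) (h2 x), ← Fin.sum_univ_eq_sum_range (fun k =>
      fc M lo f k * ee (k * (2 * Real.pi * ((∑ π, u π x - lo : ℤ) : ℝ) / M)))]
    apply Finset.sum_congr rfl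
    intro k _
    rw [mul_assoc (fc M lo f k), ← ee_sum, ← ee_add]
    congr 2
    push_cast
    rw [← Finset.mul_sum, ← Finset.sum_div, ← Finset.mul_sum]
    ring

/-- bounded sums: arbitrary predicates -/
theorem Kc.bounded (B : ℕ) (f : ℤ → ℂ) (hf : ∀ z, ‖f z‖ ≤ 1) (u : Fin p → Pt p L → ℤ)
    (hu : ∀ π, Ind π (u π)) (h1 : ∀ x, |∑ π, u π x| ≤ B) :
    Kc (2 * B + 1) (fun x => f (∑ π, u π x)) := by
  have h2 := Kc.four (2 * B + 1) (by omega) (-(B : ℤ)) f u hu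
    (fun x => (abs_le.1 (h1 x)).1) (fun x => by
      have := (abs_le.1 (h1 x)).2
      push_cast; omega)
  refine h2.mono ?_
  have h3 : ∀ k ∈ range (2 * B + 1), ‖fc (2 * B + 1) (-(B : ℤ)) f k‖ ≤ 1 := by
    intro k _
    unfold fc
    rw [norm_mul]
    have h4 : ‖∑ r ∈ range (2 * B + 1), f (-(B : ℤ) + r) *
        ee (-(k * (2 * Real.pi * r / ((2 * B + 1 : ℕ) : ℝ))))‖ ≤ ((2 * B + 1 : ℕ) : ℝ) := by
      calc _ ≤ ∑ _r ∈ range (2 * B + 1), (1 : ℝ) := by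
            refine (norm_sum_le _ _).trans (Finset.sum_le_sum fun r _ => ?_)
            rw [norm_mul, norm_ee, mul_one]
            exact hf _
        _ = _ := by rw [Finset.sum_const, Finset.card_range]; simp
    have h5 : ‖(1 / ((2 * B + 1 : ℕ) : ℂ))‖ = 1 / ((2 * B + 1 : ℕ) : ℝ) := by
      rw [norm_div, norm_one, Complex.norm_natCast]
    rw [h5]
    have h6 : (0 : ℝ) < ((2 * B + 1 : ℕ) : ℝ) := by positivity
    calc _ ≤ 1 / ((2 * B + 1 : ℕ) : ℝ) * ((2 * B + 1 : ℕ) : ℝ) :=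
          mul_le_mul_of_nonneg_left h4 (by positivity)
      _ = 1 := by field_simp
  calc _ ≤ ∑ _k ∈ range (2 * B + 1), (1 : ℝ) := Finset.sum_le_sum h3
    _ = _ := by rw [Finset.sum_const, Finset.card_range]; simp

end Pool.Agent.H29.Nz
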