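import Pool.Agent.H29.NzCyl

/-!
The Fourier expansion of the threshold function has small total weight.
-/

open Finset

namespace Pool.Agent.H29.Nz

set_option linter.unusedSectionVars false

theorem sin_lower (x : ℝ) (h0 : 0 < x) (h1 : x < 1) :
    1 / Real.sin (Real.pi * x) ≤ 1 / (2 * x) + 1 / (2 * (1 - x)) := by
  have hpi := Real.pi_pos
  by_cases h : x ≤ 1 / 2
  · have h2 : 2 * x ≤ Real.sin (Real.pi * x) := by
      have := Real.mul_le_sin (x := Real.pi * x) (by positivity) (by nlinarith)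
      have h3 : 2 / Real.pi * (Real.pi * x) = 2 * x := by field_simp
      linarith
    have h3 : 1 / Real.sin (Real.pi * x) ≤ 1 / (2 * x) := one_div_le_one_div_of_le (by linarith) h2
    have h4 : 0 ≤ 1 / (2 * (1 - x)) := by
      apply div_nonneg (by norm_num); linarith
    linarith
  · push Not at h
    have h2 : 2 * (1 - x) ≤ Real.sin (Real.pi * x) := by
      have h5 := Real.mul_le_sin (x := Real.pi * (1 - x)) (by nlinarith) (by nlinarith)
      have h3 : 2 / Real.pi * (Real.pi * (1 - x)) = 2 * (1 - x) := by field_simp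
      have h6 : Real.sin (Real.pi * (1 - x)) = Real.sin (Real.pi * x) := by
        rw [mul_sub, mul_one, Real.sin_pi_sub]
      linarith
    have h3 : 1 / Real.sin (Real.pi * x) ≤ 1 / (2 * (1 - x)) :=
      one_div_le_one_div_of_le (by linarith) h2
    have h4 : 0 ≤ 1 / (2 * x) := by positivity
    linarith

theorem fc_thr_le (m : ℕ) (hm : 1 ≤ m) (k : ℕ) (hk1 : 1 ≤ k) (hk2 : k < 2 * m) :
    ‖fc (2 * m) (-(m : ℤ)) (fun z => if 0 ≤ z then 1 else 0) k‖ ≤
      1 / (2 * k) + 1 / (2 * ((2 * m : ℕ) - k)) := by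
  have hm0 : (0 : ℝ) < m := by exact_mod_cast hm
  have hk0 : (0 : ℝ) < k := by exact_mod_cast hk1
  have hkm : (k : ℝ) < 2 * m := by exact_mod_cast hk2
  set w : ℂ := ee (-(2 * Real.pi * (k / (2 * m : ℕ)))) with hw
  have h1 : ∑ r ∈ range (2 * m), (fun z : ℤ => if 0 ≤ z then (1 : ℂ) else 0) (-(m : ℤ) + r) *
      ee (-(k * (2 * Real.pi * r / ((2 * m : ℕ) : ℝ)))) = ∑ r ∈ Ico m (2 * m), w ^ r := by
    have h2 : ∀ r ∈ range (2 * m), (fun z : ℤ => if 0 ≤ z then (1 : ℂ) else 0) (-(m : ℤ) + r) *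
        ee (-(k * (2 * Real.pi * r / ((2 * m : ℕ) : ℝ)))) = if m ≤ r then w ^ r else 0 := by
      intro r _
      have h3 : w ^ r = ee (-(k * (2 * Real.pi * r / ((2 * m : ℕ) : ℝ)))) := by
        rw [hw, ← ee_nat_mul]; congr 1; ring
      rw [h3]
      by_cases h : m ≤ r
      · have : (0 : ℤ) ≤ -(m : ℤ) + r := by omega
        simp only [if_pos this, if_pos h, one_mul]
      · have : ¬ (0 : ℤ) ≤ -(m : ℤ) + r := by omega
        simp only [if_neg this, if_neg h, zero_mul]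
    rw [Finset.sum_congr rfl h2, ← Finset.sum_filter]
    apply Finset.sum_congr _ (fun _ _ => rfl)
    ext r
    simp only [Finset.mem_filter, Finset.mem_range, Finset.mem_Ico]
    omega
  have hx : (0 : ℝ) < (k : ℝ) / (2 * m : ℕ) := by push_cast; positivity
  have hx1 : (k : ℝ) / (2 * m : ℕ) < 1 := by
    rw [div_lt_one (by push_cast; positivity)]; push_cast; exact hkm
  have hsin : 0 < Real.sin (Real.pi * (k / (2 * m : ℕ))) :=
    Real.sin_pos_of_pos_of_lt_pi (by have := Real.pi_pos; positivity)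
      (by nlinarith [Real.pi_pos])
  have hw1 : ‖w - 1‖ = 2 * Real.sin (Real.pi * (k / (2 * m : ℕ))) := by
    rw [hw]
    unfold ee
    rw [Complex.norm_exp_I_mul_ofReal_sub_one]
    rw [show -(2 * Real.pi * ((k : ℝ) / (2 * m : ℕ))) / 2 = -(Real.pi * (k / (2 * m : ℕ))) by ring,
      Real.sin_neg, mul_neg, norm_neg, Real.norm_of_nonneg (by positivity)]
  have hw2 : w ≠ 1 := by
    intro h
    rw [h, sub_self, norm_zero] at hw1
    linarith
  have h4 : ‖∑ r ∈ Ico m (2 * m), w ^ r‖ ≤ 2 / (2 * Real.sin (Real.pi * (k / (2 * m : ℕ)))) := by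
    rw [geom_sum_Ico hw2 (by omega), norm_div, hw1]
    apply div_le_div_of_nonneg_right _ (by positivity)
    calc ‖w ^ (2 * m) - w ^ m‖ ≤ ‖w ^ (2 * m)‖ + ‖w ^ m‖ := norm_sub_le _ _
      _ = 2 := by rw [norm_pow, norm_pow, hw, norm_ee]; norm_num
  have h5 := sin_lower ((k : ℝ) / (2 * m : ℕ)) hx hx1
  unfold fc
  rw [norm_mul, h1]
  have h6 : ‖(1 / ((2 * m : ℕ) : ℂ))‖ = 1 / ((2 * m : ℕ) : ℝ) := by
    rw [norm_div, norm_one, Complex.norm_natCast]
  rw [h6]
  have hMpos : (0 : ℝ) < ((2 * m : ℕ) : ℝ) := by push_cast; positivity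
  calc _ ≤ 1 / ((2 * m : ℕ) : ℝ) * (2 / (2 * Real.sin (Real.pi * (k / (2 * m : ℕ))))) :=
        mul_le_mul_of_nonneg_left h4 (by positivity)
    _ = 1 / ((2 * m : ℕ) : ℝ) * (1 / Real.sin (Real.pi * (k / (2 * m : ℕ)))) := by
        congr 1; field_simp
    _ ≤ 1 / ((2 * m : ℕ) : ℝ) * (1 / (2 * ((k : ℝ) / (2 * m : ℕ))) +
        1 / (2 * (1 - (k : ℝ) / (2 * m : ℕ)))) := mul_le_mul_of_nonneg_left h5 (by positivity)
    _ = _ := by
        have h7 : ((2 * m : ℕ) : ℝ) - k ≠ 0 := by push_cast; linarith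
        have h8 : (1 : ℝ) - (k : ℝ) / (2 * m : ℕ) ≠ 0 := by linarith
        have h9 : (1 : ℝ) - (k : ℝ) / (2 * m : ℕ) = (((2 * m : ℕ) : ℝ) - k) / (2 * m : ℕ) := by
          field_simp
        rw [h9]
        field_simp

theorem sum_fc_thr (K : ℕ) : ∑ k ∈ range (2 * 2 ^ K),
    ‖fc (2 * 2 ^ K) (-((2 ^ K : ℕ) : ℤ)) (fun z => if 0 ≤ z then 1 else 0) k‖ ≤ K + 3 := by
  obtain ⟨m, hm⟩ : ∃ m, m = 2 ^ K := ⟨_, rfl⟩
  rw [← hm]
  have hm1 : 1 ≤ m := by rw [hm]; exact Nat.one_le_two_pow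
  have hm0 : (0 : ℝ) < m := by exact_mod_cast hm1
  obtain ⟨n, hn⟩ : ∃ n, 2 * m = n + 1 := ⟨2 * m - 1, by omega⟩
  have h0 : ‖fc (2 * m) (-(m : ℤ)) (fun z => if 0 ≤ z then 1 else 0) 0‖ ≤ 1 := by
    unfold fc
    rw [norm_mul]
    have h6 : ‖(1 / ((2 * m : ℕ) : ℂ))‖ = 1 / ((2 * m : ℕ) : ℝ) := by
      rw [norm_div, norm_one, Complex.norm_natCast]
    rw [h6]
    have hMpos : (0 : ℝ) < ((2 * m : ℕ) : ℝ) := by push_cast; positivity
    have h7 : ‖∑ r ∈ range (2 * m), (fun z : ℤ => if 0 ≤ z then (1 : ℂ) else 0) (-(m : ℤ) + r) *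
        ee (-(((0 : ℕ) : ℝ) * (2 * Real.pi * r / ((2 * m : ℕ) : ℝ))))‖ ≤ ((2 * m : ℕ) : ℝ) := by
      calc _ ≤ ∑ _r ∈ range (2 * m), (1 : ℝ) := by
            refine (norm_sum_le _ _).trans (Finset.sum_le_sum fun r _ => ?_)
            rw [norm_mul, norm_ee, mul_one]
            simp only
            split_ifs <;> simp
        _ = _ := by rw [Finset.sum_const, Finset.card_range]; simp
    calc _ ≤ 1 / ((2 * m : ℕ) : ℝ) * ((2 * m : ℕ) : ℝ) :=
          mul_le_mul_of_nonneg_left h7 (by positivity)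
      _ = 1 := by field_simp
  have h1 : ∑ k ∈ range n,
      ‖fc (2 * m) (-(m : ℤ)) (fun z => if 0 ≤ z then 1 else 0) (k + 1)‖ ≤ 1 + Real.log n := by
    have h2 : ∀ k ∈ range n, ‖fc (2 * m) (-(m : ℤ)) (fun z => if 0 ≤ z then 1 else 0) (k + 1)‖ ≤
        (1 / 2) * (1 / ((k : ℝ) + 1)) + (1 / 2) * (1 / (((n - 1 - k : ℕ) : ℝ) + 1)) := by
      intro k hk
      rw [Finset.mem_range] at hk
      have h3 := fc_thr_le m hm1 (k + 1) (by omega) (by omega)
      refine h3.trans (le_of_eq ?_)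
      have h4 : ((2 * m : ℕ) : ℝ) - ((k + 1 : ℕ) : ℝ) = ((n - 1 - k : ℕ) : ℝ) + 1 := by
        rw [hn]
        have h5 : n = (n - 1 - k) + 1 + k := by omega
        have h6 : (n : ℝ) = ((n - 1 - k : ℕ) : ℝ) + 1 + k := by exact_mod_cast h5
        push_cast
        linarith
      rw [h4]
      push_cast
      field_simp
    have h5 : ∑ k ∈ range n, (1 / (((n - 1 - k : ℕ) : ℝ) + 1)) = ∑ k ∈ range n, (1 / ((k : ℝ) + 1)) :=
      Finset.sum_range_reflect (fun k => 1 / ((k : ℝ) + 1)) n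
    have h6 : ∑ k ∈ range n, (1 / ((k : ℝ) + 1)) ≤ 1 + Real.log n := by
      have h7 := harmonic_le_one_add_log n
      unfold harmonic at h7
      push_cast at h7
      simpa [one_div] using h7
    calc _ ≤ ∑ k ∈ range n, ((1 / 2) * (1 / ((k : ℝ) + 1)) +
          (1 / 2) * (1 / (((n - 1 - k : ℕ) : ℝ) + 1))) := Finset.sum_le_sum h2
      _ = ∑ k ∈ range n, (1 / ((k : ℝ) + 1)) := by
          rw [Finset.sum_add_distrib, ← Finset.mul_sum, ← Finset.mul_sum, h5]; ring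
      _ ≤ _ := h6
  have h2 : Real.log n ≤ K + 1 := by
    have h3 : (n : ℝ) ≤ 2 ^ (K + 1) := by
      have : n ≤ 2 ^ (K + 1) := by rw [pow_succ, ← hm]; omega
      exact_mod_cast this
    have hn0 : (0 : ℝ) < n := by
      have : 0 < n := by omega
      exact_mod_cast this
    calc Real.log n ≤ Real.log (2 ^ (K + 1)) := Real.log_le_log hn0 h3
      _ = (K + 1) * Real.log 2 := by rw [Real.log_pow]; push_cast; ring
      _ ≤ (K + 1) * 1 := mul_le_mul_of_nonneg_left (by linarith [Real.log_two_lt_d9]) (by positivity)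
      _ = _ := mul_one _
  rw [hn, Finset.sum_range_succ']
  rw [hn] at h0 h1
  linarith

variable {L : Type} [Fintype L] [DecidableEq L] {p : ℕ}

/-- threshold gates of the sum of integers known to the players -/
theorem Kc.thr (K : ℕ) (u : Fin p → Pt p L → ℤ) (hu : ∀ π, Ind π (u π))
    (h1 : ∀ x, |∑ π, u π x| < 2 ^ K) :
    Kc (K + 3) (fun x => if 0 ≤ ∑ π, u π x then 1 else 0) := by
  have h2 := Kc.four (2 * 2 ^ K) (by have : 1 ≤ 2 ^ K := Nat.one_le_two_pow; omega)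
    (-((2 ^ K : ℕ) : ℤ)) (fun z => if 0 ≤ z then 1 else 0) u hu
    (fun x => by
      have := (abs_lt.1 (h1 x)).1
      push_cast
      exact this.le)
    (fun x => by
      have := (abs_lt.1 (h1 x)).2
      push_cast
      linarith)
  exact h2.mono (sum_fc_thr K)

end Pool.Agent.H29.Nz
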