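import Mathlib

/-!
Generalised inner product and cylinder intersections (number on the forehead model).
-/

open Finset

namespace Pool.Agent.H29.Nz

set_option linter.unusedSectionVars false

variable {L : Type} [Fintype L] [DecidableEq L]

/-- inputs of p players -/
abbrev Pt (p : ℕ) (L : Type) := Fin p → L → Bool

/-- the function does not depend on the input of player π -/
def Ind {p : ℕ} {A : Type} (π : Fin p) (φ : Pt p L → A) : Prop :=
  ∀ x x', (∀ i, i ≠ π → x i = x' i) → φ x = φ x'

/-- the sign of the generalised inner product of the positions in S -/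
def sgs {p : ℕ} (S : Finset L) (x : Pt p L) : ℝ := ∏ l ∈ S, if ∀ i, x i l = true then -1 else 1

/-- the decay rates -/
noncomputable def rh : ℕ → ℝ
  | 0 => 0
  | p + 1 => Real.sqrt ((1 + rh p) / 2)

theorem rh_nonneg : ∀ p, 0 ≤ rh p
  | 0 => le_refl _
  | _ + 1 => Real.sqrt_nonneg _

theorem rh_lt_one : ∀ p, rh p < 1
  | 0 => by show (0 : ℝ) < 1; norm_num
  | p + 1 => by
    have h1 := rh_lt_one p
    show Real.sqrt ((1 + rh p) / 2) < 1
    rw [Real.sqrt_lt' one_pos]
    linarith

theorem rh_sq (p : ℕ) : rh (p + 1) ^ 2 = (1 + rh p) / 2 := by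
  show Real.sqrt ((1 + rh p) / 2) ^ 2 = _
  rw [Real.sq_sqrt]
  have := rh_nonneg p
  positivity

theorem sum_prod_bool {R : Type} [CommRing R] (h : L → Bool → R) :
    ∑ u : L → Bool, ∏ l, h l (u l) = ∏ l, (h l true + h l false) := by
  have h1 : ∀ l, h l true + h l false = ∑ b : Bool, h l b := by
    intro l
    rw [Fintype.sum_bool]
  simp only [h1]
  rw [Finset.prod_univ_sum]
  simp only [Fintype.piFinset_univ]

theorem sum_cons {p : ℕ} {A R : Type} [Fintype A] [AddCommMonoid R] (F : (Fin (p + 1) → A) → R) :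
    ∑ x, F x = ∑ x' : Fin p → A, ∑ u : A, F (Fin.cons u x') := by
  rw [← Fintype.sum_equiv (Fin.consEquiv (fun _ : Fin (p + 1) => A)) (fun q => F (Fin.cons q.1 q.2))
    F (fun _ => rfl), Fintype.sum_prod_type, Finset.sum_comm]

theorem sgs_mul {p : ℕ} (S : Finset L) (u v : L → Bool) (x : Pt p L) :
    sgs S (Fin.cons u x : Pt (p + 1) L) * sgs S (Fin.cons v x : Pt (p + 1) L) =
      sgs (S.filter (fun l => u l ≠ v l)) x := by
  unfold sgs
  rw [← Finset.prod_mul_distrib, Finset.prod_filter]
  apply Finset.prod_congr rfl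
  intro l _
  simp only [Fin.forall_fin_succ, Fin.cons_zero, Fin.cons_succ]
  by_cases hx : ∀ i, x i l = true
  · cases hu : u l <;> cases hv : v l <;> simp [hx]
  · simp [hx]

theorem sum_rh {p : ℕ} (S : Finset L) (u : L → Bool) :
    ∑ v : L → Bool, rh p ^ #(S.filter (fun l => u l ≠ v l)) =
      2 ^ Fintype.card L * ((1 + rh p) / 2) ^ #S := by
  let h : L → Bool → ℝ := fun l b => if l ∈ S then (if u l ≠ b then rh p else 1) else 1
  have h1 : ∀ v : L → Bool, rh p ^ #(S.filter (fun l => u l ≠ v l)) = ∏ l, h l (v l) := by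
    intro v
    rw [← Finset.prod_const, Finset.prod_filter]
    simp only [h]
    rw [Finset.prod_ite_mem, Finset.univ_inter]
  have h2 : ∀ l, h l true + h l false = 2 * (if l ∈ S then (1 + rh p) / 2 else 1) := by
    intro l
    simp only [h]
    by_cases hl : l ∈ S
    · rw [if_pos hl, if_pos hl, if_pos hl]
      cases hu : u l
      · rw [if_pos (by decide), if_neg (by decide)]; ring
      · rw [if_neg (by decide), if_pos (by decide)]; ring
    · rw [if_neg hl, if_neg hl, if_neg hl]; norm_num
  rw [Fintype.sum_congr _ _ h1, sum_prod_bool, Fintype.prod_congr _ _ h2]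
  rw [Finset.prod_mul_distrib, Finset.prod_const, Finset.prod_ite_mem, Finset.univ_inter,
    Finset.prod_const, Finset.card_univ]

theorem sum_sgs_one (S : Finset L) (hS : S.Nonempty) :
    ∑ u : L → Bool, ∏ l ∈ S, (if u l = true then (-1 : ℝ) else 1) = 0 := by
  let h : L → Bool → ℝ := fun l b => if l ∈ S then (if b = true then (-1 : ℝ) else 1) else 1
  have h1 : ∀ u : L → Bool, ∏ l ∈ S, (if u l = true then (-1 : ℝ) else 1) =
      ∏ l, h l (u l) := by
    intro u
    simp only [h]
    rw [Finset.prod_ite_mem, Finset.univ_inter]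
  rw [Fintype.sum_congr _ _ h1, sum_prod_bool]
  obtain ⟨l, hl⟩ := hS
  apply Finset.prod_eq_zero (Finset.mem_univ l)
  simp [h, hl]

/-- cylinder intersections are nearly orthogonal to the generalised inner product -/
theorem bns (p : ℕ) : ∀ (S : Finset L) (φ : Fin (p + 1) → Pt (p + 1) L → ℂ),
    (∀ π, Ind π (φ π)) → (∀ π x, ‖φ π x‖ ≤ 1) →
    ‖∑ x, ((sgs S x : ℝ) : ℂ) * ∏ π, φ π x‖ ≤ rh p ^ #S * (2 ^ Fintype.card L) ^ (p + 1) := by
  induction p with
  | zero =>
    intro S φ hφ hb
    have h1 : ∀ x : Pt 1 L, φ 0 x = φ 0 (fun _ _ => false) := by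
      intro x
      apply hφ 0
      intro i hi
      exact absurd (Fin.fin_one_eq_zero i) hi
    have h2 : ∑ x : Pt 1 L, ((sgs S x : ℝ) : ℂ) * ∏ π, φ π x =
        ((∑ x : Pt 1 L, sgs S x : ℝ) : ℂ) * φ 0 (fun _ _ => false) := by
      rw [Complex.ofReal_sum, Finset.sum_mul]
      apply Finset.sum_congr rfl
      intro x _
      rw [Fin.prod_univ_one, h1]
    have h3 : ∑ x : Pt 1 L, sgs S x = ∑ u : L → Bool, ∏ l ∈ S, (if u l = true then (-1 : ℝ) else 1) := by
      apply Fintype.sum_equiv (Equiv.funUnique (Fin 1) (L → Bool))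
      intro x
      unfold sgs
      apply Finset.prod_congr rfl
      intro l _
      simp only [Fin.forall_fin_one, Equiv.funUnique_apply, Fin.default_eq_zero]
    rw [h2, h3]
    rcases S.eq_empty_or_nonempty with rfl | hS
    · have h4 := hb 0 (fun _ _ => false)
      simp only [Finset.prod_empty, Finset.sum_const, Finset.card_univ, Fintype.card_fun,
        Fintype.card_bool, nsmul_eq_mul, mul_one, Finset.card_empty, pow_zero, one_mul, zero_add,
        pow_one]
      rw [norm_mul]
      have h5 : ‖(((2 ^ Fintype.card L : ℕ) : ℝ) : ℂ)‖ = (2 : ℝ) ^ Fintype.card L := by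
        rw [Complex.norm_real]
        push_cast
        rw [Real.norm_of_nonneg (by positivity)]
      rw [h5]
      calc (2 : ℝ) ^ Fintype.card L * ‖φ 0 (fun _ _ => false)‖ ≤ 2 ^ Fintype.card L * 1 :=
            mul_le_mul_of_nonneg_left h4 (by positivity)
        _ = _ := mul_one _
    · rw [sum_sgs_one S hS]
      simp only [Complex.ofReal_zero, zero_mul, norm_zero]
      have := rh_nonneg 0
      positivity
  | succ p ih =>
    intro S φ hφ hb
    set N : ℝ := (2 ^ Fintype.card L) ^ (p + 1) with hN
    let u₀ : L → Bool := fun _ => false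
    let Z : (L → Bool) → Pt (p + 1) L → ℂ := fun u x => ∏ i : Fin (p + 1), φ i.succ (Fin.cons u x)
    let A : Pt (p + 1) L → ℂ := fun x =>
      ∑ u : L → Bool, ((sgs S (Fin.cons u x : Pt (p + 2) L) : ℝ) : ℂ) * Z u x
    have h1 : ∑ x, ((sgs S x : ℝ) : ℂ) * ∏ π, φ π x =
        ∑ x' : Pt (p + 1) L, φ 0 (Fin.cons u₀ x') * A x' := by
      rw [sum_cons]
      apply Finset.sum_congr rfl
      intro x' _
      rw [Finset.mul_sum]
      apply Finset.sum_congr rfl
      intro u _
      rw [Fin.prod_univ_succ]
      have h2 : φ 0 (Fin.cons u x') = φ 0 (Fin.cons u₀ x') := by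
        apply hφ 0
        intro i hi
        obtain ⟨j, rfl⟩ := Fin.exists_succ_eq.2 hi
        rw [Fin.cons_succ, Fin.cons_succ]
      rw [h2]
      ring
    have hcardP : (Fintype.card (Pt (p + 1) L) : ℝ) = N := by
      rw [hN, Fintype.card_fun, Fintype.card_fun, Fintype.card_bool, Fintype.card_fin]
      push_cast; ring
    -- the square of the norms
    have h3 : ∑ x' : Pt (p + 1) L, ‖A x'‖ ^ 2 ≤
        2 ^ Fintype.card L * (2 ^ Fintype.card L * ((1 + rh p) / 2) ^ #S) * N := by
      have h4 : ((∑ x' : Pt (p + 1) L, ‖A x'‖ ^ 2 : ℝ) : ℂ) =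
          ∑ u : L → Bool, ∑ v : L → Bool, ∑ x' : Pt (p + 1) L,
            ((sgs (S.filter (fun l => u l ≠ v l)) x' : ℝ) : ℂ) *
              ∏ i : Fin (p + 1), (φ i.succ (Fin.cons u x') *
                (starRingEnd ℂ) (φ i.succ (Fin.cons v x'))) := by
        have h5 : ∀ x', ((‖A x'‖ ^ 2 : ℝ) : ℂ) = ∑ u : L → Bool, ∑ v : L → Bool,
            ((sgs (S.filter (fun l => u l ≠ v l)) x' : ℝ) : ℂ) *
              ∏ i : Fin (p + 1), (φ i.succ (Fin.cons u x') *
                (starRingEnd ℂ) (φ i.succ (Fin.cons v x'))) := by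
          intro x'
          rw [Complex.ofReal_pow, ← Complex.mul_conj']
          simp only [A]
          rw [map_sum, Finset.sum_mul_sum]
          apply Finset.sum_congr rfl
          intro u _
          apply Finset.sum_congr rfl
          intro v _
          rw [map_mul, Complex.conj_ofReal, Finset.prod_mul_distrib, ← sgs_mul]
          simp only [Z]
          rw [map_prod]
          push_cast
          ring
        rw [Complex.ofReal_sum]
        simp only [h5]
        rw [Finset.sum_comm]
        apply Finset.sum_congr rfl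
        intro u _
        exact Finset.sum_comm
      have h6 : ∑ x' : Pt (p + 1) L, ‖A x'‖ ^ 2 =
          ‖((∑ x' : Pt (p + 1) L, ‖A x'‖ ^ 2 : ℝ) : ℂ)‖ := by
        rw [Complex.norm_real, Real.norm_of_nonneg]
        exact Finset.sum_nonneg fun _ _ => by positivity
      rw [h6, h4]
      calc _ ≤ ∑ u : L → Bool, ∑ v : L → Bool, ‖∑ x' : Pt (p + 1) L,
            ((sgs (S.filter (fun l => u l ≠ v l)) x' : ℝ) : ℂ) *
              ∏ i : Fin (p + 1), (φ i.succ (Fin.cons u x') *
                (starRingEnd ℂ) (φ i.succ (Fin.cons v x')))‖ :=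
            (norm_sum_le _ _).trans (Finset.sum_le_sum fun u _ => norm_sum_le _ _)
        _ ≤ ∑ u : L → Bool, ∑ v : L → Bool, rh p ^ #(S.filter (fun l => u l ≠ v l)) * N := by
            apply Finset.sum_le_sum
            intro u _
            apply Finset.sum_le_sum
            intro v _
            apply ih
            · intro i x x' hxx
              have key : ∀ w : L → Bool, φ i.succ (Fin.cons w x) = φ i.succ (Fin.cons w x') := by
                intro w
                apply hφ i.succ
                intro j hj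
                refine Fin.cases ?_ (fun j' => ?_) j (motive := fun j => j ≠ i.succ →
                  (Fin.cons w x : Pt (p + 2) L) j = (Fin.cons w x' : Pt (p + 2) L) j) hj
                · intro _; rw [Fin.cons_zero, Fin.cons_zero]
                · intro hj'
                  rw [Fin.cons_succ, Fin.cons_succ]
                  apply hxx
                  intro h
                  exact hj' (by rw [h])
              show φ i.succ (Fin.cons u x) * (starRingEnd ℂ) (φ i.succ (Fin.cons v x)) =
                φ i.succ (Fin.cons u x') * (starRingEnd ℂ) (φ i.succ (Fin.cons v x'))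
              rw [key u, key v]
            · intro i x
              rw [norm_mul, RCLike.norm_conj]
              have := hb i.succ (Fin.cons u x)
              have := hb i.succ (Fin.cons v x)
              exact mul_le_one₀ (hb _ _) (norm_nonneg _) (hb _ _)
        _ = ∑ _u : L → Bool, (2 ^ Fintype.card L * ((1 + rh p) / 2) ^ #S) * N := by
            apply Finset.sum_congr rfl
            intro u _
            rw [← Finset.sum_mul, sum_rh]
        _ = _ := by
            rw [Finset.sum_const, Finset.card_univ, Fintype.card_fun, Fintype.card_bool,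
              nsmul_eq_mul]
            push_cast
            ring
    have h7 : ‖∑ x' : Pt (p + 1) L, φ 0 (Fin.cons u₀ x') * A x'‖ ≤
        ∑ x' : Pt (p + 1) L, ‖A x'‖ := by
      refine (norm_sum_le _ _).trans (Finset.sum_le_sum fun x' _ => ?_)
      rw [norm_mul]
      calc _ ≤ 1 * ‖A x'‖ := mul_le_mul_of_nonneg_right (hb _ _) (norm_nonneg _)
        _ = _ := one_mul _
    have h8 : (∑ x' : Pt (p + 1) L, ‖A x'‖) ^ 2 ≤ N * ∑ x' : Pt (p + 1) L, ‖A x'‖ ^ 2 := by
      have := sq_sum_le_card_mul_sum_sq (s := (univ : Finset (Pt (p + 1) L)))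
        (f := fun x' => ‖A x'‖)
      rw [Finset.card_univ, hcardP] at this
      exact this
    have hN0 : 0 ≤ N := by positivity
    have h9 : (∑ x' : Pt (p + 1) L, ‖A x'‖) ^ 2 ≤
        (rh (p + 1) ^ #S * (2 ^ Fintype.card L) ^ (p + 2)) ^ 2 := by
      calc _ ≤ N * ∑ x' : Pt (p + 1) L, ‖A x'‖ ^ 2 := h8
        _ ≤ N * (2 ^ Fintype.card L * (2 ^ Fintype.card L * ((1 + rh p) / 2) ^ #S) * N) :=
            mul_le_mul_of_nonneg_left h3 hN0
        _ = _ := by
            rw [mul_pow, ← pow_mul, mul_comm (#S) 2, pow_mul (rh (p + 1)), rh_sq, hN]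
            ring
    rw [h1]
    refine h7.trans ?_
    have hr := rh_nonneg (p + 1)
    exact (abs_le_of_sq_le_sq' h9 (by positivity)).2

end Pool.Agent.H29.Nz
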