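import Pool.Agent.H29.NzClique
import Pool.Agent.H29.NzNof

/-!
The generalised inner product as a clique problem.
-/

open Finset

namespace Pool.Agent.H29.Nz

set_option linter.unusedSectionVars false

variable {p q b r : ℕ}

/-- vertices: a possible value of a block of bits of a player; a possible value of the blocks of
all players with a running parity; universal vertices -/
abbrev VX (p q b r : ℕ) := (Fin p × Fin q × (Fin b → Bool)) ⊕
  ((Fin q × (Fin p → Fin b → Bool) × Bool) ⊕ Fin r)

/-- the blocks of vertices -/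
abbrev BX (p q r : ℕ) := (Fin p × Fin q) ⊕ (Fin q ⊕ Fin r)

/-- block of a vertex -/
def blk : VX p q b r → BX p q r
  | Sum.inl (i, j, _) => Sum.inl (i, j)
  | Sum.inr (Sum.inl (j, _, _)) => Sum.inr (Sum.inl j)
  | Sum.inr (Sum.inr m) => Sum.inr (Sum.inr m)

/-- parity of the number of positions where all strings are 1 -/
def dot (a : Fin p → Fin b → Bool) : Bool := decide (Odd #(univ.filter (fun t => ∀ i, a i t = true)))

/-- parities of initial segments -/
def pr (x : Pt p (Fin q × Fin b)) (j : ℕ) : Bool :=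
  decide (Odd #(univ.filter (fun l : Fin q × Fin b => (l.1 : ℕ) < j ∧ ∀ i, x i l = true)))

/-- start and end of the computation -/
def okv : VX p q b r → Prop
  | Sum.inr (Sum.inl (j, a, s)) => ((j : ℕ) = 0 → s = false) ∧
      ((j : ℕ) + 1 = q → Bool.xor s (dot a) = true)
  | _ => True

/-- consistency of two vertices -/
def rel (x : Pt p (Fin q × Fin b)) : VX p q b r → VX p q b r → Prop
  | Sum.inl (i, j, z), Sum.inl (i', _, _) => i = i' → ∀ t, z t = x i (j, t)
  | Sum.inl (i, j, z), Sum.inr (Sum.inl (j', a, _)) => j = j' → ∀ t, z t = a i t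
  | Sum.inr (Sum.inl (j, a, s)), Sum.inr (Sum.inl (j', _, s')) =>
      (j' : ℕ) = j + 1 → s' = Bool.xor s (dot a)
  | _, _ => True

/-- adjacency -/
def AdjX (x : Pt p (Fin q × Fin b)) (u v : VX p q b r) : Prop :=
  blk u ≠ blk v ∧ (okv u ∧ okv v) ∧ (rel x u v ∧ rel x v u)

theorem AdjX_symm (x : Pt p (Fin q × Fin b)) (u v : VX p q b r) : AdjX x u v ↔ AdjX x v u := by
  unfold AdjX
  constructor
  · rintro ⟨h1, h2, h3⟩; exact ⟨h1.symm, h2.symm, h3.symm⟩
  · rintro ⟨h1, h2, h3⟩; exact ⟨h1.symm, h2.symm, h3.symm⟩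

open Classical in
/-- the graph of the input x -/
noncomputable def HX (x : Pt p (Fin q × Fin b)) : Gr (VX p q b r) :=
  Sym2.lift ⟨fun u v => decide (AdjX x u v), fun u v => by
    rw [decide_eq_decide]; exact AdjX_symm x u v⟩

theorem HX_mk (x : Pt p (Fin q × Fin b)) (u v : VX p q b r) :
    HX x s(u, v) = true ↔ AdjX x u v := by
  classical
  unfold HX
  rw [Sym2.lift_mk]
  simp

theorem odd_add_decide (m n : ℕ) : decide (Odd (m + n)) = Bool.xor (decide (Odd m)) (decide (Odd n)) := by
  rw [Bool.eq_iff_iff, decide_eq_true_eq, Nat.odd_add]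
  by_cases hm : Odd m <;> by_cases hn : Odd n
  · simp [hm, hn]
  · simp [hm, hn, Nat.not_odd_iff_even.1 hn]
  · simp [hm, hn]
  · simp [hm, hn, Nat.not_odd_iff_even.1 hn]

theorem pr_zero (x : Pt p (Fin q × Fin b)) : pr x 0 = false := by
  unfold pr
  simp

theorem pr_succ (x : Pt p (Fin q × Fin b)) (j : Fin q) :
    pr x (j + 1) = Bool.xor (pr x j) (dot (fun i t => x i (j, t))) := by
  unfold pr dot
  rw [← odd_add_decide]
  congr 2
  have h1 : univ.filter (fun l : Fin q × Fin b => (l.1 : ℕ) < j + 1 ∧ ∀ i, x i l = true) =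
      univ.filter (fun l : Fin q × Fin b => (l.1 : ℕ) < j ∧ ∀ i, x i l = true) ∪
      (univ.filter (fun t : Fin b => ∀ i, x i (j, t) = true)).image (fun t => (j, t)) := by
    ext ⟨j', t⟩
    simp only [Finset.mem_filter, Finset.mem_univ, true_and, Finset.mem_union, Finset.mem_image,
      Prod.mk.injEq]
    constructor
    · rintro ⟨h2, h3⟩
      by_cases h4 : (j' : ℕ) < j
      · exact Or.inl ⟨h4, h3⟩
      · right
        have h5 : j' = j := Fin.ext (by omega)
        subst h5
        exact ⟨t, h3, rfl, rfl⟩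
    · rintro (⟨h2, h3⟩ | ⟨t', h3, rfl, rfl⟩)
      · exact ⟨by omega, h3⟩
      · exact ⟨by omega, h3⟩
  rw [h1, Finset.card_union_of_disjoint, Finset.card_image_of_injective]
  · intro t t' h
    exact (Prod.mk.inj h).2
  · rw [Finset.disjoint_left]
    intro l hl hl'
    obtain ⟨t, -, rfl⟩ := Finset.mem_image.1 hl'
    have := (Finset.mem_filter.1 hl).2.1
    simp only at this
    omega

theorem sgs_univ (x : Pt p (Fin q × Fin b)) :
    sgs univ x = if pr x q = true then -1 else 1 := by
  unfold sgs pr
  rw [Finset.prod_ite, Finset.prod_const_one, mul_one, Finset.prod_const]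
  have h1 : univ.filter (fun l : Fin q × Fin b => (l.1 : ℕ) < q ∧ ∀ i, x i l = true) =
      univ.filter (fun l : Fin q × Fin b => ∀ i, x i l = true) := by
    apply Finset.filter_congr
    intro l _
    simp
  rw [h1]
  by_cases h : Odd #(univ.filter (fun l : Fin q × Fin b => ∀ i, x i l = true))
  · rw [h.neg_one_pow, if_pos (decide_eq_true h)]
  · rw [(Nat.not_odd_iff_even.1 h).neg_one_pow, if_neg (by simpa using h)]

theorem clq_HX (hq : 2 ≤ q) (x : Pt p (Fin q × Fin b)) :
    Clq (p * q + q + r) (HX x : Gr (VX p q b r)) ↔ pr x q = true := by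
  classical
  have hcard : Fintype.card (BX p q r) = p * q + q + r := by
    simp [Fintype.card_sum, Fintype.card_prod]; ring
  constructor
  · rintro ⟨S, hS, hc⟩
    have hadj : ∀ u ∈ S, ∀ v ∈ S, blk u ≠ blk v → AdjX x u v := fun u hu v hv huv =>
      (HX_mk x u v).1 (hc u hu v hv (fun h => huv (by rw [h])))
    have hinj : Set.InjOn blk (S : Set (VX p q b r)) := by
      intro u hu v hv h
      by_contra hne
      exact ((HX_mk x u v).1 (hc u hu v hv hne)).1 h
    have himg : S.image blk = univ := by
      rw [← Finset.card_eq_iff_eq_univ, Finset.card_image_of_injOn hinj, hS, hcard]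
    have hex : ∀ β : BX p q r, ∃ v ∈ S, blk v = β := by
      intro β
      have : β ∈ S.image blk := by rw [himg]; exact Finset.mem_univ _
      exact Finset.mem_image.1 this
    -- the vertices of the groups
    have hgrp : ∀ (i : Fin p) (j : Fin q),
        (Sum.inl (i, j, fun t => x i (j, t)) : VX p q b r) ∈ S := by
      intro i j
      obtain ⟨v, hv, hvb⟩ := hex (Sum.inl (i, j))
      obtain ⟨j', hj'⟩ : ∃ j' : Fin q, j' ≠ j := by
        by_cases h0 : (j : ℕ) = 0
        · exact ⟨⟨1, by omega⟩, fun h => by rw [← h] at h0; simp at h0⟩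
        · exact ⟨⟨0, by omega⟩, fun h => h0 (by rw [← h])⟩
      obtain ⟨v', hv', hvb'⟩ := hex (Sum.inl (i, j'))
      have h1 := hadj v hv v' hv' (by
        rw [hvb, hvb']
        intro h
        exact hj' (Prod.mk.inj (Sum.inl.inj h)).2.symm)
      rcases v with ⟨i1, j1, z1⟩ | v
      · rcases v' with ⟨i2, j2, z2⟩ | v'
        · have e1 := Prod.mk.inj (Sum.inl.inj hvb)
          have e2 := Prod.mk.inj (Sum.inl.inj hvb')
          have h2 : z1 = fun t => x i1 (j1, t) := funext (h1.2.2.1 (e1.1.trans e2.1.symm))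
          rw [e1.1, e1.2] at h2
          rw [← h2, ← e1.1, ← e1.2]
          exact hv
        · rcases v' with ⟨_, _, _⟩ | _ <;> exact absurd hvb' (by simp [blk])
      · rcases v with ⟨_, _, _⟩ | _ <;> exact absurd hvb (by simp [blk])
    -- the checkers
    have hchk : ∀ j : Fin q, ∃ s, (Sum.inr (Sum.inl (j, (fun i t => x i (j, t)), s)) :
        VX p q b r) ∈ S := by
      intro j
      obtain ⟨v, hv, hvb⟩ := hex (Sum.inr (Sum.inl j))
      rcases v with ⟨i1, j1, z1⟩ | v
      · exact absurd hvb (by simp [blk])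
      · rcases v with ⟨j1, a, s⟩ | m
        · have e1 : j1 = j := Sum.inl.inj (Sum.inr.inj hvb)
          subst e1
          refine ⟨s, ?_⟩
          have h2 : a = fun i t => x i (j1, t) := by
            funext i t
            have h3 := hadj _ (hgrp i j1) _ hv (by simp [blk])
            exact (h3.2.2.1 rfl t).symm
          rw [← h2]
          exact hv
        · exact absurd hvb (by simp [blk])
    choose σ hσ using hchk
    have hok : ∀ j : Fin q, okv (Sum.inr (Sum.inl (j, (fun i t => x i (j, t)), σ j)) :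
        VX p q b r) := by
      intro j
      obtain ⟨j', hj'⟩ : ∃ j' : Fin q, j' ≠ j := by
        by_cases h0 : (j : ℕ) = 0
        · exact ⟨⟨1, by omega⟩, fun h => by rw [← h] at h0; simp at h0⟩
        · exact ⟨⟨0, by omega⟩, fun h => h0 (by rw [← h])⟩
      exact (hadj _ (hσ j) _ (hσ j') (by simp [blk]; exact fun h => hj' h.symm)).2.1.1
    have key : ∀ (j : ℕ) (hj : j < q), σ ⟨j, hj⟩ = pr x j := by
      intro j
      induction j with
      | zero => intro hj; rw [pr_zero]; exact (hok ⟨0, hj⟩).1 rfl
      | succ j ih =>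
        intro hj
        have h1 := hadj _ (hσ ⟨j, by omega⟩) _ (hσ ⟨j + 1, hj⟩) (by simp [blk])
        have h2 := h1.2.2.1 rfl
        have h3 := pr_succ x ⟨j, by omega⟩
        simp only at h3
        rw [h2, ih (by omega), h3]
    have h1 := (hok ⟨q - 1, by omega⟩).2 (by simp; omega)
    have h2 := pr_succ x ⟨q - 1, by omega⟩
    simp only at h2
    rw [key (q - 1) (by omega), ← h2, show q - 1 + 1 = q by omega] at h1
    exact h1
  · intro h
    let vt : BX p q r → VX p q b r := fun β => match β with
      | Sum.inl (i, j) => Sum.inl (i, j, fun t => x i (j, t))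
      | Sum.inr (Sum.inl j) => Sum.inr (Sum.inl (j, (fun i t => x i (j, t)), pr x j))
      | Sum.inr (Sum.inr m) => Sum.inr (Sum.inr m)
    have hvt : ∀ β, blk (vt β) = β := by
      intro β
      rcases β with ⟨i, j⟩ | j | m <;> rfl
    have hok : ∀ β, okv (vt β) := by
      intro β
      rcases β with ⟨i, j⟩ | j | m
      · trivial
      · refine ⟨fun h0 => ?_, fun h1 => ?_⟩
        · rw [h0, pr_zero]
        · rw [← pr_succ, h1]; exact h
      · trivial
    have hrel : ∀ β β', rel x (vt β) (vt β') := by
      intro β β'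
      rcases β with ⟨i, j⟩ | j | m <;> rcases β' with ⟨i', j'⟩ | j' | m'
      · intro _ t; rfl
      · intro hjj t; rw [hjj]
      · trivial
      · trivial
      · intro hjj
        rw [hjj, pr_succ]
      · trivial
      · trivial
      · trivial
      · trivial
    refine ⟨univ.image vt, ?_, ?_⟩
    · rw [Finset.card_image_of_injective _ (fun β β' h => by rw [← hvt β, h, hvt]),
        Finset.card_univ, hcard]
    · intro u hu v hv huv
      obtain ⟨β, -, rfl⟩ := Finset.mem_image.1 hu
      obtain ⟨β', -, rfl⟩ := Finset.mem_image.1 hv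
      rw [HX_mk]
      refine ⟨?_, ⟨hok _, hok _⟩, hrel _ _, hrel _ _⟩
      rw [hvt, hvt]
      rintro rfl
      exact huv rfl

/-- the group of a vertex -/
def grp : VX p q b r → Option (Fin p)
  | Sum.inl (i, _, _) => some i
  | _ => none

theorem rel_congr {x x' : Pt p (Fin q × Fin b)} {u v : VX p q b r}
    (h : ∀ i, grp u = some i → grp v = some i → x i = x' i) : rel x u v ↔ rel x' u v := by
  rcases u with ⟨i, j, z⟩ | ⟨j, a, s⟩ | m <;> rcases v with ⟨i', j', z'⟩ | ⟨j', a', s'⟩ | m'
  · show (i = i' → ∀ t, z t = x i (j, t)) ↔ (i = i' → ∀ t, z t = x' i (j, t))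
    by_cases hi : i = i'
    · subst hi
      rw [h i rfl rfl]
    · constructor <;> intro _ h' <;> exact absurd h' hi
  all_goals exact Iff.rfl

/-- a function of few vertices does not depend on some player -/
theorem jun_HX {W : ℕ} (hp : W < 2 * p) {φ : Gr (VX p q b r) → Bool} (h : Jun W φ) :
    ∃ π : Fin p, Ind π (fun x : Pt p (Fin q × Fin b) => φ (HX x)) := by
  classical
  obtain ⟨U, hU, hφ⟩ := h
  obtain ⟨π, hπ⟩ : ∃ π : Fin p, #(U.filter (fun u => grp u = some π)) ≤ 1 := by
    by_contra hcon
    push Not at hcon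
    have h1 : ∑ π : Fin p, 2 ≤ ∑ π : Fin p, #(U.filter (fun u => grp u = some π)) :=
      Finset.sum_le_sum fun π _ => hcon π
    have h2 : ∑ π : Fin p, #(U.filter (fun u => grp u = some π)) ≤ #U := by
      rw [← Finset.card_biUnion]
      · apply Finset.card_le_card
        intro u hu
        obtain ⟨π, -, hu⟩ := Finset.mem_biUnion.1 hu
        exact (Finset.mem_filter.1 hu).1
      · intro π _ π' _ hne
        show Disjoint _ _
        rw [Finset.disjoint_left]
        intro u hu hu'
        have e1 := (Finset.mem_filter.1 hu).2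
        have e2 := (Finset.mem_filter.1 hu').2
        rw [e1] at e2
        exact hne (Option.some.inj e2)
    rw [Finset.sum_const, Finset.card_univ, Fintype.card_fin, smul_eq_mul] at h1
    omega
  refine ⟨π, fun x x' hx => hφ _ _ ?_⟩
  intro e
  induction e using Sym2.ind with
  | _ u v =>
    intro he
    have hu := he u (Sym2.mem_mk_left u v)
    have hv := he v (Sym2.mem_mk_right u v)
    rw [Bool.eq_iff_iff, HX_mk, HX_mk]
    unfold AdjX
    by_cases huv : blk u = blk v
    · constructor <;> intro h' <;> exact absurd huv h'.1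
    · have hne : u ≠ v := fun h' => huv (by rw [h'])
      have hxx : ∀ i, grp u = some i → grp v = some i → x i = x' i := by
        intro i hiu hiv
        apply hx
        rintro rfl
        have h3 : ({u, v} : Finset (VX p q b r)) ⊆ U.filter (fun u => grp u = some i) := by
          intro w hw
          rw [Finset.mem_insert, Finset.mem_singleton] at hw
          rcases hw with rfl | rfl
          · exact Finset.mem_filter.2 ⟨hu, hiu⟩
          · exact Finset.mem_filter.2 ⟨hv, hiv⟩
        have h4 := Finset.card_le_card h3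
        rw [Finset.card_pair hne] at h4
        omega
      rw [rel_congr hxx, rel_congr (u := v) (v := u) (fun i h1 h2 => hxx i h2 h1)]

theorem card_VX (hb : 1 ≤ p) : Fintype.card (VX p q b r) ≤ (p * q + 2 * q + r) * 2 ^ (p * b) := by
  have h1 : Fintype.card (VX p q b r) = p * q * 2 ^ b + q * 2 ^ (p * b) * 2 + r := by
    simp only [Fintype.card_sum, Fintype.card_prod, Fintype.card_fun, Fintype.card_fin,
      Fintype.card_bool]
    rw [← pow_mul, mul_comm b p]
    ring
  have h2 : 2 ^ b ≤ 2 ^ (p * b) := Nat.pow_le_pow_right (by norm_num) (by nlinarith)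
  have h3 : 1 ≤ 2 ^ (p * b) := Nat.one_le_two_pow
  rw [h1]
  calc p * q * 2 ^ b + q * 2 ^ (p * b) * 2 + r ≤
        p * q * 2 ^ (p * b) + q * 2 ^ (p * b) * 2 + r * 2 ^ (p * b) := by
        have h4 : p * q * 2 ^ b ≤ p * q * 2 ^ (p * b) := Nat.mul_le_mul_left _ h2
        have h5 : r ≤ r * 2 ^ (p * b) := Nat.le_mul_of_pos_right _ h3
        omega
    _ = _ := by ring

end Pool.Agent.H29.Nz
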