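import Pool.Agent.H29.NzClique

/-!
Circuits with few special gates: the values of the special gates are guessed.
-/

open Finset

namespace Pool.Agent.H29.Nz

set_option linter.unusedSectionVars false

theorem exists_val {ι : Type} (lev : ι → ℕ) (R : ι → (ι → Bool) → Bool)
    (hR : ∀ i v v', (∀ j, lev j < lev i → v j = v' j) → R i v = R i v') :
    ∃ v : ι → Bool, ∀ i, v i = R i v := by
  classical
  -- values at level at most n after n + 1 rounds
  let u : ℕ → ι → Bool := fun n => Nat.rec (fun _ => false) (fun _ v i => R i v) n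
  have hu : ∀ n i, u (n + 1) i = R i (u n) := fun n i => rfl
  have hst : ∀ n i, lev i < n → ∀ m, n ≤ m → u m i = u n i := by
    intro n
    induction n with
    | zero => intro i hi; omega
    | succ n ih =>
      intro i hi m hm
      obtain ⟨m', rfl⟩ : ∃ m', m = m' + 1 := ⟨m - 1, by omega⟩
      rw [hu, hu]
      apply hR
      intro j hj
      rw [ih j (by omega) m' (by omega)]
  refine ⟨fun i => u (lev i + 1) i, fun i => ?_⟩
  show u (lev i + 1) i = _
  rw [hu]
  apply hR
  intro j hj
  show u (lev i) j = u (lev j + 1) j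
  exact hst (lev j + 1) j (by omega) (lev i) (by omega)

open Classical in
/-- the family of all gates under all guesses -/
theorem exists_guess {ι V : Type} {d w : ℕ} (lev : ι → ℕ) (hlev : ∀ i, lev i ≤ d)
    (sp : Finset ι) (fn : ι → Gr V → Bool)
    (hord : ∀ i, i ∉ sp → Jun w (fn i) ∨ ∃ (b : Bool) (T : Finset (ι × Bool)),
      (∀ x ∈ T, lev x.1 < lev i) ∧
        ∀ G, fn i G = Bool.xor b (decide (∃ x ∈ T, fn x.1 G = x.2))) :
    ∃ g : ({x // x ∈ sp} → Bool) → Gr V → ι → Bool,
      Sys d w (fun (p : ι × ({x // x ∈ sp} → Bool)) G => g p.2 G p.1) ∧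
      (∀ b G (x : {x // x ∈ sp}), g b G x = b x) ∧
      (∀ b G, (∀ x : {x // x ∈ sp}, fn x G = b x) → ∀ i, g b G i = fn i G) ∧
      (∀ φ : {x // x ∈ sp} → (ι → Bool) → Bool,
        (∀ (x : {x // x ∈ sp}) v v', (∀ j, lev j < lev x → v j = v' j) → φ x v = φ x v') →
        (∀ (x : {x // x ∈ sp}) G, fn x G = φ x (fun j => fn j G)) →
        ∀ b G, (∀ x : {x // x ∈ sp}, φ x (g b G) = b x) → ∀ i, g b G i = fn i G) := by
  -- description of the ordinary gates
  have hdesc : ∀ i, ∃ D : Option (Bool × Finset (ι × Bool)), i ∉ sp →
      match D with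
      | none => Jun w (fn i)
      | some (b, T) => (∀ x ∈ T, lev x.1 < lev i) ∧
        ∀ G, fn i G = Bool.xor b (decide (∃ x ∈ T, fn x.1 G = x.2)) := by
    intro i
    by_cases hi : i ∈ sp
    · exact ⟨none, fun h => absurd hi h⟩
    · rcases hord i hi with h | ⟨b, T, h⟩
      · exact ⟨none, fun _ => h⟩
      · exact ⟨some (b, T), fun _ => h⟩
  choose D hD using hdesc
  let R : ({x // x ∈ sp} → Bool) → Gr V → ι → (ι → Bool) → Bool := fun b G i v =>
    if h : i ∈ sp then b ⟨i, h⟩ else
      match D i with
      | none => fn i G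
      | some (c, T) => Bool.xor c (decide (∃ x ∈ T, v x.1 = x.2))
  have hR : ∀ b G i v v', (∀ j, lev j < lev i → v j = v' j) → R b G i v = R b G i v' := by
    intro b G i v v' h
    simp only [R]
    by_cases hi : i ∈ sp
    · rw [dif_pos hi, dif_pos hi]
    · rw [dif_neg hi, dif_neg hi]
      have hDi := hD i hi
      cases hDe : D i with
      | none => rfl
      | some p =>
        obtain ⟨c, T⟩ := p
        rw [hDe] at hDi
        simp only at hDi ⊢
        congr 1
        rw [decide_eq_decide]
        constructor
        · rintro ⟨x, hx, hx'⟩; exact ⟨x, hx, by rw [← h x.1 (hDi.1 x hx)]; exact hx'⟩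
        · rintro ⟨x, hx, hx'⟩; exact ⟨x, hx, by rw [h x.1 (hDi.1 x hx)]; exact hx'⟩
  have hex : ∀ b G, ∃ v : ι → Bool, ∀ i, v i = R b G i v := fun b G =>
    exists_val lev (R b G) (hR b G)
  choose g hg using hex
  -- the ordinary gates of fn follow the rules
  have hfn : ∀ b G i, i ∉ sp → fn i G = R b G i (fun j => fn j G) := by
    intro b G i hi
    simp only [R]
    rw [dif_neg hi]
    have hDi := hD i hi
    cases hDe : D i with
    | none => rfl
    | some p =>
      obtain ⟨c, T⟩ := p
      rw [hDe] at hDi
      simp only at hDi ⊢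
      exact hDi.2 G
  have hsp : ∀ b G (x : {x // x ∈ sp}), g b G x = b x := by
    intro b G x
    rw [hg]
    simp only [R]
    rw [dif_pos x.2]
  refine ⟨g, ?_, hsp, ?_, ?_⟩
  · refine ⟨fun p => lev p.1, fun p => hlev p.1, ?_⟩
    rintro ⟨i, b⟩
    by_cases hi : i ∈ sp
    · left
      have : (fun G => g b G i) = fun _ => b ⟨i, hi⟩ := by
        funext G; exact hsp b G ⟨i, hi⟩
      show Jun w (fun G => g b G i)
      rw [this]
      exact jun_const _ _
    · have hDi := hD i hi
      cases hDe : D i with
      | none =>
        left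
        rw [hDe] at hDi
        have : (fun G => g b G i) = fn i := by
          funext G
          rw [hg]
          simp only [R]
          rw [dif_neg hi, hDe]
        show Jun w (fun G => g b G i)
        rw [this]
        exact hDi
      | some p =>
        obtain ⟨c, T⟩ := p
        rw [hDe] at hDi
        simp only at hDi
        right
        refine ⟨c, T.image (fun x => ((x.1, b), x.2)), ?_, ?_⟩
        · intro x hx
          obtain ⟨y, hy, rfl⟩ := Finset.mem_image.1 hx
          exact hDi.1 y hy
        · intro G
          show g b G i = _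
          rw [hg]
          simp only [R]
          rw [dif_neg hi, hDe]
          simp only
          congr 1
          rw [decide_eq_decide]
          constructor
          · rintro ⟨x, hx, hx'⟩
            exact ⟨_, Finset.mem_image.2 ⟨x, hx, rfl⟩, hx'⟩
          · rintro ⟨x, hx, hx'⟩
            obtain ⟨y, hy, rfl⟩ := Finset.mem_image.1 hx
            exact ⟨y, hy, hx'⟩
  · intro b G hb
    have key : ∀ n i, lev i < n → g b G i = fn i G := by
      intro n
      induction n with
      | zero => intro i hi; omega
      | succ n ih =>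
        intro i hi
        by_cases his : i ∈ sp
        · rw [hsp b G ⟨i, his⟩]; exact (hb ⟨i, his⟩).symm
        · rw [hg, hfn b G i his]
          exact hR b G i (g b G) (fun j => fn j G) (fun j hj => ih j (by omega))
    exact fun i => key (lev i + 1) i (by omega)
  · intro φ hφ hφfn b G hb
    have key : ∀ n i, lev i < n → g b G i = fn i G := by
      intro n
      induction n with
      | zero => intro i hi; omega
      | succ n ih =>
        intro i hi
        by_cases his : i ∈ sp
        · rw [hsp b G ⟨i, his⟩, ← hb ⟨i, his⟩, hφfn ⟨i, his⟩ G]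
          apply hφ
          intro j hj
          exact ih j (by
            have : lev j < lev i := hj
            omega)
        · rw [hg, hfn b G i his]
          exact hR b G i (g b G) (fun j => fn j G) (fun j hj => ih j (by omega))
    exact fun i => key (lev i + 1) i (by omega)

/-- integer roots -/
theorem exists_root (E n : ℕ) (hE : 1 ≤ E) (hn : 1 ≤ n) : ∃ Q, Q ^ E ≤ n ∧ n < (Q + 1) ^ E := by
  have h1 : (Nat.findGreatest (fun q => q ^ E ≤ n) n) ^ E ≤ n :=
    Nat.findGreatest_spec (P := fun q => q ^ E ≤ n) (m := 1) (by omega) (by simpa using hn)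
  refine ⟨_, h1, ?_⟩
  by_contra hcon
  push Not at hcon
  have h2 : Nat.findGreatest (fun q => q ^ E ≤ n) n + 1 ≤ n := by
    refine le_trans ?_ hcon
    exact Nat.le_self_pow (by omega) _
  have := Nat.le_findGreatest (P := fun q => q ^ E ≤ n) h2 hcon
  omega

end Pool.Agent.H29.Nz
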