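import Mathlib

/-!
Small integer weights for linear threshold functions of Boolean variables (the method of Frank and
Tardos).
-/

open Finset

namespace Pool.Agent.H29.Nz

set_option linter.unusedSectionVars false

variable {ι : Type} [Fintype ι] [DecidableEq ι]

/-- simultaneous approximation -/
theorem dirichlet (w : ι → ℝ) (N : ℕ) (hN : 1 ≤ N) :
    ∃ q : ℕ, 1 ≤ q ∧ q ≤ N ^ Fintype.card ι ∧ ∃ v : ι → ℤ, ∀ i, |q * w i - v i| < 1 / N := by
  classical
  have hN0 : (0 : ℝ) < N := by exact_mod_cast hN
  let f : Fin (N ^ Fintype.card ι + 1) → (ι → Fin N) := fun q i =>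
    ⟨⌊(N : ℝ) * Int.fract ((q : ℕ) * w i)⌋₊, by
      rw [Nat.floor_lt (by have := Int.fract_nonneg ((q : ℕ) * w i); positivity)]
      have := Int.fract_lt_one ((q : ℕ) * w i)
      nlinarith⟩
  obtain ⟨a, b, hab, hf⟩ : ∃ a b, a ≠ b ∧ f a = f b := by
    apply Fintype.exists_ne_map_eq_of_card_lt
    rw [Fintype.card_fun, Fintype.card_fin, Fintype.card_fin]
    omega
  -- order them
  obtain ⟨a, b, hab, hf⟩ : ∃ a b : Fin (N ^ Fintype.card ι + 1), a < b ∧ f a = f b := by
    rcases lt_or_gt_of_ne hab with h | h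
    · exact ⟨a, b, h, hf⟩
    · exact ⟨b, a, h, hf.symm⟩
  have hab' : (a : ℕ) < b := hab
  refine ⟨(b : ℕ) - a, by omega, by have := b.2; omega,
    fun i => ⌊((b : ℕ) : ℝ) * w i⌋ - ⌊((a : ℕ) : ℝ) * w i⌋, fun i => ?_⟩
  have h1 : ⌊(N : ℝ) * Int.fract ((a : ℕ) * w i)⌋₊ = ⌊(N : ℝ) * Int.fract ((b : ℕ) * w i)⌋₊ := by
    have := congrArg (fun g => ((g i : Fin N) : ℕ)) hf
    exact this
  have ha0 : 0 ≤ (N : ℝ) * Int.fract ((a : ℕ) * w i) := by
    have := Int.fract_nonneg ((a : ℕ) * w i); positivity
  have hb0 : 0 ≤ (N : ℝ) * Int.fract ((b : ℕ) * w i) := by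
    have := Int.fract_nonneg ((b : ℕ) * w i); positivity
  have ha1 := Nat.floor_le ha0
  have ha2 := Nat.lt_floor_add_one ((N : ℝ) * Int.fract ((a : ℕ) * w i))
  have hb1 := Nat.floor_le hb0
  have hb2 := Nat.lt_floor_add_one ((N : ℝ) * Int.fract ((b : ℕ) * w i))
  rw [h1] at ha1 ha2
  have h2 : |(N : ℝ) * (Int.fract (((b : ℕ) : ℝ) * w i) - Int.fract (((a : ℕ) : ℝ) * w i))| < 1 := by
    rw [abs_lt]; constructor <;> nlinarith
  have h3 : (((b : ℕ) - a : ℕ) : ℝ) * w i - ((⌊((b : ℕ) : ℝ) * w i⌋ - ⌊((a : ℕ) : ℝ) * w i⌋ : ℤ) : ℝ) =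
      Int.fract (((b : ℕ) : ℝ) * w i) - Int.fract (((a : ℕ) : ℝ) * w i) := by
    rw [Nat.cast_sub hab'.le]
    unfold Int.fract
    push_cast
    ring
  rw [h3, lt_div_iff₀ hN0]
  rw [abs_mul, abs_of_pos hN0] at h2
  linarith

/-- a real vector can be replaced by an integer vector of bounded size without changing the sign
of the inner products with vectors over -1, 0, 1 -/
theorem int_approx (hs : 1 ≤ Fintype.card ι) : ∀ (z : ℕ) (w : ι → ℝ),
    #(univ.filter (fun i => w i ≠ 0)) ≤ z →
    ∃ v : ι → ℤ, (∀ i, |v i| + 1 ≤ (((Fintype.card ι + 1) ^ (Fintype.card ι + 1) : ℕ) : ℤ) ^ z) ∧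
      ∀ P : ι → ℤ, (∀ i, |P i| ≤ 1) → (0 ≤ ∑ i, w i * P i ↔ 0 ≤ ∑ i, v i * P i) := by
  intro z
  set s := Fintype.card ι with hsdef
  set D := (s + 1) ^ (s + 1) with hD
  have hD1 : 1 ≤ D := Nat.one_le_pow _ _ (by omega)
  induction z with
  | zero =>
    intro w hw
    have hw0 : ∀ i, w i = 0 := by
      intro i
      by_contra h
      have : i ∈ univ.filter (fun i => w i ≠ 0) := Finset.mem_filter.2 ⟨Finset.mem_univ _, h⟩
      rw [Nat.le_zero, Finset.card_eq_zero] at hw
      rw [hw] at this
      exact absurd this (Finset.notMem_empty _)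
    exact ⟨fun _ => 0, fun i => by simp, fun P _ => by simp [hw0]⟩
  | succ z ih =>
    intro w hw
    by_cases hall : ∀ i, w i = 0
    · refine ⟨fun _ => 0, fun i => ?_, fun P _ => by simp [hall]⟩
      simp only [abs_zero, zero_add]
      exact one_le_pow₀ (by exact_mod_cast hD1)
    push Not at hall
    obtain ⟨i1, hi1⟩ := hall
    obtain ⟨i0, -, hi0⟩ := Finset.exists_max_image univ (fun i => |w i|) ⟨i1, Finset.mem_univ _⟩
    set μ := |w i0| with hμ
    have hμ0 : 0 < μ := lt_of_lt_of_le (abs_pos.2 hi1) (hi0 i1 (Finset.mem_univ _))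
    let w1 : ι → ℝ := fun i => w i / μ
    have hw1 : ∀ i, |w1 i| ≤ 1 := by
      intro i
      simp only [w1]
      rw [abs_div, abs_of_pos hμ0, div_le_one hμ0]
      exact hi0 i (Finset.mem_univ _)
    have hw1i0 : |w1 i0| = 1 := by
      simp only [w1]
      rw [abs_div, abs_of_pos hμ0, ← hμ, div_self hμ0.ne']
    obtain ⟨q, hq1, hq2, v, hv⟩ := dirichlet w1 (s + 1) (by omega)
    have hNr : (1 : ℝ) / ((s + 1 : ℕ) : ℝ) ≤ 1 := by
      rw [div_le_one (by positivity)]; push_cast; linarith [Nat.cast_nonneg (α := ℝ) s]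
    have hq0 : (0 : ℝ) < q := by exact_mod_cast hq1
    -- the remainder
    let w2 : ι → ℝ := fun i => q * w1 i - v i
    have hint : ∀ i, (∃ n : ℤ, q * w1 i = n) → w2 i = 0 := by
      rintro i ⟨n, hn⟩
      have h1 := hv i
      rw [hn] at h1
      have h2 : |((n - v i : ℤ) : ℝ)| < 1 := by push_cast; linarith
      have h3 : |n - v i| < 1 := by exact_mod_cast h2
      have h4 : n - v i = 0 := Int.abs_lt_one_iff.1 h3
      show q * w1 i - v i = 0
      rw [hn]
      have : (n : ℝ) - v i = ((n - v i : ℤ) : ℝ) := by push_cast; ring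
      rw [this, h4]; simp
    have hw2 : #(univ.filter (fun i => w2 i ≠ 0)) ≤ z := by
      have h1 : univ.filter (fun i => w2 i ≠ 0) ⊆ (univ.filter (fun i => w i ≠ 0)).erase i0 := by
        intro i hi
        rw [Finset.mem_filter] at hi
        rw [Finset.mem_erase, Finset.mem_filter]
        refine ⟨?_, Finset.mem_univ _, ?_⟩
        · rintro rfl
          apply hi.2
          apply hint
          rcases abs_eq (zero_le_one (α := ℝ)) |>.1 hw1i0 with h | h
          · exact ⟨q, by rw [h]; push_cast; ring⟩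
          · exact ⟨-q, by rw [h]; push_cast; ring⟩
        · intro h
          apply hi.2
          apply hint
          refine ⟨0, ?_⟩
          simp only [w1]
          rw [h]; simp
      have h2 := Finset.card_le_card h1
      rw [Finset.card_erase_of_mem (Finset.mem_filter.2 ⟨Finset.mem_univ _, by
        intro h
        rw [hμ, h, abs_zero] at hμ0
        exact lt_irrefl _ hμ0⟩)] at h2
      omega
    obtain ⟨v2, hv2, hsgn⟩ := ih w2 hw2
    set C : ℤ := s * ((D : ℕ) : ℤ) ^ z with hC
    have hDz : (1 : ℤ) ≤ ((D : ℕ) : ℤ) ^ z := one_le_pow₀ (by exact_mod_cast hD1)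
    have hsz : (1 : ℤ) ≤ s := by exact_mod_cast hs
    have hC1 : 1 ≤ C := by rw [hC]; nlinarith
    have hvq : ∀ i, |v i| ≤ ((s + 1) ^ s : ℕ) := by
      intro i
      have h1 := hv i
      have h2 : |(v i : ℝ)| < q + 1 := by
        have h3 : |(v i : ℝ)| ≤ |q * w1 i - v i| + |q * w1 i| := by
          have := abs_sub_abs_le_abs_sub (v i : ℝ) (q * w1 i)
          rw [abs_sub_comm] at this
          linarith
        have h4 : |q * w1 i| ≤ q := by
          rw [abs_mul, abs_of_pos hq0]
          calc (q : ℝ) * |w1 i| ≤ q * 1 := mul_le_mul_of_nonneg_left (hw1 i) hq0.le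
            _ = q := mul_one _
        linarith
      have h3 : |v i| < q + 1 := by exact_mod_cast h2
      have h4 : (q : ℤ) ≤ ((s + 1) ^ s : ℕ) := by exact_mod_cast hq2
      omega
    refine ⟨fun i => C * v i + v2 i, fun i => ?_, fun P hP => ?_⟩
    · have h1 : |C * v i + v2 i| ≤ C * |v i| + |v2 i| := by
        calc _ ≤ |C * v i| + |v2 i| := abs_add_le _ _
          _ = _ := by rw [abs_mul, abs_of_pos (by omega)]
      have h2 := hv2 i
      have h3 : C * |v i| ≤ C * (((s + 1) ^ s : ℕ) : ℤ) :=
        mul_le_mul_of_nonneg_left (hvq i) (by omega)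
      have h4 : (s : ℤ) * (((s + 1) ^ s : ℕ) : ℤ) + 1 ≤ ((D : ℕ) : ℤ) := by
        have h5 : s * (s + 1) ^ s + 1 ≤ D := by
          rw [hD, pow_succ]
          have : 1 ≤ (s + 1) ^ s := Nat.one_le_pow _ _ (by omega)
          nlinarith
        exact_mod_cast h5
      calc |C * v i + v2 i| + 1 ≤ C * (((s + 1) ^ s : ℕ) : ℤ) + ((D : ℕ) : ℤ) ^ z := by linarith
        _ = ((D : ℕ) : ℤ) ^ z * ((s : ℤ) * (((s + 1) ^ s : ℕ) : ℤ) + 1) := by rw [hC]; ring
        _ ≤ ((D : ℕ) : ℤ) ^ z * ((D : ℕ) : ℤ) := mul_le_mul_of_nonneg_left h4 (by omega)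
        _ = _ := by rw [pow_succ]
    · set a : ℤ := ∑ i, v i * P i with ha
      have hPr : ∀ i, |(P i : ℝ)| ≤ 1 := fun i => by exact_mod_cast hP i
      -- the real side
      have h1 : q * (∑ i, w i * P i) = μ * ((a : ℝ) + ∑ i, w2 i * P i) := by
        rw [ha]
        push_cast
        rw [← Finset.sum_add_distrib, Finset.mul_sum, Finset.mul_sum]
        apply Finset.sum_congr rfl
        intro i _
        simp only [w2, w1]
        field_simp
        ring
      have h2 : |∑ i, w2 i * P i| < 1 := by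
        calc |∑ i, w2 i * P i| ≤ ∑ i, |w2 i * P i| := Finset.abs_sum_le_sum_abs _ _
          _ ≤ ∑ _i : ι, (1 : ℝ) / ((s + 1 : ℕ) : ℝ) := by
              apply Finset.sum_le_sum
              intro i _
              rw [abs_mul]
              calc |w2 i| * |(P i : ℝ)| ≤ |w2 i| * 1 :=
                    mul_le_mul_of_nonneg_left (hPr i) (abs_nonneg _)
                _ = |w2 i| := mul_one _
                _ ≤ _ := (hv i).le
          _ = s / ((s + 1 : ℕ) : ℝ) := by
              rw [Finset.sum_const, Finset.card_univ, ← hsdef, nsmul_eq_mul]; ring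
          _ < 1 := by
              rw [div_lt_one (by positivity)]; push_cast; linarith
      have h3 : (0 ≤ ∑ i, w i * P i) ↔ 0 ≤ (a : ℝ) + ∑ i, w2 i * P i := by
        constructor
        · intro h
          have h4 : 0 ≤ μ * ((a : ℝ) + ∑ i, w2 i * P i) := by rw [← h1]; positivity
          exact nonneg_of_mul_nonneg_right h4 hμ0
        · intro h
          have h4 : 0 ≤ (q : ℝ) * (∑ i, w i * P i) := by rw [h1]; positivity
          exact nonneg_of_mul_nonneg_right h4 hq0
      -- the integer side
      have h4 : ∑ i, (C * v i + v2 i) * P i = C * a + ∑ i, v2 i * P i := by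
        rw [ha, Finset.mul_sum, ← Finset.sum_add_distrib]
        apply Finset.sum_congr rfl
        intro i _
        ring
      have h5 : |∑ i, v2 i * P i| < C := by
        calc |∑ i, v2 i * P i| ≤ ∑ i, |v2 i * P i| := Finset.abs_sum_le_sum_abs _ _
          _ ≤ ∑ _i : ι, (((D : ℕ) : ℤ) ^ z - 1) := by
              apply Finset.sum_le_sum
              intro i _
              rw [abs_mul]
              have h6 := hv2 i
              calc |v2 i| * |P i| ≤ |v2 i| * 1 := mul_le_mul_of_nonneg_left (hP i) (abs_nonneg _)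
                _ ≤ _ := by linarith
          _ = s * (((D : ℕ) : ℤ) ^ z - 1) := by
              rw [Finset.sum_const, Finset.card_univ, ← hsdef, nsmul_eq_mul]
          _ < C := by rw [hC]; nlinarith
      rw [h3]
      simp only
      rw [h4]
      have h2' := abs_lt.1 h2
      have h5' := abs_lt.1 h5
      rcases lt_trichotomy a 0 with hneg | hzero | hpos
      · have h6 : (a : ℝ) ≤ -1 := by exact_mod_cast (by omega : a ≤ -1)
        constructor
        · intro h; linarith
        · intro h
          have : C * a ≤ C * (-1) := mul_le_mul_of_nonneg_left (by omega) (by omega)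
          linarith
      · rw [hzero, mul_zero]
        push_cast
        rw [zero_add, zero_add]
        exact hsgn P hP
      · have h6 : (1 : ℝ) ≤ a := by exact_mod_cast (by omega : 1 ≤ a)
        constructor
        · intro _
          have : C * 1 ≤ C * a := mul_le_mul_of_nonneg_left (by omega) (by omega)
          linarith
        · intro _; linarith

/-- threshold functions of s Boolean variables have integer weights with few bits -/
theorem thr_int (s : ℕ) (a : Fin s → ℝ) (θ : ℝ) : ∃ (b : Fin s → ℤ) (t : ℤ),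
    (∀ v : Fin s → Bool, |(∑ j, if v j = true then b j else 0) - t| < 2 ^ ((s + 2) ^ 3)) ∧
    ∀ v : Fin s → Bool, (θ ≤ ∑ j, if v j = true then a j else 0) ↔
      0 ≤ (∑ j, if v j = true then b j else 0) - t := by
  classical
  obtain ⟨v, hv, hP⟩ := int_approx (ι := Option (Fin s)) (by simp) (s + 1)
    (fun o => match o with
      | none => -θ
      | some j => a j) (by
        refine (Finset.card_le_univ _).trans ?_
        simp)
  have hcard : Fintype.card (Option (Fin s)) = s + 1 := by simp
  rw [hcard] at hv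
  have hsum : ∀ x : Fin s → Bool, (∑ j, if x j = true then v (some j) else 0) - (- v none) =
      ∑ o : Option (Fin s), v o * (match o with
        | none => 1
        | some j => if x j = true then 1 else 0) := by
    intro x
    rw [Fintype.sum_option]
    simp only [mul_one, mul_ite, mul_zero]
    ring
  refine ⟨fun j => v (some j), - v none, fun x => ?_, fun x => ?_⟩
  · rw [hsum]
    have h1 : |∑ o : Option (Fin s), v o * (match o with
        | none => 1
        | some j => if x j = true then 1 else 0)| ≤ ∑ o : Option (Fin s), |v o| := by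
      refine (Finset.abs_sum_le_sum_abs _ _).trans (Finset.sum_le_sum fun o _ => ?_)
      rw [abs_mul]
      apply mul_le_of_le_one_right (abs_nonneg _)
      cases o with
      | none => simp
      | some j => simp only; split_ifs <;> simp
    have h3 : ∑ o : Option (Fin s), |v o| < (s + 1) * ((((s + 1) + 1) ^ ((s + 1) + 1) : ℕ) : ℤ) ^ (s + 1) := by
      calc _ < ∑ _o : Option (Fin s), ((((s + 1) + 1) ^ ((s + 1) + 1) : ℕ) : ℤ) ^ (s + 1) := by
            apply Finset.sum_lt_sum_of_nonempty ⟨none, Finset.mem_univ _⟩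
            intro o _
            have := hv o
            omega
        _ = _ := by
            rw [Finset.sum_const, Finset.card_univ, hcard, nsmul_eq_mul]; push_cast; ring
    have h4 : (s + 1) * (((s + 1) + 1) ^ ((s + 1) + 1)) ^ (s + 1) ≤ 2 ^ ((s + 2) ^ 3) := by
      have h5 : s + 2 ≤ 2 ^ (s + 1) := by
        have := Nat.lt_two_pow_self (n := s + 1)
        omega
      calc (s + 1) * (((s + 1) + 1) ^ ((s + 1) + 1)) ^ (s + 1) ≤
            (s + 2) * ((s + 2) ^ (s + 2)) ^ (s + 1) := by gcongr; all_goals omega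
        _ = (s + 2) ^ ((s + 2) * (s + 1) + 1) := by rw [← pow_mul, pow_succ]; ring
        _ ≤ (2 ^ (s + 1)) ^ ((s + 2) * (s + 1) + 1) := Nat.pow_le_pow_left h5 _
        _ = 2 ^ ((s + 1) * ((s + 2) * (s + 1) + 1)) := by rw [← pow_mul]
        _ ≤ 2 ^ ((s + 2) ^ 3) := Nat.pow_le_pow_right (by norm_num) (by nlinarith)
    have h6 : ((s : ℤ) + 1) * ((((s + 1) + 1) ^ ((s + 1) + 1) : ℕ) : ℤ) ^ (s + 1) ≤
        2 ^ ((s + 2) ^ 3) := by exact_mod_cast h4
    linarith
  · rw [hsum]
    have h1 := hP (fun o => match o with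
        | none => 1
        | some j => if x j = true then 1 else 0) (by
          intro o
          cases o with
          | none => simp
          | some j => simp only; split_ifs <;> simp)
    rw [← h1, Fintype.sum_option]
    have h2 : (∑ j : Fin s, a j * (((if x j = true then 1 else 0 : ℤ)) : ℝ)) =
        ∑ j, if x j = true then a j else 0 := by
      apply Finset.sum_congr rfl
      intro j _
      split_ifs <;> simp
    simp only
    rw [h2]
    push_cast
    constructor <;> intro h <;> linarith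

end Pool.Agent.H29.Nz
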