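import Pool.Agent.H29.NzGip
import Pool.Agent.H29.NzFour
import Pool.Agent.H29.NzInt

/-!
Gates that are easy for the players, circuits with few easy gates, weighted majorities.
-/

open Finset

namespace Pool.Agent.H29.Nz

set_option linter.unusedSectionVars false

/-- the gate function is a short combination of cylinder intersections of its inputs, if every
input misses some player -/
def Easy (p : ℕ) {ι : Type} (Λ : ℝ) (φ : (ι → Bool) → Bool) : Prop :=
  ∀ (L : Type) [Fintype L] [DecidableEq L] (v : ι → Pt p L → Bool), (∀ j, ∃ π, Ind π (v j)) →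
    Kc Λ (fun y => if φ (fun j => v j y) = true then 1 else 0)

section split

variable {p : ℕ} {ι : Type} [Fintype ι] {L : Type} [Fintype L] [DecidableEq L]

/-- the part of the sum known to the player π -/
def part (pl : ι → Fin p) (v : ι → Pt p L → Bool) (a : ι → ℤ) (π : Fin p) (y : Pt p L) : ℤ :=
  ∑ j ∈ univ.filter (fun j => pl j = π), if v j y = true then a j else 0

theorem ind_part {pl : ι → Fin p} {v : ι → Pt p L → Bool} (h : ∀ j, Ind (pl j) (v j))
    (a : ι → ℤ) (π : Fin p) : Ind π (part pl v a π) := by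
  intro x x' hx
  unfold part
  apply Finset.sum_congr rfl
  intro j hj
  have hj' := (Finset.mem_filter.1 hj).2
  have := h j x x' (by rw [hj']; exact hx)
  rw [this]

theorem sum_part (pl : ι → Fin p) (v : ι → Pt p L → Bool) (a : ι → ℤ) (y : Pt p L) :
    ∑ π, part pl v a π y = ∑ j, if v j y = true then a j else 0 := by
  unfold part
  exact Finset.sum_fiberwise univ pl _

end split

theorem easy_sum {p s : ℕ} (B : ℕ) (a : Fin s → ℤ) (P : ℤ → Prop) (φ : (Fin s → Bool) → Bool)
    (ha : ∀ j, |a j| ≤ B) (hφ : ∀ v, φ v = true ↔ P (∑ j, if v j = true then a j else 0)) :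
    Easy p (2 * (s * B) + 1) φ := by
  classical
  intro L _ _ v hv
  choose pl hpl using hv
  have h1 := Kc.bounded (s * B) (fun z => if P z then 1 else 0) (fun z => by split_ifs <;> simp)
    (part pl v a) (ind_part hpl a) (fun x => by
      rw [sum_part]
      calc |∑ j, if v j x = true then a j else 0| ≤ ∑ j, |if v j x = true then a j else 0| :=
            Finset.abs_sum_le_sum_abs _ _
        _ ≤ ∑ _j : Fin s, (B : ℤ) := by
            apply Finset.sum_le_sum
            intro j _
            split_ifs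
            · exact ha j
            · simp
        _ = _ := by rw [Finset.sum_const, Finset.card_univ, Fintype.card_fin, nsmul_eq_mul]; push_cast; ring)
  push_cast at h1
  refine h1.congr ?_
  intro y
  rw [sum_part]
  by_cases h : P (∑ j, if v j y = true then a j else 0)
  · rw [if_pos h, if_pos ((hφ _).2 h)]
  · rw [if_neg h, if_neg (fun h' => h ((hφ _).1 h'))]

theorem easy_thr {p s : ℕ} (hp : 1 ≤ p) (a : Fin s → ℝ) (θ : ℝ) (φ : (Fin s → Bool) → Bool)
    (hφ : ∀ v, φ v = true ↔ θ ≤ ∑ j, if v j = true then a j else 0) :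
    Easy p ((s + 2) ^ 3 + 3) φ := by
  classical
  intro L _ _ v hv
  choose pl hpl using hv
  obtain ⟨b, t, hb, hbt⟩ := thr_int s a θ
  let π₀ : Fin p := ⟨0, by omega⟩
  let u : Fin p → Pt p L → ℤ := fun π y => part pl v b π y - (if π = π₀ then t else 0)
  have hu : ∀ y, ∑ π, u π y = (∑ j, if v j y = true then b j else 0) - t := by
    intro y
    simp only [u]
    rw [Finset.sum_sub_distrib, sum_part, Finset.sum_ite_eq' univ π₀]
    simp
  have h1 := Kc.thr ((s + 2) ^ 3) u (fun π x x' hx => by
      simp only [u]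
      rw [ind_part hpl b π x x' hx]) (fun y => by rw [hu]; exact hb _)
  push_cast at h1
  refine h1.congr ?_
  intro y
  rw [hu]
  by_cases h : 0 ≤ (∑ j, if v j y = true then b j else 0) - t
  · rw [if_pos h, if_pos ((hφ _).2 ((hbt (fun j => v j y)).2 h))]
  · rw [if_neg h, if_neg (fun h' => h ((hbt (fun j => v j y)).1 ((hφ _).1 h')))]

theorem Easy.mono {p : ℕ} {ι : Type} {Λ Λ' : ℝ} {φ : (ι → Bool) → Bool} (h : Λ ≤ Λ')
    (hφ : Easy p Λ φ) : Easy p Λ' φ := fun L _ _ v hv => (hφ L v hv).mono h

/-- the output of a circuit with few easy gates -/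
theorem circ_Kc {p : ℕ} {ι J : Type} [Fintype J] {L : Type} [Fintype L]
    [DecidableEq L] (e : J → ι) (g : (J → Bool) → Pt p L → ι → Bool) (r : Pt p L → ι → Bool)
    (o : ι) (hdep : ∀ b i, ∃ π, Ind π (fun y => g b y i))
    (h0 : ∀ b y x, g b y (e x) = b x)
    (h1 : ∀ b y, (∀ x : J, r y (e x) = b x) → ∀ i, g b y i = r y i)
    (φ : J → (ι → Bool) → Bool)
    (h2 : ∀ b y, (∀ x : J, φ x (g b y) = b x) → ∀ i, g b y i = r y i)
    (h3 : ∀ (x : J) y, r y (e x) = φ x (r y)) {Λ : ℝ} (hφ : ∀ x, Easy p Λ (φ x)) :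
    Kc ((2 * (Λ + 1)) ^ Fintype.card J) (fun y => if r y o = true then 1 else 0) := by
  classical
  -- certificates
  have hcert : ∀ (b : J → Bool) (x : J),
      Kc (Λ + 1) (fun y => if φ x (g b y) = b x then 1 else 0) := by
    intro b x
    have h4 := hφ x L (fun j y => g b y j) (hdep b)
    cases hb : b x
    · have h5 : Kc (‖(-1 : ℂ)‖ * Λ) (fun y => (-1 : ℂ) * if φ x (g b y) = true then 1 else 0) :=
        h4.smul (-1)
      have h6 := Kc.sum (κ := Bool) (Λ := fun c => if c then ‖(-1 : ℂ)‖ * Λ else 1)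
        (Ψ := fun c y => if c then (-1 : ℂ) * (if φ x (g b y) = true then 1 else 0) else 1)
        (fun c => by
          cases c
          · simpa using Kc.one
          · simpa using h5)
      rw [Fintype.sum_bool] at h6
      refine (h6.mono ?_).congr ?_
      · simp
      · intro y
        rw [Fintype.sum_bool]
        cases hc : φ x (g b y) <;> simp
    · refine h4.mono (by linarith)
  have hterm : ∀ b : J → Bool, Kc ((Λ + 1) ^ Fintype.card J)
      (fun y => (∏ x : J, if φ x (g b y) = b x then (1 : ℂ) else 0) *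
        (if g b y o = true then 1 else 0)) := by
    intro b
    obtain ⟨π, hπ⟩ := hdep b o
    have h4 := Kc.prod (univ : Finset J) (hcert b)
    rw [Finset.prod_const, Finset.card_univ] at h4
    have h5 : Kc 1 (fun y => if g b y o = true then (1 : ℂ) else 0) := by
      apply Kc.of_ind π
      · intro x x' hx
        have := hπ x x' hx
        simp only at this ⊢
        rw [this]
      · intro y; split_ifs <;> simp
    have h6 := h4.mul h5
    rw [mul_one] at h6
    exact h6
  have hsum := Kc.sum hterm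
  refine (hsum.mono (le_of_eq ?_)).congr ?_
  · rw [Finset.sum_const, Finset.card_univ, Fintype.card_fun, Fintype.card_bool, nsmul_eq_mul,
      mul_pow]
    push_cast
    ring
  · intro y
    have hbs : ∀ b : J → Bool, b ≠ (fun x => r y (e x)) →
        (∏ x : J, if φ x (g b y) = b x then (1 : ℂ) else 0) * (if g b y o = true then 1 else 0) = 0 := by
      intro b hb
      by_cases hall : ∀ x, φ x (g b y) = b x
      · exfalso
        apply hb
        funext x
        rw [← h2 b y hall (e x), h0]
      · push Not at hall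
        obtain ⟨x, hx⟩ := hall
        have : (∏ x : J, if φ x (g b y) = b x then (1 : ℂ) else 0) = 0 :=
          Finset.prod_eq_zero (Finset.mem_univ x) (if_neg hx)
        rw [this, zero_mul]
    rw [Finset.sum_eq_single (fun x => r y (e x)) (fun b _ hb => hbs b hb)
      (fun h => absurd (Finset.mem_univ _) h)]
    have h4 : ∀ i, g (fun x => r y (e x)) y i = r y i := h1 _ y (fun x => rfl)
    have h5 : g (fun x => r y (e x)) y = r y := funext h4
    rw [h5]
    have h6 : (∏ x : J, if φ x (r y) = (fun x => r y (e x)) x then (1 : ℂ) else 0) = 1 := by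
      apply Finset.prod_eq_one
      intro x _
      rw [if_pos (h3 x y).symm]
    rw [h6, one_mul]

/-- weighted majorities -/
theorem maj_core {p q b t : ℕ} (Λ : ℝ) (C : Fin t → Pt (p + 1) (Fin q × Fin b) → Bool)
    (hC : ∀ j, Kc Λ (fun x => if C j x = true then 1 else 0)) (w : Fin t → ℤ) (B : ℕ)
    (hw : ∀ j, |w j| ≤ B) (θ : ℤ)
    (h : ∀ x, θ ≤ (∑ j, if C j x = true then w j else 0) ↔ pr x q = true) (hΛ : 1 ≤ Λ) :
    1 / 2 ≤ ((2 * t * B + 2) * Λ) * rh p ^ (q * b) := by
  classical
  -- truncate the threshold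
  set R : ℤ := t * B with hR
  have hR0 : 0 ≤ R := by positivity
  have hSb : ∀ x, |∑ j, if C j x = true then w j else 0| ≤ R := by
    intro x
    calc |∑ j, if C j x = true then w j else 0| ≤ ∑ j, |if C j x = true then w j else 0| :=
          Finset.abs_sum_le_sum_abs _ _
      _ ≤ ∑ _j : Fin t, (B : ℤ) := by
          apply Finset.sum_le_sum
          intro j _
          split_ifs
          · exact hw j
          · simp
      _ = _ := by rw [Finset.sum_const, Finset.card_univ, Fintype.card_fin, nsmul_eq_mul]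
  obtain ⟨θ', hθ', hθ'2⟩ : ∃ θ' : ℤ, (∀ z : ℤ, |z| ≤ R → (θ ≤ z ↔ θ' ≤ z)) ∧ |θ'| ≤ R + 1 := by
    by_cases h1 : θ ≤ R + 1
    · by_cases h2 : -(R + 1) ≤ θ
      · exact ⟨θ, fun z _ => Iff.rfl, abs_le.2 ⟨h2, h1⟩⟩
      · refine ⟨-(R + 1), fun z hz => ?_, by rw [abs_neg, abs_of_nonneg (by omega)]⟩
        have := (abs_le.1 hz).1
        constructor <;> intro _ <;> omega
    · refine ⟨R + 1, fun z hz => ?_, by rw [abs_of_nonneg (by omega)]⟩
      have := (abs_le.1 hz).2
      constructor <;> intro _ <;> omega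
  set N : ℝ := (2 ^ Fintype.card (Fin q × Fin b)) ^ (p + 1) with hN
  have hNpos : 0 < N := by positivity
  have hcardP : (Fintype.card (Pt (p + 1) (Fin q × Fin b)) : ℝ) = N := by
    rw [hN, Fintype.card_fun, Fintype.card_fun, Fintype.card_bool, Fintype.card_fin]
    push_cast; ring
  set ρ : ℝ := rh p ^ (q * b) with hρ
  have hρ0 : 0 ≤ ρ := pow_nonneg (rh_nonneg p) _
  have hcardS : #(univ : Finset (Fin q × Fin b)) = q * b := by
    rw [Finset.card_univ, Fintype.card_prod, Fintype.card_fin, Fintype.card_fin]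
  -- correlations
  have hcor : ∀ j, |∑ x, sgs univ x * (if C j x = true then (1 : ℝ) else 0)| ≤ Λ * (ρ * N) := by
    intro j
    have h1 := (hC j).corr univ
    rw [hcardS] at h1
    have h2 : (∑ x, ((sgs univ x : ℝ) : ℂ) * (if C j x = true then (1 : ℂ) else 0)) =
        ((∑ x, sgs univ x * (if C j x = true then (1 : ℝ) else 0) : ℝ) : ℂ) := by
      rw [Complex.ofReal_sum]
      apply Finset.sum_congr rfl
      intro x _
      split_ifs <;> simp
    rw [h2, Complex.norm_real, Real.norm_eq_abs] at h1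
    exact h1
  have hone : |∑ x : Pt (p + 1) (Fin q × Fin b), sgs univ x| ≤ ρ * N := by
    have h1 := (Kc.one (p := p + 1) (L := Fin q × Fin b)).corr univ
    rw [hcardS, one_mul] at h1
    have h2 : (∑ x : Pt (p + 1) (Fin q × Fin b), ((sgs univ x : ℝ) : ℂ) * (1 : ℂ)) =
        ((∑ x : Pt (p + 1) (Fin q × Fin b), sgs univ x : ℝ) : ℂ) := by
      push_cast
      simp
    rw [h2, Complex.norm_real, Real.norm_eq_abs] at h1
    exact h1
  let D : Pt (p + 1) (Fin q × Fin b) → ℝ := fun x =>
    (∑ j, if C j x = true then (w j : ℝ) else 0) - θ' + 1 / 2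
  have hD : ∀ x, 1 / 2 ≤ -(sgs univ x * D x) := by
    intro x
    have h1 := h x
    rw [hθ' _ (hSb x)] at h1
    have hcast : ((∑ j, if C j x = true then w j else 0 : ℤ) : ℝ) =
        ∑ j, if C j x = true then (w j : ℝ) else 0 := by push_cast; rfl
    rw [sgs_univ]
    by_cases hx : pr x q = true
    · have h2 := h1.2 hx
      have h3 : (θ' : ℝ) ≤ ((∑ j, if C j x = true then w j else 0 : ℤ) : ℝ) := by exact_mod_cast h2
      rw [hcast] at h3
      rw [if_pos hx]
      simp only [D]
      linarith
    · have h2 : ¬ θ' ≤ ∑ j, if C j x = true then w j else 0 := fun h' => hx (h1.1 h')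
      have h3 : (∑ j, if C j x = true then w j else 0) ≤ θ' - 1 := by omega
      have h4 : ((∑ j, if C j x = true then w j else 0 : ℤ) : ℝ) ≤ θ' - 1 := by exact_mod_cast h3
      rw [hcast] at h4
      rw [if_neg hx]
      simp only [D]
      linarith
  have h1 : N / 2 ≤ -(∑ x, sgs univ x * D x) := by
    rw [← Finset.sum_neg_distrib]
    calc N / 2 = ∑ _x : Pt (p + 1) (Fin q × Fin b), (1 / 2 : ℝ) := by
          rw [Finset.sum_const, Finset.card_univ, nsmul_eq_mul, hcardP]; ring
      _ ≤ _ := Finset.sum_le_sum fun x _ => hD x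
  have h2 : ∑ x, sgs univ x * D x =
      (∑ j, (w j : ℝ) * (∑ x, sgs univ x * (if C j x = true then (1 : ℝ) else 0))) +
        (1 / 2 - (θ' : ℝ)) * (∑ x : Pt (p + 1) (Fin q × Fin b), sgs univ x) := by
    rw [Finset.mul_sum]
    simp only [Finset.mul_sum]
    rw [Finset.sum_comm, ← Finset.sum_add_distrib]
    apply Finset.sum_congr rfl
    intro x _
    simp only [D]
    have e1 : ∑ j, (w j : ℝ) * (sgs univ x * (if C j x = true then (1 : ℝ) else 0)) =
        sgs univ x * ∑ j, if C j x = true then (w j : ℝ) else 0 := by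
      rw [Finset.mul_sum]
      apply Finset.sum_congr rfl
      intro j _
      split_ifs <;> ring
    rw [e1]
    ring
  have h3 : |∑ x, sgs univ x * D x| ≤ ((2 * t * B + 2) * Λ) * (ρ * N) := by
    rw [h2]
    have e1 : |∑ j, (w j : ℝ) * ∑ x, sgs univ x * (if C j x = true then (1 : ℝ) else 0)| ≤
        (t * B) * (Λ * (ρ * N)) := by
      calc _ ≤ ∑ j, |(w j : ℝ) * ∑ x, sgs univ x * (if C j x = true then (1 : ℝ) else 0)| :=
            Finset.abs_sum_le_sum_abs _ _
        _ ≤ ∑ _j : Fin t, (B : ℝ) * (Λ * (ρ * N)) := by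
            apply Finset.sum_le_sum
            intro j _
            rw [abs_mul]
            have h4 : |(w j : ℝ)| ≤ B := by exact_mod_cast hw j
            exact mul_le_mul h4 (hcor j) (abs_nonneg _) (Nat.cast_nonneg _)
        _ = _ := by rw [Finset.sum_const, Finset.card_univ, Fintype.card_fin, nsmul_eq_mul]; ring
    have e2 : |(1 / 2 - (θ' : ℝ)) * ∑ x : Pt (p + 1) (Fin q × Fin b), sgs univ x| ≤
        (t * B + 2) * (ρ * N) := by
      rw [abs_mul]
      apply mul_le_mul _ hone (abs_nonneg _) (by positivity)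
      have h4 : |(θ' : ℝ)| ≤ t * B + 1 := by exact_mod_cast hθ'2
      have h5 := abs_le.1 h4
      rw [abs_le]
      constructor <;> linarith
    have hρN : 0 ≤ ρ * N := by positivity
    have hRr : (0 : ℝ) ≤ (t : ℝ) * B := by positivity
    calc _ ≤ _ := abs_add_le _ _
      _ ≤ (t * B) * (Λ * (ρ * N)) + (t * B + 2) * (ρ * N) := add_le_add e1 e2
      _ ≤ (t * B) * (Λ * (ρ * N)) + (t * B + 2) * (Λ * (ρ * N)) := by
          have : (t * B + 2 : ℝ) * (ρ * N) ≤ (t * B + 2) * (Λ * (ρ * N)) := by
            apply mul_le_mul_of_nonneg_left _ (by positivity)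
            calc ρ * N = 1 * (ρ * N) := (one_mul _).symm
              _ ≤ Λ * (ρ * N) := mul_le_mul_of_nonneg_right hΛ hρN
          linarith
      _ = _ := by ring
  have h4 : N / 2 ≤ ((2 * t * B + 2) * Λ) * (ρ * N) := by
    have := neg_le_abs (∑ x, sgs univ x * D x)
    linarith
  have h5 : (1 / 2) * N ≤ (((2 * t * B + 2) * Λ) * ρ) * N := by linarith
  exact le_of_mul_le_mul_right h5 hNpos

end Pool.Agent.H29.Nz
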