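import Mathlib

/-!
The average sensitivity of polynomial threshold functions of low degree.
-/

open Finset

namespace Pool.Agent.H29.Nz

set_option linter.unusedSectionVars false

variable {N : ℕ}

/-- the cube -/
abbrev Cb (N : ℕ) := Fin N → Bool

/-- flip of the i-th bit -/
def flp (i : Fin N) (x : Cb N) : Cb N := Function.update x i (!(x i))

theorem flp_flp (i : Fin N) : Function.Involutive (flp i) := by
  intro x
  unfold flp
  simp

theorem flp_of_ne {i j : Fin N} (h : j ≠ i) (x : Cb N) : flp i x j = x j := by
  unfold flp
  rw [Function.update_of_ne h]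

theorem flp_self (i : Fin N) (x : Cb N) : flp i x i = !(x i) := by
  unfold flp
  rw [Function.update_self]

/-- the sign of the i-th bit -/
def chi (i : Fin N) (x : Cb N) : ℝ := if x i then 1 else -1

theorem chi_flp_self (i : Fin N) (x : Cb N) : chi i (flp i x) = - chi i x := by
  unfold chi
  rw [flp_self]
  cases x i <;> simp

theorem chi_flp_ne {i j : Fin N} (h : j ≠ i) (x : Cb N) : chi j (flp i x) = chi j x := by
  unfold chi
  rw [flp_of_ne h]

theorem chi_sq (i : Fin N) (x : Cb N) : chi i x * chi i x = 1 := by
  unfold chi
  cases x i <;> simp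

theorem abs_chi (i : Fin N) (x : Cb N) : |chi i x| = 1 := by
  unfold chi
  cases x i <;> simp

/-- the discrete derivative -/
def der (i : Fin N) (p : Cb N → ℝ) (x : Cb N) : ℝ :=
  p (Function.update x i true) - p (Function.update x i false)

theorem der_flp (i : Fin N) (p : Cb N → ℝ) (x : Cb N) : der i p (flp i x) = der i p x := by
  unfold der flp
  simp

/-- polynomials of degree at most n -/
def Dg : ℕ → (Cb N → ℝ) → Prop
  | 0, p => ∀ x y, p x = p y
  | n + 1, p => ∀ i, Dg n (der i p)

/-- the sign function of p -/
noncomputable def sg (p : Cb N → ℝ) (x : Cb N) : ℝ := if 0 ≤ p x then 1 else -1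

theorem abs_sg (p : Cb N → ℝ) (x : Cb N) : |sg p x| = 1 := by
  unfold sg
  split_ifs <;> simp

theorem sg_sq (p : Cb N → ℝ) (x : Cb N) : sg p x * sg p x = 1 := by
  unfold sg
  split_ifs <;> simp

/-- number of sensitive edges in direction i (counted twice) -/
noncomputable def inf (i : Fin N) (F : Cb N → ℝ) : ℝ := ∑ x, |F x - F (flp i x)| / 2

theorem sum_flp (i : Fin N) (φ : Cb N → ℝ) : ∑ x, φ (flp i x) = ∑ x, φ x :=
  Fintype.sum_equiv (Function.Involutive.toPerm _ (flp_flp i)) _ _ (fun _ => rfl)

theorem sum_half (i : Fin N) (φ : Cb N → ℝ) : ∑ x, φ x = ∑ x, (φ x + φ (flp i x)) / 2 := by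
  rw [← Finset.sum_div, Finset.sum_add_distrib, sum_flp]
  ring

/-- the sign of the derivative is the direction of the change -/
theorem chi_sg (i : Fin N) (p : Cb N → ℝ) (x : Cb N) :
    chi i x * sg (der i p) x * (sg p x - sg p (flp i x)) = |sg p x - sg p (flp i x)| := by
  cases hx : x i
  · have h1 : Function.update x i false = x := by rw [← hx]; simp
    have h2 : flp i x = Function.update x i true := by unfold flp; rw [hx]; rfl
    rw [h2]
    unfold chi sg der
    rw [hx, h1]
    by_cases ha : 0 ≤ p x <;> by_cases hb : 0 ≤ p (Function.update x i true)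
    · simp [ha, hb]
    · have : ¬ 0 ≤ p (Function.update x i true) - p x := by push Not at hb ⊢; linarith
      simp [ha, hb, this]; norm_num
    · have : 0 ≤ p (Function.update x i true) - p x := by push Not at ha; linarith
      have h3 : p x ≤ p (Function.update x i true) := by linarith
      simp [ha, hb, h3]; norm_num
    · simp [ha, hb]
  · have h1 : Function.update x i true = x := by rw [← hx]; simp
    have h2 : flp i x = Function.update x i false := by unfold flp; rw [hx]; rfl
    rw [h2]
    unfold chi sg der
    rw [hx, h1]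
    by_cases ha : 0 ≤ p x <;> by_cases hb : 0 ≤ p (Function.update x i false)
    · simp [ha, hb]
    · have : 0 ≤ p x - p (Function.update x i false) := by push Not at hb; linarith
      have h3 : p (Function.update x i false) ≤ p x := by linarith
      simp [ha, hb, h3]; norm_num
    · have : ¬ 0 ≤ p x - p (Function.update x i false) := by push Not at ha ⊢; linarith
      simp [ha, hb, this]; norm_num
    · simp [ha, hb]

theorem sg_der_flp (i : Fin N) (p : Cb N → ℝ) (x : Cb N) :
    sg (der i p) (flp i x) = sg (der i p) x := by
  unfold sg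
  rw [der_flp]

theorem inf_eq (i : Fin N) (p : Cb N → ℝ) :
    inf i (sg p) = ∑ x, sg p x * (chi i x * sg (der i p) x) := by
  rw [sum_half i]
  unfold inf
  apply Finset.sum_congr rfl
  intro x _
  rw [← chi_sg, chi_flp_self, sg_der_flp]
  ring

theorem cross_le {i j : Fin N} (hij : i ≠ j) (p : Cb N → ℝ) :
    ∑ x, (chi i x * sg (der i p) x) * (chi j x * sg (der j p) x) ≤ inf j (sg (der i p)) := by
  rw [sum_half j]
  unfold inf
  apply Finset.sum_le_sum
  intro x _
  rw [chi_flp_self, sg_der_flp, chi_flp_ne hij]
  have h1 : (chi i x * sg (der i p) x * (chi j x * sg (der j p) x) +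
      chi i x * sg (der i p) (flp j x) * (-chi j x * sg (der j p) x)) =
      (chi i x * chi j x * sg (der j p) x) * (sg (der i p) x - sg (der i p) (flp j x)) := by
    ring
  rw [h1]
  apply div_le_div_of_nonneg_right _ (by norm_num)
  calc _ ≤ |(chi i x * chi j x * sg (der j p) x) * (sg (der i p) x - sg (der i p) (flp j x))| :=
        le_abs_self _
    _ = _ := by rw [abs_mul, abs_mul, abs_mul, abs_chi, abs_chi, abs_sg]; ring

/-- the bound for the average sensitivity -/
noncomputable def aS (N : ℕ) : ℕ → ℝ
  | 0 => 0
  | n + 1 => Real.sqrt (N + N * aS N n)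

theorem aS_nonneg (N : ℕ) : ∀ n, 0 ≤ aS N n
  | 0 => le_refl _
  | _ + 1 => Real.sqrt_nonneg _

theorem sens_le : ∀ (n : ℕ) (p : Cb N → ℝ), Dg n p → ∑ i, inf i (sg p) ≤ aS N n * 2 ^ N := by
  intro n
  induction n with
  | zero =>
    intro p hp
    have : ∀ i, inf i (sg p) = 0 := by
      intro i
      unfold inf
      apply Finset.sum_eq_zero
      intro x _
      have : sg p (flp i x) = sg p x := by unfold sg; rw [hp (flp i x) x]
      rw [this]; simp
    simp [this, aS]
  | succ n ih =>
    intro p hp
    have hinf : ∀ i (F : Cb N → ℝ), 0 ≤ inf i F := fun i F =>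
      Finset.sum_nonneg fun x _ => by positivity
    have h1 : ∑ i, inf i (sg p) = ∑ x, sg p x * ∑ i, chi i x * sg (der i p) x := by
      simp only [inf_eq]
      rw [Finset.sum_comm]
      apply Finset.sum_congr rfl
      intro x _
      rw [Finset.mul_sum]
    have h2 : ∑ x, (∑ i, chi i x * sg (der i p) x) ^ 2 ≤ (N + N * aS N n) * 2 ^ N := by
      have h3 : ∑ x : Cb N, (∑ i, chi i x * sg (der i p) x) ^ 2 =
          ∑ i, ∑ j, ∑ x : Cb N, (chi i x * sg (der i p) x) * (chi j x * sg (der j p) x) := by
        calc _ = ∑ x : Cb N, ∑ i, ∑ j, (chi i x * sg (der i p) x) * (chi j x * sg (der j p) x) := by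
              apply Finset.sum_congr rfl
              intro x _
              rw [sq, Finset.sum_mul_sum]
          _ = ∑ i, ∑ x : Cb N, ∑ j, (chi i x * sg (der i p) x) * (chi j x * sg (der j p) x) :=
              Finset.sum_comm
          _ = _ := by
              apply Finset.sum_congr rfl
              intro i _
              exact Finset.sum_comm
      rw [h3]
      have h4 : ∀ i : Fin N, ∑ j, ∑ x : Cb N, (chi i x * sg (der i p) x) *
          (chi j x * sg (der j p) x) ≤ 2 ^ N + aS N n * 2 ^ N := by
        intro i
        have h5 : ∀ j : Fin N, ∑ x : Cb N, (chi i x * sg (der i p) x) *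
            (chi j x * sg (der j p) x) ≤ (if j = i then (2 : ℝ) ^ N else 0) +
              inf j (sg (der i p)) := by
          intro j
          by_cases hj : j = i
          · subst hj
            rw [if_pos rfl]
            have h6 : ∑ x : Cb N, (chi j x * sg (der j p) x) * (chi j x * sg (der j p) x) =
                2 ^ N := by
              have h7 : ∀ x : Cb N, (chi j x * sg (der j p) x) * (chi j x * sg (der j p) x) = 1 := by
                intro x
                calc _ = (chi j x * chi j x) * (sg (der j p) x * sg (der j p) x) := by ring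
                  _ = 1 := by rw [chi_sq, sg_sq]; ring
              simp only [h7]
              simp
            rw [h6]
            have := hinf j (sg (der j p))
            linarith
          · rw [if_neg hj, zero_add]
            exact cross_le (Ne.symm hj) p
        calc _ ≤ ∑ j, ((if j = i then (2 : ℝ) ^ N else 0) + inf j (sg (der i p))) :=
              Finset.sum_le_sum fun j _ => h5 j
          _ = 2 ^ N + ∑ j, inf j (sg (der i p)) := by
              rw [Finset.sum_add_distrib, Finset.sum_ite_eq' univ i]
              simp
          _ ≤ _ := by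
              have := ih (der i p) (hp i)
              linarith
      calc _ ≤ ∑ _i : Fin N, ((2 : ℝ) ^ N + aS N n * 2 ^ N) := Finset.sum_le_sum fun i _ => h4 i
        _ = _ := by rw [Finset.sum_const, Finset.card_univ, Fintype.card_fin, nsmul_eq_mul]; ring
    rw [h1]
    have h3 : (∑ x, sg p x * ∑ i, chi i x * sg (der i p) x) ^ 2 ≤
        (aS N (n + 1) * 2 ^ N) ^ 2 := by
      calc _ ≤ (∑ x : Cb N, (sg p x) ^ 2) * ∑ x : Cb N, (∑ i, chi i x * sg (der i p) x) ^ 2 :=
            Finset.sum_mul_sq_le_sq_mul_sq _ _ _
        _ = 2 ^ N * ∑ x : Cb N, (∑ i, chi i x * sg (der i p) x) ^ 2 := by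
            have : ∀ x : Cb N, (sg p x) ^ 2 = 1 := fun x => by rw [sq, sg_sq]
            simp only [this]
            simp
        _ ≤ 2 ^ N * ((N + N * aS N n) * 2 ^ N) := mul_le_mul_of_nonneg_left h2 (by positivity)
        _ = _ := by
            rw [aS, mul_pow, Real.sq_sqrt]
            · ring
            · have := aS_nonneg N n
              positivity
    exact (abs_le_of_sq_le_sq' h3 (by
      have := aS_nonneg N (n + 1)
      positivity)).2

/-- the average sensitivity is sublinear -/
theorem aS_small (n : ℕ) : ∀ ε : ℝ, 0 < ε → ∃ N₀ : ℕ, ∀ N ≥ N₀, aS N n ≤ ε * N := by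
  induction n with
  | zero =>
    intro ε hε
    refine ⟨0, fun N _ => ?_⟩
    show (0 : ℝ) ≤ _
    positivity
  | succ n ih =>
    intro ε hε
    obtain ⟨N₀, hN₀⟩ := ih (ε ^ 2 / 2) (by positivity)
    obtain ⟨N₁, hN₁⟩ := exists_nat_ge (2 / ε ^ 2)
    refine ⟨max N₀ N₁, fun N hN => ?_⟩
    have h1 := hN₀ N ((le_max_left _ _).trans hN)
    have h2 : 2 / ε ^ 2 ≤ N := hN₁.trans (by exact_mod_cast (le_max_right _ _).trans hN)
    rw [aS, Real.sqrt_le_left (by positivity)]
    rw [div_le_iff₀ (by positivity)] at h2
    have hN0 : (0 : ℝ) ≤ N := Nat.cast_nonneg _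
    have h3 : (N : ℝ) * aS N n ≤ N * (ε ^ 2 / 2 * N) := mul_le_mul_of_nonneg_left h1 hN0
    have h4 : (N : ℝ) * 2 ≤ N * (N * ε ^ 2) := mul_le_mul_of_nonneg_left h2 hN0
    nlinarith

theorem Dg.zero_fun (n : ℕ) : Dg n (fun _ : Cb N => 0) := by
  induction n with
  | zero => intro _ _; rfl
  | succ n ih =>
    intro i
    have : der i (fun _ : Cb N => 0) = fun _ => 0 := by
      funext x; simp [der]
    rw [this]; exact ih

theorem Dg.add {n : ℕ} : ∀ {p q : Cb N → ℝ}, Dg n p → Dg n q → Dg n (fun x => p x + q x) := by
  induction n with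
  | zero => intro p q hp hq x y; show p x + q x = p y + q y; rw [hp x y, hq x y]
  | succ n ih =>
    intro p q hp hq i
    have : der i (fun x => p x + q x) = fun x => der i p x + der i q x := by
      funext x; simp only [der]; ring
    rw [this]; exact ih (hp i) (hq i)

theorem Dg.smul {n : ℕ} (a : ℝ) : ∀ {p : Cb N → ℝ}, Dg n p → Dg n (fun x => a * p x) := by
  induction n with
  | zero => intro p hp x y; show a * p x = a * p y; rw [hp x y]
  | succ n ih =>
    intro p hp i
    have : der i (fun x => a * p x) = fun x => a * der i p x := by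
      funext x; simp only [der]; ring
    rw [this]; exact ih (hp i)

theorem Dg.sum {ι : Type} {n : ℕ} (S : Finset ι) (p : ι → Cb N → ℝ) (h : ∀ j, Dg n (p j)) :
    Dg n (fun x => ∑ j ∈ S, p j x) := by
  classical
  induction S using Finset.induction_on with
  | empty => simpa using Dg.zero_fun n
  | insert j S hj ih =>
    have : (fun x => ∑ i ∈ insert j S, p i x) = fun x => p j x + ∑ i ∈ S, p i x := by
      funext x; rw [Finset.sum_insert hj]
    rw [this]
    exact (h j).add ih

/-- a function of few variables has small degree -/
theorem Dg.of_dep {n : ℕ} : ∀ {p : Cb N → ℝ} (S : Finset (Fin N)), #S ≤ n →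
    (∀ x y, (∀ i ∈ S, x i = y i) → p x = p y) → Dg n p := by
  induction n with
  | zero =>
    intro p S hS hp x y
    apply hp
    intro i hi
    rw [Nat.le_zero, Finset.card_eq_zero] at hS
    rw [hS] at hi
    exact absurd hi (Finset.notMem_empty _)
  | succ n ih =>
    intro p S hS hp i
    by_cases hi : i ∈ S
    · apply ih (S.erase i)
      · rw [Finset.card_erase_of_mem hi]; omega
      · intro x y hxy
        unfold der
        rw [hp (Function.update x i true) (Function.update y i true),
          hp (Function.update x i false) (Function.update y i false)]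
        · intro j hj
          by_cases hji : j = i
          · subst hji; simp
          · rw [Function.update_of_ne hji, Function.update_of_ne hji]
            exact hxy j (Finset.mem_erase.2 ⟨hji, hj⟩)
        · intro j hj
          by_cases hji : j = i
          · subst hji; simp
          · rw [Function.update_of_ne hji, Function.update_of_ne hji]
            exact hxy j (Finset.mem_erase.2 ⟨hji, hj⟩)
    · have : der i p = fun _ => 0 := by
        funext x
        unfold der
        rw [hp (Function.update x i true) (Function.update x i false), sub_self]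
        intro j hj
        have hji : j ≠ i := by rintro rfl; exact hi hj
        rw [Function.update_of_ne hji, Function.update_of_ne hji]
      rw [this]
      exact Dg.zero_fun n

end Pool.Agent.H29.Nz
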