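import Pool.Agent.H29.NzGuess
import Pool.Agent.H29.NzPtf

/-!
Parity as a clique problem.
-/

open Finset

namespace Pool.Agent.H29.Nz

set_option linter.unusedSectionVars false

variable {N : ℕ}

/-- the bits of y, followed by zeros -/
def ye (y : Cb N) (l : ℕ) : Bool := if h : l < N then y ⟨l, h⟩ else false

/-- parities of initial segments -/
def bp (y : Cb N) : ℕ → Bool
  | 0 => false
  | l + 1 => Bool.xor (bp y l) (ye y l)

theorem bp_flp (y : Cb N) (i : Fin N) (l : ℕ) :
    bp (flp i y) l = if (i : ℕ) < l then !(bp y l) else bp y l := by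
  induction l with
  | zero => simp [bp]
  | succ l ih =>
    rw [bp, bp, ih]
    unfold ye
    by_cases hl : l < N
    · rw [dif_pos hl, dif_pos hl]
      by_cases hli : (i : ℕ) = l
      · have : (⟨l, hl⟩ : Fin N) = i := Fin.ext hli.symm
        rw [this, flp_self, if_neg (by omega), if_pos (by omega)]
        cases bp y l <;> cases y i <;> rfl
      · have : (⟨l, hl⟩ : Fin N) ≠ i := fun h => hli (by rw [← h])
        rw [flp_of_ne this]
        by_cases h : (i : ℕ) < l
        · rw [if_pos h, if_pos (by omega)]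
          cases bp y l <;> cases y ⟨l, hl⟩ <;> rfl
        · rw [if_neg h, if_neg (by omega)]
    · rw [dif_neg hl, dif_neg hl]
      have hi := i.2
      rw [if_pos (by omega), if_pos (by omega)]
      cases bp y l <;> rfl

/-- start and end of the path -/
def okk (u : Fin (N + 1) × Bool) : Prop :=
  ((u.1 : ℕ) = 0 → u.2 = false) ∧ ((u.1 : ℕ) = N → u.2 = true)

/-- adjacency -/
def adjp (y : Cb N) (u v : Fin (N + 1) × Bool) : Prop :=
  u.1 ≠ v.1 ∧ (okk u ∧ okk v) ∧
    (((v.1 : ℕ) = u.1 + 1 → v.2 = Bool.xor u.2 (ye y u.1)) ∧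
      ((u.1 : ℕ) = v.1 + 1 → u.2 = Bool.xor v.2 (ye y v.1)))

theorem adjp_symm (y : Cb N) (u v : Fin (N + 1) × Bool) : adjp y u v ↔ adjp y v u := by
  unfold adjp
  constructor
  · rintro ⟨h1, h2, h3⟩; exact ⟨h1.symm, h2.symm, h3.symm⟩
  · rintro ⟨h1, h2, h3⟩; exact ⟨h1.symm, h2.symm, h3.symm⟩

open Classical in
/-- the graph whose cliques compute the parity -/
noncomputable def HG (y : Cb N) : Gr (Fin (N + 1) × Bool) :=
  Sym2.lift ⟨fun u v => decide (adjp y u v), fun u v => by
    rw [decide_eq_decide]; exact adjp_symm y u v⟩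

theorem HG_mk (y : Cb N) (u v : Fin (N + 1) × Bool) : HG y s(u, v) = true ↔ adjp y u v := by
  classical
  unfold HG
  rw [Sym2.lift_mk]
  simp

theorem clq_HG (hN : 1 ≤ N) (y : Cb N) : Clq (N + 1) (HG y) ↔ bp y N = true := by
  classical
  constructor
  · rintro ⟨S, hS, hc⟩
    have hadj : ∀ u ∈ S, ∀ v ∈ S, u ≠ v → adjp y u v := fun u hu v hv huv =>
      (HG_mk y u v).1 (hc u hu v hv huv)
    have hinj : Set.InjOn Prod.fst (S : Set (Fin (N + 1) × Bool)) := by
      intro u hu v hv h
      by_contra hne
      exact (hadj u hu v hv hne).1 h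
    have himg : S.image Prod.fst = univ := by
      rw [← Finset.card_eq_iff_eq_univ, Finset.card_image_of_injOn hinj, hS, Fintype.card_fin]
    have hex : ∀ l : Fin (N + 1), ∃ b, (l, b) ∈ S := by
      intro l
      have : l ∈ S.image Prod.fst := by rw [himg]; exact Finset.mem_univ _
      obtain ⟨u, hu, rfl⟩ := Finset.mem_image.1 this
      exact ⟨u.2, hu⟩
    choose β hβ using hex
    have hok : ∀ u ∈ S, okk u := by
      intro u hu
      obtain ⟨v, hv, hvu⟩ := Finset.exists_mem_ne (by omega : 1 < #S) u
      exact (hadj v hv u hu hvu).2.1.2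
    have key : ∀ (l : ℕ) (hl : l < N + 1), β ⟨l, hl⟩ = bp y l := by
      intro l
      induction l with
      | zero => intro hl; exact (hok _ (hβ ⟨0, hl⟩)).1 rfl
      | succ l ih =>
        intro hl
        have h1 := hadj _ (hβ ⟨l, by omega⟩) _ (hβ ⟨l + 1, hl⟩) (by
          intro h
          have := congrArg (fun z => (z.1 : ℕ)) h
          simp at this)
        have h2 := h1.2.2.1 rfl
        simp only at h2
        rw [h2, ih, bp]
    rw [← key N (by omega)]
    exact (hok _ (hβ ⟨N, by omega⟩)).2 rfl
  · intro h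
    refine ⟨univ.image (fun l : Fin (N + 1) => (l, bp y l)), ?_, ?_⟩
    · rw [Finset.card_image_of_injective _ (fun l l' h => (Prod.mk.inj h).1), Finset.card_univ,
        Fintype.card_fin]
    · intro u hu v hv huv
      obtain ⟨l, -, rfl⟩ := Finset.mem_image.1 hu
      obtain ⟨l', -, rfl⟩ := Finset.mem_image.1 hv
      rw [HG_mk]
      have hok : ∀ l : Fin (N + 1), okk (l, bp y l) := by
        intro l
        constructor
        · intro hl
          simp only at hl ⊢
          rw [hl]; rfl
        · intro hl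
          simp only at hl ⊢
          rw [hl]; exact h
      refine ⟨fun h => huv (by simp only at h; rw [h]), ⟨hok _, hok _⟩, ?_, ?_⟩
      · intro h'
        simp only at h' ⊢
        rw [h', bp]
      · intro h'
        simp only at h' ⊢
        rw [h', bp]

theorem jun_HG {W : ℕ} {φ : Gr (Fin (N + 1) × Bool) → Bool} (h : Jun W φ) :
    ∃ S : Finset (Fin N), #S ≤ W ∧ ∀ y y' : Cb N, (∀ i ∈ S, y i = y' i) → φ (HG y) = φ (HG y') := by
  classical
  obtain ⟨U, hU, hφ⟩ := h
  refine ⟨univ.filter (fun l : Fin N => ∃ u ∈ U, (u.1 : ℕ) = l), ?_, ?_⟩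
  · refine le_trans ?_ hU
    refine le_trans ?_ (Finset.card_image_le (s := U) (f := Prod.fst))
    rw [← Finset.card_image_of_injective _ (Fin.castSucc_injective N)]
    apply Finset.card_le_card
    intro l hl
    obtain ⟨l', hl', rfl⟩ := Finset.mem_image.1 hl
    obtain ⟨-, u, hu, hul⟩ := Finset.mem_filter.1 hl'
    rw [Finset.mem_image]
    exact ⟨u, hu, Fin.ext hul⟩
  · intro y y' hy
    apply hφ
    have hye : ∀ u ∈ U, ye y u.1 = ye y' u.1 := by
      intro u hu
      unfold ye
      by_cases hlt : (u.1 : ℕ) < N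
      · rw [dif_pos hlt, dif_pos hlt]
        apply hy
        exact Finset.mem_filter.2 ⟨Finset.mem_univ _, u, hu, rfl⟩
      · rw [dif_neg hlt, dif_neg hlt]
    intro e
    induction e using Sym2.ind with
    | _ u v =>
      intro he
      have hu := hye u (he u (Sym2.mem_mk_left u v))
      have hv := hye v (he v (Sym2.mem_mk_right u v))
      rw [Bool.eq_iff_iff, HG_mk, HG_mk]
      unfold adjp
      rw [hu, hv]

open Classical in
/-- few threshold gates of functions of few bits do not compute the parity -/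
theorem thr_core {ι J : Type} [Fintype ι] [Fintype J] (W : ℕ) (e : J → ι)
    (g : (J → Bool) → Cb N → ι → Bool) (r : Cb N → ι → Bool) (o : ι)
    (ho : ∀ y, r y o = bp y N)
    (hdep : ∀ b i, ∃ S : Finset (Fin N), #S ≤ W ∧
      ∀ y y' : Cb N, (∀ i ∈ S, y i = y' i) → g b y i = g b y' i)
    (h1 : ∀ b y, (∀ x : J, r y (e x) = b x) → ∀ i, g b y i = r y i)
    (φ : J → (ι → Bool) → Bool)
    (h2 : ∀ b y, (∀ x : J, φ x (g b y) = b x) → ∀ i, g b y i = r y i)
    (h3 : ∀ (x : J) y, r y (e x) = φ x (r y))
    (a : J → ι → ℝ) (θ : J → ℝ)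
    (h4 : ∀ x v, φ x v = true ↔ θ x ≤ ∑ j, if v j then a x j else 0) :
    (N : ℝ) - W ≤ 2 ^ Fintype.card J * Fintype.card J * aS N W := by
  let bs : Cb N → J → Bool := fun y x => r y (e x)
  let p : (J → Bool) → J → Cb N → ℝ := fun b x y => (∑ j, if g b y j then a x j else 0) + (-θ x)
  have hp : ∀ b x, Dg W (p b x) := by
    intro b x
    apply Dg.add
    · apply Dg.sum
      intro j
      obtain ⟨S, hS, hS'⟩ := hdep b j
      apply Dg.of_dep S hS
      intro y y' hyy
      rw [hS' y y' hyy]
    · apply Dg.of_dep ∅ (by simp)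
      intro _ _ _; rfl
  have hsg : ∀ b x y, sg (p b x) y = if φ x (g b y) then 1 else -1 := by
    intro b x y
    unfold sg
    by_cases h : φ x (g b y) = true
    · rw [if_pos h, if_pos]
      have := (h4 x _).1 h
      simp only [p]
      linarith
    · rw [if_neg h, if_neg]
      rw [h4] at h
      simp only [p]
      push Not at h
      intro h'
      linarith
  -- sensitive directions
  have hlow : ∀ y : Cb N, ((N : ℝ) - W) ≤ ∑ i : Fin N, if bs (flp i y) ≠ bs y then (1 : ℝ) else 0 := by
    intro y
    obtain ⟨S, hS, hS'⟩ := hdep (bs y) o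
    have h5 : ∀ i, i ∉ S → bs (flp i y) ≠ bs y := by
      intro i hi heq
      have h6 : r (flp i y) o = r y o := by
        rw [← h1 (bs y) y (fun x => rfl) o,
          ← h1 (bs y) (flp i y) (fun x => by rw [← heq]) o]
        apply hS'
        intro j hj
        rw [flp_of_ne]
        rintro rfl
        exact hi hj
      rw [ho, ho, bp_flp, if_pos i.2] at h6
      cases hb : bp y N <;> rw [hb] at h6 <;> exact absurd h6 (by decide)
    have h7 : ((N : ℝ) - W) ≤ ∑ i : Fin N, if i ∉ S then (1 : ℝ) else 0 := by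
      rw [Finset.sum_boole]
      have h8 := Finset.card_filter_add_card_filter_not (s := (univ : Finset (Fin N)))
        (fun i => i ∉ S)
      have h9 : #(univ.filter (fun i : Fin N => ¬ i ∉ S)) ≤ W := by
        refine le_trans (Finset.card_le_card ?_) hS
        intro i hi
        exact not_not.1 (Finset.mem_filter.1 hi).2
      rw [Finset.card_univ, Fintype.card_fin] at h8
      have h10 : N ≤ #(univ.filter (fun i : Fin N => i ∉ S)) + W := by omega
      have h11 : (N : ℝ) ≤ #(univ.filter (fun i : Fin N => i ∉ S)) + W := by exact_mod_cast h10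
      linarith
    refine h7.trans (Finset.sum_le_sum fun i _ => ?_)
    by_cases hi : i ∉ S
    · rw [if_pos hi, if_pos (h5 i hi)]
    · rw [if_neg hi]
      split_ifs <;> norm_num
  have hup : ∀ (y : Cb N) (i : Fin N), (if bs (flp i y) ≠ bs y then (1 : ℝ) else 0) ≤
      ∑ b : J → Bool, ∑ x : J, |sg (p b x) y - sg (p b x) (flp i y)| / 2 := by
    intro y i
    have hnn : ∀ (b : J → Bool) (x : J), 0 ≤ |sg (p b x) y - sg (p b x) (flp i y)| / 2 :=
      fun b x => by positivity
    by_cases h : bs (flp i y) ≠ bs y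
    · rw [if_pos h]
      obtain ⟨x, hx⟩ : ∃ x : J, φ x (g (bs y) (flp i y)) ≠ bs y x := by
        by_contra hcon
        push Not at hcon
        apply h
        funext x
        have h5 := h2 (bs y) (flp i y) hcon (e x)
        have h6 := hcon x
        show r (flp i y) (e x) = _
        rw [h3, ← h6]
        congr 1
        funext j
        exact (h2 (bs y) (flp i y) hcon j).symm
      have h5 : φ x (g (bs y) y) = bs y x := by
        show _ = r y (e x)
        rw [h3]
        congr 1
        funext j
        exact h1 (bs y) y (fun x => rfl) j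
      have h6 : (1 : ℝ) ≤ |sg (p (bs y) x) y - sg (p (bs y) x) (flp i y)| / 2 := by
        rw [hsg, hsg]
        rw [← h5] at hx
        cases h7 : φ x (g (bs y) (flp i y)) <;> cases h8 : φ x (g (bs y) y)
        · rw [h7, h8] at hx; exact absurd rfl hx
        · norm_num
        · norm_num
        · rw [h7, h8] at hx; exact absurd rfl hx
      calc (1 : ℝ) ≤ |sg (p (bs y) x) y - sg (p (bs y) x) (flp i y)| / 2 := h6
        _ ≤ ∑ x : J, |sg (p (bs y) x) y - sg (p (bs y) x) (flp i y)| / 2 :=
            Finset.single_le_sum (f := fun x => |sg (p (bs y) x) y - sg (p (bs y) x) (flp i y)| / 2)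
              (fun x _ => hnn (bs y) x) (Finset.mem_univ x)
        _ ≤ _ := Finset.single_le_sum
            (f := fun b => ∑ x : J, |sg (p b x) y - sg (p b x) (flp i y)| / 2)
              (fun b _ => Finset.sum_nonneg fun x _ => hnn b x) (Finset.mem_univ (bs y))
    · rw [if_neg h]
      exact Finset.sum_nonneg fun b _ => Finset.sum_nonneg fun x _ => hnn b x
  have htot : (2 : ℝ) ^ N * ((N : ℝ) - W) ≤ (2 ^ Fintype.card J * Fintype.card J * aS N W) * 2 ^ N := by
    calc (2 : ℝ) ^ N * ((N : ℝ) - W) = ∑ _y : Cb N, ((N : ℝ) - W) := by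
          rw [Finset.sum_const, Finset.card_univ, nsmul_eq_mul]; simp
      _ ≤ ∑ y : Cb N, ∑ i : Fin N, (if bs (flp i y) ≠ bs y then (1 : ℝ) else 0) :=
          Finset.sum_le_sum fun y _ => hlow y
      _ ≤ ∑ y : Cb N, ∑ i : Fin N,
          ∑ b : J → Bool, ∑ x : J, |sg (p b x) y - sg (p b x) (flp i y)| / 2 :=
          Finset.sum_le_sum fun y _ => Finset.sum_le_sum fun i _ => hup y i
      _ = ∑ b : J → Bool, ∑ x : J, ∑ i : Fin N, ∑ y : Cb N,
          |sg (p b x) y - sg (p b x) (flp i y)| / 2 := by
          rw [Finset.sum_comm]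
          have e1 : ∀ i : Fin N, ∑ y : Cb N, ∑ b : J → Bool, ∑ x : J,
              |sg (p b x) y - sg (p b x) (flp i y)| / 2 =
              ∑ b : J → Bool, ∑ x : J, ∑ y : Cb N, |sg (p b x) y - sg (p b x) (flp i y)| / 2 := by
            intro i
            rw [Finset.sum_comm]
            apply Finset.sum_congr rfl
            intro b _
            exact Finset.sum_comm
          simp only [e1]
          rw [Finset.sum_comm]
          apply Finset.sum_congr rfl
          intro b _
          exact Finset.sum_comm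
      _ = ∑ b : J → Bool, ∑ x : J, ∑ i : Fin N, inf i (sg (p b x)) := rfl
      _ ≤ ∑ _b : J → Bool, ∑ _x : J, aS N W * 2 ^ N :=
          Finset.sum_le_sum fun b _ => Finset.sum_le_sum fun x _ => sens_le W _ (hp b x)
      _ = _ := by
          rw [Finset.sum_const, Finset.sum_const, Finset.card_univ, Finset.card_univ,
            Fintype.card_fun, Fintype.card_bool, nsmul_eq_mul,
            nsmul_eq_mul]
          push_cast
          ring
  have h2N : (0 : ℝ) < 2 ^ N := by positivity
  have : ((N : ℝ) - W) * 2 ^ N ≤ (2 ^ Fintype.card J * Fintype.card J * aS N W) * 2 ^ N := by linarith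
  exact le_of_mul_le_mul_right this h2N

end Pool.Agent.H29.Nz
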