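import Pool.Agent.H29.NzMaj
import Pool.Agent.H29.NzArith

/-!
Parameters of the lower bound for weighted majorities of circuits with few special gates.
-/

open Finset

namespace Pool.Agent.H29.Nz

set_option linter.unusedSectionVars false

theorem Sys.sigma {V κ : Type} {ι : κ → Type} {d w : ℕ} (f : ∀ j, ι j → Gr V → Bool)
    (h : ∀ j, Sys d w (f j)) : Sys d w (fun (a : Σ j, ι j) => f a.1 a.2) := by
  classical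
  choose lab hlab hf using h
  refine ⟨fun a => lab a.1 a.2, fun a => hlab a.1 a.2, ?_⟩
  rintro ⟨j, i⟩
  rcases hf j i with h | ⟨b, T, hT, h⟩
  · exact Or.inl h
  · right
    refine ⟨b, T.image (fun x => (⟨j, x.1⟩, x.2)), ?_, ?_⟩
    · intro x hx
      obtain ⟨y, hy, rfl⟩ := Finset.mem_image.1 hx
      exact hT y hy
    · intro G
      show f j i G = _
      rw [h]
      congr 1
      rw [decide_eq_decide]
      constructor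
      · rintro ⟨x, hx, hx'⟩
        exact ⟨_, Finset.mem_image.2 ⟨x, hx, rfl⟩, hx'⟩
      · rintro ⟨x, hx, hx'⟩
        obtain ⟨y, hy, rfl⟩ := Finset.mem_image.1 hx
        exact ⟨y, hy, hx'⟩

theorem rh_pow (p : ℕ) : ∃ h : ℕ, 2 ≤ h ∧ rh p ^ h ≤ 1 / 2 := by
  obtain ⟨h, hh⟩ := exists_pow_lt_of_lt_one (by norm_num : (0 : ℝ) < 1 / 2) (rh_lt_one p)
  refine ⟨h + 2, by omega, ?_⟩
  have h0 := rh_nonneg p
  have h1 := (rh_lt_one p).le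
  calc rh p ^ (h + 2) ≤ rh p ^ h := pow_le_pow_of_le_one h0 h1 (by omega)
    _ ≤ _ := hh.le

theorem final_contra (p h E₀ c₁ q r b n Q K0 : ℕ) {ρ : ℝ} (hρ0 : 0 ≤ ρ) (hρ : ρ ^ h ≤ 1 / 2)
    (hq : q = h * (p * E₀ * c₁ + 1)) (hn : n < (Q + 1) ^ E₀) (hQ : Q < K0 * 2 ^ (p * (b + 1)))
    (hb : 2 * ((K0 * 2 ^ p) ^ E₀) ^ c₁ < 2 ^ b) : (n : ℝ) ^ c₁ * ρ ^ (q * b) < 1 / 2 := by
  have h1 : n ^ c₁ ≤ ((K0 * 2 ^ p) ^ E₀) ^ c₁ * 2 ^ (p * E₀ * c₁ * b) := by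
    calc n ^ c₁ ≤ ((K0 * 2 ^ (p * (b + 1))) ^ E₀) ^ c₁ := by
          apply Nat.pow_le_pow_left
          exact hn.le.trans (Nat.pow_le_pow_left hQ _)
      _ = ((K0 * 2 ^ p) ^ E₀) ^ c₁ * 2 ^ (p * E₀ * c₁ * b) := by
          have e1 : K0 * 2 ^ (p * (b + 1)) = (K0 * 2 ^ p) * 2 ^ (p * b) := by
            rw [mul_add, mul_one, pow_add]; ring
          have e2 : ((2 ^ (p * b)) ^ E₀) ^ c₁ = 2 ^ (p * E₀ * c₁ * b) := by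
            rw [← pow_mul, ← pow_mul]; congr 1; ring
          rw [e1, mul_pow (K0 * 2 ^ p), mul_pow ((K0 * 2 ^ p) ^ E₀), e2]
  have h2 : ρ ^ (q * b) ≤ (1 / 2) ^ ((p * E₀ * c₁ + 1) * b) := by
    rw [hq, mul_assoc, pow_mul]
    exact pow_le_pow_left₀ (pow_nonneg hρ0 _) hρ _
  have h3 : (n : ℝ) ^ c₁ ≤ (((K0 * 2 ^ p) ^ E₀ : ℕ) : ℝ) ^ c₁ * 2 ^ (p * E₀ * c₁ * b) := by
    exact_mod_cast h1
  have h4 : (0 : ℝ) ≤ ρ ^ (q * b) := pow_nonneg hρ0 _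
  have h5 : (2 : ℝ) * (((K0 * 2 ^ p) ^ E₀ : ℕ) : ℝ) ^ c₁ < 2 ^ b := by exact_mod_cast hb
  have h6 : (0 : ℝ) < 2 ^ b := by positivity
  calc (n : ℝ) ^ c₁ * ρ ^ (q * b) ≤
        ((((K0 * 2 ^ p) ^ E₀ : ℕ) : ℝ) ^ c₁ * 2 ^ (p * E₀ * c₁ * b)) *
          (1 / 2) ^ ((p * E₀ * c₁ + 1) * b) := mul_le_mul h3 h2 h4 (by positivity)
    _ = (((K0 * 2 ^ p) ^ E₀ : ℕ) : ℝ) ^ c₁ / 2 ^ b := by
        rw [add_mul, one_mul, pow_add, one_div, inv_pow, inv_pow]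
        field_simp
    _ < 1 / 2 := by
        rw [div_lt_iff₀ h6]
        linarith

theorem exists_b (K0 p Q b₀ : ℕ) (hp : 1 ≤ p) (hK0 : 1 ≤ K0) (hQ : K0 * 2 ^ (p * b₀) ≤ Q) :
    ∃ b, b₀ ≤ b ∧ K0 * 2 ^ (p * b) ≤ Q ∧ Q < K0 * 2 ^ (p * (b + 1)) := by
  have hmono : ∀ x : ℕ, x < K0 * 2 ^ (p * x) := by
    intro x
    have h1 : x < 2 ^ x := Nat.lt_two_pow_self
    have h2 : 2 ^ x ≤ 2 ^ (p * x) := Nat.pow_le_pow_right (by norm_num) (by nlinarith)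
    have h3 : 2 ^ (p * x) ≤ K0 * 2 ^ (p * x) := Nat.le_mul_of_pos_left _ hK0
    omega
  have hb₀ : b₀ ≤ Q := by
    have := hmono b₀
    omega
  refine ⟨Nat.findGreatest (fun b => K0 * 2 ^ (p * b) ≤ Q) Q, Nat.le_findGreatest hb₀ hQ,
    Nat.findGreatest_spec (P := fun b => K0 * 2 ^ (p * b) ≤ Q) hb₀ hQ, ?_⟩
  by_contra hcon
  push Not at hcon
  set b := Nat.findGreatest (fun b => K0 * 2 ^ (p * b) ≤ Q) Q with hb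
  have h1 : b + 1 ≤ Q := by
    have := hmono (b + 1)
    omega
  have := Nat.le_findGreatest (P := fun b => K0 * 2 ^ (p * b) ≤ Q) h1 hcon
  omega

theorem weight_bounds (c g n s t z : ℕ) (hn : 16 ≤ n) (hs : s ≤ n ^ c) (ht : t ≤ n ^ c)
    (hz : z ≤ g) :
    (((s : ℝ) + 2) ^ 3 + 3 ≤ (n : ℝ) ^ (3 * c + 4) / 2 - 1) ∧
    (2 * ((s : ℝ) * ((n ^ c : ℕ) : ℝ)) + 1 ≤ (n : ℝ) ^ (3 * c + 4) / 2 - 1) ∧
    (1 ≤ (n : ℝ) ^ ((3 * c + 4) * g)) ∧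
    ((2 * ((n : ℝ) ^ (3 * c + 4) / 2 - 1 + 1)) ^ z ≤ (n : ℝ) ^ ((3 * c + 4) * g)) ∧
    ((2 * (t : ℝ) * ((n ^ c : ℕ) : ℝ) + 2) * (n : ℝ) ^ ((3 * c + 4) * g) ≤
      (n : ℝ) ^ (2 * c + 1 + (3 * c + 4) * g)) := by
  have hnr : (16 : ℝ) ≤ n := by exact_mod_cast hn
  have hn1 : (1 : ℝ) ≤ n := by linarith
  have hsr : (s : ℝ) ≤ (n : ℝ) ^ c := by exact_mod_cast hs
  have htr : (t : ℝ) ≤ (n : ℝ) ^ c := by exact_mod_cast ht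
  have hc1 : (1 : ℝ) ≤ (n : ℝ) ^ c := one_le_pow₀ hn1
  have hc3 : (1 : ℝ) ≤ (n : ℝ) ^ (3 * c) := one_le_pow₀ hn1
  have h4 : (64 : ℝ) ≤ (n : ℝ) ^ 4 / 2 := by
    have : (16 : ℝ) ^ 4 ≤ (n : ℝ) ^ 4 := pow_le_pow_left₀ (by norm_num) hnr 4
    linarith
  have h34 : 64 * (n : ℝ) ^ (3 * c) ≤ (n : ℝ) ^ (3 * c + 4) / 2 := by
    rw [pow_add]
    have := mul_le_mul_of_nonneg_left h4 (by positivity : (0 : ℝ) ≤ (n : ℝ) ^ (3 * c))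
    linarith
  refine ⟨?_, ?_, one_le_pow₀ hn1, ?_, ?_⟩
  · have h5 : ((s : ℝ) + 2) ^ 3 ≤ (3 * (n : ℝ) ^ c) ^ 3 :=
      pow_le_pow_left₀ (by positivity) (by linarith) 3
    have h6 : (3 * (n : ℝ) ^ c) ^ 3 = 27 * (n : ℝ) ^ (3 * c) := by
      rw [mul_pow, ← pow_mul, mul_comm c 3]; norm_num
    linarith
  · push_cast
    have h5 : (s : ℝ) * (n : ℝ) ^ c ≤ (n : ℝ) ^ (3 * c) := by
      calc (s : ℝ) * (n : ℝ) ^ c ≤ (n : ℝ) ^ c * (n : ℝ) ^ c :=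
            mul_le_mul_of_nonneg_right hsr (by positivity)
        _ = (n : ℝ) ^ (c + c) := by rw [pow_add]
        _ ≤ _ := pow_le_pow_right₀ hn1 (by omega)
    linarith
  · have h5 : 2 * ((n : ℝ) ^ (3 * c + 4) / 2 - 1 + 1) = (n : ℝ) ^ (3 * c + 4) := by ring
    rw [h5, ← pow_mul]
    exact pow_le_pow_right₀ hn1 (Nat.mul_le_mul_left _ hz)
  · rw [pow_add (n : ℝ) (2 * c + 1)]
    apply mul_le_mul_of_nonneg_right _ (by positivity)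
    push_cast
    have h5 : (t : ℝ) * (n : ℝ) ^ c ≤ (n : ℝ) ^ (2 * c) := by
      calc (t : ℝ) * (n : ℝ) ^ c ≤ (n : ℝ) ^ c * (n : ℝ) ^ c :=
            mul_le_mul_of_nonneg_right htr (by positivity)
        _ = (n : ℝ) ^ (c + c) := by rw [pow_add]
        _ = _ := by congr 1; ring
    have h6 : (1 : ℝ) ≤ (n : ℝ) ^ (2 * c) := one_le_pow₀ hn1
    rw [pow_succ]
    nlinarith

end Pool.Agent.H29.Nz
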