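import Pool.Agent.H29.NzBasic
import Pool.Agent.H29.NzCount

/-!
One random restriction: a disjunction of functions of few vertices becomes a function of few
vertices.
-/

open Finset

namespace Pool.Agent.H29.Nz

set_option linter.unusedSectionVars false

theorem card_prod_filter {α β : Type*} [Fintype α] [Fintype β] (p : α × β → Prop)
    [DecidablePred p] :
    #(univ.filter p) = ∑ a, #(univ.filter (fun b => p (a, b))) := by
  simp only [Finset.card_filter, Fintype.sum_prod_type]

variable {X : Type} [Fintype X] [DecidableEq X] {M m : ℕ}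

/-- a pair is alive if both of its points are the selected points of their fibres -/
def Alv (a : X → Fin M) (e : Sym2 (X × Fin M)) : Prop := ∀ y ∈ e, y.2 = a y.1

open Classical in
/-- the graph H on the alive points, noise elsewhere -/
noncomputable def ext1 (a : X → Fin M) (R : Sym2 (X × Fin M) → Fin m) (H : Gr X) :
    Gr (X × Fin M) :=
  fun e => if Alv a e then H (e.map Prod.fst) else decide ((R e : ℕ) = 0)

theorem ext1_agree (a : X → Fin M) (R : Sym2 (X × Fin M) → Fin m) {S : Finset (X × Fin M)}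
    {U : Finset X} (hSU : ∀ x, (x, a x) ∈ S → x ∈ U) {H H' : Gr X} (h : Ag U H H') :
    Ag S (ext1 a R H) (ext1 a R H') := by
  classical
  intro e he
  unfold ext1
  by_cases hal : Alv a e
  · rw [if_pos hal, if_pos hal]
    apply h
    intro v hv
    rw [Sym2.mem_map] at hv
    obtain ⟨y, hy, rfl⟩ := hv
    apply hSU
    have h1 := hal y hy
    rw [← h1]
    exact he y hy
  · rw [if_neg hal, if_neg hal]

/-- some function is made true by the noise -/
def GoodE {ι : Type} (U : ι → Finset (X × Fin M)) (f : ι → Gr (X × Fin M) → Bool)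
    (a : X → Fin M) (R : Sym2 (X × Fin M) → Fin m) (C : Finset (X × Fin M))
    (P : Finset (Sym2 (X × Fin M))) : Prop :=
  ∃ j, (∀ y ∈ U j \ C, y.2 ≠ a y.1) ∧ ∀ G, Ag C G (pat P) →
    (∀ e : Sym2 (X × Fin M), (∀ v ∈ e, v ∈ U j) → ¬ (∀ v ∈ e, v ∈ C) →
      G e = decide ((R e : ℕ) = 0)) → f j G = true

theorem jun_of_good {ι : Type} [Fintype ι] [DecidableEq ι] {U : ι → Finset (X × Fin M)}
    {f : ι → Gr (X × Fin M) → Bool} {w K t : ℕ} (hU : ∀ j, #(U j) ≤ w)
    (hf : ∀ j G G', Ag (U j) G G' → f j G = f j G')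
    {hs : Finset (X × Fin M) → Finset (Sym2 (X × Fin M)) → Finset (X × Fin M)}
    (hhit : ∀ C P, ¬ Sat U f K C P → ∀ j, Tc U f C P j → U j ⊆ C ∨ ∃ x ∈ U j \ C, x ∈ hs C P)
    (a : X → Fin M) (R : Sym2 (X × Fin M) → Fin m)
    (hal : #(univ.filter (fun x => (x, a x) ∈ Dk hs (w + 1) ∅)) ≤ t)
    (hgood : ∀ C P, #C ≤ w → P ⊆ C.sym2 → Sat U f K C P → GoodE U f a R C P) :
    Jun t (fun H => decide (∃ j, f j (ext1 a R H) = true)) := by
  classical
  refine ⟨_, hal, ?_⟩
  have key : ∀ H H', Ag (univ.filter (fun x => (x, a x) ∈ Dk hs (w + 1) ∅)) H H' →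
      (∃ j, f j (ext1 a R H) = true) → ∃ j, f j (ext1 a R H') = true := by
    rintro H H' hH ⟨j, hj⟩
    have hAg : Ag (Dk hs (w + 1) ∅) (ext1 a R H) (ext1 a R H') :=
      ext1_agree a R (fun x hx => by simpa using hx) hH
    refine walk hf hhit hAg ?_ (hU j) hj w ∅ (Finset.empty_subset _) (Finset.empty_subset _)
      (by simpa using hU j) (Finset.Subset.refl _)
    intro C P hC hP hsat hCP
    obtain ⟨j', hj'1, hj'2⟩ := hgood C P hC hP hsat
    refine ⟨j', hj'2 _ hCP ?_⟩
    intro e he heC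
    unfold ext1
    rw [if_neg]
    intro hal'
    push Not at heC
    obtain ⟨v, hv, hvC⟩ := heC
    exact hj'1 v (Finset.mem_sdiff.2 ⟨he v hv, hvC⟩) (hal' v hv)
  intro H H' hH
  rw [decide_eq_decide]
  exact ⟨key H H' hH, key H' H hH.symm⟩

open Classical in
theorem count_bad {ι : Type} [Fintype ι] [DecidableEq ι] {U : ι → Finset (X × Fin M)}
    {f : ι → Gr (X × Fin M) → Bool} {w K1 : ℕ} (hU : ∀ j, #(U j) ≤ w)
    (hf : ∀ j G G', Ag (U j) G G' → f j G = f j G') (hm : 2 ≤ m) (a : X → Fin M)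
    {C : Finset (X × Fin M)} {P : Finset (Sym2 (X × Fin M))}
    (hsat : Sat U f (Fintype.card X + K1) C P) :
    (#(univ.filter (fun R : Sym2 (X × Fin M) → Fin m => ¬ GoodE U f a R C P)) : ℝ) ≤
      (1 - (1 / m : ℝ) ^ (w ^ 2)) ^ K1 * Fintype.card (Sym2 (X × Fin M) → Fin m) := by
  classical
  obtain ⟨S, hS, hT, hdisj⟩ := hsat
  set S1 := S.filter (fun j => ∀ y ∈ U j \ C, y.2 ≠ a y.1) with hS1
  -- few petals contain alive points
  have h1 : #(S.filter (fun j => ¬ ∀ y ∈ U j \ C, y.2 ≠ a y.1)) ≤ Fintype.card X := by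
    have hex : ∀ j : {j // j ∈ S.filter (fun j => ¬ ∀ y ∈ U j \ C, y.2 ≠ a y.1)},
        ∃ y : X × Fin M, y ∈ U j.1 \ C ∧ y.2 = a y.1 := by
      intro j
      have := (Finset.mem_filter.1 j.2).2
      push Not at this
      obtain ⟨y, hy, hy'⟩ := this
      exact ⟨y, hy, hy'⟩
    choose y hy using hex
    rw [← Fintype.card_coe]
    apply Fintype.card_le_of_injective (fun j => (y j).1)
    intro j j' heq
    have h2 := hy j
    have h3 := hy j'
    by_contra hne
    have h4 : y j = y j' := by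
      apply Prod.ext
      · exact heq
      · rw [h2.2, h3.2]
        simp only at heq
        rw [heq]
    exact Finset.disjoint_left.1 (hdisj j.1 (Finset.mem_filter.1 j.2).1 j'.1
      (Finset.mem_filter.1 j'.2).1 (fun h => hne (Subtype.ext h))) h2.1 (by rw [h4]; exact h3.1)
  have h2 : K1 ≤ S1.card := by
    have := Finset.card_filter_add_card_filter_not (s := S) (fun j => ∀ y ∈ U j \ C, y.2 ≠ a y.1)
    rw [hS, ← hS1] at this
    omega
  -- witnesses
  have hGj : ∀ j, ∃ G : Gr (X × Fin M), j ∈ S → Ag C G (pat P) ∧ f j G = true := by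
    intro j
    by_cases hj : j ∈ S
    · obtain ⟨-, G, h, h'⟩ := hT j hj
      exact ⟨G, fun _ => ⟨h, h'⟩⟩
    · exact ⟨fun _ => true, fun h => absurd h hj⟩
  choose Gj hGj using hGj
  have hm0 : (0 : ℝ) < m := by
    have : 0 < m := by omega
    exact_mod_cast this
  have hmr : (1 : ℝ) ≤ m := by
    have : 1 ≤ m := by omega
    exact_mod_cast this
  have h3 := few_miss (I := Sym2 (X × Fin M)) (m := m) (by omega) (q := w ^ 2)
    (fun j => (U j).sym2 \ C.sym2)
    (fun j e => univ.filter (fun v : Fin m => decide ((v : ℕ) = 0) = Gj j e)) S1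
    (fun j _ => (Finset.card_le_card Finset.sdiff_subset).trans (card_sym2_le (hU j)))
    (by
      intro j _ e _
      by_cases h : Gj j e = true
      · exact ⟨⟨0, by omega⟩, by simp [h]⟩
      · rw [Bool.not_eq_true] at h
        exact ⟨⟨1, by omega⟩, by simp [h]⟩)
    (by
      intro i hi j hj hne
      rw [Finset.disjoint_left]
      intro e he he'
      rw [Finset.mem_sdiff, Finset.mem_sym2_iff, Finset.mem_sym2_iff] at he he'
      have := he.2
      push Not at this
      obtain ⟨v, hv, hvC⟩ := this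
      exact Finset.disjoint_left.1 (hdisj i (Finset.mem_filter.1 hi).1 j
        (Finset.mem_filter.1 hj).1 hne) (Finset.mem_sdiff.2 ⟨he.1 v hv, hvC⟩)
        (Finset.mem_sdiff.2 ⟨he'.1 v hv, hvC⟩))
  have hδ0 : 0 ≤ 1 - (1 / m : ℝ) ^ (w ^ 2) := by
    have : (1 / m : ℝ) ^ (w ^ 2) ≤ 1 := pow_le_one₀ (by positivity) (by
      rw [div_le_one hm0]; exact hmr)
    linarith
  have hδ1 : 1 - (1 / m : ℝ) ^ (w ^ 2) ≤ 1 := by
    have : 0 ≤ (1 / m : ℝ) ^ (w ^ 2) := by positivity
    linarith
  calc (#(univ.filter (fun R : Sym2 (X × Fin M) → Fin m => ¬ GoodE U f a R C P)) : ℝ) ≤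
        #(univ.filter (fun R : Sym2 (X × Fin M) → Fin m => ∀ j ∈ S1,
          ¬ ∀ e ∈ (U j).sym2 \ C.sym2,
            R e ∈ univ.filter (fun v : Fin m => decide ((v : ℕ) = 0) = Gj j e))) := by
        have hsub : univ.filter (fun R : Sym2 (X × Fin M) → Fin m => ¬ GoodE U f a R C P) ⊆
            univ.filter (fun R : Sym2 (X × Fin M) → Fin m => ∀ j ∈ S1,
              ¬ ∀ e ∈ (U j).sym2 \ C.sym2,
                R e ∈ univ.filter (fun v : Fin m => decide ((v : ℕ) = 0) = Gj j e)) := by
          intro R hR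
          rw [Finset.mem_filter] at hR ⊢
          refine ⟨Finset.mem_univ _, fun j hj hcon => hR.2 ?_⟩
          have hj' := Finset.mem_filter.1 hj
          refine ⟨j, hj'.2, fun G hG hG' => ?_⟩
          have hAg : Ag (U j) G (Gj j) := by
            intro e he
            by_cases heC : ∀ v ∈ e, v ∈ C
            · rw [hG e heC, (hGj j hj'.1).1 e heC]
            · rw [hG' e he heC]
              have := hcon e (by
                rw [Finset.mem_sdiff, Finset.mem_sym2_iff, Finset.mem_sym2_iff]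
                exact ⟨he, heC⟩)
              exact (Finset.mem_filter.1 this).2
          rw [hf j G (Gj j) hAg]
          exact (hGj j hj'.1).2
        exact_mod_cast Finset.card_le_card hsub
    _ ≤ (1 - (1 / m : ℝ) ^ (w ^ 2)) ^ S1.card * Fintype.card (Sym2 (X × Fin M) → Fin m) := by
        convert h3
    _ ≤ _ := mul_le_mul_of_nonneg_right (pow_le_pow_of_le_one hδ0 hδ1 h2) (by positivity)

open Classical in
/-- a disjunction of functions of few vertices becomes a function of few vertices -/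
theorem collapse_one {ι : Type} [Fintype ι] [DecidableEq ι] (U : ι → Finset (X × Fin M))
    (f : ι → Gr (X × Fin M) → Bool) {w K1 t B : ℕ} (hU : ∀ j, #(U j) ≤ w)
    (hf : ∀ j G G', Ag (U j) G G' → f j G = f j G') (hm : 2 ≤ m)
    (hB : (2 ^ (w ^ 2) * ((Fintype.card X + K1) * w) + 1) ^ (w + 1) ≤ B) (hBM : B ≤ M) :
    (#(univ.filter (fun p : (X → Fin M) × (Sym2 (X × Fin M) → Fin m) =>
      ¬ Jun t (fun H => decide (∃ j, f j (ext1 p.1 p.2 H) = true)))) : ℝ) ≤
      (3 * (B / M : ℝ) ^ (t + 1) + ((Fintype.card (X × Fin M) + 1 : ℕ) : ℝ) ^ w * 2 ^ (w ^ 2) *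
        (1 - (1 / m : ℝ) ^ (w ^ 2)) ^ K1) *
        Fintype.card ((X → Fin M) × (Sym2 (X × Fin M) → Fin m)) := by
  choose hs hs1 hs2 using exists_hit U f hU (Fintype.card X + K1)
  have hDcard : #(Dk hs (w + 1) ∅) + 1 ≤ B := (card_Dk (w := w) hs1 (w + 1) ∅ (by simp)).trans hB
  set δ1 : ℝ := 3 * (B / M : ℝ) ^ (t + 1) with hδ1
  set δ2 : ℝ := (1 - (1 / m : ℝ) ^ (w ^ 2)) ^ K1 with hδ2
  have hm0 : (0 : ℝ) < m := by
    have : 0 < m := by omega
    exact_mod_cast this
  have hmr : (1 : ℝ) ≤ m := by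
    have : 1 ≤ m := by omega
    exact_mod_cast this
  have hδ20 : 0 ≤ δ2 := by
    have : (1 / m : ℝ) ^ (w ^ 2) ≤ 1 := pow_le_one₀ (by positivity) (by
      rw [div_le_one hm0]; exact hmr)
    rw [hδ2]
    apply pow_nonneg
    linarith
  set NA : ℝ := ((Fintype.card (X → Fin M) : ℕ) : ℝ) with hNA
  set NR : ℝ := ((Fintype.card (Sym2 (X × Fin M) → Fin m) : ℕ) : ℝ) with hNR
  have hcardp : (Fintype.card ((X → Fin M) × (Sym2 (X × Fin M) → Fin m)) : ℝ) = NA * NR := by
    rw [Fintype.card_prod]; push_cast; rfl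
  let Sm : Finset (Finset (X × Fin M)) := univ.filter (fun C => #C ≤ w)
  let Bad1 : Finset ((X → Fin M) × (Sym2 (X × Fin M) → Fin m)) :=
    univ.filter (fun p => t + 1 ≤ #(univ.filter (fun x => (x, p.1 x) ∈ Dk hs (w + 1) ∅)))
  let BadCP : Finset (X × Fin M) → Finset (Sym2 (X × Fin M)) →
      Finset ((X → Fin M) × (Sym2 (X × Fin M) → Fin m)) := fun C P =>
    univ.filter (fun p => Sat U f (Fintype.card X + K1) C P ∧ ¬ GoodE U f p.1 p.2 C P)
  have hsub : univ.filter (fun p : (X → Fin M) × (Sym2 (X × Fin M) → Fin m) =>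
      ¬ Jun t (fun H => decide (∃ j, f j (ext1 p.1 p.2 H) = true))) ⊆
      Bad1 ∪ Sm.biUnion (fun C => C.sym2.powerset.biUnion (fun P => BadCP C P)) := by
    intro p hp
    rw [Finset.mem_filter] at hp
    by_contra hcon
    rw [Finset.mem_union, not_or] at hcon
    apply hp.2
    refine jun_of_good hU hf hs2 p.1 p.2 ?_ ?_
    · by_contra h
      push Not at h
      exact hcon.1 (Finset.mem_filter.2 ⟨Finset.mem_univ _, h⟩)
    · intro C P hC hP hsat
      by_contra h
      apply hcon.2
      rw [Finset.mem_biUnion]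
      refine ⟨C, Finset.mem_filter.2 ⟨Finset.mem_univ _, hC⟩, ?_⟩
      rw [Finset.mem_biUnion]
      exact ⟨P, Finset.mem_powerset.2 hP, Finset.mem_filter.2 ⟨Finset.mem_univ _, hsat, h⟩⟩
  have hbad1 : (Bad1.card : ℝ) ≤ δ1 * (NA * NR) := by
    have h1 : Bad1.card = #(univ.filter (fun a : X → Fin M =>
        t + 1 ≤ #(univ.filter (fun x => (x, a x) ∈ Dk hs (w + 1) ∅)))) *
        Fintype.card (Sym2 (X × Fin M) → Fin m) := by
      simp only [Bad1]
      rw [card_prod_filter, Finset.card_filter, Finset.sum_mul]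
      apply Finset.sum_congr rfl
      intro a _
      by_cases h : t + 1 ≤ #(univ.filter (fun x => (x, a x) ∈ Dk hs (w + 1) ∅))
      · simp only [h, Finset.filter_true, if_true, one_mul, Finset.card_univ]
      · simp only [h, Finset.filter_false, if_false, zero_mul, Finset.card_empty]
    have h2 := card_alive (X := X) (M := M) (B := B) (by omega) hBM (Dk hs (w + 1) ∅)
      (by omega) (t + 1)
    rw [h1]
    push_cast
    calc _ ≤ (3 * (B / M : ℝ) ^ (t + 1) * NA) * NR := by
          apply mul_le_mul_of_nonneg_right _ (by positivity)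
          exact h2
      _ = _ := by rw [hδ1]; ring
  have hbadCP : ∀ C ∈ Sm, ∀ P ∈ C.sym2.powerset, (#(BadCP C P) : ℝ) ≤ δ2 * (NA * NR) := by
    intro C _ P _
    by_cases hsat : Sat U f (Fintype.card X + K1) C P
    · have h1 : (#(BadCP C P) : ℝ) = ∑ a : X → Fin M,
          (#(univ.filter (fun R : Sym2 (X × Fin M) → Fin m => ¬ GoodE U f a R C P)) : ℝ) := by
        simp only [BadCP, hsat, true_and]
        rw [card_prod_filter]
        push_cast
        rfl
      rw [h1]
      calc _ ≤ ∑ _a : X → Fin M, δ2 * NR := by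
            apply Finset.sum_le_sum
            intro a _
            exact count_bad hU hf hm a hsat
        _ = δ2 * (NA * NR) := by
            rw [Finset.sum_const, nsmul_eq_mul, Finset.card_univ, ← hNA]; ring
    · have h1 : BadCP C P = ∅ := by
        simp only [BadCP, hsat, false_and, Finset.filter_false]
      rw [h1, Finset.card_empty]
      push_cast
      positivity
  have hbad2 : (#(Sm.biUnion (fun C => C.sym2.powerset.biUnion (fun P => BadCP C P))) : ℝ) ≤
      ((Fintype.card (X × Fin M) + 1 : ℕ) : ℝ) ^ w * 2 ^ (w ^ 2) * δ2 * (NA * NR) := by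
    have h1 : (#(Sm.biUnion (fun C => C.sym2.powerset.biUnion (fun P => BadCP C P))) : ℝ) ≤
        ∑ C ∈ Sm, ∑ P ∈ C.sym2.powerset, (#(BadCP C P) : ℝ) := by
      have h2 : #(Sm.biUnion (fun C => C.sym2.powerset.biUnion (fun P => BadCP C P))) ≤
          ∑ C ∈ Sm, ∑ P ∈ C.sym2.powerset, #(BadCP C P) :=
        Finset.card_biUnion_le.trans (Finset.sum_le_sum fun C _ => Finset.card_biUnion_le)
      exact_mod_cast h2
    refine h1.trans ?_
    calc ∑ C ∈ Sm, ∑ P ∈ C.sym2.powerset, (#(BadCP C P) : ℝ) ≤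
          ∑ C ∈ Sm, 2 ^ (w ^ 2) * (δ2 * (NA * NR)) := by
          apply Finset.sum_le_sum
          intro C hC
          calc ∑ P ∈ C.sym2.powerset, (#(BadCP C P) : ℝ) ≤
                ∑ _P ∈ C.sym2.powerset, δ2 * (NA * NR) :=
                Finset.sum_le_sum fun P hP => hbadCP C hC P hP
            _ = (2 ^ #C.sym2 : ℕ) * (δ2 * (NA * NR)) := by
                rw [Finset.sum_const, nsmul_eq_mul, Finset.card_powerset]
            _ ≤ _ := by
                apply mul_le_mul_of_nonneg_right _ (by positivity)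
                push_cast
                exact pow_le_pow_right₀ (by norm_num)
                  (card_sym2_le (Finset.mem_filter.1 hC).2)
      _ = Sm.card * (2 ^ (w ^ 2) * (δ2 * (NA * NR))) := by
          rw [Finset.sum_const, nsmul_eq_mul]
      _ ≤ ((Fintype.card (X × Fin M) + 1 : ℕ) : ℝ) ^ w * (2 ^ (w ^ 2) * (δ2 * (NA * NR))) := by
          apply mul_le_mul_of_nonneg_right _ (by positivity)
          have := card_small (Y := X × Fin M) w
          exact_mod_cast this
      _ = _ := by ring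
  calc _ ≤ (#(Bad1 ∪ Sm.biUnion (fun C => C.sym2.powerset.biUnion (fun P => BadCP C P))) : ℝ) := by
        exact_mod_cast Finset.card_le_card hsub
    _ ≤ Bad1.card + #(Sm.biUnion (fun C => C.sym2.powerset.biUnion (fun P => BadCP C P))) := by
        exact_mod_cast Finset.card_union_le _ _
    _ ≤ δ1 * (NA * NR) + ((Fintype.card (X × Fin M) + 1 : ℕ) : ℝ) ^ w * 2 ^ (w ^ 2) * δ2 *
        (NA * NR) := add_le_add hbad1 hbad2
    _ = _ := by rw [hcardp]; ring

/-- functions computed in d layers from functions of at most w vertices -/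
def Sys {V ι : Type} (d w : ℕ) (f : ι → Gr V → Bool) : Prop :=
  ∃ lab : ι → ℕ, (∀ i, lab i ≤ d) ∧ ∀ i, Jun w (f i) ∨
    ∃ (b : Bool) (T : Finset (ι × Bool)), (∀ x ∈ T, lab x.1 < lab i) ∧
      ∀ G, f i G = xor b (decide (∃ x ∈ T, f x.1 G = x.2))

theorem jun_const {V : Type} (w : ℕ) (b : Bool) : Jun w (fun _ : Gr V => b) :=
  ⟨∅, by simp, fun _ _ _ => rfl⟩

theorem Jun.ext1 {w : ℕ} {f : Gr (X × Fin M) → Bool} (h : Jun w f) (a : X → Fin M)
    (R : Sym2 (X × Fin M) → Fin m) : Jun w (fun H => f (ext1 a R H)) := by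
  classical
  obtain ⟨U, hU, hf⟩ := h
  refine ⟨U.image Prod.fst, Finset.card_image_le.trans hU, fun H H' hH => hf _ _ ?_⟩
  exact ext1_agree a R (fun x hx => Finset.mem_image.2 ⟨_, hx, rfl⟩) hH

theorem Jun.xor {V : Type} {w : ℕ} {f : Gr V → Bool} (b : Bool) (h : Jun w f) :
    Jun w (fun G => Bool.xor b (f G)) := by
  obtain ⟨U, hU, hf⟩ := h
  exact ⟨U, hU, fun G G' hG => congrArg (Bool.xor b) (hf G G' hG)⟩

/-- at the bottom all functions have few vertices -/
theorem Sys.jun_zero {V ι : Type} {w : ℕ} {f : ι → Gr V → Bool} (h : Sys 0 w f) (i : ι) :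
    Jun w (f i) := by
  obtain ⟨lab, hlab, hf⟩ := h
  rcases hf i with h | ⟨b, T, hT, h⟩
  · exact h
  · have hTe : T = ∅ := by
      rw [Finset.eq_empty_iff_forall_notMem]
      intro x hx
      have := hT x hx
      have := hlab i
      omega
    have : f i = fun _ => Bool.xor b false := by
      funext G
      rw [h G, hTe]
      simp
    rw [this]
    exact jun_const _ _

open Classical in
/-- one layer is removed -/
theorem stage {ι : Type} [Fintype ι] {d w w' K1 B : ℕ} (hw : w ≤ w')
    {f : ι → Gr (X × Fin M) → Bool}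
    (hsys : Sys (d + 1) w f) (hm : 2 ≤ m)
    (hB : (2 ^ (w ^ 2) * ((Fintype.card X + K1) * w) + 1) ^ (w + 1) ≤ B) (hBM : B ≤ M) :
    (#(univ.filter (fun p : (X → Fin M) × (Sym2 (X × Fin M) → Fin m) =>
      ¬ Sys d w' (fun i H => f i (ext1 p.1 p.2 H)))) : ℝ) ≤
      Fintype.card ι * ((3 * (B / M : ℝ) ^ (w' + 1) + ((Fintype.card (X × Fin M) + 1 : ℕ) : ℝ) ^ w *
        2 ^ (w ^ 2) * (1 - (1 / m : ℝ) ^ (w ^ 2)) ^ K1) *
        Fintype.card ((X → Fin M) × (Sym2 (X × Fin M) → Fin m))) := by
  obtain ⟨lab, hlab, hf⟩ := hsys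
  set δ : ℝ := (3 * (B / M : ℝ) ^ (w' + 1) + ((Fintype.card (X × Fin M) + 1 : ℕ) : ℝ) ^ w *
        2 ^ (w ^ 2) * (1 - (1 / m : ℝ) ^ (w ^ 2)) ^ K1) *
        Fintype.card ((X → Fin M) × (Sym2 (X × Fin M) → Fin m)) with hδ
  have hm0 : (0 : ℝ) < m := by
    have : 0 < m := by omega
    exact_mod_cast this
  have hmr : (1 : ℝ) ≤ m := by
    have : 1 ≤ m := by omega
    exact_mod_cast this
  have hδ0 : 0 ≤ δ := by
    have h1 : (1 / m : ℝ) ^ (w ^ 2) ≤ 1 := pow_le_one₀ (by positivity) (by
      rw [div_le_one hm0]; exact hmr)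
    have h2 : 0 ≤ (1 - (1 / m : ℝ) ^ (w ^ 2)) ^ K1 := pow_nonneg (by linarith) _
    rw [hδ]
    positivity
  -- gates of the two lowest layers
  have hlow : ∀ i, lab i = 0 → Jun w (f i) := by
    intro i hi
    rcases hf i with h | ⟨b, T, hT, h⟩
    · exact h
    · have hTe : T = ∅ := by
        rw [Finset.eq_empty_iff_forall_notMem]
        intro x hx
        have := hT x hx
        omega
      have : f i = fun _ => Bool.xor b false := by
        funext G
        rw [h G, hTe]
        simp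
      rw [this]
      exact jun_const _ _
  let E : ι → Finset ((X → Fin M) × (Sym2 (X × Fin M) → Fin m)) := fun i =>
    univ.filter (fun p => lab i ≤ 1 ∧ ¬ Jun w' (fun H => f i (ext1 p.1 p.2 H)))
  have hE : ∀ i, (#(E i) : ℝ) ≤ δ := by
    intro i
    by_cases hli : lab i ≤ 1
    swap
    · have : E i = ∅ := by
        simp only [E, hli, false_and, Finset.filter_false]
      rw [this, Finset.card_empty]
      push_cast
      exact hδ0
    rcases hf i with h | ⟨b, T, hT, h⟩
    · have : E i = ∅ := by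
        rw [Finset.eq_empty_iff_forall_notMem]
        intro p hp
        exact (Finset.mem_filter.1 hp).2.2 ((h.ext1 p.1 p.2).mono hw)
      rw [this, Finset.card_empty]
      push_cast
      exact hδ0
    · have hj : ∀ x : {x // x ∈ T}, Jun w (fun G => decide (f x.1.1 G = x.1.2)) := by
        intro x
        obtain ⟨U, hU, hfU⟩ := hlow x.1.1 (by have := hT x.1 x.2; omega)
        exact ⟨U, hU, fun G G' hG => congrArg (fun z => decide (z = x.1.2)) (hfU G G' hG)⟩
      choose U hU hfU using hj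
      refine le_trans ?_ (collapse_one (m := m) (t := w') U
        (fun (x : {x // x ∈ T}) G => decide (f x.1.1 G = x.1.2)) hU hfU hm hB hBM)
      have hsub : E i ⊆ univ.filter (fun p : (X → Fin M) × (Sym2 (X × Fin M) → Fin m) =>
          ¬ Jun w' (fun H => decide (∃ x : {x // x ∈ T},
            (fun (x : {x // x ∈ T}) G => decide (f x.1.1 G = x.1.2)) x
              (Nz.ext1 p.1 p.2 H) = true))) := by
        intro p hp
        rw [Finset.mem_filter] at hp ⊢
        refine ⟨Finset.mem_univ _, fun hcon => hp.2.2 ?_⟩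
        have h1 := hcon.xor b
        refine cast ?_ h1
        congr 1
        funext H
        rw [h (Nz.ext1 p.1 p.2 H)]
        congr 1
        rw [decide_eq_decide]
        simp only [decide_eq_true_eq, Subtype.exists, exists_prop]
      exact_mod_cast Finset.card_le_card hsub
  have hsub : univ.filter (fun p : (X → Fin M) × (Sym2 (X × Fin M) → Fin m) =>
      ¬ Sys d w' (fun i H => f i (ext1 p.1 p.2 H))) ⊆ (univ : Finset ι).biUnion E := by
    intro p hp
    rw [Finset.mem_filter] at hp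
    by_contra hcon
    apply hp.2
    refine ⟨fun i => lab i - 1, fun i => by
      have := hlab i
      show lab i - 1 ≤ d
      omega, fun i => ?_⟩
    by_cases hli : lab i ≤ 1
    · left
      by_contra hJ
      apply hcon
      rw [Finset.mem_biUnion]
      exact ⟨i, Finset.mem_univ _, Finset.mem_filter.2 ⟨Finset.mem_univ _, hli, hJ⟩⟩
    · rcases hf i with h | ⟨b, T, hT, h⟩
      · left; exact (h.ext1 p.1 p.2).mono hw
      · right
        refine ⟨b, T, fun x hx => ?_, fun H => h _⟩
        have := hT x hx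
        show lab x.1 - 1 < lab i - 1
        omega
  calc _ ≤ (#((univ : Finset ι).biUnion E) : ℝ) := by
        exact_mod_cast Finset.card_le_card hsub
    _ ≤ ∑ i : ι, (#(E i) : ℝ) := by exact_mod_cast Finset.card_biUnion_le
    _ ≤ ∑ _i : ι, δ := Finset.sum_le_sum fun i _ => hE i
    _ = Fintype.card ι * δ := by rw [Finset.sum_const, nsmul_eq_mul, Finset.card_univ]

end Pool.Agent.H29.Nz
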