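import Pool.Agent.H29.NzStage

/-!
Iterated random restrictions.
-/

open Finset

namespace Pool.Agent.H29.Nz

set_option linter.unusedSectionVars false

/-- a distribution of graphs on a large set V containing a given graph on X -/
structure Dist (X : Type) [Fintype X] [DecidableEq X] (m : ℕ) where
  V : Type
  A : Type
  N : Type
  [fV : Fintype V]
  [dV : DecidableEq V]
  [fA : Fintype A]
  [fN : Fintype N]
  [nA : Nonempty A]
  [nN : Nonempty N]
  ext : A → N → Gr X → Gr V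
  al : A → X → V
  inj : ∀ a, Function.Injective (al a)
  live : ∀ a r H (e : Sym2 X), ext a r H (e.map (al a)) = H e
  dead : ∀ a r H H' (e : Sym2 V), (¬ ∀ v ∈ e, v ∈ Set.range (al a)) → ext a r H e = ext a r H' e
  noise : ∀ a H (P : Finset (Sym2 V)), (∀ e ∈ P, ¬ ∀ v ∈ e, v ∈ Set.range (al a)) →
    #(univ.filter (fun r => ∀ e ∈ P, ext a r H e = true)) * m ^ #P ≤ Fintype.card N

attribute [instance] Dist.fV Dist.dV Dist.fA Dist.fN Dist.nA Dist.nN

variable {X : Type} [Fintype X] [DecidableEq X]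

/-- no restriction at all -/
def Dist.base (X : Type) [Fintype X] [DecidableEq X] (m : ℕ) : Dist X m where
  V := X
  A := Unit
  N := Unit
  ext := fun _ _ H => H
  al := fun _ x => x
  inj := fun _ _ _ h => h
  live := fun _ _ H e => by
    show H (e.map id) = H e
    rw [Sym2.map_id]; rfl
  dead := fun _ _ _ _ e he => absurd (fun v _ => ⟨v, rfl⟩) he
  noise := fun _ _ P hP => by
    have : P = ∅ := by
      rw [Finset.eq_empty_iff_forall_notMem]
      intro e he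
      exact hP e he (fun v _ => ⟨v, rfl⟩)
    subst this
    simp

theorem ext1_count {Y : Type} [Fintype Y] [DecidableEq Y] {M m : ℕ} (hm : 1 ≤ m)
    (P : Finset (Sym2 (Y × Fin M))) :
    #(univ.filter (fun R : Sym2 (Y × Fin M) → Fin m => ∀ e ∈ P, (R e : ℕ) = 0)) * m ^ #P ≤
      Fintype.card (Sym2 (Y × Fin M) → Fin m) := by
  classical
  have h1 : univ.filter (fun R : Sym2 (Y × Fin M) → Fin m => ∀ e ∈ P, (R e : ℕ) = 0) =
      Fintype.piFinset (fun e => if e ∈ P then {(⟨0, by omega⟩ : Fin m)} else univ) := by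
    ext R
    simp only [Finset.mem_filter, Finset.mem_univ, true_and, Fintype.mem_piFinset]
    constructor
    · intro h i
      by_cases hi : i ∈ P
      · rw [if_pos hi, Finset.mem_singleton]
        exact Fin.ext (h i hi)
      · rw [if_neg hi]; exact Finset.mem_univ _
    · intro h i hi
      have := h i
      rw [if_pos hi, Finset.mem_singleton] at this
      rw [this]
  rw [h1, Fintype.card_piFinset, Fintype.card_fun, Fintype.card_fin]
  have h2 : ∏ e, #(if e ∈ P then {(⟨0, by omega⟩ : Fin m)} else (univ : Finset (Fin m))) =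
      ∏ e, (if e ∈ P then 1 else m) := by
    apply Finset.prod_congr rfl
    intro e _
    by_cases he : e ∈ P
    · rw [if_pos he, if_pos he]; simp
    · rw [if_neg he, if_neg he]; simp
  rw [h2, Finset.prod_ite, Finset.prod_const_one, one_mul, Finset.prod_const, ← pow_add]
  apply le_of_eq
  congr 1
  have h5 := Finset.card_filter_add_card_filter_not (s := (univ : Finset (Sym2 (Y × Fin M))))
    (fun i => i ∈ P)
  rw [Finset.card_univ] at h5
  have h6 : univ.filter (fun i => i ∈ P) = P := by ext; simp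
  rw [h6] at h5
  omega

/-- one more restriction, applied first -/
noncomputable def Dist.step {m : ℕ} (D : Dist X m) (M : ℕ) (hm : 1 ≤ m) (hM : 1 ≤ M) :
    Dist X m where
  V := D.V × Fin M
  A := D.A × (D.V → Fin M)
  N := D.N × (Sym2 (D.V × Fin M) → Fin m)
  nA := ⟨(Classical.arbitrary _, fun _ => ⟨0, by omega⟩)⟩
  nN := ⟨(Classical.arbitrary _, fun _ => ⟨0, by omega⟩)⟩
  ext := fun a r H => ext1 a.2 r.2 (D.ext a.1 r.1 H)
  al := fun a x => (D.al a.1 x, a.2 (D.al a.1 x))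
  inj := fun a x y h => D.inj a.1 (Prod.mk.inj h).1
  live := fun a r H e => by
    classical
    have h1 : Alv a.2 (e.map (fun x => (D.al a.1 x, a.2 (D.al a.1 x)))) := by
      intro y hy
      rw [Sym2.mem_map] at hy
      obtain ⟨x, -, rfl⟩ := hy
      rfl
    show ext1 a.2 r.2 (D.ext a.1 r.1 H) _ = _
    unfold ext1
    rw [if_pos h1, Sym2.map_map]
    exact D.live a.1 r.1 H e
  dead := fun a r H H' e he => by
    classical
    show ext1 a.2 r.2 (D.ext a.1 r.1 H) _ = ext1 a.2 r.2 (D.ext a.1 r.1 H') _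
    unfold ext1
    by_cases hal : Alv a.2 e
    · rw [if_pos hal, if_pos hal]
      apply D.dead
      intro hcon
      apply he
      intro v hv
      obtain ⟨x, hx⟩ := hcon v.1 (Sym2.mem_map.2 ⟨v, hv, rfl⟩)
      refine ⟨x, ?_⟩
      show (D.al a.1 x, a.2 (D.al a.1 x)) = v
      rw [hx, ← hal v hv]
    · rw [if_neg hal, if_neg hal]
  noise := fun a H P hP => by
    classical
    let P1 := P.filter (fun e => ¬ Alv a.2 e)
    let P2 := P.filter (fun e => Alv a.2 e)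
    let P2' := P2.image (fun e => e.map Prod.fst)
    have hinj : Set.InjOn (fun e : Sym2 (D.V × Fin M) => e.map Prod.fst) (P2 : Set _) := by
      have hback : ∀ e ∈ P2, (e.map Prod.fst).map (fun v => (v, a.2 v)) = e := by
        intro e he
        have h1 := (Finset.mem_filter.1 he).2
        rw [Sym2.map_map]
        have h2 : ∀ y ∈ e, ((fun v => (v, a.2 v)) ∘ Prod.fst) y = id y := by
          intro y hy
          exact Prod.ext rfl (h1 y hy).symm
        rw [Sym2.map_congr h2, Sym2.map_id]; rfl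
      intro e he e' he' h
      rw [← hback e he, ← hback e' he']
      exact congrArg _ h
    have hcard : #P = (P2').card + P1.card := by
      rw [Finset.card_image_of_injOn hinj, Finset.card_filter_add_card_filter_not]
    have hP2' : ∀ e ∈ P2', ¬ ∀ v ∈ e, v ∈ Set.range (D.al a.1) := by
      intro e he hcon
      obtain ⟨e', he', rfl⟩ := Finset.mem_image.1 he
      rw [Finset.mem_filter] at he'
      apply hP e' he'.1
      intro v hv
      obtain ⟨x, hx⟩ := hcon v.1 (Sym2.mem_map.2 ⟨v, hv, rfl⟩)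
      refine ⟨x, ?_⟩
      show (D.al a.1 x, a.2 (D.al a.1 x)) = v
      rw [hx, ← he'.2 v hv]
    have h1 := D.noise a.1 H P2' hP2'
    have h2 := ext1_count (Y := D.V) (M := M) hm P1
    have hsub : univ.filter (fun r : D.N × (Sym2 (D.V × Fin M) → Fin m) =>
        ∀ e ∈ P, ext1 a.2 r.2 (D.ext a.1 r.1 H) e = true) ⊆
        (univ.filter (fun r => ∀ e ∈ P2', D.ext a.1 r H e = true)) ×ˢ
        (univ.filter (fun R : Sym2 (D.V × Fin M) → Fin m => ∀ e ∈ P1, (R e : ℕ) = 0)) := by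
      intro r hr
      rw [Finset.mem_filter] at hr
      rw [Finset.mem_product, Finset.mem_filter, Finset.mem_filter]
      refine ⟨⟨Finset.mem_univ _, ?_⟩, ⟨Finset.mem_univ _, ?_⟩⟩
      · intro e he
        obtain ⟨e', he', rfl⟩ := Finset.mem_image.1 he
        rw [Finset.mem_filter] at he'
        have := hr.2 e' he'.1
        unfold ext1 at this
        rw [if_pos he'.2] at this
        exact this
      · intro e he
        rw [Finset.mem_filter] at he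
        have := hr.2 e he.1
        unfold ext1 at this
        rw [if_neg he.2] at this
        exact of_decide_eq_true this
    calc _ ≤ #((univ.filter (fun r => ∀ e ∈ P2', D.ext a.1 r H e = true)) ×ˢ
        (univ.filter (fun R : Sym2 (D.V × Fin M) → Fin m => ∀ e ∈ P1, (R e : ℕ) = 0))) *
          m ^ #P := Nat.mul_le_mul_right _ (Finset.card_le_card hsub)
      _ = (#(univ.filter (fun r => ∀ e ∈ P2', D.ext a.1 r H e = true)) * m ^ (P2').card) *
          (#(univ.filter (fun R : Sym2 (D.V × Fin M) → Fin m => ∀ e ∈ P1, (R e : ℕ) = 0)) *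
          m ^ P1.card) := by
          rw [Finset.card_product, hcard, pow_add]; ring
      _ ≤ Fintype.card D.N * Fintype.card (Sym2 (D.V × Fin M) → Fin m) := Nat.mul_le_mul h1 h2
      _ = _ := by rw [Fintype.card_prod]

theorem card_quad {α β γ δ : Type*} [Fintype α] [Fintype β] [Fintype γ] [Fintype δ]
    (p : (α × β) × (γ × δ) → Prop) [DecidablePred p] :
    #(univ.filter p) = ∑ q : β × δ, #(univ.filter (fun x : α × γ => p ((x.1, q.1), (x.2, q.2)))) := by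
  rw [Finset.card_filter]
  simp only [Finset.card_filter]
  rw [← Fintype.sum_prod_type']
  let e : (α × β) × (γ × δ) ≃ (β × δ) × (α × γ) :=
    ⟨fun z => ((z.1.2, z.2.2), (z.1.1, z.2.1)), fun z => ((z.2.1, z.1.1), (z.2.2, z.1.2)),
      fun _ => rfl, fun _ => rfl⟩
  exact Fintype.sum_equiv e _ _ (fun _ => rfl)

/-- the estimates for one layer -/
theorem stage_num (w c E1 w1 : ℕ) (hw1 : 3 * c + 2 ≤ w1 + 1) :
    ∃ Q₀ : ℕ, ∀ Q ≥ Q₀, 2 ≤ Q ∧
      (2 ^ (w ^ 2) * ((Q ^ E1 + (Q ^ 4) ^ (w ^ 2 + 1)) * w) + 1) ^ (w + 1) ≤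
        Q ^ ((E1 + 4 * w ^ 2 + 5) * (w + 1)) ∧
      ((3 * (((Q ^ ((E1 + 4 * w ^ 2 + 5) * (w + 1)) : ℕ) : ℝ) /
        ((Q ^ (2 * ((E1 + 4 * w ^ 2 + 5) * (w + 1))) : ℕ) : ℝ)) ^ (w1 + 1) +
        ((Q ^ (E1 + 2 * ((E1 + 4 * w ^ 2 + 5) * (w + 1))) + 1 : ℕ) : ℝ) ^ w * 2 ^ (w ^ 2) *
        (1 - (1 / ((Q ^ 4 : ℕ) : ℝ)) ^ (w ^ 2)) ^ ((Q ^ 4) ^ (w ^ 2 + 1))) *
        (Q : ℝ) ^ (c * (E1 + 2 * ((E1 + 4 * w ^ 2 + 5) * (w + 1))))) ≤ 1 / 2 := by
  set β := (E1 + 4 * w ^ 2 + 5) * (w + 1) with hβ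
  set E₀ := E1 + 2 * β with hE₀
  have hβE : E1 ≤ β := by
    rw [hβ]; nlinarith [Nat.zero_le (w ^ 2), Nat.zero_le ((E1 + 4 * w ^ 2 + 5) * w)]
  have hβ1 : 1 ≤ β := by
    rw [hβ]; nlinarith [Nat.zero_le (w ^ 2), Nat.zero_le ((E1 + 4 * w ^ 2 + 5) * w)]
  have ht := Real.tendsto_pow_mul_exp_neg_atTop_nhds_zero (E₀ * w + c * E₀)
  have hev := (ht.comp tendsto_natCast_atTop_atTop).eventually_lt_const
    (show (0 : ℝ) < 1 / (4 * 2 ^ (w + w ^ 2)) by positivity)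
  obtain ⟨Q1, hQ1⟩ := Filter.eventually_atTop.1 hev
  refine ⟨Q1 + 12 + 2 * w * 2 ^ (w ^ 2), fun Q hQ => ?_⟩
  have hQ2 : 2 ≤ Q := by omega
  have hQ12 : 12 ≤ Q := by omega
  have hQw : 2 * w * 2 ^ (w ^ 2) + 1 ≤ Q := by omega
  refine ⟨hQ2, ?_, ?_⟩
  · have h1 : 2 ^ (w ^ 2) * ((Q ^ E1 + (Q ^ 4) ^ (w ^ 2 + 1)) * w) + 1 ≤
        Q ^ (E1 + 4 * w ^ 2 + 5) := by
      have ha : 1 ≤ Q ^ E1 := Nat.one_le_pow _ _ (by omega)
      have hb : 1 ≤ (Q ^ 4) ^ (w ^ 2 + 1) := Nat.one_le_pow _ _ (by positivity)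
      have hab : Q ^ E1 + (Q ^ 4) ^ (w ^ 2 + 1) ≤ 2 * (Q ^ E1 * (Q ^ 4) ^ (w ^ 2 + 1)) := by
        nlinarith
      have h2 : Q ^ E1 * (Q ^ 4) ^ (w ^ 2 + 1) = Q ^ (E1 + 4 * w ^ 2 + 4) := by
        rw [← pow_mul, ← pow_add]; congr 1
      have h3 : Q ^ (E1 + 4 * w ^ 2 + 5) = Q ^ (E1 + 4 * w ^ 2 + 4) * Q := by
        rw [← pow_succ]
      have h4 : 1 ≤ Q ^ (E1 + 4 * w ^ 2 + 4) := Nat.one_le_pow _ _ (by omega)
      rw [h3]
      calc 2 ^ (w ^ 2) * ((Q ^ E1 + (Q ^ 4) ^ (w ^ 2 + 1)) * w) + 1 ≤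
            2 ^ (w ^ 2) * ((2 * (Q ^ E1 * (Q ^ 4) ^ (w ^ 2 + 1))) * w) + 1 := by
            gcongr
        _ = Q ^ (E1 + 4 * w ^ 2 + 4) * (2 * w * 2 ^ (w ^ 2)) + 1 := by rw [h2]; ring
        _ ≤ Q ^ (E1 + 4 * w ^ 2 + 4) * (2 * w * 2 ^ (w ^ 2)) + Q ^ (E1 + 4 * w ^ 2 + 4) := by
            omega
        _ = Q ^ (E1 + 4 * w ^ 2 + 4) * (2 * w * 2 ^ (w ^ 2) + 1) := by ring
        _ ≤ Q ^ (E1 + 4 * w ^ 2 + 4) * Q := Nat.mul_le_mul_left _ hQw
    calc _ ≤ (Q ^ (E1 + 4 * w ^ 2 + 5)) ^ (w + 1) := Nat.pow_le_pow_left h1 _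
      _ = _ := by rw [← pow_mul]
  · have hQr : (12 : ℝ) ≤ Q := by exact_mod_cast hQ12
    have hQ0 : (0 : ℝ) < Q := by linarith
    have hQ1r : (1 : ℝ) ≤ Q := by linarith
    -- first part
    have hA : 3 * (((Q ^ β : ℕ) : ℝ) / ((Q ^ (2 * β) : ℕ) : ℝ)) ^ (w1 + 1) *
        (Q : ℝ) ^ (c * E₀) ≤ 1 / 4 := by
      have h1 : (((Q ^ β : ℕ) : ℝ) / ((Q ^ (2 * β) : ℕ) : ℝ)) = 1 / (Q : ℝ) ^ β := by
        push_cast
        rw [two_mul, pow_add]
        field_simp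
      rw [h1, one_div, inv_pow, ← pow_mul]
      have h2 : (Q : ℝ) ^ (c * E₀ + 1) ≤ (Q : ℝ) ^ (β * (w1 + 1)) := by
        apply pow_le_pow_right₀ hQ1r
        have h3 : c * E₀ ≤ c * (3 * β) := Nat.mul_le_mul_left _ (by omega)
        have h4 : β * (3 * c + 2) ≤ β * (w1 + 1) := Nat.mul_le_mul_left _ hw1
        nlinarith
      have h5 : (0 : ℝ) < (Q : ℝ) ^ (β * (w1 + 1)) := by positivity
      rw [show 3 * ((Q : ℝ) ^ (β * (w1 + 1)))⁻¹ * (Q : ℝ) ^ (c * E₀) =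
        (3 * (Q : ℝ) ^ (c * E₀)) / (Q : ℝ) ^ (β * (w1 + 1)) by field_simp]
      rw [div_le_iff₀ h5]
      have h6 : 3 * (Q : ℝ) ^ (c * E₀) ≤ 1 / 4 * (Q : ℝ) ^ (c * E₀ + 1) := by
        rw [pow_succ]
        have : (0 : ℝ) < (Q : ℝ) ^ (c * E₀) := by positivity
        nlinarith
      exact h6.trans (mul_le_mul_of_nonneg_left h2 (by norm_num))
    have hB : ((Q ^ E₀ + 1 : ℕ) : ℝ) ^ w * 2 ^ (w ^ 2) *
        (1 - (1 / ((Q ^ 4 : ℕ) : ℝ)) ^ (w ^ 2)) ^ ((Q ^ 4) ^ (w ^ 2 + 1)) *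
        (Q : ℝ) ^ (c * E₀) ≤ 1 / 4 := by
      set x : ℝ := (1 / ((Q ^ 4 : ℕ) : ℝ)) ^ (w ^ 2) with hx
      have hx0 : 0 ≤ x := by positivity
      have hx1 : x ≤ 1 := by
        rw [hx]
        apply pow_le_one₀ (by positivity)
        rw [div_le_one (by positivity)]
        have : 1 ≤ Q ^ 4 := Nat.one_le_pow _ _ (by omega)
        exact_mod_cast this
      have h1 : (1 - x) ^ ((Q ^ 4) ^ (w ^ 2 + 1)) ≤ Real.exp (-(Q : ℝ)) := by
        have h2 : 1 - x ≤ Real.exp (-x) := by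
          have := Real.add_one_le_exp (-x); linarith
        calc (1 - x) ^ ((Q ^ 4) ^ (w ^ 2 + 1)) ≤ (Real.exp (-x)) ^ ((Q ^ 4) ^ (w ^ 2 + 1)) :=
              pow_le_pow_left₀ (by linarith) h2 _
          _ = Real.exp (-(((Q ^ 4) ^ (w ^ 2 + 1) : ℕ) : ℝ) * x) := by
              rw [← Real.exp_nat_mul]; congr 1; ring
          _ = Real.exp (-((Q ^ 4 : ℕ) : ℝ)) := by
              congr 1
              rw [hx]
              push_cast
              rw [one_div, inv_pow, pow_succ]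
              field_simp
          _ ≤ Real.exp (-(Q : ℝ)) := by
              apply Real.exp_le_exp.2
              apply neg_le_neg
              push_cast
              calc (Q : ℝ) = Q ^ 1 := (pow_one _).symm
                _ ≤ Q ^ 4 := pow_le_pow_right₀ hQ1r (by norm_num)
      have h3 := hQ1 Q (by omega)
      simp only [Function.comp] at h3
      have h4 : ((Q ^ E₀ + 1 : ℕ) : ℝ) ^ w ≤ 2 ^ w * (Q : ℝ) ^ (E₀ * w) := by
        rw [pow_mul, ← mul_pow]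
        apply pow_le_pow_left₀ (by positivity)
        push_cast
        have : (1 : ℝ) ≤ (Q : ℝ) ^ E₀ := one_le_pow₀ hQ1r
        linarith
      have h5 : (0 : ℝ) ≤ (1 - x) ^ ((Q ^ 4) ^ (w ^ 2 + 1)) := pow_nonneg (by linarith) _
      calc _ ≤ (2 ^ w * (Q : ℝ) ^ (E₀ * w)) * 2 ^ (w ^ 2) * Real.exp (-(Q : ℝ)) *
            (Q : ℝ) ^ (c * E₀) := by
            gcongr
        _ = 2 ^ (w + w ^ 2) * ((Q : ℝ) ^ (E₀ * w + c * E₀) * Real.exp (-(Q : ℝ))) := by
            rw [pow_add, pow_add]; ring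
        _ ≤ 2 ^ (w + w ^ 2) * (1 / (4 * 2 ^ (w + w ^ 2))) :=
            mul_le_mul_of_nonneg_left h3.le (by positivity)
        _ = 1 / 4 := by field_simp
    rw [add_mul]
    linarith

open Classical in
/-- all layers are removed -/
theorem tower (d : ℕ) : ∀ w c : ℕ, ∃ W C : ℕ, ∀ E : ℕ, 1 ≤ E → ∃ E₀ : ℕ, E ≤ E₀ ∧ E₀ ≤ C * E ∧
    ∃ Q₀ : ℕ, ∀ Q ≥ Q₀, ∀ (X : Type) [Fintype X] [DecidableEq X], Fintype.card X ≤ Q ^ E →
      ∃ D : Dist X (Q ^ 4), Fintype.card D.V ≤ Q ^ E₀ ∧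
        ∀ (ι : Type) [Fintype ι] (f : ι → Gr D.V → Bool), Sys d w f →
          (#(univ.filter (fun p : D.A × D.N => ¬ ∀ i, Jun W (fun H => f i (D.ext p.1 p.2 H)))) : ℝ) *
            (Q : ℝ) ^ (c * E₀) ≤ Fintype.card ι * Fintype.card (D.A × D.N) := by
  induction d with
  | zero =>
    intro w c
    refine ⟨w, 1, fun E hE => ⟨E, le_refl _, by omega, 0, fun Q _ X _ _ hX =>
      ⟨Dist.base X _, hX, fun ι _ f hf => ?_⟩⟩⟩
    have h1 : univ.filter (fun p : (Dist.base X (Q ^ 4)).A × (Dist.base X (Q ^ 4)).N =>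
        ¬ ∀ i, Jun w (fun H => f i ((Dist.base X (Q ^ 4)).ext p.1 p.2 H))) = ∅ := by
      rw [Finset.eq_empty_iff_forall_notMem]
      intro p hp
      exact (Finset.mem_filter.1 hp).2 (fun i => hf.jun_zero i)
    rw [h1, Finset.card_empty]
    simp only [Nat.cast_zero, zero_mul]
    positivity
  | succ d ih =>
    intro w c
    set w1 := w + 3 * c + 1 with hw1
    set C1 := 1 + 2 * (w + 1) * (4 * w ^ 2 + 6) with hC1
    obtain ⟨W, C, hWC⟩ := ih w1 (c * C1 + 1)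
    refine ⟨W, C1 * C, fun E hE => ?_⟩
    obtain ⟨E1, hE1, hE1C, Q1, hQ1⟩ := hWC E hE
    obtain ⟨Q2, hQ2⟩ := stage_num w c E1 w1 (by omega)
    set β := (E1 + 4 * w ^ 2 + 5) * (w + 1) with hβ
    have hE₀ : E1 + 2 * β ≤ C1 * E1 := by
      have h1 : E1 + 4 * w ^ 2 + 5 ≤ E1 * (4 * w ^ 2 + 6) := by
        have : 1 ≤ E1 := hE.trans hE1
        nlinarith [Nat.zero_le (w ^ 2)]
      have h2 : β ≤ E1 * (4 * w ^ 2 + 6) * (w + 1) := Nat.mul_le_mul_right _ h1
      rw [hC1]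
      nlinarith
    refine ⟨E1 + 2 * β, by omega, ?_, max Q1 Q2, fun Q hQ X _ _ hX => ?_⟩
    · calc E1 + 2 * β ≤ C1 * E1 := hE₀
        _ ≤ C1 * (C * E) := Nat.mul_le_mul_left _ hE1C
        _ = C1 * C * E := by ring
    obtain ⟨hQge2, hnum1, hnum2⟩ := hQ2 Q ((le_max_right _ _).trans hQ)
    obtain ⟨D, hD1, hD2⟩ := hQ1 Q ((le_max_left _ _).trans hQ) X hX
    have hm1 : 1 ≤ Q ^ 4 := Nat.one_le_pow _ _ (by omega)
    have hm2 : 2 ≤ Q ^ 4 := by
      calc 2 ≤ Q := hQge2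
        _ = Q ^ 1 := (pow_one _).symm
        _ ≤ Q ^ 4 := Nat.pow_le_pow_right (by omega) (by norm_num)
    have hM1 : 1 ≤ Q ^ (2 * β) := Nat.one_le_pow _ _ (by omega)
    refine ⟨D.step (Q ^ (2 * β)) hm1 hM1, ?_, fun ι _ f hf => ?_⟩
    · show Fintype.card (D.V × Fin (Q ^ (2 * β))) ≤ _
      rw [Fintype.card_prod, Fintype.card_fin, pow_add]
      exact Nat.mul_le_mul_right _ hD1
    have hQr : (2 : ℝ) ≤ Q := by exact_mod_cast hQge2
    have hQ0 : (0 : ℝ) < Q := by linarith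
    have hcardV : Fintype.card (D.V × Fin (Q ^ (2 * β))) ≤ Q ^ (E1 + 2 * β) := by
      rw [Fintype.card_prod, Fintype.card_fin, pow_add]
      exact Nat.mul_le_mul_right _ hD1
    have hst := stage (X := D.V) (M := Q ^ (2 * β)) (m := Q ^ 4) (d := d) (w := w) (w' := w1)
      (K1 := (Q ^ 4) ^ (w ^ 2 + 1)) (B := Q ^ β) (by omega) hf hm2
      ((Nat.pow_le_pow_left (by gcongr) _).trans hnum1)
      (Nat.pow_le_pow_right (by omega) (by omega))
    set NP : ℝ := ((Fintype.card (D.A × D.N) : ℕ) : ℝ) with hNP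
    set NQ : ℝ := ((Fintype.card ((D.V → Fin (Q ^ (2 * β))) × (Sym2 (D.V × Fin (Q ^ (2 * β))) → Fin (Q ^ 4))) : ℕ) : ℝ) with hNQ
    set δ : ℝ := (3 * (((Q ^ β : ℕ) : ℝ) / ((Q ^ (2 * β) : ℕ) : ℝ)) ^ (w1 + 1) +
        ((Q ^ (E1 + 2 * β) + 1 : ℕ) : ℝ) ^ w * 2 ^ (w ^ 2) *
        (1 - (1 / ((Q ^ 4 : ℕ) : ℝ)) ^ (w ^ 2)) ^ ((Q ^ 4) ^ (w ^ 2 + 1))) with hδ
    have hbad : (#(univ.filter (fun q : (D.V → Fin (Q ^ (2 * β))) × (Sym2 (D.V × Fin (Q ^ (2 * β))) → Fin (Q ^ 4)) =>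
        ¬ Sys d w1 (fun i H => f i (ext1 q.1 q.2 H)))) : ℝ) ≤ (Fintype.card ι : ℝ) * (δ * NQ) := by
      refine hst.trans ?_
      apply mul_le_mul_of_nonneg_left _ (Nat.cast_nonneg _)
      apply mul_le_mul_of_nonneg_right _ (Nat.cast_nonneg _)
      rw [hδ]
      have hx1 : (1 / ((Q ^ 4 : ℕ) : ℝ)) ^ (w ^ 2) ≤ 1 := by
        apply pow_le_one₀ (by positivity)
        rw [div_le_one (by positivity)]
        exact_mod_cast hm1
      have h5 : (0 : ℝ) ≤ (1 - (1 / ((Q ^ 4 : ℕ) : ℝ)) ^ (w ^ 2)) ^ ((Q ^ 4) ^ (w ^ 2 + 1)) :=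
        pow_nonneg (by linarith) _
      have h6 : ((Fintype.card (D.V × Fin (Q ^ (2 * β))) + 1 : ℕ) : ℝ) ≤ ((Q ^ (E1 + 2 * β) + 1 : ℕ) : ℝ) := by
        exact_mod_cast Nat.succ_le_succ hcardV
      gcongr
    have key : (#(univ.filter (fun p : (D.A × (D.V → Fin (Q ^ (2 * β)))) ×
        (D.N × (Sym2 (D.V × Fin (Q ^ (2 * β))) → Fin (Q ^ 4))) =>
          ¬ ∀ i, Jun W (fun H => f i (ext1 p.1.2 p.2.2 (D.ext p.1.1 p.2.1 H))))) : ℝ) *
        (Q : ℝ) ^ (c * (E1 + 2 * β)) ≤ (Fintype.card ι : ℝ) * Fintype.card ((D.A × (D.V → Fin (Q ^ (2 * β)))) ×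
        (D.N × (Sym2 (D.V × Fin (Q ^ (2 * β))) → Fin (Q ^ 4)))) := by
      rw [card_quad]
      have hone : ∀ q : (D.V → Fin (Q ^ (2 * β))) × (Sym2 (D.V × Fin (Q ^ (2 * β))) → Fin (Q ^ 4)),
          (#(univ.filter (fun x : D.A × D.N => ¬ ∀ i, Jun W (fun H =>
            f i (ext1 q.1 q.2 (D.ext x.1 x.2 H))))) : ℝ) ≤
          (Fintype.card ι : ℝ) * NP / (Q : ℝ) ^ ((c * C1 + 1) * E1) +
            (if ¬ Sys d w1 (fun i H => f i (ext1 q.1 q.2 H)) then NP else 0) := by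
        intro q
        by_cases hsys : Sys d w1 (fun i H => f i (ext1 q.1 q.2 H))
        · rw [if_neg (not_not.2 hsys), add_zero, le_div_iff₀ (by positivity)]
          exact hD2 ι (fun i H => f i (ext1 q.1 q.2 H)) hsys
        · rw [if_pos hsys]
          have h1 : (#(univ.filter (fun x : D.A × D.N => ¬ ∀ i, Jun W (fun H =>
            f i (ext1 q.1 q.2 (D.ext x.1 x.2 H))))) : ℝ) ≤ NP := by
            rw [hNP]
            exact_mod_cast Finset.card_le_univ _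
          have h2 : 0 ≤ (Fintype.card ι : ℝ) * NP / (Q : ℝ) ^ ((c * C1 + 1) * E1) := by positivity
          linarith
      have hsum : ((∑ q : (D.V → Fin (Q ^ (2 * β))) × (Sym2 (D.V × Fin (Q ^ (2 * β))) → Fin (Q ^ 4)),
          #(univ.filter (fun x : D.A × D.N => ¬ ∀ i, Jun W (fun H =>
            f i (ext1 q.1 q.2 (D.ext x.1 x.2 H))))) : ℕ) : ℝ) ≤
          NQ * ((Fintype.card ι : ℝ) * NP / (Q : ℝ) ^ ((c * C1 + 1) * E1)) + (Fintype.card ι : ℝ) * (δ * NQ) * NP := by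
        push_cast
        refine (Finset.sum_le_sum fun q _ => hone q).trans ?_
        rw [Finset.sum_add_distrib, Finset.sum_const, nsmul_eq_mul, Finset.card_univ,
          ← Finset.sum_filter, Finset.sum_const, nsmul_eq_mul]
        exact add_le_add (le_refl _) (mul_le_mul_of_nonneg_right hbad (Nat.cast_nonneg _))
      have hcardt : (Fintype.card ((D.A × (D.V → Fin (Q ^ (2 * β)))) ×
        (D.N × (Sym2 (D.V × Fin (Q ^ (2 * β))) → Fin (Q ^ 4)))) : ℝ) = NP * NQ := by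
        rw [hNP, hNQ]
        simp only [Fintype.card_prod]
        push_cast
        ring
      rw [hcardt]
      have hQc : (0 : ℝ) < (Q : ℝ) ^ (c * (E1 + 2 * β)) := by positivity
      have hratio : (Q : ℝ) ^ (c * (E1 + 2 * β)) / (Q : ℝ) ^ ((c * C1 + 1) * E1) ≤ 1 / 2 := by
        rw [div_le_iff₀ (by positivity)]
        have h1 : (Q : ℝ) ^ (c * (E1 + 2 * β) + 1) ≤ (Q : ℝ) ^ ((c * C1 + 1) * E1) := by
          apply pow_le_pow_right₀ (by linarith)
          have h2 : c * (E1 + 2 * β) ≤ c * (C1 * E1) := Nat.mul_le_mul_left _ hE₀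
          have h3 : 1 ≤ E1 := hE.trans hE1
          nlinarith
        rw [pow_succ] at h1
        nlinarith
      calc _ ≤ (NQ * ((Fintype.card ι : ℝ) * NP / (Q : ℝ) ^ ((c * C1 + 1) * E1)) + (Fintype.card ι : ℝ) * (δ * NQ) * NP) *
            (Q : ℝ) ^ (c * (E1 + 2 * β)) := mul_le_mul_of_nonneg_right hsum hQc.le
        _ = (Fintype.card ι : ℝ) * (NP * NQ) * ((Q : ℝ) ^ (c * (E1 + 2 * β)) / (Q : ℝ) ^ ((c * C1 + 1) * E1) +
            δ * (Q : ℝ) ^ (c * (E1 + 2 * β))) := by ring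
        _ ≤ (Fintype.card ι : ℝ) * (NP * NQ) * (1 / 2 + 1 / 2) := by
            apply mul_le_mul_of_nonneg_left _ (by positivity)
            exact add_le_add hratio hnum2
        _ = _ := by ring
    exact key

end Pool.Agent.H29.Nz
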