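import Mathlib

/-!
Symmetric circuits on graphs: definitions.
-/

namespace Pool.Agent.H29

/-- What a gate does. An `input e φ` gate reads the bit `is e an edge of the graph` and outputs `φ` of
that bit. An `op F ch` gate has, for every wire label `l`, a finite set `ch l` of gates that feed it
through a wire labelled `l`; it outputs `F` applied to the family (indexed by the labels) of the
multisets of the values of these gates, that is, an arbitrary function that is symmetric in the
inputs carrying the same label. -/
inductive GateDesc (V α L Γ : Type) : Type
  | input (e : Sym2 V) (φ : Bool → α) : GateDesc V α L Γ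
  | op (F : (L → Multiset α) → α) (ch : L → Finset Γ) : GateDesc V α L Γ

/-- Relabelling of a gate description by a permutation `π` of the vertices and a permutation `σ`
of the gates. -/
def GateDesc.map {V α L Γ : Type} (π : Equiv.Perm V) (σ : Equiv.Perm Γ) :
    GateDesc V α L Γ → GateDesc V α L Γ
  | .input e φ => .input (e.map π) φ
  | .op F ch => .op F (fun l => (ch l).map σ.toEmbedding)

/-- Is the gate an operation gate (not an input gate)? -/
def GateDesc.IsOp {V α L Γ : Type} : GateDesc V α L Γ → Prop
  | .input _ _ => False
  | .op _ _ => True

/-- Circuits on graphs with vertex set `V`, values in `α`, wire labels in `L` and gates `Γ`. -/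
structure Circuit (V α L Γ : Type) : Type where
  /-- the gates -/
  desc : Γ → GateDesc V α L Γ
  /-- a rank function witnessing that the circuit is acyclic -/
  rank : Γ → ℕ
  rank_lt : ∀ g F ch, desc g = .op F ch → ∀ l, ∀ h ∈ ch l, rank h < rank g
  /-- the output gate -/
  out : Γ
  /-- the accepting values -/
  accept : Set α

namespace Circuit

variable {V α L Γ : Type}

open Classical in
/-- The value of a gate on a graph. -/
noncomputable def eval (C : Circuit V α L Γ) (G : SimpleGraph V) (g : Γ) : α :=
  match h : C.desc g with
  | .input e φ => φ (decide (e ∈ G.edgeSet))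
  | .op F ch => F (fun l => (ch l).attach.val.map (fun x => C.eval G x.1))
termination_by C.rank g
decreasing_by exact C.rank_lt g F ch h l x.1 x.2

/-- `(π, σ)` is an automorphism of the circuit: the permutation `σ` of the gates maps every gate to a
gate with the correspondingly relabelled description, and fixes the output gate. -/
def IsAut (C : Circuit V α L Γ) (π : Equiv.Perm V) (σ : Equiv.Perm Γ) : Prop :=
  (∀ g, C.desc (σ g) = (C.desc g).map π σ) ∧ σ C.out = C.out

/-- The circuit is symmetric on `M`: every permutation of the vertices that fixes all vertices
outside `M` extends to an automorphism of the circuit. -/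
def SymmetricOn (C : Circuit V α L Γ) (M : Finset V) : Prop :=
  ∀ π : Equiv.Perm V, (∀ v ∉ M, π v = v) → ∃ σ : Equiv.Perm Γ, C.IsAut π σ

/-- The circuit decides a property of graphs on `V`. -/
def Decides (C : Circuit V α L Γ) (P : SimpleGraph V → Prop) : Prop :=
  ∀ G : SimpleGraph V, C.eval G C.out ∈ C.accept ↔ P G

/-- The number of operation gates. -/
noncomputable def numOps (C : Circuit V α L Γ) : ℕ := Nat.card {g : Γ // (C.desc g).IsOp}

open Classical in
theorem eval_input (C : Circuit V α L Γ) (G : SimpleGraph V) (g : Γ) {e : Sym2 V}
    {φ : Bool → α} (h : C.desc g = .input e φ) :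
    C.eval G g = φ (decide (e ∈ G.edgeSet)) := by
  rw [eval]
  split
  · rename_i e' φ' h'
    rw [h] at h'
    cases h'
    rfl
  · rename_i F ch h'
    rw [h] at h'
    cases h'

theorem eval_op (C : Circuit V α L Γ) (G : SimpleGraph V) (g : Γ)
    {F : (L → Multiset α) → α} {ch : L → Finset Γ} (h : C.desc g = .op F ch) :
    C.eval G g = F (fun l => (ch l).val.map (C.eval G)) := by
  rw [eval]
  split
  · rename_i e' φ' h'
    rw [h] at h'
    cases h'
  · rename_i F' ch' h'
    rw [h] at h'
    cases h'
    congr 1
    ext l : 1
    have := Multiset.attach_map_val' (ch l).val (C.eval G)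
    exact this

end Circuit

end Pool.Agent.H29
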