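import Mathlib

/-!
The twisted (Cai, Fürer, Immerman) graphs over the complete graph `K_k`.
-/

open Equiv Equiv.Perm Finset

namespace Pool.Agent.H29

/-- base vertex set -/
abbrev TW (k : ℕ) : Type := Fin k × (Fin k → ZMod 2)

/-- good base vertices: `(i, f)` with `f i = 0` and `∑ f = 0`. -/
def Good {k : ℕ} (w : TW k) : Prop := w.2 w.1 = 0 ∧ ∑ j, w.2 j = 0

/-- base graph with twist `t` -/
def baseGraph {k : ℕ} (t : Sym2 (Fin k) → ZMod 2) : SimpleGraph (TW k) where
  Adj a b := a.1 ≠ b.1 ∧ Good a ∧ Good b ∧ a.2 b.1 + b.2 a.1 = t s(a.1, b.1)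
  symm := ⟨by
    rintro a b ⟨h1, h2, h3, h4⟩
    refine ⟨h1.symm, h3, h2, ?_⟩
    rw [add_comm, h4, Sym2.eq_swap]⟩
  loopless := ⟨by
    rintro a ⟨h, _⟩
    exact h rfl⟩

/-- single twist -/
def single {k : ℕ} (i j : Fin k) : Sym2 (Fin k) → ZMod 2 := fun e => if e = s(i, j) then 1 else 0

theorem single_comm {k : ℕ} (i j : Fin k) : single i j = single j i := by
  unfold single
  rw [Sym2.eq_swap]

/-- translation by `v` on part `i` -/
def flipFun {k : ℕ} (i : Fin k) (v : Fin k → ZMod 2) (w : TW k) : TW k :=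
  if w.1 = i then (w.1, w.2 + v) else w

theorem add_self_zmod2 {k : ℕ} (v : Fin k → ZMod 2) : v + v = 0 := by
  ext j
  simp [CharTwo.add_self_eq_zero]

theorem flipFun_involutive {k : ℕ} (i : Fin k) (v : Fin k → ZMod 2) :
    Function.Involutive (flipFun i v) := by
  rintro ⟨a, f⟩
  unfold flipFun
  by_cases h : a = i
  · simp [h, add_assoc, add_self_zmod2]
  · simp [h]

def flipPerm {k : ℕ} (i : Fin k) (v : Fin k → ZMod 2) : Perm (TW k) :=
  (flipFun_involutive i v).toPerm

theorem flipPerm_apply {k : ℕ} (i : Fin k) (v : Fin k → ZMod 2) (w : TW k) :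
    flipPerm i v w = if w.1 = i then (w.1, w.2 + v) else w := rfl

theorem flipPerm_add {k : ℕ} (i : Fin k) (u v : Fin k → ZMod 2) :
    flipPerm i (u + v) = flipPerm i u * flipPerm i v := by
  ext1 w
  rw [Perm.mul_apply, flipPerm_apply, flipPerm_apply, flipPerm_apply]
  by_cases h : w.1 = i
  · simp only [h, if_true]
    rw [add_assoc, add_comm v u]
  · simp [h]

/-- coordinate swap on functions -/
def coordSwap {k : ℕ} (j j' : Fin k) : Perm (TW k) where
  toFun w := (w.1, fun l => w.2 (swap j j' l))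
  invFun w := (w.1, fun l => w.2 (swap j j' l))
  left_inv w := by ext <;> simp
  right_inv w := by ext <;> simp

theorem coordSwap_apply {k : ℕ} (j j' : Fin k) (w : TW k) :
    coordSwap j j' w = (w.1, fun l => w.2 (swap j j' l)) := rfl

theorem sign_flip {k : ℕ} (i j j' : Fin k) :
    sign (flipPerm i (Pi.single j 1 + Pi.single j' 1)) = 1 := by
  rw [flipPerm_add, map_mul]
  have h : flipPerm i (Pi.single j' (1 : ZMod 2)) =
      coordSwap j j' * flipPerm i (Pi.single j 1) * (coordSwap j j')⁻¹ := by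
    rw [eq_mul_inv_iff_mul_eq]
    ext1 w
    rw [Perm.mul_apply, Perm.mul_apply, flipPerm_apply, flipPerm_apply, coordSwap_apply,
      coordSwap_apply]
    obtain ⟨a, f⟩ := w
    by_cases ha : a = i
    · simp only [ha, if_true]
      refine Prod.ext rfl ?_
      ext l
      simp only [Pi.add_apply, Pi.single_apply]
      have : (swap j j' l = j) ↔ (l = j') := by
        constructor
        · intro hh
          have := congrArg (swap j j') hh
          simpa using this
        · rintro rfl; simp
      simp only [this]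
    · simp [ha]
  rw [h, map_mul, map_mul, map_inv, mul_comm (sign (coordSwap j j')), mul_assoc, mul_inv_cancel,
    mul_one]
  rcases Int.units_eq_one_or (sign (flipPerm i (Pi.single j (1 : ZMod 2)))) with h | h <;> rw [h] <;> rfl

section
variable {M : Type*} [Fintype M] [DecidableEq M] {k : ℕ} (ι : TW k ↪ M)

/-- twisted graph on `M` -/
def cfi (t : Sym2 (Fin k) → ZMod 2) : SimpleGraph M := (baseGraph t).map ι

theorem cfi_adj (t : Sym2 (Fin k) → ZMod 2) (x y : M) : (cfi ι t).Adj x y ↔
    ∃ a b : TW k, ι a = x ∧ ι b = y ∧ (baseGraph t).Adj a b := by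
  unfold cfi
  rw [SimpleGraph.map_adj]
  constructor
  · rintro ⟨a, b, h, h1, h2⟩; exact ⟨a, b, h1, h2, h⟩
  · rintro ⟨a, b, h1, h2, h⟩; exact ⟨a, b, h, h1, h2⟩

theorem cfi_adj_image (t : Sym2 (Fin k) → ZMod 2) (a b : TW k) :
    (cfi ι t).Adj (ι a) (ι b) ↔ (baseGraph t).Adj a b := by
  unfold cfi
  exact SimpleGraph.map_adj_apply

open Classical in
/-- part of a vertex of `M` -/
noncomputable def part (x : M) : Option (Fin k) :=
  if h : ∃ w, ι w = x then some h.choose.1 else none

theorem part_image (w : TW k) : part ι (ι w) = some w.1 := by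
  unfold part
  have h : ∃ w', ι w' = ι w := ⟨w, rfl⟩
  rw [dif_pos h]
  rw [ι.injective h.choose_spec]

theorem part_eq_some {x : M} {i : Fin k} (h : part ι x = some i) : ∃ f, ι (i, f) = x := by
  unfold part at h
  split_ifs at h with h'
  have h1 : h'.choose.1 = i := Option.some_injective _ h
  refine ⟨h'.choose.2, ?_⟩
  have h2 := h'.choose_spec
  rw [← h1]
  exact h2

/-- flip on `M` -/
def flipM (i j j' : Fin k) : Perm M :=
  (flipPerm i (Pi.single j 1 + Pi.single j' 1)).viaFintypeEmbedding ι

theorem flipM_sign (i j j' : Fin k) : sign (flipM ι i j j') = 1 := by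
  unfold flipM
  rw [viaFintypeEmbedding_sign, sign_flip]

theorem flipM_image (i j j' : Fin k) (w : TW k) :
    flipM ι i j j' (ι w) = ι (flipPerm i (Pi.single j 1 + Pi.single j' 1) w) := by
  unfold flipM
  rw [Equiv.Perm.viaFintypeEmbedding_apply_image]

theorem flipM_notMem (i j j' : Fin k) {x : M} (hx : ¬ ∃ w, ι w = x) : flipM ι i j j' x = x := by
  unfold flipM
  apply Equiv.Perm.viaFintypeEmbedding_apply_notMem_range
  rintro ⟨w, hw⟩
  exact hx ⟨w, hw⟩

theorem flipM_fix (i j j' : Fin k) {x : M} (hx : part ι x ≠ some i) : flipM ι i j j' x = x := by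
  by_cases h : ∃ w, ι w = x
  · obtain ⟨w, rfl⟩ := h
    rw [flipM_image, flipPerm_apply, if_neg]
    intro hh
    rw [part_image, hh] at hx
    exact hx rfl
  · exact flipM_notMem ι i j j' h

theorem part_flipM (i j j' : Fin k) (x : M) : part ι (flipM ι i j j' x) = part ι x := by
  by_cases h : ∃ w, ι w = x
  · obtain ⟨w, rfl⟩ := h
    rw [flipM_image, part_image, part_image, flipPerm_apply]
    split_ifs <;> rfl
  · rw [flipM_notMem ι i j j' h]

theorem good_flip {i j j' : Fin k} (hj : j ≠ i) (hj' : j' ≠ i) (w : TW k) :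
    Good (flipPerm i (Pi.single j 1 + Pi.single j' 1) w) ↔ Good w := by
  rw [flipPerm_apply]
  split_ifs with h
  · unfold Good
    simp only [Pi.add_apply, Finset.sum_add_distrib]
    rw [h, Pi.single_eq_of_ne hj.symm, Pi.single_eq_of_ne hj'.symm]
    simp only [Finset.sum_pi_single', Finset.mem_univ, if_true, add_zero]
    rw [CharTwo.add_self_eq_zero, add_zero]
  · rfl

theorem single_left {i j b : Fin k} : single i j s(i, b) = if b = j then 1 else 0 := by
  unfold single
  simp only [Sym2.congr_right]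

theorem single_of_ne {i j a b : Fin k} (ha : a ≠ i) (hb : b ≠ i) : single i j s(a, b) = 0 := by
  unfold single
  rw [if_neg]
  intro h
  have : i ∈ s(a, b) := by rw [h]; exact Sym2.mem_mk_left i j
  rw [Sym2.mem_iff] at this
  rcases this with h | h
  · exact ha h.symm
  · exact hb h.symm

theorem flip_fst (i j j' : Fin k) (w : TW k) :
    (flipPerm i (Pi.single j 1 + Pi.single j' 1) w).1 = w.1 := by
  rw [flipPerm_apply]; split_ifs <;> rfl

theorem flip_snd_of_eq {i j j' : Fin k} {w : TW k} (h : w.1 = i) :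
    (flipPerm i (Pi.single j 1 + Pi.single j' 1) w).2 =
      w.2 + (Pi.single j 1 + Pi.single j' 1) := by
  rw [flipPerm_apply, if_pos h]

theorem flip_snd_of_ne {i j j' : Fin k} {w : TW k} (h : w.1 ≠ i) :
    (flipPerm i (Pi.single j 1 + Pi.single j' 1) w).2 = w.2 := by
  rw [flipPerm_apply, if_neg h]

theorem aux_zmod {i j j' b : Fin k} (hjj : j ≠ j') (x y : ZMod 2) :
    x + ((Pi.single j (1 : ZMod 2) + Pi.single j' 1 : Fin k → ZMod 2) b) + y =
      single i j s(i, b) ↔ x + y = single i j' s(i, b) := by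
  rw [single_left, single_left, Pi.add_apply, Pi.single_apply, Pi.single_apply]
  by_cases h1 : b = j
  · have h2 : ¬ b = j' := fun h => hjj (h1.symm.trans h)
    simp only [h1, if_true, hjj, if_false]
    revert x y; decide
  · by_cases h2 : b = j'
    · simp only [h2, if_true, Ne.symm hjj, if_false]
      revert x y; decide
    · simp only [h1, h2, if_false]
      revert x y; decide

theorem baseGraph_flip {i j j' : Fin k} (hj : j ≠ i) (hj' : j' ≠ i) (hjj : j ≠ j') (a b : TW k) :
    (baseGraph (single i j)).Adj (flipPerm i (Pi.single j 1 + Pi.single j' 1) a)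
      (flipPerm i (Pi.single j 1 + Pi.single j' 1) b) ↔ (baseGraph (single i j')).Adj a b := by
  change (_ ≠ _ ∧ _ ∧ _ ∧ _) ↔ (_ ≠ _ ∧ _ ∧ _ ∧ _)
  rw [good_flip hj hj', good_flip hj hj', flip_fst, flip_fst]
  refine and_congr_right fun hab => and_congr_right fun _ => and_congr_right fun _ => ?_
  by_cases ha : a.1 = i
  · have hb : b.1 ≠ i := fun h => hab (ha.trans h.symm)
    rw [flip_snd_of_eq ha, flip_snd_of_ne hb, ha, Pi.add_apply]
    exact aux_zmod hjj _ _
  · by_cases hb : b.1 = i
    · rw [flip_snd_of_ne ha, flip_snd_of_eq hb, hb, Sym2.eq_swap, Pi.add_apply,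
        add_comm (a.2 i), add_comm (a.2 i)]
      exact aux_zmod hjj _ _
    · rw [flip_snd_of_ne ha, flip_snd_of_ne hb, single_of_ne ha hb, single_of_ne ha hb]

theorem cfi_flip {i j j' : Fin k} (hj : j ≠ i) (hj' : j' ≠ i) (hjj : j ≠ j') :
    (cfi ι (single i j)).comap (flipM ι i j j') = cfi ι (single i j') := by
  ext x y
  rw [SimpleGraph.comap_adj]
  by_cases hx : ∃ w, ι w = x
  · by_cases hy : ∃ w, ι w = y
    · obtain ⟨a, rfl⟩ := hx
      obtain ⟨b, rfl⟩ := hy
      rw [flipM_image, flipM_image, cfi_adj_image, cfi_adj_image, baseGraph_flip hj hj' hjj]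
    · rw [flipM_notMem ι i j j' hy, cfi_adj, cfi_adj]
      constructor
      · rintro ⟨a, b, _, h, _⟩; exact absurd ⟨b, h⟩ hy
      · rintro ⟨a, b, _, h, _⟩; exact absurd ⟨b, h⟩ hy
  · rw [flipM_notMem ι i j j' hx, cfi_adj, cfi_adj]
    constructor
    · rintro ⟨a, b, h, _, _⟩; exact absurd ⟨a, h⟩ hx
    · rintro ⟨a, b, h, _, _⟩; exact absurd ⟨a, h⟩ hx

/-- away from part `i` the graphs agree -/
theorem cfi_adj_congr {i j : Fin k} {x y : M} (hx : part ι x ≠ some i) (hy : part ι y ≠ some i) :
    (cfi ι 0).Adj x y ↔ (cfi ι (single i j)).Adj x y := by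
  rw [cfi_adj, cfi_adj]
  have key : ∀ a b : TW k, ι a = x → ι b = y →
      ((baseGraph 0).Adj a b ↔ (baseGraph (single i j)).Adj a b) := by
    rintro a b rfl rfl
    rw [part_image] at hx hy
    have ha : a.1 ≠ i := fun h => hx (by rw [h])
    have hb : b.1 ≠ i := fun h => hy (by rw [h])
    change (_ ≠ _ ∧ _ ∧ _ ∧ _) ↔ (_ ≠ _ ∧ _ ∧ _ ∧ _)
    rw [single_of_ne ha hb]
    rfl
  constructor
  · rintro ⟨a, b, h1, h2, h3⟩; exact ⟨a, b, h1, h2, (key a b h1 h2).1 h3⟩
  · rintro ⟨a, b, h1, h2, h3⟩; exact ⟨a, b, h1, h2, (key a b h1 h2).2 h3⟩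

/-- the untwisted graph has a `k`-clique -/
theorem cfi_zero_clique : ∃ s : Finset M, (cfi ι 0).IsNClique k s := by
  classical
  refine ⟨Finset.univ.map ⟨fun i : Fin k => ι (i, 0), ?_⟩, ?_, ?_⟩
  · intro i j h
    exact congrArg Prod.fst (ι.injective h)
  · intro x hx y hy hxy
    simp only [Finset.coe_map, Function.Embedding.coeFn_mk, Finset.coe_univ, Set.image_univ,
      Set.mem_range] at hx hy
    obtain ⟨i, rfl⟩ := hx
    obtain ⟨j, rfl⟩ := hy
    change (cfi ι 0).Adj (ι (i, 0)) (ι (j, 0))
    rw [cfi_adj_image]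
    refine ⟨?_, ?_, ?_, ?_⟩
    · rintro h
      apply hxy
      simp only at h
      rw [h]
    · simp [Good]
    · simp [Good]
    · simp
  · simp

theorem double_sum_zmod2 (F : Fin k → Fin k → ZMod 2) (t : Sym2 (Fin k) → ZMod 2)
    (hdiag : ∀ a, F a a = 0) (hF : ∀ a b, a ≠ b → F a b + F b a = t s(a, b)) :
    ∑ a, ∑ b, F a b = ∑ a, ∑ b, if a < b then t s(a, b) else 0 := by
  have h1 : ∀ a b, F a b = (if a < b then F a b else 0) + (if b < a then F a b else 0) := by
    intro a b
    rcases lt_trichotomy a b with h | h | h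
    · simp [h, not_lt_of_gt h]
    · subst h; simp [hdiag]
    · simp [h, not_lt_of_gt h]
  have h2 : ∑ a, ∑ b, F a b = ∑ a, ∑ b, (if a < b then F a b else 0) +
      ∑ a, ∑ b, (if b < a then F a b else 0) := by
    rw [← Finset.sum_add_distrib]
    apply Finset.sum_congr rfl
    intro a _
    rw [← Finset.sum_add_distrib]
    apply Finset.sum_congr rfl
    intro b _
    exact h1 a b
  rw [h2, Finset.sum_comm (f := fun a b => if b < a then F a b else 0), ← Finset.sum_add_distrib]
  apply Finset.sum_congr rfl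
  intro a _
  rw [← Finset.sum_add_distrib]
  apply Finset.sum_congr rfl
  intro b _
  by_cases h : a < b
  · simp only [h, if_true]; exact hF a b h.ne
  · simp [h]

theorem sum_single {i j : Fin k} (hij : i ≠ j) :
    (∑ a, ∑ b, if a < b then single i j s(a, b) else 0) = (1 : ZMod 2) := by
  have key : ∀ i j : Fin k, i < j →
      (∑ a, ∑ b, if a < b then single i j s(a, b) else 0) = (1 : ZMod 2) := by
    intro i j hij
    rw [Finset.sum_eq_single i, Finset.sum_eq_single j]
    · simp [hij, single]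
    · intro b _ hb
      split_ifs with h
      · rw [single_left, if_neg hb]
      · rfl
    · intro h; exact absurd (Finset.mem_univ _) h
    · intro a _ ha
      apply Finset.sum_eq_zero
      intro b _
      split_ifs with h
      · unfold single
        rw [if_neg]
        intro hh
        rw [Sym2.eq_iff] at hh
        rcases hh with ⟨h1, h2⟩ | ⟨h1, h2⟩
        · exact ha h1
        · rw [h1, h2] at h
          exact absurd h (not_lt_of_gt hij)
      · rfl
    · intro h; exact absurd (Finset.mem_univ _) h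
  rcases lt_or_gt_of_ne hij with h | h
  · exact key i j h
  · rw [single_comm]; exact key j i h

/-- the twisted graph has no `k`-clique -/
theorem cfi_single_no_clique (hk : 2 ≤ k) {i j : Fin k} (hij : i ≠ j) :
    ¬ ∃ s : Finset M, (cfi ι (single i j)).IsNClique k s := by
  classical
  rintro ⟨s, hs, hcard⟩
  -- every vertex of `s` is a good base vertex
  have hbase : ∀ x ∈ s, ∃ w : TW k, ι w = x := by
    intro x hx
    obtain ⟨y, hy, hxy⟩ : ∃ y ∈ s, y ≠ x := by
      by_contra hcon
      push Not at hcon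
      have : s ⊆ {x} := fun y hy => Finset.mem_singleton.2 (hcon y hy)
      have := Finset.card_le_card this
      rw [hcard, Finset.card_singleton] at this
      omega
    have := hs hx hy hxy.symm
    rw [cfi_adj] at this
    obtain ⟨a, b, h1, _, _⟩ := this
    exact ⟨a, h1⟩
  have : Nonempty (TW k) := ⟨(i, 0)⟩
  choose! w hw using hbase
  have hadj : ∀ x ∈ s, ∀ y ∈ s, x ≠ y → (baseGraph (single i j)).Adj (w x) (w y) := by
    intro x hx y hy hxy
    have := hs hx hy hxy
    rw [← hw x hx, ← hw y hy, cfi_adj_image] at this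
    exact this
  have hinj : Set.InjOn (fun x => (w x).1) (s : Set M) := by
    intro x hx y hy hxy
    by_contra hne
    exact (hadj x hx y hy hne).1 hxy
  have himg : s.image (fun x => (w x).1) = Finset.univ := by
    apply Finset.eq_univ_of_card
    rw [Finset.card_image_of_injOn hinj, hcard, Fintype.card_fin]
  have hex : ∀ a : Fin k, ∃ x ∈ s, (w x).1 = a := by
    intro a
    have : a ∈ s.image (fun x => (w x).1) := by rw [himg]; exact Finset.mem_univ _
    simpa using this
  choose x hxs hxa using hex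
  have hne : ∀ a b, a ≠ b → x a ≠ x b := by
    intro a b hab h
    apply hab
    rw [← hxa a, ← hxa b, h]
  have hgood : ∀ a, Good (w (x a)) := by
    intro a
    obtain ⟨b, hb⟩ : ∃ b : Fin k, b ≠ a := by
      haveI : Nontrivial (Fin k) := Fin.nontrivial_iff_two_le.2 hk
      exact exists_ne a
    exact (hadj _ (hxs a) _ (hxs b) (hne a b hb.symm)).2.1
  let F : Fin k → Fin k → ZMod 2 := fun a b => (w (x a)).2 b
  have h1 := double_sum_zmod2 F (single i j) (by
    intro a
    have := (hgood a).1
    rw [hxa a] at this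
    exact this) (by
    intro a b hab
    have := (hadj _ (hxs a) _ (hxs b) (hne a b hab)).2.2.2
    rw [hxa a, hxa b] at this
    exact this)
  rw [sum_single hij] at h1
  have h2 : ∑ a, ∑ b, F a b = 0 := by
    apply Finset.sum_eq_zero
    intro a _
    exact (hgood a).2
  rw [h2] at h1
  exact zero_ne_one h1

end

end Pool.Agent.H29
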