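import Mathlib

/-!
Counting lemma: two graphs `X0`, `X i j` that look alike through every window missing a part
are indistinguishable by averages of predicates with small alternating support.
-/

open Equiv Equiv.Perm Finset

namespace Pool.Agent.H29

section
variable {M : Type*} [Fintype M] [DecidableEq M]

/-- Number of permutations with prescribed sign, prescribed values on `E`, such that the pulled back
graph satisfies `p`. -/
noncomputable def cnt (p : SimpleGraph M → Prop) (X : SimpleGraph M) (s : ℤˣ) (E : Finset M)
    (χ : M → M) : ℕ := by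
  classical
  exact (Finset.univ.filter (fun ρ : Perm M =>
    sign ρ = s ∧ (∀ e ∈ E, ρ e = χ e) ∧ p (X.comap ρ))).card

theorem comap_mul (X : SimpleGraph M) (a b : Perm M) :
    X.comap (a * b : Perm M) = (X.comap a).comap b := by
  ext u v
  simp [SimpleGraph.comap_adj]

theorem cnt_split (p : SimpleGraph M → Prop) (X : SimpleGraph M) (s : ℤˣ) (E : Finset M)
    (χ : M → M) {y : M} (hy : y ∉ E) :
    cnt p X s E χ = ∑ v : M, cnt p X s (insert y E) (Function.update χ y v) := by
  classical
  unfold cnt
  rw [← Finset.card_biUnion]
  · congr 1
    ext ρ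
    simp only [Finset.mem_filter, Finset.mem_univ, true_and, Finset.mem_biUnion]
    constructor
    · rintro ⟨h1, h2, h3⟩
      refine ⟨ρ y, h1, ?_, h3⟩
      intro e he
      rcases Finset.mem_insert.1 he with rfl | he
      · simp
      · have : e ≠ y := fun h => hy (h ▸ he)
        rw [Function.update_of_ne this]
        exact h2 e he
    · rintro ⟨v, h1, h2, h3⟩
      refine ⟨h1, ?_, h3⟩
      intro e he
      have : e ≠ y := fun h => hy (h ▸ he)
      have := h2 e (Finset.mem_insert_of_mem he)
      rwa [Function.update_of_ne ‹e ≠ y›] at this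
  · intro v _ w _ hvw
    rw [Function.onFun, Finset.disjoint_left]
    intro ρ h1 h2
    simp only [Finset.mem_filter, Finset.mem_univ, true_and] at h1 h2
    have h3 := h1.2.1 y (Finset.mem_insert_self _ _)
    have h4 := h2.2.1 y (Finset.mem_insert_self _ _)
    simp only [Function.update_self] at h3 h4
    exact hvw (h3.symm.trans h4)

/-- pulling back by an even permutation `τ` -/
theorem cnt_comap (p : SimpleGraph M → Prop) (X : SimpleGraph M) (s : ℤˣ) (E : Finset M)
    (χ χ' : M → M) (τ : Perm M) (hτ : sign τ = 1) (h : ∀ e ∈ E, χ' e = τ (χ e)) :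
    cnt p (X.comap τ) s E χ = cnt p X s E χ' := by
  classical
  unfold cnt
  apply Finset.card_bij (fun ρ _ => τ * ρ)
  · intro ρ hρ
    simp only [Finset.mem_filter, Finset.mem_univ, true_and] at hρ ⊢
    refine ⟨by rw [map_mul, hτ, one_mul]; exact hρ.1, ?_, ?_⟩
    · intro e he
      rw [Perm.mul_apply, hρ.2.1 e he, h e he]
    · rw [comap_mul]; exact hρ.2.2
  · intro a _ b _ hab
    exact mul_left_cancel hab
  · intro ρ hρ
    simp only [Finset.mem_filter, Finset.mem_univ, true_and] at hρ
    refine ⟨τ⁻¹ * ρ, ?_, by group⟩
    simp only [Finset.mem_filter, Finset.mem_univ, true_and]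
    refine ⟨by rw [map_mul, map_inv, hτ, inv_one, one_mul]; exact hρ.1, ?_, ?_⟩
    · intro e he
      rw [Perm.mul_apply, hρ.2.1 e he, h e he]
      simp
    · rw [← comap_mul]
      have : τ * (τ⁻¹ * ρ) = ρ := by group
      rw [this]; exact hρ.2.2

/-- pulling back the other side by an even permutation preserving `p`. -/
theorem cnt_swap (p : SimpleGraph M → Prop) (X : SimpleGraph M) (s : ℤˣ) (E E' : Finset M)
    (χ χ' : M → M) (κ : Perm M) (hκ : sign κ = 1) (hp : ∀ G, p (G.comap κ) ↔ p G)
    (h : ∀ ρ : Perm M, (∀ e ∈ E, ρ e = χ e) ↔ (∀ e ∈ E', (ρ * κ) e = χ' e)) :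
    cnt p X s E χ = cnt p X s E' χ' := by
  classical
  unfold cnt
  apply Finset.card_bij (fun ρ _ => ρ * κ)
  · intro ρ hρ
    simp only [Finset.mem_filter, Finset.mem_univ, true_and] at hρ ⊢
    refine ⟨by rw [map_mul, hκ, mul_one]; exact hρ.1, (h ρ).1 hρ.2.1, ?_⟩
    rw [comap_mul, hp]; exact hρ.2.2
  · intro a _ b _ hab
    exact mul_right_cancel hab
  · intro ρ hρ
    simp only [Finset.mem_filter, Finset.mem_univ, true_and] at hρ
    refine ⟨ρ * κ⁻¹, ?_, by group⟩
    simp only [Finset.mem_filter, Finset.mem_univ, true_and]
    have h1 : ρ * κ⁻¹ * κ = ρ := by group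
    refine ⟨by rw [map_mul, map_inv, hκ, inv_one, mul_one]; exact hρ.1, ?_, ?_⟩
    · rw [h, h1]; exact hρ.2.1
    · rw [← hp, ← comap_mul, h1]; exact hρ.2.2

variable {k : ℕ} (pt : M → Option (Fin k)) (X0 : SimpleGraph M)
  (X : Fin k → Fin k → SimpleGraph M)
  (hsymm : ∀ i j, X i j = X j i)
  (hflip : ∀ i j j', j ≠ i → j' ≠ i → j ≠ j' → ∃ τ : Perm M, sign τ = 1 ∧
    (∀ x, pt x ≠ some i → τ x = x) ∧ (∀ x, pt (τ x) = pt x) ∧ (X i j).comap τ = X i j')
  (p : SimpleGraph M → Prop) (Y : Finset M) (hY : Y.card < k)
  (hinv : ∀ κ : Perm M, sign κ = 1 → (∀ y ∈ Y, κ y = y) → ∀ G, p (G.comap κ) ↔ p G)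
  (hloc : ∀ ρ : Perm M, ∀ i, (∀ y ∈ Y, pt (ρ y) ≠ some i) → ∀ j, j ≠ i →
    (p (X0.comap ρ) ↔ p ((X i j).comap ρ)))

include hsymm hflip hY hloc in
theorem cnt_eq_of_subset (s : ℤˣ) (n : ℕ) : ∀ (E : Finset M), E ⊆ Y → (Y \ E).card = n →
    ∀ (χ : M → M) (i : Fin k), (∀ e ∈ E, pt (χ e) ≠ some i) → ∀ j, j ≠ i →
    cnt p X0 s E χ = cnt p (X i j) s E χ := by
  classical
  induction n with
  | zero =>
    intro E hEY hcard χ i hi j hj
    have hEeq : E = Y := by
      apply Finset.Subset.antisymm hEY
      rw [Finset.card_eq_zero, Finset.sdiff_eq_empty_iff_subset] at hcard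
      exact hcard
    subst hEeq
    unfold cnt
    congr 1
    ext ρ
    simp only [Finset.mem_filter, Finset.mem_univ, true_and]
    constructor
    · rintro ⟨h1, h2, h3⟩
      refine ⟨h1, h2, (hloc ρ i ?_ j hj).1 h3⟩
      intro y hy; rw [h2 y hy]; exact hi y hy
    · rintro ⟨h1, h2, h3⟩
      refine ⟨h1, h2, (hloc ρ i ?_ j hj).2 h3⟩
      intro y hy; rw [h2 y hy]; exact hi y hy
  | succ n ih =>
    intro E hEY hcard χ i hi j hj
    obtain ⟨y, hy⟩ : (Y \ E).Nonempty := by
      rw [← Finset.card_pos]; omega
    rw [Finset.mem_sdiff] at hy
    have hyE : insert y E ⊆ Y := by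
      intro z hz
      rcases Finset.mem_insert.1 hz with rfl | hz
      · exact hy.1
      · exact hEY hz
    have hcard' : (Y \ insert y E).card = n := by
      have h1 : Y \ insert y E = (Y \ E).erase y := by
        ext z
        simp only [Finset.mem_sdiff, Finset.mem_insert, Finset.mem_erase]
        tauto
      rw [h1, Finset.card_erase_of_mem (Finset.mem_sdiff.2 hy)]
      omega
    have hEcard : E.card + 1 < k := by
      have h1 := Finset.card_le_card hyE
      rw [Finset.card_insert_of_notMem hy.2] at h1
      omega
    -- another missing part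
    obtain ⟨i', hi'i, hi'⟩ : ∃ i' : Fin k, i' ≠ i ∧ ∀ e ∈ E, pt (χ e) ≠ some i' := by
      by_contra hcon
      push Not at hcon
      have h1 : (Finset.univ : Finset (Option (Fin k))) ⊆
          insert none (insert (some i) (E.image (fun e => pt (χ e)))) := by
        intro z _
        cases z with
        | none => simp
        | some z =>
          by_cases hz : z = i
          · simp [hz]
          · obtain ⟨e, he, h2⟩ := hcon z hz
            simp only [Finset.mem_insert, Finset.mem_image]
            right; right
            exact ⟨e, he, h2⟩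
      have h2 := Finset.card_le_card h1
      have h3 := Finset.card_insert_le none (insert (some i) (E.image (fun e => pt (χ e))))
      have h4 := Finset.card_insert_le (some i) (E.image (fun e => pt (χ e)))
      have h5 : (E.image (fun e => pt (χ e))).card ≤ E.card := Finset.card_image_le
      rw [Finset.card_univ, Fintype.card_option, Fintype.card_fin] at h2
      omega
    rw [cnt_split p X0 s E χ hy.2, cnt_split p (X i j) s E χ hy.2]
    rw [← Finset.sum_filter_add_sum_filter_not Finset.univ (fun v => pt v = some i)
      (fun v => cnt p X0 s (insert y E) (Function.update χ y v))]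
    rw [← Finset.sum_filter_add_sum_filter_not Finset.univ (fun v => pt v = some i)
      (fun v => cnt p (X i j) s (insert y E) (Function.update χ y v))]
    congr 1
    · -- part i
      have hstep : ∀ v, pt v = some i →
          cnt p X0 s (insert y E) (Function.update χ y v) =
          cnt p (X i i') s (insert y E) (Function.update χ y v) := by
        intro v hv
        rw [hsymm i i']
        apply ih _ hyE hcard' _ _ _ _ (Ne.symm hi'i)
        intro e he
        rcases Finset.mem_insert.1 he with rfl | he
        · rw [Function.update_self, hv]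
          intro h; exact hi'i (Option.some_injective _ h).symm
        · have : e ≠ y := fun h => hy.2 (h ▸ he)
          rw [Function.update_of_ne this]
          exact hi' e he
      by_cases hji' : j = i'
      · subst hji'
        apply Finset.sum_congr rfl
        intro v hv
        simp only [Finset.mem_filter, Finset.mem_univ, true_and] at hv
        exact hstep v hv
      · obtain ⟨τ, hτ1, hτ2, hτ3, hτ4⟩ := hflip i j i' hj hi'i hji'
        apply Finset.sum_bij (fun v _ => τ v)
        · intro v hv
          simp only [Finset.mem_filter, Finset.mem_univ, true_and] at hv ⊢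
          rw [hτ3, hv]
        · intro a _ b _ hab
          exact τ.injective hab
        · intro b hb
          simp only [Finset.mem_filter, Finset.mem_univ, true_and] at hb
          refine ⟨τ⁻¹ b, ?_, by simp⟩
          simp only [Finset.mem_filter, Finset.mem_univ, true_and]
          rw [← hτ3]; simpa using hb
        · intro v hv
          simp only [Finset.mem_filter, Finset.mem_univ, true_and] at hv
          rw [hstep v hv, ← hτ4]
          apply cnt_comap p (X i j) s _ _ _ τ hτ1
          intro e he
          rcases Finset.mem_insert.1 he with rfl | he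
          · rw [Function.update_self, Function.update_self]
          · have : e ≠ y := fun h => hy.2 (h ▸ he)
            rw [Function.update_of_ne this, Function.update_of_ne this]
            exact (hτ2 _ (hi e he)).symm
    · apply Finset.sum_congr rfl
      intro v hv
      simp only [Finset.mem_filter, Finset.mem_univ, true_and] at hv
      apply ih _ hyE hcard' _ _ _ _ hj
      intro e he
      rcases Finset.mem_insert.1 he with rfl | he
      · rw [Function.update_self]; exact hv
      · have : e ≠ y := fun h => hy.2 (h ▸ he)
        rw [Function.update_of_ne this]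
        exact hi e he

/-- non-injective data gives count zero -/
theorem cnt_eq_zero (p : SimpleGraph M → Prop) (X : SimpleGraph M) (s : ℤˣ) (E : Finset M)
    (χ : M → M) {a b : M} (ha : a ∈ E) (hb : b ∈ E) (hab : a ≠ b) (h : χ a = χ b) :
    cnt p X s E χ = 0 := by
  classical
  unfold cnt
  rw [Finset.card_eq_zero, Finset.filter_eq_empty_iff]
  rintro ρ _ ⟨_, h2, _⟩
  apply hab
  apply ρ.injective
  rw [h2 a ha, h2 b hb, h]

/-- splitting according to the preimage of a point -/
theorem cnt_split_preimage (p : SimpleGraph M → Prop) (X : SimpleGraph M) (s : ℤˣ) (E : Finset M)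
    (χ : M → M) (v : M) (hv : ∀ e ∈ E, χ e ≠ v) :
    cnt p X s E χ = ∑ z ∈ Eᶜ, cnt p X s (insert z E) (Function.update χ z v) := by
  classical
  unfold cnt
  rw [← Finset.card_biUnion]
  · congr 1
    ext ρ
    simp only [Finset.mem_filter, Finset.mem_univ, true_and, Finset.mem_biUnion,
      Finset.mem_compl]
    constructor
    · rintro ⟨h1, h2, h3⟩
      refine ⟨ρ⁻¹ v, ?_, h1, ?_, h3⟩
      · intro hE
        have := h2 _ hE
        apply hv _ hE
        rw [← this]; simp
      · intro e he
        by_cases hev : e = ρ⁻¹ v
        · subst hev; simp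
        · rw [Function.update_of_ne hev]
          rcases Finset.mem_insert.1 he with h | he
          · exact absurd h hev
          · exact h2 e he
    · rintro ⟨z, hz, h1, h2, h3⟩
      refine ⟨h1, ?_, h3⟩
      intro e he
      have hez : e ≠ z := fun h => hz (h ▸ he)
      have := h2 e (Finset.mem_insert_of_mem he)
      rwa [Function.update_of_ne hez] at this
  · intro z _ w _ hzw
    rw [Function.onFun, Finset.disjoint_left]
    intro ρ h1 h2
    simp only [Finset.mem_filter, Finset.mem_univ, true_and] at h1 h2
    have h3 := h1.2.1 z (Finset.mem_insert_self _ _)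
    have h4 := h2.2.1 w (Finset.mem_insert_self _ _)
    simp only [Function.update_self] at h3 h4
    exact hzw (ρ.injective (h3.trans h4.symm))

include hsymm hflip hY hinv hloc in
theorem cnt_eq (hM : 2 * k + 2 ≤ Fintype.card M) (s : ℤˣ) (n : ℕ) : ∀ (E : Finset M),
    E.card < k → (E \ Y).card = n →
    ∀ (χ : M → M) (i : Fin k), (∀ e ∈ E, pt (χ e) ≠ some i) → ∀ j, j ≠ i →
    cnt p X0 s E χ = cnt p (X i j) s E χ := by
  classical
  induction n with
  | zero =>
    intro E _ hcard χ i hi j hj
    rw [Finset.card_eq_zero, Finset.sdiff_eq_empty_iff_subset] at hcard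
    exact cnt_eq_of_subset pt X0 X hsymm hflip p Y hY hloc s _ E hcard rfl χ i hi j hj
  | succ n ih =>
    intro E hEk hcard χ i hi j hj
    obtain ⟨y, hy⟩ : (E \ Y).Nonempty := by
      rw [← Finset.card_pos]; omega
    rw [Finset.mem_sdiff] at hy
    set E' := E.erase y with hE'
    have hins : insert y E' = E := Finset.insert_erase hy.1
    have hyE' : y ∉ E' := Finset.notMem_erase y E
    have hE'card : E'.card + 1 = E.card := Finset.card_erase_add_one hy.1
    have hE'Y : (E' \ Y).card = n := by
      have h1 : E' \ Y = (E \ Y).erase y := by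
        ext z
        simp only [hE', Finset.mem_sdiff, Finset.mem_erase]
        tauto
      rw [h1, Finset.card_erase_of_mem (Finset.mem_sdiff.2 hy)]
      omega
    by_cases hinj : ∀ e ∈ E', χ e ≠ χ y
    swap
    · push Not at hinj
      obtain ⟨e, he, hey⟩ := hinj
      have heE : e ∈ E := Finset.mem_of_mem_erase he
      have hne : e ≠ y := Finset.ne_of_mem_erase he
      rw [cnt_eq_zero p X0 s E χ heE hy.1 hne hey, cnt_eq_zero p (X i j) s E χ heE hy.1 hne hey]
    -- main identity
    have hident : ∀ G : SimpleGraph M, cnt p G s E' χ =
        ∑ z ∈ Y \ E', cnt p G s (insert z E') (Function.update χ z (χ y)) +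
        (Y ∪ E')ᶜ.card * cnt p G s E χ := by
      intro G
      rw [cnt_split_preimage p G s E' χ (χ y) hinj]
      have hdec : E'ᶜ = (Y \ E') ∪ (Y ∪ E')ᶜ := by
        ext z
        simp only [Finset.mem_compl, Finset.mem_union, Finset.mem_sdiff]
        tauto
      rw [hdec, Finset.sum_union]
      · congr 1
        rw [← smul_eq_mul, ← Finset.sum_const]
        apply Finset.sum_congr rfl
        intro z hz
        simp only [Finset.mem_compl, Finset.mem_union, not_or] at hz
        by_cases hzy : z = y
        · rw [hzy, hins]
          congr 1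
          exact Function.update_eq_self y χ
        · -- choose two more points
          have hsmall : (insert z (insert y (Y ∪ E'))).card ≤ 2 * k - 1 := by
            have h1 := Finset.card_insert_le z (insert y (Y ∪ E'))
            have h2 := Finset.card_insert_le y (Y ∪ E')
            have h3 := Finset.card_union_le Y E'
            omega
          have hlarge : 1 < ((insert z (insert y (Y ∪ E')))ᶜ).card := by
            rw [Finset.card_compl]; omega
          obtain ⟨c, hc, d, hd, hcd⟩ := Finset.one_lt_card.1 hlarge
          simp only [Finset.mem_compl, Finset.mem_insert, Finset.mem_union, not_or] at hc hd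
          have hyz : y ≠ z := Ne.symm hzy
          let κ : Perm M := swap y z * swap c d
          have hκfix : ∀ w, w ≠ y → w ≠ z → w ≠ c → w ≠ d → κ w = w := by
            intro w h1 h2 h3 h4
            simp only [κ, Perm.mul_apply]
            rw [swap_apply_of_ne_of_ne h3 h4, swap_apply_of_ne_of_ne h1 h2]
          have hκy : κ y = z := by
            simp only [κ, Perm.mul_apply]
            rw [swap_apply_of_ne_of_ne (fun h => hc.2.1 h.symm) (fun h => hd.2.1 h.symm),
              swap_apply_left]
          have hκz : κ z = y := by
            simp only [κ, Perm.mul_apply]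
            rw [swap_apply_of_ne_of_ne (fun h => hc.1 h.symm) (fun h => hd.1 h.symm),
              swap_apply_right]
          have hκs : sign κ = 1 := by
            simp only [κ, map_mul]
            rw [sign_swap hyz, sign_swap hcd]; simp
          have hκY : ∀ w ∈ Y, κ w = w := by
            intro w hw
            apply hκfix
            · exact fun h => hy.2 (h ▸ hw)
            · exact fun h => hz.1 (h ▸ hw)
            · exact fun h => hc.2.2.1 (h ▸ hw)
            · exact fun h => hd.2.2.1 (h ▸ hw)
          have hκE' : ∀ w ∈ E', κ w = w := by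
            intro w hw
            apply hκfix
            · exact fun h => hyE' (h ▸ hw)
            · exact fun h => hz.2 (h ▸ hw)
            · exact fun h => hc.2.2.2 (h ▸ hw)
            · exact fun h => hd.2.2.2 (h ▸ hw)
          apply cnt_swap p G s _ _ _ _ κ hκs (hinv κ hκs hκY)
          intro ρ
          rw [← hins]
          constructor
          · intro h e he
            rcases Finset.mem_insert.1 he with rfl | he
            · rw [Perm.mul_apply, hκy, h z (Finset.mem_insert_self _ _), Function.update_self]
            · have hez : e ≠ z := fun h => hz.2 (h ▸ he)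
              rw [Perm.mul_apply, hκE' e he, h e (Finset.mem_insert_of_mem he),
                Function.update_of_ne hez]
          · intro h e he
            rcases Finset.mem_insert.1 he with rfl | he
            · have := h y (Finset.mem_insert_self _ _)
              rw [Perm.mul_apply, hκy] at this
              rw [this, Function.update_self]
            · have hez : e ≠ z := fun h => hz.2 (h ▸ he)
              have := h e (Finset.mem_insert_of_mem he)
              rw [Perm.mul_apply, hκE' e he] at this
              rw [this, Function.update_of_ne hez]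
      · rw [Finset.disjoint_left]
        intro z hz hz'
        simp only [Finset.mem_compl, Finset.mem_union, Finset.mem_sdiff, not_or] at hz hz'
        exact hz'.1 hz.1
    have h0 := hident X0
    have h1 := hident (X i j)
    have hE'i : ∀ e ∈ E', pt (χ e) ≠ some i := fun e he => hi e (Finset.mem_of_mem_erase he)
    have h2 : cnt p X0 s E' χ = cnt p (X i j) s E' χ :=
      ih E' (by omega) hE'Y χ i hE'i j hj
    have h3 : ∑ z ∈ Y \ E', cnt p X0 s (insert z E') (Function.update χ z (χ y)) =
        ∑ z ∈ Y \ E', cnt p (X i j) s (insert z E') (Function.update χ z (χ y)) := by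
      apply Finset.sum_congr rfl
      intro z hz
      rw [Finset.mem_sdiff] at hz
      apply ih _ _ _ _ i _ j hj
      · rw [Finset.card_insert_of_notMem hz.2]; omega
      · rw [Finset.insert_sdiff_of_mem _ hz.1]; exact hE'Y
      · intro e he
        by_cases hez : e = z
        · rw [hez, Function.update_self]; exact hi y hy.1
        · rw [Function.update_of_ne hez]
          rcases Finset.mem_insert.1 he with h | he
          · exact absurd h hez
          · exact hE'i e he
    have h4 : 0 < (Y ∪ E')ᶜ.card := by
      have h5 := Finset.card_union_le Y E'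
      rw [Finset.card_compl]; omega
    have h5 : (Y ∪ E')ᶜ.card * cnt p X0 s E χ = (Y ∪ E')ᶜ.card * cnt p (X i j) s E χ := by
      rw [h0, h1, h3] at h2
      exact Nat.add_left_cancel h2
    exact Nat.eq_of_mul_eq_mul_left h4 h5

end

end Pool.Agent.H29
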