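import Pool.Agent.H29.GroupIndex
import Pool.Agent.H29.TwistCount
import Pool.Agent.H29.Twist
import Pool.Agent.H29.SymCircuit

/-!
Lower bound for symmetric circuits deciding `k`-clique.
-/

open Equiv Equiv.Perm Finset

namespace Pool.Agent.H29

namespace Circuit

variable {V α L Γ : Type}

theorem mem_edgeSet_map (G : SimpleGraph V) (π : Perm V) (e : Sym2 V) :
    e.map π ∈ G.edgeSet ↔ e ∈ (G.comap π).edgeSet := by
  induction e using Sym2.ind with
  | _ u v => simp [SimpleGraph.mem_edgeSet, SimpleGraph.comap_adj]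

theorem eval_aut (C : Circuit V α L Γ) {π : Perm V} {σ : Perm Γ} (h : C.IsAut π σ)
    (G : SimpleGraph V) (n : ℕ) : ∀ g, C.rank g = n → C.eval G (σ g) = C.eval (G.comap π) g := by
  classical
  induction n using Nat.strong_induction_on with
  | _ n ih =>
    intro g hg
    have h1 := h.1 g
    cases hd : C.desc g with
    | input e φ =>
      rw [hd] at h1
      rw [C.eval_input G (σ g) h1, C.eval_input (G.comap π) g hd]
      congr 2
      exact propext (mem_edgeSet_map G π e)
    | op F ch =>
      rw [hd] at h1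
      rw [C.eval_op G (σ g) h1, C.eval_op (G.comap π) g hd]
      congr 1
      ext l : 1
      rw [Finset.map_val, Multiset.map_map]
      apply Multiset.map_congr rfl
      intro x hx
      exact ih (C.rank x) (hg ▸ C.rank_lt g F ch hd l x hx) x rfl

theorem IsAut.mul {C : Circuit V α L Γ} {π π' : Perm V} {σ σ' : Perm Γ} (h : C.IsAut π σ)
    (h' : C.IsAut π' σ') : C.IsAut (π * π') (σ * σ') := by
  refine ⟨fun g => ?_, ?_⟩
  · rw [Perm.mul_apply, h.1, h'.1]
    cases C.desc g with
    | input e φ =>
      simp only [GateDesc.map, Sym2.map_map, Perm.coe_mul]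
    | op F ch =>
      simp only [GateDesc.map]
      congr 1
      ext l : 1
      rw [Finset.map_map]
      rfl
  · rw [Perm.mul_apply, h'.2, h.2]

theorem IsAut.one {C : Circuit V α L Γ} : C.IsAut 1 1 := by
  refine ⟨fun g => ?_, rfl⟩
  rw [Perm.one_apply]
  cases C.desc g with
  | input e φ => simp [GateDesc.map]
  | op F ch =>
    simp only [GateDesc.map]
    congr 1
    ext l x
    rw [Finset.mem_map]
    constructor
    · intro hx; exact ⟨x, hx, rfl⟩
    · rintro ⟨y, hy, rfl⟩; exact hy

theorem IsAut.inv {C : Circuit V α L Γ} {π : Perm V} {σ : Perm Γ} (h : C.IsAut π σ) :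
    C.IsAut π⁻¹ σ⁻¹ := by
  refine ⟨fun g => ?_, ?_⟩
  · have h1 := h.1 (σ⁻¹ g)
    have h2 : σ (σ⁻¹ g) = g := by simp
    rw [h2] at h1
    rw [h1]
    cases C.desc (σ⁻¹ g) with
    | input e φ =>
      simp only [GateDesc.map, Sym2.map_map]
      have : (⇑π⁻¹ ∘ ⇑π) = id := by ext; simp
      rw [this, Sym2.map_id]
      rfl
    | op F ch =>
      simp only [GateDesc.map]
      congr 1
      ext l x
      rw [Finset.map_map, Finset.mem_map]
      constructor
      · intro hx; exact ⟨x, hx, by simp⟩
      · rintro ⟨y, hy, hxy⟩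
        have : y = x := by simpa using hxy
        exact this ▸ hy
  · have := h.2
    have h2 : σ⁻¹ (σ C.out) = C.out := by simp
    rw [this] at h2
    exact h2

end Circuit

section

variable {V α L Γ : Type} [DecidableEq V] (C : Circuit V α L Γ) (M : Finset V)

/-- a graph on `M` viewed as a graph on `V` -/
def lift (G : SimpleGraph M) : SimpleGraph V := G.map (Function.Embedding.subtype (· ∈ M))

theorem lift_adj {G : SimpleGraph M} {u v : V} : (lift M G).Adj u v ↔
    ∃ (hu : u ∈ M) (hv : v ∈ M), G.Adj ⟨u, hu⟩ ⟨v, hv⟩ := by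
  unfold lift
  rw [SimpleGraph.map_adj]
  constructor
  · rintro ⟨a, b, h, rfl, rfl⟩
    exact ⟨a.2, b.2, h⟩
  · rintro ⟨hu, hv, h⟩
    exact ⟨_, _, h, rfl, rfl⟩

theorem lift_comap (G : SimpleGraph M) (π : Perm M) :
    (lift M G).comap (ofSubtype π : Perm V) = lift M (G.comap π) := by
  ext u v
  rw [SimpleGraph.comap_adj, lift_adj, lift_adj]
  constructor
  · rintro ⟨hu, hv, h⟩
    have hu' : u ∈ M := (ofSubtype_apply_mem_iff_mem π u).1 hu
    have hv' : v ∈ M := (ofSubtype_apply_mem_iff_mem π v).1 hv
    refine ⟨hu', hv', ?_⟩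
    rw [SimpleGraph.comap_adj]
    convert! h using 1
    · exact Subtype.ext (ofSubtype_apply_of_mem π hu').symm
    · exact Subtype.ext (ofSubtype_apply_of_mem π hv').symm
  · rintro ⟨hu, hv, h⟩
    refine ⟨(ofSubtype_apply_mem_iff_mem π u).2 hu, (ofSubtype_apply_mem_iff_mem π v).2 hv, ?_⟩
    rw [SimpleGraph.comap_adj] at h
    convert! h using 1
    · exact Subtype.ext (ofSubtype_apply_of_mem π hu)
    · exact Subtype.ext (ofSubtype_apply_of_mem π hv)

/-- value of a gate on a graph on `M` -/
noncomputable def valM (g : Γ) (G : SimpleGraph M) : α := C.eval (lift M G) g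

theorem valM_aut {π : Perm M} {σ : Perm Γ} (h : C.IsAut (ofSubtype π) σ) (g : Γ)
    (G : SimpleGraph M) : valM C M (σ g) G = valM C M g (G.comap π) := by
  unfold valM
  rw [C.eval_aut h (lift M G) _ g rfl, lift_comap]

/-- the permutations of `M` above which some automorphism fixes the gate `g` -/
def gateStab (g : Γ) : Subgroup (Perm M) where
  carrier := {π | ∃ σ : Perm Γ, C.IsAut (ofSubtype π) σ ∧ σ g = g}
  mul_mem' := by
    rintro π π' ⟨σ, h, hg⟩ ⟨σ', h', hg'⟩
    refine ⟨σ * σ', ?_, ?_⟩
    · rw [map_mul]; exact h.mul h'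
    · rw [Perm.mul_apply, hg', hg]
  one_mem' := ⟨1, by rw [map_one]; exact Circuit.IsAut.one, rfl⟩
  inv_mem' := by
    rintro π ⟨σ, h, hg⟩
    refine ⟨σ⁻¹, ?_, ?_⟩
    · rw [map_inv]; exact h.inv
    · have h2 : σ⁻¹ (σ g) = g := by simp
      rw [hg] at h2
      exact h2

theorem mem_gateStab {g : Γ} {π : Perm M} :
    π ∈ gateStab C M g ↔ ∃ σ : Perm Γ, C.IsAut (ofSubtype π) σ ∧ σ g = g := Iff.rfl

theorem valM_of_mem {g : Γ} {π : Perm M} (h : π ∈ gateStab C M g) (G : SimpleGraph M) :
    valM C M g (G.comap π) = valM C M g G := by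
  obtain ⟨σ, h1, h2⟩ := h
  rw [← valM_aut C M h1, h2]

variable {k : ℕ} (ι : TW k ↪ M)

/-- The gate `g` behaves locally, with support `Y` of size `< k`. -/
def LocalOn (g : Γ) (Y : Finset M) : Prop := Y.card < k ∧
  (∀ κ : Perm M, sign κ = 1 → (∀ y ∈ Y, κ y = y) → ∀ G, valM C M g (G.comap κ) = valM C M g G) ∧
  (∀ ρ : Perm M, ∀ i : Fin k, (∀ y ∈ Y, part ι (ρ y) ≠ some i) → ∀ j, j ≠ i →
    valM C M g ((cfi ι 0).comap ρ) = valM C M g ((cfi ι (single i j)).comap ρ))

/-- The gate `g` behaves locally: it has a support of size `< k`. -/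
def LocalGate (g : Γ) : Prop := ∃ Y : Finset M, LocalOn C M ι g Y

theorem localGate_input (hk : 3 ≤ k) {g : Γ} {e : Sym2 V} {φ : Bool → α}
    (h : C.desc g = .input e φ) : LocalGate C M ι g := by
  classical
  induction e using Sym2.ind with
  | _ u v =>
    refine ⟨Finset.univ.filter (fun x : M => x.1 = u ∨ x.1 = v), ?_, ?_, ?_⟩
    · have : (Finset.univ.filter (fun x : M => x.1 = u ∨ x.1 = v)).card ≤ ({u, v} : Finset V).card := by
        apply Finset.card_le_card_of_injOn (fun x => x.1)
        · intro x hx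
          simp only [Finset.coe_filter, Finset.mem_univ, true_and, Set.mem_ofPred_eq] at hx
          simpa using hx
        · intro x _ y _ hxy
          exact Subtype.ext hxy
      have h2 : ({u, v} : Finset V).card ≤ 2 := Finset.card_le_two
      omega
    · intro κ _ hκ G
      unfold valM
      rw [C.eval_input _ g h, C.eval_input _ g h]
      congr 2
      simp only [SimpleGraph.mem_edgeSet]
      rw [lift_adj, lift_adj]
      apply propext
      have key : ∀ w (hw : w ∈ M), (w = u ∨ w = v) → κ ⟨w, hw⟩ = ⟨w, hw⟩ := by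
        intro w hw h1
        exact hκ ⟨w, hw⟩ (by simpa using h1)
      constructor
      · rintro ⟨hu, hv, h3⟩
        refine ⟨hu, hv, ?_⟩
        rw [SimpleGraph.comap_adj, key u hu (Or.inl rfl), key v hv (Or.inr rfl)] at h3
        exact h3
      · rintro ⟨hu, hv, h3⟩
        refine ⟨hu, hv, ?_⟩
        rw [SimpleGraph.comap_adj, key u hu (Or.inl rfl), key v hv (Or.inr rfl)]
        exact h3
    · intro ρ i hi j _
      unfold valM
      rw [C.eval_input _ g h, C.eval_input _ g h]
      congr 2
      simp only [SimpleGraph.mem_edgeSet]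
      rw [lift_adj, lift_adj]
      apply propext
      have key : ∀ (hu : u ∈ M) (hv : v ∈ M),
          (((cfi ι 0).comap ρ).Adj ⟨u, hu⟩ ⟨v, hv⟩ ↔
            ((cfi ι (single i j)).comap ρ).Adj ⟨u, hu⟩ ⟨v, hv⟩) := by
        intro hu hv
        rw [SimpleGraph.comap_adj, SimpleGraph.comap_adj]
        apply cfi_adj_congr
        · exact hi ⟨u, hu⟩ (by simp)
        · exact hi ⟨v, hv⟩ (by simp)
      constructor
      · rintro ⟨hu, hv, h3⟩; exact ⟨hu, hv, (key hu hv).1 h3⟩
      · rintro ⟨hu, hv, h3⟩; exact ⟨hu, hv, (key hu hv).2 h3⟩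

theorem localGate_op (hM : 2 * k + 2 ≤ M.card) {g : Γ} {F : (L → Multiset α) → α}
    {ch : L → Finset Γ} (hg : C.desc g = .op F ch)
    (hch : ∀ l, ∀ h ∈ ch l, LocalGate C M ι h)
    (Y : Finset M) (hY : Y.card < k)
    (hsupp : ∀ κ : Perm M, sign κ = 1 → (∀ y ∈ Y, κ y = y) → κ ∈ gateStab C M g) :
    LocalOn C M ι g Y := by
  classical
  refine ⟨hY, fun κ h1 h2 G => valM_of_mem C M (hsupp κ h1 h2) G, ?_⟩
  intro π i hi j hj
  unfold valM
  rw [C.eval_op _ g hg, C.eval_op _ g hg]
  congr 1
  ext l : 1
  -- compare multiplicities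
  ext a
  rw [Multiset.count_map, Multiset.count_map]
  let c : SimpleGraph M → ℕ := fun G => ((ch l).filter (fun h => a = valM C M h G)).card
  have hc : ∀ G : SimpleGraph M, (Multiset.filter (fun h => a = C.eval (lift M G) h) (ch l).val).card
      = c G := fun G => rfl
  rw [hc, hc]
  set K : Finset (Perm M) :=
    Finset.univ.filter (fun κ : Perm M => sign κ = 1 ∧ ∀ y ∈ Y, κ y = y) with hK
  have hKpos : 0 < K.card := by
    apply Finset.card_pos.2
    exact ⟨1, by simp [hK]⟩
  have hinv : ∀ κ ∈ K, ∀ G, c (G.comap κ) = c G := by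
    intro κ hκ G
    simp only [hK, Finset.mem_filter, Finset.mem_univ, true_and] at hκ
    obtain ⟨σ, h1, h2⟩ := hsupp κ hκ.1 hκ.2
    have h3 := h1.1 g
    rw [h2, hg] at h3
    simp only [GateDesc.map, GateDesc.op.injEq, true_and] at h3
    have h4 : ch l = (ch l).map σ.toEmbedding := congrFun h3 l
    change ((ch l).filter (fun h => a = valM C M h (G.comap κ))).card =
      ((ch l).filter (fun h => a = valM C M h G)).card
    conv_rhs => rw [h4]
    rw [Finset.filter_map, Finset.card_map]
    congr 1
    apply Finset.filter_congr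
    intro h _
    simp only [Function.comp_apply, Equiv.coe_toEmbedding]
    rw [valM_aut C M h1]
  have havg : ∀ X : SimpleGraph M, K.card * c (X.comap π) =
      ∑ h ∈ ch l, cnt (fun G => a = valM C M h G) X (sign π) Y π := by
    intro X
    have h1 : K.card * c (X.comap π) = ∑ κ ∈ K, c ((X.comap π).comap κ) := by
      rw [Finset.sum_congr rfl (fun κ hκ => hinv κ hκ (X.comap π)), Finset.sum_const, smul_eq_mul]
    rw [h1]
    have h2 : ∀ κ ∈ K, c ((X.comap π).comap κ) =
        ∑ h ∈ ch l, if a = valM C M h (X.comap (π * κ : Perm M)) then 1 else 0 := by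
      intro κ _
      rw [← comap_mul]
      exact Finset.card_filter _ _
    rw [Finset.sum_congr rfl h2, Finset.sum_comm]
    apply Finset.sum_congr rfl
    intro h _
    rw [← Finset.card_filter]
    unfold cnt
    apply Finset.card_bij (fun κ _ => π * κ)
    · intro κ hκ
      simp only [hK, Finset.mem_filter, Finset.mem_univ, true_and] at hκ ⊢
      refine ⟨by rw [map_mul, hκ.1.1, mul_one], ?_, hκ.2⟩
      intro y hy
      rw [Perm.mul_apply, hκ.1.2 y hy]
    · intro κ _ κ' _ hh
      exact mul_left_cancel hh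
    · intro ρ hρ
      simp only [Finset.mem_filter, Finset.mem_univ, true_and] at hρ
      refine ⟨π⁻¹ * ρ, ?_, by group⟩
      simp only [hK, Finset.mem_filter, Finset.mem_univ, true_and]
      refine ⟨⟨?_, ?_⟩, ?_⟩
      · rw [map_mul, map_inv, hρ.1, inv_mul_cancel]
      · intro y hy
        rw [Perm.mul_apply, hρ.2.1 y hy]; simp
      · have : π * (π⁻¹ * ρ) = ρ := by group
        rw [this]; exact hρ.2.2
  have hsum : ∑ h ∈ ch l, cnt (fun G => a = valM C M h G) (cfi ι 0) (sign π) Y π =
      ∑ h ∈ ch l, cnt (fun G => a = valM C M h G) (cfi ι (single i j)) (sign π) Y π := by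
    apply Finset.sum_congr rfl
    intro h hh
    obtain ⟨Y', hY', hinv', hloc'⟩ := hch l h hh
    apply cnt_eq (part ι) (cfi ι 0) (fun i j => cfi ι (single i j))
      (fun i j => by rw [single_comm])
      (fun i j j' h1 h2 h3 => ⟨flipM ι i j j', flipM_sign ι i j j',
        fun x hx => flipM_fix ι i j j' hx, fun x => part_flipM ι i j j' x,
        cfi_flip ι h1 h2 h3⟩)
      (fun G => a = valM C M h G) Y' hY'
      (fun κ h1 h2 G => by rw [hinv' κ h1 h2 G])
      (fun ρ i h1 j h2 => by rw [hloc' ρ i h1 j h2])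
      (by rw [Fintype.card_coe]; exact hM) (sign π) _ Y hY rfl π i hi j hj
  have h1 := havg (cfi ι 0)
  have h2 := havg (cfi ι (single i j))
  rw [hsum, ← h2] at h1
  exact Nat.eq_of_mul_eq_mul_left hKpos h1

theorem lift_clique_iff {G : SimpleGraph M} (hk : 2 ≤ k) :
    (∃ s : Finset V, (lift M G).IsNClique k s) ↔ ∃ s : Finset M, G.IsNClique k s := by
  classical
  constructor
  · rintro ⟨s, hs, hc⟩
    have hsM : ∀ x ∈ s, x ∈ M := by
      intro x hx
      obtain ⟨y, hy, hxy⟩ : ∃ y ∈ s, y ≠ x := by
        by_contra hcon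
        push Not at hcon
        have : s ⊆ {x} := fun y hy => Finset.mem_singleton.2 (hcon y hy)
        have := Finset.card_le_card this
        rw [hc, Finset.card_singleton] at this
        omega
      have := hs hx hy hxy.symm
      rw [lift_adj] at this
      exact this.1
    refine ⟨s.attach.map ⟨fun x => ⟨x.1, hsM x.1 x.2⟩, ?_⟩, ?_, ?_⟩
    · intro x y h
      have h1 : x.1 = y.1 := congrArg (fun z : M => z.1) h
      exact Subtype.ext h1
    · intro x hx y hy hxy
      simp only [Finset.coe_map, Set.mem_image] at hx hy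
      obtain ⟨x', _, rfl⟩ := hx
      obtain ⟨y', _, rfl⟩ := hy
      have hne : x'.1 ≠ y'.1 := fun h => hxy (by ext; exact h)
      have := hs x'.2 y'.2 hne
      rw [lift_adj] at this
      obtain ⟨_, _, h⟩ := this
      exact h
    · simp [hc]
  · rintro ⟨s, hs, hc⟩
    refine ⟨s.map (Function.Embedding.subtype _), ?_, ?_⟩
    · intro x hx y hy hxy
      simp only [Finset.coe_map, Function.Embedding.coe_subtype, Set.mem_image] at hx hy
      obtain ⟨x', hx', rfl⟩ := hx
      obtain ⟨y', hy', rfl⟩ := hy
      rw [lift_adj]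
      exact ⟨x'.2, y'.2, hs hx' hy' (fun h => hxy (by rw [h]))⟩
    · simp [hc]

theorem exists_embedding (hk : 3 ≤ k) (hM : 16 ^ k ≤ M.card) : Nonempty (TW k ↪ M) := by
  apply Function.Embedding.nonempty_of_card_le
  rw [Fintype.card_coe, Fintype.card_prod, Fintype.card_fun, Fintype.card_fin, ZMod.card]
  refine le_trans ?_ hM
  calc k * 2 ^ k ≤ 2 ^ k * 2 ^ k := Nat.mul_le_mul_right _ (Nat.lt_two_pow_self).le
    _ = 4 ^ k := by rw [← mul_pow]; norm_num
    _ ≤ 16 ^ k := Nat.pow_le_pow_left (by norm_num) k

theorem two_mul_add_two_le (hk : 3 ≤ k) : 2 * k + 2 ≤ 16 ^ k := by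
  induction k, hk using Nat.le_induction with
  | base => norm_num
  | succ n hn ih => rw [pow_succ]; omega

/-- **Lower bound.** A circuit that is symmetric on a set `M` of at least `16 ^ k` vertices and decides
whether a graph has a `k`-clique has more than `choose |M| k` operation gates. -/
theorem lower_bound [Fintype Γ] (hk : 3 ≤ k) (hM : 16 ^ k ≤ M.card) (hsym : C.SymmetricOn M)
    (hdec : C.Decides (fun G => ∃ s, G.IsNClique k s)) : M.card.choose k + 1 ≤ C.numOps := by
  classical
  obtain ⟨ι⟩ := exists_embedding M hk hM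
  have hk2 : 2 ≤ k := by omega
  -- the two graphs are separated by the circuit
  have hsep : ∀ i j : Fin k, i ≠ j →
      valM C M C.out (cfi ι 0) ≠ valM C M C.out (cfi ι (single i j)) := by
    intro i j hij heq
    have h1 := (hdec (lift M (cfi ι 0))).2 ((lift_clique_iff M hk2).2 (cfi_zero_clique ι))
    have h2 := mt (hdec (lift M (cfi ι (single i j)))).1
      (mt (lift_clique_iff M hk2).1 (cfi_single_no_clique ι hk2 hij))
    apply h2
    unfold valM at heq
    rw [← heq]
    exact h1
  have hext : ∀ π : Perm M, ∃ σ : Perm Γ, C.IsAut (ofSubtype π) σ := by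
    intro π
    exact hsym _ (fun v hv => ofSubtype_apply_of_not_mem _ hv)
  -- the output gate is an operation gate
  have hout : (C.desc C.out).IsOp := by
    cases hd : C.desc C.out with
    | op F ch => trivial
    | input e φ =>
      exfalso
      obtain ⟨Y, hY, _, hloc⟩ := localGate_input C M ι hk hd
      -- choose a missing part
      obtain ⟨i, hi⟩ : ∃ i : Fin k, ∀ y ∈ Y, part ι y ≠ some i := by
        by_contra hcon
        push Not at hcon
        choose f hf1 hf2 using hcon
        have : Function.Injective f := by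
          intro a b hab
          have h1 := hf2 a
          have h2 := hf2 b
          rw [hab, h2] at h1
          exact (Option.some_injective _ h1).symm
        have h3 := Finset.card_le_card_of_injOn f (s := Finset.univ) (t := Y)
          (fun a _ => hf1 a) (fun a _ b _ h => this h)
        rw [Finset.card_univ, Fintype.card_fin] at h3
        omega
      obtain ⟨j, hj⟩ : ∃ j : Fin k, j ≠ i := by
        have : Nontrivial (Fin k) := Fin.nontrivial_iff_two_le.2 hk2
        exact exists_ne i
      have := hloc 1 i (by simpa using hi) j hj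
      apply hsep i j hj.symm
      have h1 : ∀ X : SimpleGraph M, X.comap (1 : Perm M) = X := by
        intro X; ext u v; simp
      rw [h1, h1] at this
      exact this
  -- some operation gate has no small support
  obtain ⟨g₀, hg₀op, hg₀⟩ : ∃ g₀, (C.desc g₀).IsOp ∧ ¬ ∃ Y : Finset M, Y.card < k ∧
      ∀ κ : Perm M, sign κ = 1 → (∀ y ∈ Y, κ y = y) → κ ∈ gateStab C M g₀ := by
    by_contra hcon
    push Not at hcon
    have hM2 : 2 * k + 2 ≤ M.card := le_trans (two_mul_add_two_le hk) hM
    have hall : ∀ n, ∀ g, C.rank g = n → LocalGate C M ι g := by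
      intro n
      induction n using Nat.strong_induction_on with
      | _ n ih =>
        intro g hg
        cases hd : C.desc g with
        | input e φ => exact localGate_input C M ι hk hd
        | op F ch =>
          obtain ⟨Y, hY, hsupp⟩ := hcon g (by rw [hd]; trivial)
          exact ⟨Y, localGate_op C M ι hM2 hd
            (fun l h hh => ih (C.rank h) (hg ▸ C.rank_lt g F ch hd l h hh) h rfl) Y hY hsupp⟩
    -- the output gate with empty support
    cases hd : C.desc C.out with
    | input e φ => rw [hd] at hout; exact hout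
    | op F ch =>
      have hfull : ∀ κ : Perm M, κ ∈ gateStab C M C.out := by
        intro κ
        obtain ⟨σ, hσ⟩ := hext κ
        exact ⟨σ, hσ, hσ.2⟩
      have hloc := localGate_op C M ι hM2 hd (fun l h _ => hall _ h rfl) ∅
        (by rw [Finset.card_empty]; omega) (fun κ _ _ => hfull κ)
      have hnt : Nontrivial (Fin k) := Fin.nontrivial_iff_two_le.2 hk2
      obtain ⟨i, j, hij⟩ := exists_pair_ne (Fin k)
      have h2 := hloc.2.2 1 i (by simp) j hij.symm
      have h1 : ∀ X : SimpleGraph M, X.comap (1 : Perm M) = X := by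
        intro X; ext u v; simp
      rw [h1, h1] at h2
      exact hsep i j hij h2
  have hidx : M.card.choose k ≤ (gateStab C M g₀).index := by
    by_contra hlt
    push Not at hlt
    apply hg₀
    exact exists_support_of_index_lt hk (by rw [Fintype.card_coe]; exact hM) _
      (by rw [Fintype.card_coe]; exact hlt)
  have hne_out : g₀ ≠ C.out := by
    rintro rfl
    apply hg₀
    refine ⟨∅, by rw [Finset.card_empty]; omega, ?_⟩
    intro κ _ _
    obtain ⟨σ, hσ⟩ := hext κ
    exact ⟨σ, hσ, hσ.2⟩
  choose σ hσ using hext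
  let f : Option (Perm M ⧸ gateStab C M g₀) → {g : Γ // (C.desc g).IsOp} := fun q =>
    match q with
    | none => ⟨C.out, hout⟩
    | some q => ⟨σ q.out g₀, by
        rw [(hσ q.out).1 g₀]
        cases hd : C.desc g₀ with
        | input e φ => rw [hd] at hg₀op; exact hg₀op.elim
        | op F ch => trivial⟩
  have hf : Function.Injective f := by
    intro q q' h
    match q, q', h with
    | none, none, _ => rfl
    | none, some q', h =>
      exfalso
      have h1 : C.out = σ q'.out g₀ := congrArg Subtype.val h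
      apply hne_out
      apply (σ q'.out).injective
      rw [← h1, (hσ q'.out).2]
    | some q, none, h =>
      exfalso
      have h1 : σ q.out g₀ = C.out := congrArg Subtype.val h
      apply hne_out
      apply (σ q.out).injective
      rw [h1, (hσ q.out).2]
    | some q, some q', h =>
      have h1 : σ q.out g₀ = σ q'.out g₀ := congrArg Subtype.val h
      have h2 : q.out⁻¹ * q'.out ∈ gateStab C M g₀ := by
        refine ⟨(σ q.out)⁻¹ * σ q'.out, ?_, ?_⟩
        · rw [map_mul, map_inv]
          exact ((hσ q.out).inv).mul (hσ q'.out)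
        · rw [Perm.mul_apply, ← h1]; simp
      have h3 : (QuotientGroup.mk q.out : Perm M ⧸ gateStab C M g₀) = QuotientGroup.mk q'.out :=
        QuotientGroup.eq.2 h2
      rw [QuotientGroup.out_eq', QuotientGroup.out_eq'] at h3
      rw [h3]
  have hcard := Nat.card_le_card_of_injective f hf
  unfold Circuit.numOps
  refine le_trans ?_ hcard
  rw [Finite.card_option]
  exact Nat.add_le_add_right hidx 1

end

end Pool.Agent.H29
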