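import Pool.Agent.H29.SymCircuit

/-!
The brute force circuit for `k`-clique.
-/

open Equiv Equiv.Perm Finset

namespace Pool.Agent.H29

/-- AND gate (unlabelled wires, Boolean values). -/
noncomputable def andFn : (Unit → Multiset Bool) → Bool := fun m => by
  classical
  exact decide (∀ b ∈ m (), b = true)

/-- OR gate (unlabelled wires, Boolean values). -/
noncomputable def orFn : (Unit → Multiset Bool) → Bool := fun m => by
  classical
  exact decide (∃ b ∈ m (), b = true)

section

variable (V : Type) [Fintype V] [DecidableEq V] (k : ℕ)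

/-- gates of the brute force circuit -/
abbrev BFGate : Type := Sym2 V ⊕ Option {s : Finset V // s.card = k}

/-- the conjunction gates of the brute force circuit -/
def andGate : {s : Finset V // s.card = k} ↪ BFGate V k :=
  ⟨fun s => Sum.inr (some s), by
    intro s t h
    have h1 := Sum.inr_injective h
    exact Option.some_injective _ h1⟩

theorem andGate_apply (s : {s : Finset V // s.card = k}) : andGate V k s = Sum.inr (some s) := rfl

/-- gate descriptions of the brute force circuit -/
noncomputable def bfDesc : BFGate V k → GateDesc V Bool Unit (BFGate V k)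
  | .inl e => .input e id
  | .inr (some s) => .op andFn (fun _ => (s.1.sym2.filter (fun e => ¬ e.IsDiag)).map ⟨Sum.inl, Sum.inl_injective⟩)
  | .inr none => .op orFn (fun _ => Finset.univ.map (andGate V k))

/-- rank function of the brute force circuit -/
def bfRank : BFGate V k → ℕ
  | .inl _ => 0
  | .inr (some _) => 1
  | .inr none => 2

/-- the brute force circuit -/
noncomputable def bfCircuit : Circuit V Bool Unit (BFGate V k) where
  desc := bfDesc V k
  rank := bfRank V k
  rank_lt := by
    intro g F ch h l x hx
    match g, h with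
    | .inl e, h => simp [bfDesc] at h
    | .inr (some s), h =>
      simp only [bfDesc, GateDesc.op.injEq] at h
      rw [← h.2] at hx
      simp only [Finset.mem_map, Function.Embedding.coeFn_mk] at hx
      obtain ⟨e, _, rfl⟩ := hx
      simp [bfRank]
    | .inr none, h =>
      simp only [bfDesc, GateDesc.op.injEq] at h
      rw [← h.2] at hx
      simp only [Finset.mem_map] at hx
      obtain ⟨e, _, rfl⟩ := hx
      rw [andGate_apply]
      simp [bfRank]
  out := .inr none
  accept := {true}

theorem bf_eval_input (G : SimpleGraph V) (e : Sym2 V) :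
    (bfCircuit V k).eval G (.inl e) = true ↔ e ∈ G.edgeSet := by
  classical
  have h : (bfCircuit V k).desc (.inl e) = .input e id := rfl
  rw [Circuit.eval_input _ G _ h]
  simp

theorem bf_eval_and (G : SimpleGraph V) (s : {s : Finset V // s.card = k}) :
    (bfCircuit V k).eval G (.inr (some s)) = true ↔ G.IsNClique k s.1 := by
  classical
  have h : (bfCircuit V k).desc (.inr (some s)) = .op andFn (fun _ =>
    (s.1.sym2.filter (fun e => ¬ e.IsDiag)).map ⟨Sum.inl, Sum.inl_injective⟩) := rfl
  rw [Circuit.eval_op _ G _ h]
  unfold andFn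
  rw [decide_eq_true_iff]
  simp only [Multiset.mem_map, Finset.mem_val, Finset.mem_map, Function.Embedding.coeFn_mk]
  constructor
  · intro h1
    refine ⟨?_, s.2⟩
    intro x hx y hy hxy
    have h2 := h1 ((bfCircuit V k).eval G (.inl s(x, y))) ⟨Sum.inl s(x, y), ⟨s(x, y), by
      simp only [Finset.mem_filter, Finset.mk_mem_sym2_iff]
      exact ⟨⟨hx, hy⟩, by simpa using hxy⟩, rfl⟩, rfl⟩
    rw [bf_eval_input] at h2
    exact h2
  · rintro h1 b ⟨_, ⟨e, he, rfl⟩, rfl⟩
    rw [bf_eval_input]
    induction e using Sym2.ind with
    | _ x y =>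
      simp only [Finset.mem_filter, Finset.mk_mem_sym2_iff] at he
      exact h1.1 he.1.1 he.1.2 (by simpa using he.2)

theorem bf_decides : (bfCircuit V k).Decides (fun G => ∃ s, G.IsNClique k s) := by
  classical
  intro G
  have h : (bfCircuit V k).desc (.inr none) = .op orFn (fun _ => Finset.univ.map (andGate V k)) :=
    rfl
  change (bfCircuit V k).eval G (.inr none) = true ↔ _
  rw [Circuit.eval_op _ G _ h]
  unfold orFn
  rw [decide_eq_true_iff]
  simp only [Multiset.mem_map, Finset.mem_val, Finset.mem_map, Finset.mem_univ, true_and]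
  constructor
  · rintro ⟨b, ⟨_, ⟨s, rfl⟩, rfl⟩, hb⟩
    rw [andGate_apply, bf_eval_and] at hb
    exact ⟨_, hb⟩
  · rintro ⟨s, hs⟩
    refine ⟨_, ⟨_, ⟨⟨s, hs.2⟩, rfl⟩, rfl⟩, ?_⟩
    rw [andGate_apply, bf_eval_and]
    exact hs

/-- gate permutation induced by a vertex permutation -/
noncomputable def bfPerm (π : Perm V) : Perm (BFGate V k) where
  toFun g := match g with
    | .inl e => .inl (e.map π)
    | .inr (some s) => .inr (some ⟨s.1.map π.toEmbedding, by rw [Finset.card_map]; exact s.2⟩)
    | .inr none => .inr none
  invFun g := match g with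
    | .inl e => .inl (e.map π.symm)
    | .inr (some s) => .inr (some ⟨s.1.map π.symm.toEmbedding, by rw [Finset.card_map]; exact s.2⟩)
    | .inr none => .inr none
  left_inv g := by
    match g with
    | .inl e => simp [Sym2.map_map]
    | .inr (some s) => simp [Finset.map_map]
    | .inr none => rfl
  right_inv g := by
    match g with
    | .inl e => simp [Sym2.map_map]
    | .inr (some s) => simp [Finset.map_map]
    | .inr none => rfl

theorem bf_isAut (π : Perm V) : (bfCircuit V k).IsAut π (bfPerm V k π) := by
  refine ⟨fun g => ?_, rfl⟩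
  match g with
  | .inl e => rfl
  | .inr (some s) =>
    change GateDesc.op _ _ = GateDesc.op _ _
    congr 1
    ext l x
    simp only [Finset.mem_map, Finset.mem_filter, Function.Embedding.coeFn_mk]
    constructor
    · rintro ⟨e, ⟨he, hd⟩, rfl⟩
      rw [Finset.sym2_map, Finset.mem_map] at he
      obtain ⟨e', he', rfl⟩ := he
      refine ⟨.inl e', ⟨e', ⟨he', ?_⟩, rfl⟩, rfl⟩
      intro hh
      apply hd
      change (Sym2.map _ e').IsDiag
      exact hh.map
    · rintro ⟨_, ⟨e', ⟨he', hd⟩, rfl⟩, rfl⟩
      refine ⟨e'.map π, ⟨?_, ?_⟩, rfl⟩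
      · rw [Finset.sym2_map, Finset.mem_map]
        exact ⟨e', he', rfl⟩
      · intro hh
        apply hd
        rwa [Sym2.isDiag_map π.injective] at hh
  | .inr none =>
    change GateDesc.op _ _ = GateDesc.op _ _
    congr 1
    ext l x
    simp only [Finset.mem_map, Finset.mem_univ, true_and]
    constructor
    · rintro ⟨s, rfl⟩
      refine ⟨.inr (some ⟨s.1.map π.symm.toEmbedding, by rw [Finset.card_map]; exact s.2⟩),
        ⟨_, rfl⟩, ?_⟩
      rw [andGate_apply]
      simp [bfPerm, Finset.map_map]
    · rintro ⟨_, ⟨s, rfl⟩, rfl⟩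
      exact ⟨_, rfl⟩

theorem bf_symmetric (M : Finset V) : (bfCircuit V k).SymmetricOn M :=
  fun π _ => ⟨bfPerm V k π, bf_isAut V k π⟩

theorem bf_numOps : (bfCircuit V k).numOps = (Fintype.card V).choose k + 1 := by
  unfold Circuit.numOps
  have e : {g : BFGate V k // ((bfCircuit V k).desc g).IsOp} ≃ Option {s : Finset V // s.card = k} :=
    { toFun := fun g => match g with
        | ⟨.inr x, _⟩ => x
        | ⟨.inl e, h⟩ => False.elim h
      invFun := fun x => ⟨.inr x, by cases x <;> trivial⟩
      left_inv := by
        rintro ⟨g, h⟩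
        match g, h with
        | .inr x, _ => rfl
        | .inl e, h => exact False.elim h
      right_inv := fun x => rfl }
  rw [Nat.card_congr e, Finite.card_option]
  congr 1
  rw [Nat.card_eq_fintype_card]
  exact Fintype.card_finset_len k

theorem bf_ops (g : BFGate V k) (F : (Unit → Multiset Bool) → Bool)
    (ch : Unit → Finset (BFGate V k)) (h : (bfCircuit V k).desc g = .op F ch) :
    F = andFn ∨ F = orFn := by
  match g, h with
  | .inr (some s), h =>
    left
    change GateDesc.op _ _ = _ at h
    cases h; rfl
  | .inr none, h =>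
    right
    change GateDesc.op _ _ = _ at h
    cases h; rfl

end

end Pool.Agent.H29
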